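import Pool.Agent.Helper61.ML.Gen2

set_option autoImplicit false

open Polynomial MeasureTheory intervalIntegral

namespace Pool.Agent.Helper61.ML

lemma monic_of_coeff {l : ℕ} {Q P : ℝ[X]}
    (hQ : Q.coeff l = (l : ℝ) + 1 ∧ ∀ m, l < m → Q.coeff m = 0) (hP : derivative P = Q) :
    P.Monic ∧ P.natDegree = l + 1 := by
  have hc : P.coeff (l + 1) = 1 := by
    have h := hQ.1
    rw [← hP, coeff_derivative] at h
    have : ((l : ℝ) + 1) ≠ 0 := by positivity
    exact mul_right_cancel₀ this (by rw [h, one_mul])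
  have hd : P.natDegree = l + 1 := by
    apply le_antisymm
    · apply natDegree_le_iff_coeff_eq_zero.2
      intro m hm
      obtain ⟨k, rfl⟩ : ∃ k, m = k + 1 := ⟨m - 1, by omega⟩
      have h := hQ.2 k (by omega)
      rw [← hP, coeff_derivative] at h
      rcases mul_eq_zero.1 h with h1 | h1
      · exact h1
      · exfalso
        have : (0 : ℝ) < (k : ℝ) + 1 := by positivity
        linarith
    · apply le_natDegree_of_ne_zero
      rw [hc]; exact one_ne_zero
  refine ⟨?_, hd⟩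
  rw [Monic, leadingCoeff, hd, hc]

lemma norm_expand (l : ℕ) (c : ℕ → ℝ) :
    ∫ y in (-1 : ℝ)..1, (∑ k ∈ Finset.range l, C (c k) * leg k).eval y ^ 2
      = ∑ k ∈ Finset.range l, c k ^ 2 * (2 / (2 * (k : ℝ) + 1)) := by
  have e : ∀ y : ℝ, (∑ k ∈ Finset.range l, C (c k) * leg k).eval y ^ 2
      = ∑ k ∈ Finset.range l, ∑ j ∈ Finset.range l,
        (c k * c j) * ((leg k).eval y * (leg j).eval y) := by
    intro y
    rw [sq, eval_finsetSum, Finset.sum_mul_sum]
    refine Finset.sum_congr rfl fun k _ => Finset.sum_congr rfl fun j _ => ?_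
    simp only [eval_mul, eval_C]; ring
  simp only [e]
  rw [intervalIntegral.integral_finsetSum]
  · refine Finset.sum_congr rfl fun k hk => ?_
    rw [intervalIntegral.integral_finsetSum]
    · rw [Finset.sum_eq_single_of_mem k hk]
      · rw [intervalIntegral.integral_const_mul]
        have e2 : ∀ y : ℝ, (leg k).eval y * (leg k).eval y = (leg k).eval y ^ 2 :=
          fun y => by ring
        simp only [e2]
        rw [leg_norm]; ring
      · intro j _ hj
        rw [intervalIntegral.integral_const_mul, leg_orth (Ne.symm hj), mul_zero]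
    · intro j _
      apply Continuous.intervalIntegrable; fun_prop
  · intro k _
    apply Continuous.intervalIntegrable; fun_prop

lemma bessel {l : ℕ} {R : ℝ[X]} (hR : ∀ m, l ≤ m → R.coeff m = 0) {F : ℝ → ℝ}
    (hF : Continuous F) :
    (∫ x in (-1 : ℝ)..1, R.eval x * F x) ^ 2 ≤ (∫ x in (-1 : ℝ)..1, R.eval x ^ 2) *
      ∑ k ∈ Finset.range l, (2 * (k : ℝ) + 1) / 2 *
        (∫ x in (-1 : ℝ)..1, (leg k).eval x * F x) ^ 2 := by
  obtain ⟨c, rfl⟩ := expand l R hR
  rw [norm_expand]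
  have h1 : ∫ x in (-1 : ℝ)..1, (∑ k ∈ Finset.range l, C (c k) * leg k).eval x * F x
      = ∑ k ∈ Finset.range l, c k * ∫ x in (-1 : ℝ)..1, (leg k).eval x * F x := by
    have e : ∀ x : ℝ, (∑ k ∈ Finset.range l, C (c k) * leg k).eval x * F x
        = ∑ k ∈ Finset.range l, c k * ((leg k).eval x * F x) := by
      intro x
      rw [eval_finsetSum, Finset.sum_mul]
      refine Finset.sum_congr rfl fun k _ => ?_
      simp only [eval_mul, eval_C]; ring
    simp only [e]
    rw [intervalIntegral.integral_finsetSum]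
    · refine Finset.sum_congr rfl fun k _ => ?_
      rw [intervalIntegral.integral_const_mul]
    · intro k _
      exact (continuous_const.mul ((leg k).continuous.mul hF)).intervalIntegrable _ _
  rw [h1]
  apply Finset.sum_sq_le_sum_mul_sum_of_sq_le_mul
  · intro k _; positivity
  · intro k _; positivity
  · intro k _
    apply le_of_eq
    field_simp

lemma g_approx {q s e0 b B : ℝ} (hs : 0 ≤ s) (he : |1 - s ^ 2 * (1 + q ^ 2)| ≤ e0)
    (he1 : e0 ≤ 1) (hq : |q| ≤ B) (hb0 : 0 ≤ b) (hb : B ^ 2 ≤ b ^ 2 * (1 + B ^ 2)) :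
    |gg q - q * s| ≤ b * (e0 / (2 - e0)) := by
  have hr := root_pos q
  have hr2 := root_sq q
  have hB : 0 ≤ B := (abs_nonneg q).trans hq
  have he0 : 0 ≤ e0 := (abs_nonneg _).trans he
  have hgb : |gg q| ≤ b := by
    unfold gg
    rw [abs_div, abs_of_pos hr, div_le_iff₀ hr]
    apply abs_le_of_sq_le_sq _ (by positivity)
    rw [mul_pow, hr2]
    have h1 : q ^ 2 ≤ B ^ 2 := by rw [← sq_abs]; exact pow_le_pow_left₀ (abs_nonneg _) hq 2
    rcases le_or_gt 1 (b ^ 2) with h | h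
    · nlinarith [sq_nonneg q]
    · nlinarith [sq_nonneg q]
  unfold gg at hgb ⊢
  generalize Real.sqrt (1 + q ^ 2) = r at *
  have h1 : q / r - q * s = (q / r) * ((1 - s ^ 2 * (1 + q ^ 2)) / (1 + s * r)) := by
    rw [← hr2]
    have h2 : 0 < 1 + s * r := by positivity
    field_simp
    ring
  rw [h1, abs_mul]
  apply mul_le_mul hgb _ (abs_nonneg _) hb0
  have h2 : 0 < 1 + s * r := by positivity
  rw [abs_div, abs_of_pos h2]
  apply div_le_div₀ he0 he (by linarith)
  have h3 : 1 - e0 ≤ (s * r) ^ 2 := by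
    rw [mul_pow, hr2]
    linarith [(abs_le.1 he).2]
  have h4 : 0 ≤ s * r := by positivity
  rcases le_or_gt 1 (s * r) with h | h
  · linarith
  · nlinarith

theorem cert {l : ℕ} {Q P Qt Pt : ℝ[X]} {s : ℝ → ℝ} {B δ κ ε η τ : ℝ}
    (hQ : Sol l Q) (hP : derivative P = Q) (hc : P.eval (-1) = - P.eval 1)
    (hQt : Qt.coeff l = (l : ℝ) + 1 ∧ ∀ m, l < m → Qt.coeff m = 0)
    (hPt : derivative Pt = Qt) (hPtc : Pt.eval (-1) = - Pt.eval 1)
    (hB : ∀ x ∈ Set.Icc (-1 : ℝ) 1, |Qt.eval x| ≤ B) (hδ : 0 < δ) (hκ : Kap κ (B + δ))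
    (hs : Continuous s) (hs1 : ∀ q, |q| ≤ B → |gg q - q * s q| ≤ ε) (hε : 0 ≤ ε) (hη0 : 0 ≤ η)
    (hη : ∑ k ∈ Finset.range l, (2 * (k : ℝ) + 1) / 2 *
        (∫ x in (-1 : ℝ)..1, (leg k).eval x * (Qt.eval x * s (Qt.eval x))) ^ 2 ≤ η ^ 2)
    (hsmall : (l : ℝ) ^ 2 / 2 * (η + 1415 / 1000 * ε) ^ 2 < (κ * δ) ^ 2)
    (hτ0 : 0 ≤ τ) (hτ : (η + 1415 / 1000 * ε) ^ 2 ≤ 2 * κ ^ 2 * τ ^ 2) :
    (∀ x ∈ Set.Icc (-1 : ℝ) 1, |P.eval x - Pt.eval x| ≤ τ) ∧
      ∀ x ∈ Set.Icc (-1 : ℝ) 1, |Q.eval x| ≤ B + δ := by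
  have hd := sub_low hQ hQt
  set R := Q - Qt with hR
  set D := ∫ x in (-1 : ℝ)..1, R.eval x ^ 2 with hD
  have hD0 : 0 ≤ D := by
    apply intervalIntegral.integral_nonneg (by norm_num)
    intro x _; positivity
  have cG : Continuous fun x : ℝ => Qt.eval x * s (Qt.eval x) :=
    Qt.continuous.mul (hs.comp Qt.continuous)
  have cg := ggQ_cont Qt
  have hst := stab (B := B) (δ := δ) (κ := κ) (ρ2 := (η + 1415 / 1000 * ε) ^ 2) hQ hd hB hδ hκ
    (sq_nonneg _) ?_ hsmall
  · refine ⟨?_, fun x hx => by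
      have h1 := hst.2 x hx
      rw [← hR] at h1
      have h2 : Q.eval x = Qt.eval x + R.eval x := by rw [hR, eval_sub]; ring
      rw [h2]
      exact (abs_add_le _ _).trans (add_le_add (hB x hx) h1)⟩
    intro x hx
    have h1 : derivative (P - Pt) = R := by rw [derivative_sub, hP, hPt]
    have h2 : (P - Pt).eval (-1) = - (P - Pt).eval 1 := by
      rw [eval_sub, eval_sub, hPtc, hc]; ring
    have h3 := centered_diff h1 h2 hx
    rw [eval_sub] at h3
    apply abs_le_of_sq_le_sq _ hτ0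
    refine h3.trans ?_
    have h4 := hst.1
    have hk := hκ.1
    have h5 : κ ^ 2 * D ≤ κ ^ 2 * (2 * τ ^ 2) := by nlinarith
    have h6 := le_of_mul_le_mul_left h5 (by positivity)
    linarith
  · -- split
    have c1 : Continuous fun x : ℝ => R.eval x * (Qt.eval x * s (Qt.eval x)) :=
      R.continuous.mul cG
    have c2 : Continuous fun x : ℝ => R.eval x * (gg (Qt.eval x) - Qt.eval x * s (Qt.eval x)) :=
      R.continuous.mul (cg.sub cG)
    have e1 : ∫ x in (-1 : ℝ)..1, R.eval x * gg (Qt.eval x)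
        = (∫ x in (-1 : ℝ)..1, R.eval x * (Qt.eval x * s (Qt.eval x)))
          + ∫ x in (-1 : ℝ)..1, R.eval x * (gg (Qt.eval x) - Qt.eval x * s (Qt.eval x)) := by
      rw [← intervalIntegral.integral_add (c1.intervalIntegrable _ _) (c2.intervalIntegrable _ _)]
      congr 1
      funext x; ring
    set A1 := ∫ x in (-1 : ℝ)..1, R.eval x * (Qt.eval x * s (Qt.eval x)) with hA1
    set A2 := ∫ x in (-1 : ℝ)..1, R.eval x * (gg (Qt.eval x) - Qt.eval x * s (Qt.eval x)) with hA2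
    set N := Real.sqrt D with hN
    have hN0 : 0 ≤ N := Real.sqrt_nonneg _
    have hN2 : N ^ 2 = D := Real.sq_sqrt hD0
    have hb1 : |A1| ≤ η * N := by
      apply abs_le_of_sq_le_sq _ (by positivity)
      refine (bessel hd cG).trans ?_
      rw [mul_pow, hN2, mul_comm]
      exact mul_le_mul_of_nonneg_right hη hD0
    have hb2 : |A2| ≤ 1415 / 1000 * ε * N := by
      apply abs_le_of_sq_le_sq _ (by positivity)
      refine (cs R.continuous (cg.sub cG)).trans ?_
      have h1 : ∫ x in (-1 : ℝ)..1, (gg (Qt.eval x) - Qt.eval x * s (Qt.eval x)) ^ 2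
          ≤ ∫ x in (-1 : ℝ)..1, ε ^ 2 := by
        apply intervalIntegral.integral_mono_on (by norm_num)
        · exact ((cg.sub cG).pow 2).intervalIntegrable _ _
        · apply Continuous.intervalIntegrable; fun_prop
        · intro x hx
          have h2 := hs1 _ (hB x hx)
          rw [← sq_abs]
          exact pow_le_pow_left₀ (abs_nonneg _) h2 2
      rw [intervalIntegral.integral_const] at h1
      norm_num at h1
      have h3 : D * (∫ x in (-1 : ℝ)..1, (gg (Qt.eval x) - Qt.eval x * s (Qt.eval x)) ^ 2)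
          ≤ D * (2 * ε ^ 2) := mul_le_mul_of_nonneg_left h1 hD0
      refine h3.trans ?_
      rw [mul_pow, hN2]
      nlinarith [mul_nonneg hD0 (sq_nonneg ε)]
    rw [e1]
    have h4 : |A1 + A2| ≤ (η + 1415 / 1000 * ε) * N := by
      refine (abs_add_le _ _).trans ?_
      linarith
    have h6 : (A1 + A2) ^ 2 ≤ (η + 1415 / 1000 * ε) ^ 2 * D := by
      rw [← sq_abs, ← hN2, ← mul_pow]
      exact pow_le_pow_left₀ (abs_nonneg _) h4 2
    exact h6

/-- integral of an even polynomial given by coefficients -/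
lemma int_even (L : List ℝ) (N : ℕ) :
    ∫ x in (-1 : ℝ)..1, ∑ i ∈ Finset.range N, L.getD i 0 * x ^ (2 * i)
      = ∑ i ∈ Finset.range N, L.getD i 0 * (2 / (2 * (i : ℝ) + 1)) := by
  rw [intervalIntegral.integral_finsetSum]
  · refine Finset.sum_congr rfl fun i _ => ?_
    rw [intervalIntegral.integral_const_mul, integral_pow]
    push_cast
    congr 1
    have : (-1 : ℝ) ^ (2 * i + 1) = -1 := by rw [pow_succ, pow_mul]; norm_num
    rw [this]; norm_num
  · intro i _
    apply Continuous.intervalIntegrable; fun_prop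

/-- odd functions have integral zero -/
lemma odd_int {f : ℝ → ℝ} (hf : ∀ x, f (-x) = -f x) : ∫ x in (-1 : ℝ)..1, f x = 0 := by
  have h1 : ∫ x in (-1 : ℝ)..1, f (-x) = ∫ x in (-1 : ℝ)..1, f x := by
    rw [intervalIntegral.integral_comp_neg]
    norm_num
  simp only [hf] at h1
  rw [intervalIntegral.integral_neg] at h1
  linarith

lemma leg_two (x : ℝ) : (leg 2).eval x = (3 * x ^ 2 - 1) / 2 := by
  have h := rec_eval 0 x
  simp [leg_zero, leg_one] at h
  linarith

lemma leg_three (x : ℝ) : (leg 3).eval x = (5 * x ^ 3 - 3 * x) / 2 := by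
  have h := rec_eval 1 x
  rw [leg_two] at h
  simp [leg_one] at h
  norm_num at h
  linarith

lemma leg_four (x : ℝ) : (leg 4).eval x = (35 * x ^ 4 - 30 * x ^ 2 + 3) / 8 := by
  have h := rec_eval 2 x
  rw [leg_three, leg_two] at h
  norm_num at h
  linarith

lemma leg_five (x : ℝ) : (leg 5).eval x = (63 * x ^ 5 - 70 * x ^ 3 + 15 * x) / 8 := by
  have h := rec_eval 3 x
  rw [leg_four, leg_three] at h
  norm_num at h
  linarith

lemma leg_six (x : ℝ) : (leg 6).eval x
    = (231 * x ^ 6 - 315 * x ^ 4 + 105 * x ^ 2 - 5) / 16 := by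
  have h := rec_eval 4 x
  rw [leg_five, leg_four] at h
  norm_num at h
  linarith

lemma leg_seven (x : ℝ) : (leg 7).eval x
    = (429 * x ^ 7 - 693 * x ^ 5 + 315 * x ^ 3 - 35 * x) / 16 := by
  have h := rec_eval 5 x
  rw [leg_six, leg_five] at h
  norm_num at h
  linarith

lemma leg_eight (x : ℝ) : (leg 8).eval x
    = (6435 * x ^ 8 - 12012 * x ^ 6 + 6930 * x ^ 4 - 1260 * x ^ 2 + 35) / 128 := by
  have h := rec_eval 6 x
  rw [leg_seven, leg_six] at h
  norm_num at h
  linarith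

lemma leg_nine (x : ℝ) : (leg 9).eval x
    = (12155 * x ^ 9 - 25740 * x ^ 7 + 18018 * x ^ 5 - 4620 * x ^ 3 + 315 * x) / 128 := by
  have h := rec_eval 7 x
  rw [leg_eight, leg_seven] at h
  norm_num at h
  linarith

lemma P0_eval (l : ℕ) (x : ℝ) : (P0 (l + 1)).eval x
    = -(al (l + 1) / lam (l + 1)) * (((l : ℝ) + 1) * ((leg l).eval x - x * (leg (l + 1)).eval x)) := by
  rw [← legA]
  unfold P0
  simp

lemma roots_windows {n : ℕ} {F : ℝ[X]} (hF : F.Monic) (hd : F.natDegree = n) {a b : ℕ → ℝ}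
    (hab : ∀ i < n, a i ≤ b i) (hba : ∀ i, i + 1 < n → b i < a (i + 1))
    (ha : ∀ i < n, 0 ≤ (-1) ^ (n - i) * F.eval (a i))
    (hb : ∀ i < n, 0 ≤ (-1) ^ (n - 1 - i) * F.eval (b i)) :
    ∃ w : ℕ → ℝ, (∀ i, i + 1 < n → w i < w (i + 1)) ∧ (∀ i < n, a i ≤ w i ∧ w i ≤ b i) ∧
      F = ∏ i ∈ Finset.range n, (X - C (w i)) := by
  have key : ∀ i < n, ∃ w, a i ≤ w ∧ w ≤ b i ∧ F.eval w = 0 := by
    intro i hi
    have h1 := ha i hi
    have h2 := hb i hi
    have e : n - i = (n - 1 - i) + 1 := by omega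
    rw [e, pow_succ] at h1
    have hle := hab i hi
    rcases neg_one_pow_eq_or ℝ (n - 1 - i) with h | h
    · rw [h] at h1 h2
      obtain ⟨w, hw, hw0⟩ := intermediate_value_Icc hle F.continuous.continuousOn
        (⟨by linarith, by linarith⟩ : (0 : ℝ) ∈ Set.Icc (F.eval (a i)) (F.eval (b i)))
      exact ⟨w, hw.1, hw.2, hw0⟩
    · rw [h] at h1 h2
      obtain ⟨w, hw, hw0⟩ := intermediate_value_Icc' hle F.continuous.continuousOn
        (⟨by linarith, by linarith⟩ : (0 : ℝ) ∈ Set.Icc (F.eval (b i)) (F.eval (a i)))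
      exact ⟨w, hw.1, hw.2, hw0⟩
  choose! w hw using key
  have hstep : ∀ i < n - 1, w i < w (i + 1) := by
    intro i hi
    have h2 := (hw i (by omega)).2.1
    have h3 := (hw (i + 1) (by omega)).1
    have h4 := hba i (by omega)
    linarith
  have hws := lt_of_step hstep
  have hc : F.coeff n = 1 := by rw [← hd]; exact hF
  have hpf := prod_form hc (fun m hm => coeff_eq_zero_of_natDegree_lt (by rw [hd]; exact hm))
    (z := w) (fun i hi => (hw i hi).2.2) (fun j hj i hi => hws j (by omega) i hi)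
  refine ⟨w, fun i hi => hstep i (by omega), fun i hi => ⟨(hw i hi).1, (hw i hi).2.1⟩, ?_⟩
  conv_lhs => rw [hpf]
  rw [C_1, one_mul]

/-- the zeros of `P` are simple, in `[-1,1]`, and close to those of the Legendre primitive -/
def Close (l : ℕ) (P : ℝ[X]) : Prop :=
  ∃ x w : ℕ → ℝ, (∀ i < l, x i < x (i + 1)) ∧ (∀ i < l, w i < w (i + 1)) ∧
    (∀ i ≤ l, x i ∈ Set.Icc (-1 : ℝ) 1) ∧
    P = ∏ i ∈ Finset.range (l + 1), (X - C (x i)) ∧
    P0 l = ∏ i ∈ Finset.range (l + 1), (X - C (w i)) ∧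
    ∀ i ≤ l, |x i - w i| ≤ al l ^ 2

lemma close_of_windows {l : ℕ} {P : ℝ[X]} (hm : P.Monic) (hd : P.natDegree = l + 1)
    (hm0 : (P0 l).Monic) (hd0 : (P0 l).natDegree = l + 1) {a b : ℕ → ℝ}
    (hab : ∀ i < l + 1, a i ≤ b i) (hba : ∀ i, i + 1 < l + 1 → b i < a (i + 1))
    (h0 : ∀ i < l + 1, -1 ≤ a i ∧ b i ≤ 1 ∧ b i - a i ≤ al l ^ 2)
    (ha : ∀ i < l + 1, 0 ≤ (-1) ^ (l + 1 - i) * P.eval (a i))
    (hb : ∀ i < l + 1, 0 ≤ (-1) ^ (l + 1 - 1 - i) * P.eval (b i))
    (ha' : ∀ i < l + 1, 0 ≤ (-1) ^ (l + 1 - i) * (P0 l).eval (a i))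
    (hb' : ∀ i < l + 1, 0 ≤ (-1) ^ (l + 1 - 1 - i) * (P0 l).eval (b i)) : Close l P := by
  obtain ⟨x, hx1, hx2, hx3⟩ := roots_windows hm hd hab hba ha hb
  obtain ⟨w, hw1, hw2, hw3⟩ := roots_windows hm0 hd0 hab hba ha' hb'
  refine ⟨x, w, fun i hi => hx1 i (by omega), fun i hi => hw1 i (by omega), ?_, hx3, hw3, ?_⟩
  · intro i hi
    have h1 := hx2 i (by omega)
    have h2 := h0 i (by omega)
    exact ⟨by linarith, by linarith⟩
  · intro i hi
    have h1 := hx2 i (by omega)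
    have h3 := hw2 i (by omega)
    have h2 := h0 i (by omega)
    rw [abs_le]
    constructor <;> linarith

lemma end_zero {l : ℕ} {Q P : ℝ[X]} (hQ : Sol l Q) (hP : derivative P = Q)
    (hc : P.eval (-1) = - P.eval 1) (hl : Odd l) : P.eval 1 = 0 := by
  have h2 := ftc P (-1) 1
  rw [hP] at h2
  have h3 : ∫ x in (-1 : ℝ)..1, Q.eval (-x) = ∫ x in (-1 : ℝ)..1, Q.eval x := by
    rw [intervalIntegral.integral_comp_neg (fun x => Q.eval x)]
    norm_num
  simp only [sol_parity hQ, hl.neg_one_pow] at h3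
  rw [intervalIntegral.integral_const_mul] at h3
  linarith

end Pool.Agent.Helper61.ML
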