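import Pool.Agent.Helper61.ML.Cert

set_option autoImplicit false

open Polynomial MeasureTheory intervalIntegral

namespace Pool.Agent.Helper61.ML.N10

noncomputable def Qt : ℝ[X] := C 10 * X ^ 9 + C (-211752079 / 10000000) * X ^ 7 + C (5928689 / 400000) * X ^ 5 + C (-38001931 / 10000000) * X ^ 3 + C (2590861 / 10000000) * X

noncomputable def Pt : ℝ[X] := C 1 * X ^ 10 + C (-211752079 / 80000000) * X ^ 8 + C (5928689 / 2400000) * X ^ 6 + C (-38001931 / 40000000) * X ^ 4 + C (2590861 / 20000000) * X ^ 2 + C (-691409 / 240000000)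

noncomputable def s (q : ℝ) : ℝ := (49999713 / 50000000) + (-9917233 / 20000000) * q ^ 2

lemma Qt_eval (x : ℝ) : Qt.eval x = 10 * x ^ 9 + (-211752079 / 10000000) * x ^ 7 + (5928689 / 400000) * x ^ 5 + (-38001931 / 10000000) * x ^ 3 + (2590861 / 10000000) * x := by
  simp only [Qt, eval_add, eval_mul, eval_C, eval_pow, eval_X]

lemma Pt_eval (x : ℝ) : Pt.eval x = 1 * x ^ 10 + (-211752079 / 80000000) * x ^ 8 + (5928689 / 2400000) * x ^ 6 + (-38001931 / 40000000) * x ^ 4 + (2590861 / 20000000) * x ^ 2 + (-691409 / 240000000) := by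
  simp only [Pt, eval_add, eval_mul, eval_C, eval_pow, eval_X]

lemma Pt_deriv : derivative Pt = Qt := by
  apply Polynomial.funext
  intro x
  rw [Qt_eval]
  simp only [Pt, derivative_add, derivative_C_mul, derivative_X_pow, derivative_X, derivative_C, eval_add, eval_mul,
    eval_C, eval_pow, eval_X, eval_one, eval_zero, Nat.cast_ofNat]
  norm_num
  try ring

lemma Pt_cen : Pt.eval (-1) = - Pt.eval 1 := by
  rw [Pt_eval, Pt_eval]; norm_num

lemma Qt_coeff : Qt.coeff 9 = ((9 : ℕ) : ℝ) + 1 ∧ ∀ m, 9 < m → Qt.coeff m = 0 := by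
  refine ⟨?_, ?_⟩
  · simp only [Qt, coeff_add, coeff_C_mul, coeff_X_pow, coeff_X, coeff_C]
    norm_num
  · intro m hm
    have h : Qt.natDegree ≤ 9 := by
      unfold Qt; compute_degree
    exact coeff_eq_zero_of_natDegree_lt (lt_of_le_of_lt h hm)

lemma Qup (u : ℝ) (h0 : (-1) ≤ u) (h1 : u ≤ 1) :
    0 ≤ (211 / 2000) - (10 * u ^ 9 + (-211752079 / 10000000) * u ^ 7 + (5928689 / 400000) * u ^ 5 + (-38001931 / 10000000) * u ^ 3 + (2590861 / 10000000) * u) := by
  rcases le_total u (-1 / 2) with g1 | g1
  · rcases le_total u (-3 / 4) with g2 | g2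
    · have hp : 0 ≤ u - (-1) := sub_nonneg.2 h0
      have hq : 0 ≤ (-3 / 4) - u := sub_nonneg.2 g2
      have e : (211 / 2000) - (10 * u ^ 9 + (-211752079 / 10000000) * u ^ 7 + (5928689 / 400000) * u ^ 5 + (-38001931 / 10000000) * u ^ 3 + (2590861 / 10000000) * u)
          = (4319387648 / 78125) * ((-3 / 4) - u) ^ 9
            + (14602289152 / 78125) * (u - (-1)) ^ 1 * ((-3 / 4) - u) ^ 8
            + (28056076032 / 78125) * (u - (-1)) ^ 2 * ((-3 / 4) - u) ^ 7
            + (72505876672 / 78125) * (u - (-1)) ^ 3 * ((-3 / 4) - u) ^ 6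
            + (166781119104 / 78125) * (u - (-1)) ^ 4 * ((-3 / 4) - u) ^ 5
            + (233759862436 / 78125) * (u - (-1)) ^ 5 * ((-3 / 4) - u) ^ 4
            + (77496651531 / 31250) * (u - (-1)) ^ 6 * ((-3 / 4) - u) ^ 3
            + (754213420643 / 625000) * (u - (-1)) ^ 7 * ((-3 / 4) - u) ^ 2
            + (100308000377 / 312500) * (u - (-1)) ^ 8 * ((-3 / 4) - u) ^ 1
            + (22637796923 / 625000) * (u - (-1)) ^ 9 := by ring
      rw [e]
      positivity
    · have hp : 0 ≤ u - (-3 / 4) := sub_nonneg.2 g2
      have hq : 0 ≤ (-1 / 2) - u := sub_nonneg.2 g1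
      have e : (211 / 2000) - (10 * u ^ 9 + (-211752079 / 10000000) * u ^ 7 + (5928689 / 400000) * u ^ 5 + (-38001931 / 10000000) * u ^ 3 + (2590861 / 10000000) * u)
          = (22637796923 / 625000) * ((-1 / 2) - u) ^ 9
            + (10343217193 / 31250) * (u - (-3 / 4)) ^ 1 * ((-1 / 2) - u) ^ 8
            + (804200165491 / 625000) * (u - (-3 / 4)) ^ 2 * ((-1 / 2) - u) ^ 7
            + (175266230619 / 62500) * (u - (-3 / 4)) ^ 3 * ((-1 / 2) - u) ^ 6
            + (596660031259 / 156250) * (u - (-3 / 4)) ^ 4 * ((-1 / 2) - u) ^ 5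
            + (266999041743 / 78125) * (u - (-3 / 4)) ^ 5 * ((-1 / 2) - u) ^ 4
            + (1276364938 / 625) * (u - (-3 / 4)) ^ 6 * ((-1 / 2) - u) ^ 3
            + (62344594548 / 78125) * (u - (-3 / 4)) ^ 7 * ((-1 / 2) - u) ^ 2
            + (2927585416 / 15625) * (u - (-3 / 4)) ^ 8 * ((-1 / 2) - u) ^ 1
            + (1583056464 / 78125) * (u - (-3 / 4)) ^ 9 := by ring
      rw [e]
      positivity
  · rcases le_total u 0 with g3 | g3
    · have hp : 0 ≤ u - (-1 / 2) := sub_nonneg.2 g1
      have hq : 0 ≤ 0 - u := sub_nonneg.2 g3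
      have e : (211 / 2000) - (10 * u ^ 9 + (-211752079 / 10000000) * u ^ 7 + (5928689 / 400000) * u ^ 5 + (-38001931 / 10000000) * u ^ 3 + (2590861 / 10000000) * u)
          = (98941029 / 2500000) * (0 - u) ^ 9
            + (420833449 / 1250000) * (u - (-1 / 2)) ^ 1 * (0 - u) ^ 8
            + (3729260793 / 2500000) * (u - (-1 / 2)) ^ 2 * (0 - u) ^ 7
            + (677491469 / 156250) * (u - (-1 / 2)) ^ 3 * (0 - u) ^ 6
            + (1004725137 / 125000) * (u - (-1 / 2)) ^ 4 * (0 - u) ^ 5
            + (707890639 / 78125) * (u - (-1 / 2)) ^ 5 * (0 - u) ^ 4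
            + (961134501 / 156250) * (u - (-1 / 2)) ^ 6 * (0 - u) ^ 3
            + (193373776 / 78125) * (u - (-1 / 2)) ^ 7 * (0 - u) ^ 2
            + (43161722 / 78125) * (u - (-1 / 2)) ^ 8 * (0 - u) ^ 1
            + (6752 / 125) * (u - (-1 / 2)) ^ 9 := by ring
      rw [e]
      positivity
    · rcases le_total u (1 / 2) with g7 | g7
      · have hp : 0 ≤ u - 0 := sub_nonneg.2 g3
        have hq : 0 ≤ (1 / 2) - u := sub_nonneg.2 g7
        have e : (211 / 2000) - (10 * u ^ 9 + (-211752079 / 10000000) * u ^ 7 + (5928689 / 400000) * u ^ 5 + (-38001931 / 10000000) * u ^ 3 + (2590861 / 10000000) * u)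
            = (6752 / 125) * ((1 / 2) - u) ^ 9
              + (32798278 / 78125) * (u - 0) ^ 1 * ((1 / 2) - u) ^ 8
              + (110466224 / 78125) * (u - 0) ^ 2 * ((1 / 2) - u) ^ 7
              + (456785499 / 156250) * (u - 0) ^ 3 * ((1 / 2) - u) ^ 6
              + (355549361 / 78125) * (u - 0) ^ 4 * ((1 / 2) - u) ^ 5
              + (696778863 / 125000) * (u - 0) ^ 5 * ((1 / 2) - u) ^ 4
              + (740428531 / 156250) * (u - 0) ^ 6 * ((1 / 2) - u) ^ 3
              + (5993619207 / 2500000) * (u - 0) ^ 7 * ((1 / 2) - u) ^ 2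
              + (794526551 / 1250000) * (u - 0) ^ 8 * ((1 / 2) - u) ^ 1
              + (171138971 / 2500000) * (u - 0) ^ 9 := by ring
        rw [e]
        positivity
      · have hp : 0 ≤ u - (1 / 2) := sub_nonneg.2 g7
        have hq : 0 ≤ 1 - u := sub_nonneg.2 h1
        have e : (211 / 2000) - (10 * u ^ 9 + (-211752079 / 10000000) * u ^ 7 + (5928689 / 400000) * u ^ 5 + (-38001931 / 10000000) * u ^ 3 + (2590861 / 10000000) * u)
            = (171138971 / 2500000) * (1 - u) ^ 9
              + (186431047 / 312500) * (u - (1 / 2)) ^ 1 * (1 - u) ^ 8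
              + (5212781399 / 2500000) * (u - (1 / 2)) ^ 2 * (1 - u) ^ 7
              + (909525349 / 250000) * (u - (1 / 2)) ^ 3 * (1 - u) ^ 6
              + (1044711067 / 312500) * (u - (1 / 2)) ^ 4 * (1 - u) ^ 5
              + (35456488 / 15625) * (u - (1 / 2)) ^ 5 * (1 - u) ^ 4
              + (44379299 / 15625) * (u - (1 / 2)) ^ 6 * (1 - u) ^ 3
              + (237266498 / 78125) * (u - (1 / 2)) ^ 7 * (1 - u) ^ 2
              + (94846544 / 78125) * (u - (1 / 2)) ^ 8 * (1 - u) ^ 1
              + (3696 / 78125) * (u - (1 / 2)) ^ 9 := by ring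
        rw [e]
        positivity

lemma Qlo (u : ℝ) (h0 : (-1) ≤ u) (h1 : u ≤ 1) :
    0 ≤ (211 / 2000) + (10 * u ^ 9 + (-211752079 / 10000000) * u ^ 7 + (5928689 / 400000) * u ^ 5 + (-38001931 / 10000000) * u ^ 3 + (2590861 / 10000000) * u) := by
  rcases le_total u 0 with g1 | g1
  · rcases le_total u (-1 / 2) with g2 | g2
    · have hp : 0 ≤ u - (-1) := sub_nonneg.2 h0
      have hq : 0 ≤ (-1 / 2) - u := sub_nonneg.2 g2
      have e : (211 / 2000) + (10 * u ^ 9 + (-211752079 / 10000000) * u ^ 7 + (5928689 / 400000) * u ^ 5 + (-38001931 / 10000000) * u ^ 3 + (2590861 / 10000000) * u)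
          = (3696 / 78125) * ((-1 / 2) - u) ^ 9
            + (94846544 / 78125) * (u - (-1)) ^ 1 * ((-1 / 2) - u) ^ 8
            + (237266498 / 78125) * (u - (-1)) ^ 2 * ((-1 / 2) - u) ^ 7
            + (44379299 / 15625) * (u - (-1)) ^ 3 * ((-1 / 2) - u) ^ 6
            + (35456488 / 15625) * (u - (-1)) ^ 4 * ((-1 / 2) - u) ^ 5
            + (1044711067 / 312500) * (u - (-1)) ^ 5 * ((-1 / 2) - u) ^ 4
            + (909525349 / 250000) * (u - (-1)) ^ 6 * ((-1 / 2) - u) ^ 3
            + (5212781399 / 2500000) * (u - (-1)) ^ 7 * ((-1 / 2) - u) ^ 2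
            + (186431047 / 312500) * (u - (-1)) ^ 8 * ((-1 / 2) - u) ^ 1
            + (171138971 / 2500000) * (u - (-1)) ^ 9 := by ring
      rw [e]
      positivity
    · have hp : 0 ≤ u - (-1 / 2) := sub_nonneg.2 g2
      have hq : 0 ≤ 0 - u := sub_nonneg.2 g1
      have e : (211 / 2000) + (10 * u ^ 9 + (-211752079 / 10000000) * u ^ 7 + (5928689 / 400000) * u ^ 5 + (-38001931 / 10000000) * u ^ 3 + (2590861 / 10000000) * u)
          = (171138971 / 2500000) * (0 - u) ^ 9
            + (794526551 / 1250000) * (u - (-1 / 2)) ^ 1 * (0 - u) ^ 8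
            + (5993619207 / 2500000) * (u - (-1 / 2)) ^ 2 * (0 - u) ^ 7
            + (740428531 / 156250) * (u - (-1 / 2)) ^ 3 * (0 - u) ^ 6
            + (696778863 / 125000) * (u - (-1 / 2)) ^ 4 * (0 - u) ^ 5
            + (355549361 / 78125) * (u - (-1 / 2)) ^ 5 * (0 - u) ^ 4
            + (456785499 / 156250) * (u - (-1 / 2)) ^ 6 * (0 - u) ^ 3
            + (110466224 / 78125) * (u - (-1 / 2)) ^ 7 * (0 - u) ^ 2
            + (32798278 / 78125) * (u - (-1 / 2)) ^ 8 * (0 - u) ^ 1
            + (6752 / 125) * (u - (-1 / 2)) ^ 9 := by ring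
      rw [e]
      positivity
  · rcases le_total u (1 / 2) with g3 | g3
    · have hp : 0 ≤ u - 0 := sub_nonneg.2 g1
      have hq : 0 ≤ (1 / 2) - u := sub_nonneg.2 g3
      have e : (211 / 2000) + (10 * u ^ 9 + (-211752079 / 10000000) * u ^ 7 + (5928689 / 400000) * u ^ 5 + (-38001931 / 10000000) * u ^ 3 + (2590861 / 10000000) * u)
          = (6752 / 125) * ((1 / 2) - u) ^ 9
            + (43161722 / 78125) * (u - 0) ^ 1 * ((1 / 2) - u) ^ 8
            + (193373776 / 78125) * (u - 0) ^ 2 * ((1 / 2) - u) ^ 7
            + (961134501 / 156250) * (u - 0) ^ 3 * ((1 / 2) - u) ^ 6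
            + (707890639 / 78125) * (u - 0) ^ 4 * ((1 / 2) - u) ^ 5
            + (1004725137 / 125000) * (u - 0) ^ 5 * ((1 / 2) - u) ^ 4
            + (677491469 / 156250) * (u - 0) ^ 6 * ((1 / 2) - u) ^ 3
            + (3729260793 / 2500000) * (u - 0) ^ 7 * ((1 / 2) - u) ^ 2
            + (420833449 / 1250000) * (u - 0) ^ 8 * ((1 / 2) - u) ^ 1
            + (98941029 / 2500000) * (u - 0) ^ 9 := by ring
      rw [e]
      positivity
    · rcases le_total u (3 / 4) with g7 | g7
      · have hp : 0 ≤ u - (1 / 2) := sub_nonneg.2 g3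
        have hq : 0 ≤ (3 / 4) - u := sub_nonneg.2 g7
        have e : (211 / 2000) + (10 * u ^ 9 + (-211752079 / 10000000) * u ^ 7 + (5928689 / 400000) * u ^ 5 + (-38001931 / 10000000) * u ^ 3 + (2590861 / 10000000) * u)
            = (1583056464 / 78125) * ((3 / 4) - u) ^ 9
              + (2927585416 / 15625) * (u - (1 / 2)) ^ 1 * ((3 / 4) - u) ^ 8
              + (62344594548 / 78125) * (u - (1 / 2)) ^ 2 * ((3 / 4) - u) ^ 7
              + (1276364938 / 625) * (u - (1 / 2)) ^ 3 * ((3 / 4) - u) ^ 6
              + (266999041743 / 78125) * (u - (1 / 2)) ^ 4 * ((3 / 4) - u) ^ 5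
              + (596660031259 / 156250) * (u - (1 / 2)) ^ 5 * ((3 / 4) - u) ^ 4
              + (175266230619 / 62500) * (u - (1 / 2)) ^ 6 * ((3 / 4) - u) ^ 3
              + (804200165491 / 625000) * (u - (1 / 2)) ^ 7 * ((3 / 4) - u) ^ 2
              + (10343217193 / 31250) * (u - (1 / 2)) ^ 8 * ((3 / 4) - u) ^ 1
              + (22637796923 / 625000) * (u - (1 / 2)) ^ 9 := by ring
        rw [e]
        positivity
      · have hp : 0 ≤ u - (3 / 4) := sub_nonneg.2 g7
        have hq : 0 ≤ 1 - u := sub_nonneg.2 h1
        have e : (211 / 2000) + (10 * u ^ 9 + (-211752079 / 10000000) * u ^ 7 + (5928689 / 400000) * u ^ 5 + (-38001931 / 10000000) * u ^ 3 + (2590861 / 10000000) * u)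
            = (22637796923 / 625000) * (1 - u) ^ 9
              + (100308000377 / 312500) * (u - (3 / 4)) ^ 1 * (1 - u) ^ 8
              + (754213420643 / 625000) * (u - (3 / 4)) ^ 2 * (1 - u) ^ 7
              + (77496651531 / 31250) * (u - (3 / 4)) ^ 3 * (1 - u) ^ 6
              + (233759862436 / 78125) * (u - (3 / 4)) ^ 4 * (1 - u) ^ 5
              + (166781119104 / 78125) * (u - (3 / 4)) ^ 5 * (1 - u) ^ 4
              + (72505876672 / 78125) * (u - (3 / 4)) ^ 6 * (1 - u) ^ 3
              + (28056076032 / 78125) * (u - (3 / 4)) ^ 7 * (1 - u) ^ 2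
              + (14602289152 / 78125) * (u - (3 / 4)) ^ 8 * (1 - u) ^ 1
              + (4319387648 / 78125) * (u - (3 / 4)) ^ 9 := by ring
        rw [e]
        positivity

lemma Qt_bd : ∀ x ∈ Set.Icc (-1 : ℝ) 1, |Qt.eval x| ≤ (211 / 2000) := by
  intro x hx
  have h1 := Qup x hx.1 hx.2
  have h2 := Qlo x hx.1 hx.2
  rw [Qt_eval, abs_le]
  constructor <;> linarith

lemma Eup (u : ℝ) (h0 : 0 ≤ u) (h1 : u ≤ (44521 / 4000000)) :
    0 ≤ (1 / 50000) - (1 - ((-9917233 / 20000000) * u + (49999713 / 50000000)) ^ 2 * (1 + u)) := by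
  have hp : 0 ≤ u - 0 := sub_nonneg.2 h0
  have hq : 0 ≤ (44521 / 4000000) - u := sub_nonneg.2 h1
  have e : (1 / 50000) - (1 - ((-9917233 / 20000000) * u + (49999713 / 50000000)) ^ 2 * (1 + u))
      = (545282108646400 / 88245939632761) * ((44521 / 4000000) - u) ^ 3
        + (4704696918829056816 / 55153712270475625) * (u - 0) ^ 1 * ((44521 / 4000000) - u) ^ 2
        + (3752908611351417667584689 / 44122969816380500000000) * (u - 0) ^ 2 * ((44521 / 4000000) - u) ^ 1
        + (218112825936554638025333203929 / 35298375853104400000000000000) * (u - 0) ^ 3 := by ring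
  rw [e]
  positivity

lemma Elo (u : ℝ) (h0 : 0 ≤ u) (h1 : u ≤ (44521 / 4000000)) :
    0 ≤ (1 / 50000) + (1 - ((-9917233 / 20000000) * u + (49999713 / 50000000)) ^ 2 * (1 + u)) := by
  have hp : 0 ≤ u - 0 := sub_nonneg.2 h0
  have hq : 0 ≤ (44521 / 4000000) - u := sub_nonneg.2 h1
  have e : (1 / 50000) + (1 - ((-9917233 / 20000000) * u + (49999713 / 50000000)) ^ 2 * (1 + u))
      = (2014717891353600 / 88245939632761) * ((44521 / 4000000) - u) ^ 3
        + (95303081170943184 / 55153712270475625) * (u - 0) ^ 1 * ((44521 / 4000000) - u) ^ 2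
        + (87091388648582332415311 / 44122969816380500000000) * (u - 0) ^ 2 * ((44521 / 4000000) - u) ^ 1
        + (805887174063445361974666796071 / 35298375853104400000000000000) * (u - 0) ^ 3 := by ring
  rw [e]
  positivity

lemma Spos (u : ℝ) (h0 : 0 ≤ u) (h1 : u ≤ (44521 / 4000000)) :
    0 ≤ (-9917233 / 20000000) * u + (49999713 / 50000000) := by
  have hp : 0 ≤ u - 0 := sub_nonneg.2 h0
  have hq : 0 ≤ (44521 / 4000000) - u := sub_nonneg.2 h1
  have e : (-9917233 / 20000000) * u + (49999713 / 50000000)
      = (99999426 / 1113025) * ((44521 / 4000000) - u) ^ 1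
        + (79558015669607 / 890420000000) * (u - 0) ^ 1 := by ring
  rw [e]
  positivity

lemma s_approx : ∀ q, |q| ≤ (211 / 2000) → |gg q - q * s q| ≤ (2623 / 2499975000) := by
  intro q hq
  have hu0 : 0 ≤ q ^ 2 := sq_nonneg q
  have hu : q ^ 2 ≤ (44521 / 4000000) := by
    have := pow_le_pow_left₀ (abs_nonneg q) hq 2
    rw [sq_abs] at this
    norm_num at this ⊢
    linarith
  have es : s q = (-9917233 / 20000000) * (q ^ 2) + (49999713 / 50000000) := by unfold s; ring
  have h := g_approx (q := q) (s := s q) (e0 := (1 / 50000)) (b := (2623 / 25000)) (B := (211 / 2000))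
    (by rw [es]; exact Spos _ hu0 hu) (by
      have h1 := Eup _ hu0 hu
      have h2 := Elo _ hu0 hu
      rw [es, abs_le]
      constructor <;> linarith) (by norm_num) hq (by norm_num) (by norm_num)
  refine h.trans (le_of_eq ?_)
  norm_num

lemma mom0 : ∫ x in (-1 : ℝ)..1, (leg 0).eval x * (Qt.eval x * s (Qt.eval x)) = 0 := by
  apply odd_int
  intro x
  have e : Qt.eval (-x) = -Qt.eval x := by rw [Qt_eval, Qt_eval]; ring
  rw [e, leg_parity]
  unfold s
  ring

lemma mom1 : ∫ x in (-1 : ℝ)..1, (leg 1).eval x * (Qt.eval x * s (Qt.eval x)) = (-1209850488440643042176381021 / 58320551953125000000000000000000000) := by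
  have e : ∀ x : ℝ, (leg 1).eval x * (Qt.eval x * s (Qt.eval x))
      = ∑ i ∈ Finset.range 15, ([0, (129542306422893 / 500000000000000), (-76175899428959800710247616773 / 20000000000000000000000000000), (304022117378231939459346825849 / 20000000000000000000000000000), (-282210334232496152345098375377 / 10000000000000000000000000000), (827445041509364087846694760697 / 10000000000000000000000000000), (-291318284723541409293310033371 / 625000000000000000000000000), (4920046317685065453732894614907 / 2500000000000000000000000000), (-56649541214958492459548043074887 / 10000000000000000000000000000), (112938066768967827349684578935727 / 10000000000000000000000000000), (-12469585001619963431338707061251 / 800000000000000000000000000), (292220995625323838821840616809087 / 20000000000000000000000000000), (-1775006160930079606737459 / 200000000000000000000), (6299984117032221 / 2000000000000), (-9917233 / 20000)] : List ℝ).getD i 0 * x ^ (2 * i) := by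
    intro x
    rw [leg_one, eval_X, Qt_eval]
    unfold s
    simp only [Finset.sum_range_succ, Finset.sum_range_zero, List.getD_cons_zero, List.getD_cons_succ]
    ring
  simp only [e]
  rw [int_even]
  simp only [Finset.sum_range_succ, Finset.sum_range_zero, List.getD_cons_zero, List.getD_cons_succ]
  norm_num

lemma mom2 : ∫ x in (-1 : ℝ)..1, (leg 2).eval x * (Qt.eval x * s (Qt.eval x)) = 0 := by
  apply odd_int
  intro x
  have e : Qt.eval (-x) = -Qt.eval x := by rw [Qt_eval, Qt_eval]; ring
  rw [e, leg_parity]
  unfold s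
  ring

lemma mom3 : ∫ x in (-1 : ℝ)..1, (leg 3).eval x * (Qt.eval x * s (Qt.eval x)) = (35733009277571199516920111 / 5145743281250000000000000000000000) := by
  have e : ∀ x : ℝ, (leg 3).eval x * (Qt.eval x * s (Qt.eval x))
      = ∑ i ∈ Finset.range 16, ([0, (-388626919268679 / 1000000000000000), (254436159571458002130742850319 / 40000000000000000000000000000), (-323236462319873705482319640353 / 10000000000000000000000000000), (3213372592286136611367324381507 / 40000000000000000000000000000), (-15208542170666300879943656871 / 78125000000000000000000000), (18120502874276808085312355405293 / 20000000000000000000000000000), (-20586504647526024547064884512141 / 5000000000000000000000000000), (268349549998576786453302021522801 / 20000000000000000000000000000), (-38878869148855996521674622011351 / 1250000000000000000000000000), (412919908562235106169449763790219 / 8000000000000000000000000000), (-608840278019616736345715058270909 / 10000000000000000000000000000), (398721365281128615226088156809087 / 8000000000000000000000000000), (-2153005207952012866737459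 / 80000000000000000000), (6895018097032221 / 800000000000), (-9917233 / 8000)] : List ℝ).getD i 0 * x ^ (2 * i) := by
    intro x
    rw [leg_three, Qt_eval]
    unfold s
    simp only [Finset.sum_range_succ, Finset.sum_range_zero, List.getD_cons_zero, List.getD_cons_succ]
    ring
  simp only [e]
  rw [int_even]
  simp only [Finset.sum_range_succ, Finset.sum_range_zero, List.getD_cons_zero, List.getD_cons_succ]
  norm_num

lemma mom4 : ∫ x in (-1 : ℝ)..1, (leg 4).eval x * (Qt.eval x * s (Qt.eval x)) = 0 := by
  apply odd_int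
  intro x
  have e : Qt.eval (-x) = -Qt.eval x := by rw [Qt_eval, Qt_eval]; ring
  rw [e, leg_parity]
  unfold s
  ring

lemma mom5 : ∫ x in (-1 : ℝ)..1, (leg 5).eval x * (Qt.eval x * s (Qt.eval x)) = (34738310952778826654131106641 / 3917197072851562500000000000000000000) := by
  have e : ∀ x : ℝ, (leg 5).eval x * (Qt.eval x * s (Qt.eval x))
      = ∑ i ∈ Finset.range 17, ([0, (388626919268679 / 800000000000000), (-301071389883699482130742850319 / 32000000000000000000000000000), (2043818266577271100321507112369 / 32000000000000000000000000000), (-34546939907475587777252828927439 / 160000000000000000000000000000), (83486191432658996149653465402177 / 160000000000000000000000000000), (-145616792295952681977404238906581 / 80000000000000000000000000000), (673608295566560243166822684193851 / 80000000000000000000000000000), (-2521004918177525454506087651935233 / 80000000000000000000000000000), (6899390558638248376754321142234559 / 80000000000000000000000000000), (-27625265916347752165610909626406667 / 160000000000000000000000000000), (40435285100104739833230603555227157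 / 160000000000000000000000000000), (-8551515062543846106398699059621283 / 32000000000000000000000000000), (31779963468460792242938171858972481 / 160000000000000000000000000000), (-157412861907820562224459917 / 1600000000000000000000), (466319630373029923 / 16000000000000), (-624785679 / 160000)] : List ℝ).getD i 0 * x ^ (2 * i) := by
    intro x
    rw [leg_five, Qt_eval]
    unfold s
    simp only [Finset.sum_range_succ, Finset.sum_range_zero, List.getD_cons_zero, List.getD_cons_succ]
    ring
  simp only [e]
  rw [int_even]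
  simp only [Finset.sum_range_succ, Finset.sum_range_zero, List.getD_cons_zero, List.getD_cons_succ]
  norm_num

lemma mom6 : ∫ x in (-1 : ℝ)..1, (leg 6).eval x * (Qt.eval x * s (Qt.eval x)) = 0 := by
  apply odd_int
  intro x
  have e : Qt.eval (-x) = -Qt.eval x := by rw [Qt_eval, Qt_eval]; ring
  rw [e, leg_parity]
  unfold s
  ring

lemma mom7 : ∫ x in (-1 : ℝ)..1, (leg 7).eval x * (Qt.eval x * s (Qt.eval x)) = (1917182042564344812998078662463 / 117515912185546875000000000000000000000) := by
  have e : ∀ x : ℝ, (leg 7).eval x * (Qt.eval x * s (Qt.eval x))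
      = ∑ i ∈ Finset.range 18, ([0, (-906796144960251 / 1600000000000000), (859677908188408964971733317411 / 64000000000000000000000000000), (-3822709516240304906480513818821 / 32000000000000000000000000000), (85267267326451888683026367421257 / 160000000000000000000000000000), (-239540225835133275338352093822637 / 160000000000000000000000000000), (1369135866642766922930291073176373 / 320000000000000000000000000000), (-1425769143317144014297347243238287 / 80000000000000000000000000000), (5883551683314437023859041212380263 / 80000000000000000000000000000), (-18717707459295594376566728886460299 / 80000000000000000000000000000), (177463732027094814418867535428256841 / 320000000000000000000000000000), (-156781591819433670808755893529420169 / 160000000000000000000000000000), (205599278313036275083216684678944873 / 160000000000000000000000000000), (-197181568810491156533436569590307133 / 160000000000000000000000000000), (268562787199369939751475533311098323 / 320000000000000000000000000000), (-1229305826299337066590369911 / 3200000000000000000000),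 (3389957433106822809 / 32000000000000), (-4254492957 / 320000)] : List ℝ).getD i 0 * x ^ (2 * i) := by
    intro x
    rw [leg_seven, Qt_eval]
    unfold s
    simp only [Finset.sum_range_succ, Finset.sum_range_zero, List.getD_cons_zero, List.getD_cons_succ]
    ring
  simp only [e]
  rw [int_even]
  simp only [Finset.sum_range_succ, Finset.sum_range_zero, List.getD_cons_zero, List.getD_cons_succ]
  norm_num

lemma mom8 : ∫ x in (-1 : ℝ)..1, (leg 8).eval x * (Qt.eval x * s (Qt.eval x)) = 0 := by
  apply odd_int
  intro x
  have e : Qt.eval (-x) = -Qt.eval x := by rw [Qt_eval, Qt_eval]; ring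
  rw [e, leg_parity]
  unfold s
  ring

lemma eta_bd : ∑ k ∈ Finset.range 9, (2 * (k : ℝ) + 1) / 2 *
        (∫ x in (-1 : ℝ)..1, (leg k).eval x * (Qt.eval x * s (Qt.eval x))) ^ 2 ≤ (1 / 1000000) ^ 2 := by
  simp only [Finset.sum_range_succ, Finset.sum_range_zero]
  rw [mom0, mom1, mom2, mom3, mom4, mom5, mom6, mom7, mom8]
  norm_num

lemma al_val : al 9 = (256 / 2431) := by
  simp only [al_succ, al_zero]
  norm_num

lemma W_eval (x : ℝ) : (P0 9).eval x = 1 * x ^ 10 + (-45 / 17) * x ^ 8 + (42 / 17) * x ^ 6 + (-210 / 221) * x ^ 4 + (315 / 2431) * x ^ 2 + (-7 / 2431) := by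
  rw [P0_eval, al_val, leg_eight, leg_nine]
  unfold lam
  norm_num
  ring

theorem core {Q P : ℝ[X]} (hQ : Sol 9 Q) (hP : derivative P = Q)
    (hc : P.eval (-1) = - P.eval 1) : (∀ x ∈ Set.Icc (-1 : ℝ) 1, |P.eval x - Pt.eval x| ≤ (1 / 100000)) ∧
      ∀ x ∈ Set.Icc (-1 : ℝ) 1, |Q.eval x| ≤ (211 / 2000) + (1 / 2000) :=
  cert (s := s) (B := (211 / 2000)) (δ := (1 / 2000)) (κ := (9833 / 10000)) (ε := (2623 / 2499975000)) (η := (1 / 1000000)) (τ := (1 / 100000))
    hQ hP hc Qt_coeff Pt_deriv Pt_cen Qt_bd (by norm_num) ⟨by norm_num, by norm_num, by norm_num⟩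
    (by unfold s; fun_prop) s_approx (by norm_num) (by norm_num) eta_bd (by norm_num)
    (by norm_num) (by norm_num)

theorem close {Q P : ℝ[X]} (hQ : Sol 9 Q) (hP : derivative P = Q)
    (hc : P.eval (-1) = - P.eval 1) : Close 9 P := by
  have hcl := (core hQ hP hc).1
  have hP1 : P.eval 1 = 0 := end_zero hQ hP hc (by decide)
  have hPm : P.eval (-1) = 0 := by rw [hc, hP1, neg_zero]
  obtain ⟨hm, hd⟩ := monic_of_sol hQ hP
  obtain ⟨hm0, hd0⟩ := monic_of_coeff (Q0_coeff 9) (P0_deriv (l := 9) (by norm_num))
  apply close_of_windows hm hd hm0 hd0 (a := fun i => ([(-1), (-9197 / 10000), (-462 / 625), (-2391 / 5000), (-829 / 5000), (1649 / 10000), (2387 / 5000), (1477 / 2000), (1149 / 1250), (9999 / 10000)] : List ℝ).getD i 0)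
    (b := fun i => ([(-9999 / 10000), (-1149 / 1250), (-1477 / 2000), (-2387 / 5000), (-1649 / 10000), (829 / 5000), (2391 / 5000), (462 / 625), (9197 / 10000), 1] : List ℝ).getD i 0)
  · intro i hi
    interval_cases i <;> simp only [List.getD_cons_zero, List.getD_cons_succ] <;> norm_num
  · intro i hi
    have hi' : i < 9 := by omega
    interval_cases i <;> simp only [List.getD_cons_zero, List.getD_cons_succ] <;> norm_num
  · intro i hi
    rw [al_val]
    interval_cases i <;> simp only [List.getD_cons_zero, List.getD_cons_succ] <;> norm_num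
  · intro i hi
    interval_cases i
    · simp only [List.getD_cons_zero, List.getD_cons_succ]
      norm_num
      linarith
    · have h := hcl (-9197 / 10000) (by norm_num)
      rw [Pt_eval] at h
      have h1 := (abs_le.1 h).1
      have h2 := (abs_le.1 h).2
      simp only [List.getD_cons_zero, List.getD_cons_succ]
      norm_num at h1 h2 ⊢
      linarith
    · have h := hcl (-462 / 625) (by norm_num)
      rw [Pt_eval] at h
      have h1 := (abs_le.1 h).1
      have h2 := (abs_le.1 h).2
      simp only [List.getD_cons_zero, List.getD_cons_succ]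
      norm_num at h1 h2 ⊢
      linarith
    · have h := hcl (-2391 / 5000) (by norm_num)
      rw [Pt_eval] at h
      have h1 := (abs_le.1 h).1
      have h2 := (abs_le.1 h).2
      simp only [List.getD_cons_zero, List.getD_cons_succ]
      norm_num at h1 h2 ⊢
      linarith
    · have h := hcl (-829 / 5000) (by norm_num)
      rw [Pt_eval] at h
      have h1 := (abs_le.1 h).1
      have h2 := (abs_le.1 h).2
      simp only [List.getD_cons_zero, List.getD_cons_succ]
      norm_num at h1 h2 ⊢
      linarith
    · have h := hcl (1649 / 10000) (by norm_num)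
      rw [Pt_eval] at h
      have h1 := (abs_le.1 h).1
      have h2 := (abs_le.1 h).2
      simp only [List.getD_cons_zero, List.getD_cons_succ]
      norm_num at h1 h2 ⊢
      linarith
    · have h := hcl (2387 / 5000) (by norm_num)
      rw [Pt_eval] at h
      have h1 := (abs_le.1 h).1
      have h2 := (abs_le.1 h).2
      simp only [List.getD_cons_zero, List.getD_cons_succ]
      norm_num at h1 h2 ⊢
      linarith
    · have h := hcl (1477 / 2000) (by norm_num)
      rw [Pt_eval] at h
      have h1 := (abs_le.1 h).1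
      have h2 := (abs_le.1 h).2
      simp only [List.getD_cons_zero, List.getD_cons_succ]
      norm_num at h1 h2 ⊢
      linarith
    · have h := hcl (1149 / 1250) (by norm_num)
      rw [Pt_eval] at h
      have h1 := (abs_le.1 h).1
      have h2 := (abs_le.1 h).2
      simp only [List.getD_cons_zero, List.getD_cons_succ]
      norm_num at h1 h2 ⊢
      linarith
    · have h := hcl (9999 / 10000) (by norm_num)
      rw [Pt_eval] at h
      have h1 := (abs_le.1 h).1
      have h2 := (abs_le.1 h).2
      simp only [List.getD_cons_zero, List.getD_cons_succ]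
      norm_num at h1 h2 ⊢
      linarith
  · intro i hi
    interval_cases i
    · have h := hcl (-9999 / 10000) (by norm_num)
      rw [Pt_eval] at h
      have h1 := (abs_le.1 h).1
      have h2 := (abs_le.1 h).2
      simp only [List.getD_cons_zero, List.getD_cons_succ]
      norm_num at h1 h2 ⊢
      linarith
    · have h := hcl (-1149 / 1250) (by norm_num)
      rw [Pt_eval] at h
      have h1 := (abs_le.1 h).1
      have h2 := (abs_le.1 h).2
      simp only [List.getD_cons_zero, List.getD_cons_succ]
      norm_num at h1 h2 ⊢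
      linarith
    · have h := hcl (-1477 / 2000) (by norm_num)
      rw [Pt_eval] at h
      have h1 := (abs_le.1 h).1
      have h2 := (abs_le.1 h).2
      simp only [List.getD_cons_zero, List.getD_cons_succ]
      norm_num at h1 h2 ⊢
      linarith
    · have h := hcl (-2387 / 5000) (by norm_num)
      rw [Pt_eval] at h
      have h1 := (abs_le.1 h).1
      have h2 := (abs_le.1 h).2
      simp only [List.getD_cons_zero, List.getD_cons_succ]
      norm_num at h1 h2 ⊢
      linarith
    · have h := hcl (-1649 / 10000) (by norm_num)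
      rw [Pt_eval] at h
      have h1 := (abs_le.1 h).1
      have h2 := (abs_le.1 h).2
      simp only [List.getD_cons_zero, List.getD_cons_succ]
      norm_num at h1 h2 ⊢
      linarith
    · have h := hcl (829 / 5000) (by norm_num)
      rw [Pt_eval] at h
      have h1 := (abs_le.1 h).1
      have h2 := (abs_le.1 h).2
      simp only [List.getD_cons_zero, List.getD_cons_succ]
      norm_num at h1 h2 ⊢
      linarith
    · have h := hcl (2391 / 5000) (by norm_num)
      rw [Pt_eval] at h
      have h1 := (abs_le.1 h).1
      have h2 := (abs_le.1 h).2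
      simp only [List.getD_cons_zero, List.getD_cons_succ]
      norm_num at h1 h2 ⊢
      linarith
    · have h := hcl (462 / 625) (by norm_num)
      rw [Pt_eval] at h
      have h1 := (abs_le.1 h).1
      have h2 := (abs_le.1 h).2
      simp only [List.getD_cons_zero, List.getD_cons_succ]
      norm_num at h1 h2 ⊢
      linarith
    · have h := hcl (9197 / 10000) (by norm_num)
      rw [Pt_eval] at h
      have h1 := (abs_le.1 h).1
      have h2 := (abs_le.1 h).2
      simp only [List.getD_cons_zero, List.getD_cons_succ]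
      norm_num at h1 h2 ⊢
      linarith
    · simp only [List.getD_cons_zero, List.getD_cons_succ]
      norm_num
      linarith
  · intro i hi
    rw [W_eval]
    interval_cases i <;> simp only [List.getD_cons_zero, List.getD_cons_succ] <;> norm_num
  · intro i hi
    rw [W_eval]
    interval_cases i <;> simp only [List.getD_cons_zero, List.getD_cons_succ] <;> norm_num

end Pool.Agent.Helper61.ML.N10
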