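import Pool.Agent.Helper61.ML.Cert

set_option autoImplicit false

open Polynomial MeasureTheory intervalIntegral

namespace Pool.Agent.Helper61.ML.N4

noncomputable def Qt : ℝ[X] := C 4 * X ^ 3 + C (-286 / 125) * X

noncomputable def Pt : ℝ[X] := C 1 * X ^ 4 + C (-143 / 125) * X ^ 2 + C (18 / 125)

noncomputable def s (q : ℝ) : ℝ := (99327 / 100000) + (-4091 / 10000) * q ^ 2 + (7013 / 50000) * q ^ 4 + (-989 / 50000) * q ^ 6

lemma Qt_eval (x : ℝ) : Qt.eval x = 4 * x ^ 3 + (-286 / 125) * x := by
  simp only [Qt, eval_add, eval_mul, eval_C, eval_pow, eval_X]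

lemma Pt_eval (x : ℝ) : Pt.eval x = 1 * x ^ 4 + (-143 / 125) * x ^ 2 + (18 / 125) := by
  simp only [Pt, eval_add, eval_mul, eval_C, eval_pow, eval_X]

lemma Pt_deriv : derivative Pt = Qt := by
  apply Polynomial.funext
  intro x
  rw [Qt_eval]
  simp only [Pt, derivative_add, derivative_C_mul, derivative_X_pow, derivative_X, derivative_C, eval_add, eval_mul,
    eval_C, eval_pow, eval_X, eval_one, eval_zero, Nat.cast_ofNat]
  norm_num
  try ring

lemma Pt_cen : Pt.eval (-1) = - Pt.eval 1 := by
  rw [Pt_eval, Pt_eval]; norm_num

lemma Qt_coeff : Qt.coeff 3 = ((3 : ℕ) : ℝ) + 1 ∧ ∀ m, 3 < m → Qt.coeff m = 0 := by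
  refine ⟨?_, ?_⟩
  · simp only [Qt, coeff_add, coeff_C_mul, coeff_X_pow, coeff_X, coeff_C]
    norm_num
  · intro m hm
    have h : Qt.natDegree ≤ 3 := by
      unfold Qt; compute_degree
    exact coeff_eq_zero_of_natDegree_lt (lt_of_le_of_lt h hm)

lemma Qup (u : ℝ) (h0 : (-1) ≤ u) (h1 : u ≤ 1) :
    0 ≤ (1713 / 1000) - (4 * u ^ 3 + (-286 / 125) * u) := by
  rcases le_total u 0 with g1 | g1
  · have hp : 0 ≤ u - (-1) := sub_nonneg.2 h0
    have hq : 0 ≤ 0 - u := sub_nonneg.2 g1
    have e : (1713 / 1000) - (4 * u ^ 3 + (-286 / 125) * u)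
        = (137 / 40) * (0 - u) ^ 3
          + (563 / 1000) * (u - (-1)) ^ 1 * (0 - u) ^ 2
          + (2851 / 1000) * (u - (-1)) ^ 2 * (0 - u) ^ 1
          + (1713 / 1000) * (u - (-1)) ^ 3 := by ring
    rw [e]
    positivity
  · have hp : 0 ≤ u - 0 := sub_nonneg.2 g1
    have hq : 0 ≤ 1 - u := sub_nonneg.2 h1
    have e : (1713 / 1000) - (4 * u ^ 3 + (-286 / 125) * u)
        = (1713 / 1000) * (1 - u) ^ 3
          + (7427 / 1000) * (u - 0) ^ 1 * (1 - u) ^ 2
          + (1943 / 200) * (u - 0) ^ 2 * (1 - u) ^ 1
          + (1 / 1000) * (u - 0) ^ 3 := by ring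
    rw [e]
    positivity

lemma Qlo (u : ℝ) (h0 : (-1) ≤ u) (h1 : u ≤ 1) :
    0 ≤ (1713 / 1000) + (4 * u ^ 3 + (-286 / 125) * u) := by
  rcases le_total u 0 with g1 | g1
  · have hp : 0 ≤ u - (-1) := sub_nonneg.2 h0
    have hq : 0 ≤ 0 - u := sub_nonneg.2 g1
    have e : (1713 / 1000) + (4 * u ^ 3 + (-286 / 125) * u)
        = (1 / 1000) * (0 - u) ^ 3
          + (1943 / 200) * (u - (-1)) ^ 1 * (0 - u) ^ 2
          + (7427 / 1000) * (u - (-1)) ^ 2 * (0 - u) ^ 1
          + (1713 / 1000) * (u - (-1)) ^ 3 := by ring
    rw [e]
    positivity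
  · have hp : 0 ≤ u - 0 := sub_nonneg.2 g1
    have hq : 0 ≤ 1 - u := sub_nonneg.2 h1
    have e : (1713 / 1000) + (4 * u ^ 3 + (-286 / 125) * u)
        = (1713 / 1000) * (1 - u) ^ 3
          + (2851 / 1000) * (u - 0) ^ 1 * (1 - u) ^ 2
          + (563 / 1000) * (u - 0) ^ 2 * (1 - u) ^ 1
          + (137 / 40) * (u - 0) ^ 3 := by ring
    rw [e]
    positivity

lemma Qt_bd : ∀ x ∈ Set.Icc (-1 : ℝ) 1, |Qt.eval x| ≤ (1713 / 1000) := by
  intro x hx
  have h1 := Qup x hx.1 hx.2
  have h2 := Qlo x hx.1 hx.2
  rw [Qt_eval, abs_le]
  constructor <;> linarith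

lemma Eup (u : ℝ) (h0 : 0 ≤ u) (h1 : u ≤ (2934369 / 1000000)) :
    0 ≤ (33 / 2000) - (1 - ((-989 / 50000) * u ^ 3 + (7013 / 50000) * u ^ 2 + (-4091 / 10000) * u + (99327 / 100000)) ^ 2 * (1 + u)) := by
  rcases le_total u (2934369 / 2000000) with g1 | g1
  · have hp : 0 ≤ u - 0 := sub_nonneg.2 h0
    have hq : 0 ≤ (2934369 / 2000000) - u := sub_nonneg.2 g1
    have e : (33 / 2000) - (1 - ((-989 / 50000) * u ^ 3 + (7013 / 50000) * u ^ 2 + (-4091 / 10000) * u + (99327 / 100000)) ^ 2 * (1 + u))
        = (394917491200000000000000000000000000000000 / 1873281661083621265333632348997525403743510689) * ((2934369 / 2000000) - u) ^ 7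
          + (35421231741376902400000000000000000000000000 / 1873281661083621265333632348997525403743510689) * (u - 0) ^ 1 * ((2934369 / 2000000) - u) ^ 6
          + (34398401748625629696217600000000000000000000 / 624427220361207088444544116332508467914503563) * (u - 0) ^ 2 * ((2934369 / 2000000) - u) ^ 5
          + (116500416267146155768209738156800000000000000 / 1873281661083621265333632348997525403743510689) * (u - 0) ^ 3 * ((2934369 / 2000000) - u) ^ 4
          + (58545736644654541973657932440716307200000000 / 1873281661083621265333632348997525403743510689) * (u - 0) ^ 4 * ((2934369 / 2000000) - u) ^ 3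
          + (3978871871463211489567887919507265385496000 / 624427220361207088444544116332508467914503563) * (u - 0) ^ 5 * ((2934369 / 2000000) - u) ^ 2
          + (1799601128905386931413267194114252653185859367 / 2341602076354526581667040436246906754679388361250) * (u - 0) ^ 6 * ((2934369 / 2000000) - u) ^ 1
          + (1125487786478392641989258508548591460586725152635369 / 4683204152709053163334080872493813509358776722500000000) * (u - 0) ^ 7 := by ring
    rw [e]
    positivity
  · have hp : 0 ≤ u - (2934369 / 2000000) := sub_nonneg.2 g1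
    have hq : 0 ≤ (2934369 / 1000000) - u := sub_nonneg.2 h1
    have e : (33 / 2000) - (1 - ((-989 / 50000) * u ^ 3 + (7013 / 50000) * u ^ 2 + (-4091 / 10000) * u + (99327 / 100000)) ^ 2 * (1 + u))
        = (1125487786478392641989258508548591460586725152635369 / 4683204152709053163334080872493813509358776722500000000) * ((2934369 / 1000000) - u) ^ 7
          + (6078813376443361562511542365725887570921216701447583 / 2341602076354526581667040436246906754679388361250000000) * (u - (2934369 / 2000000)) ^ 1 * ((2934369 / 1000000) - u) ^ 6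
          + (6766007167202481812078205121303675783670357334447583 / 390267012725754430277840072707817792446564726875000000) * (u - (2934369 / 2000000)) ^ 2 * ((2934369 / 1000000) - u) ^ 5
          + (6280887337335200369271177049028735662354497967447583 / 117080103817726329083352021812345337733969418062500000) * (u - (2934369 / 2000000)) ^ 3 * ((2934369 / 1000000) - u) ^ 4
          + (4604983354898925728493391688756298006973638600447583 / 58540051908863164541676010906172668866984709031250000) * (u - (2934369 / 2000000)) ^ 4 * ((2934369 / 1000000) - u) ^ 3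
          + (2673087559688006431887336897741593617527779233447583 / 48783376590719303784730009088477224055820590859375000) * (u - (2934369 / 2000000)) ^ 5 * ((2934369 / 1000000) - u) ^ 2
          + (1069521891519888999318054850639853294016919866447583 / 73175064886078955677095013632715836083730886289062500) * (u - (2934369 / 2000000)) ^ 6 * ((2934369 / 1000000) - u) ^ 1
          + (7721979666973015479448862786615405205865785635369 / 36587532443039477838547506816357918041865443144531250) * (u - (2934369 / 2000000)) ^ 7 := by ring
    rw [e]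
    positivity

lemma Elo (u : ℝ) (h0 : 0 ≤ u) (h1 : u ≤ (2934369 / 1000000)) :
    0 ≤ (33 / 2000) + (1 - ((-989 / 50000) * u ^ 3 + (7013 / 50000) * u ^ 2 + (-4091 / 10000) * u + (99327 / 100000)) ^ 2 * (1 + u)) := by
  rcases le_total u (2934369 / 2000000) with g1 | g1
  · rcases le_total u (2934369 / 4000000) with g2 | g2
    · have hp : 0 ≤ u - 0 := sub_nonneg.2 h0
      have hq : 0 ≤ (2934369 / 4000000) - u := sub_nonneg.2 g2
      have e : (33 / 2000) + (1 - ((-989 / 50000) * u ^ 3 + (7013 / 50000) * u ^ 2 + (-4091 / 10000) * u + (99327 / 100000)) ^ 2 * (1 + u))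
          = (490122561126400000000000000000000000000000000 / 1873281661083621265333632348997525403743510689) * ((2934369 / 4000000) - u) ^ 7
            + (1340822132494278246400000000000000000000000000 / 1873281661083621265333632348997525403743510689) * (u - 0) ^ 1 * ((2934369 / 4000000) - u) ^ 6
            + (328534794567058096121036800000000000000000000 / 624427220361207088444544116332508467914503563) * (u - 0) ^ 2 * ((2934369 / 4000000) - u) ^ 5
            + (81647507053053804616420189491200000000000000 / 1873281661083621265333632348997525403743510689) * (u - 0) ^ 3 * ((2934369 / 4000000) - u) ^ 4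
            + (693550390467631168535800919456669542400000000 / 1873281661083621265333632348997525403743510689) * (u - 0) ^ 4 * ((2934369 / 4000000) - u) ^ 3
            + (507183841272196504152714813304705709658016000 / 624427220361207088444544116332508467914503563) * (u - 0) ^ 5 * ((2934369 / 4000000) - u) ^ 2
            + (617665467186877890850481635972895104955594140633 / 1170801038177263290833520218123453377339694180625) * (u - 0) ^ 6 * ((2934369 / 4000000) - u) ^ 1
            + (531970002444100524247123871213127644841821556113364631 / 4683204152709053163334080872493813509358776722500000000) * (u - 0) ^ 7 := by ring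
      rw [e]
      positivity
    · have hp : 0 ≤ u - (2934369 / 4000000) := sub_nonneg.2 g2
      have hq : 0 ≤ (2934369 / 2000000) - u := sub_nonneg.2 g1
      have e : (33 / 2000) + (1 - ((-989 / 50000) * u ^ 3 + (7013 / 50000) * u ^ 2 + (-4091 / 10000) * u + (99327 / 100000)) ^ 2 * (1 + u))
          = (531970002444100524247123871213127644841821556113364631 / 4683204152709053163334080872493813509358776722500000000) * ((2934369 / 2000000) - u) ^ 7
            + (2488459082734947888028903826546103303981562611527552417 / 2341602076354526581667040436246906754679388361250000000) * (u - (2934369 / 4000000)) ^ 1 * ((2934369 / 2000000) - u) ^ 6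
            + (1570118049156314921423387312915754162606634330261552417 / 390267012725754430277840072707817792446564726875000000) * (u - (2934369 / 4000000)) ^ 2 * ((2934369 / 2000000) - u) ^ 5
            + (925420016968577821879830000134804243367966048995552417 / 117080103817726329083352021812345337733969418062500000) * (u - (2934369 / 4000000)) ^ 3 * ((2934369 / 2000000) - u) ^ 4
            + (513569571362917572759007461658811699865557767729552417 / 58540051908863164541676010906172668866984709031250000) * (u - (2934369 / 4000000)) ^ 4 * ((2934369 / 2000000) - u) ^ 3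
            + (270656001300371675056502401864934685699409486463552417 / 48783376590719303784730009088477224055820590859375000) * (u - (2934369 / 4000000)) ^ 5 * ((2934369 / 2000000) - u) ^ 2
            + (136362383236840477643248656051931354469521205197552417 / 73175064886078955677095013632715836083730886289062500) * (u - (2934369 / 4000000)) ^ 6 * ((2934369 / 2000000) - u) ^ 1
            + (9434512213521607358010741491451408539413274847364631 / 36587532443039477838547506816357918041865443144531250) * (u - (2934369 / 4000000)) ^ 7 := by ring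
      rw [e]
      positivity
  · rcases le_total u (8803107 / 4000000) with g3 | g3
    · have hp : 0 ≤ u - (2934369 / 2000000) := sub_nonneg.2 g1
      have hq : 0 ≤ (8803107 / 4000000) - u := sub_nonneg.2 g3
      have e : (33 / 2000) + (1 - ((-989 / 50000) * u ^ 3 + (7013 / 50000) * u ^ 2 + (-4091 / 10000) * u + (99327 / 100000)) ^ 2 * (1 + u))
          = (9434512213521607358010741491451408539413274847364631 / 36587532443039477838547506816357918041865443144531250) * ((8803107 / 4000000) - u) ^ 7
            + (127803958741764528381052105708708084634050490528657251 / 73175064886078955677095013632715836083730886289062500) * (u - (2934369 / 2000000)) ^ 1 * ((8803107 / 4000000) - u) ^ 6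
            + (236422303320067878007716200492041606357526627787971753 / 48783376590719303784730009088477224055820590859375000) * (u - (2934369 / 2000000)) ^ 2 * ((8803107 / 4000000) - u) ^ 5
            + (415569520530879697431898058397930539647485351969915259 / 58540051908863164541676010906172668866984709031250000) * (u - (2934369 / 2000000)) ^ 3 * ((8803107 / 4000000) - u) ^ 4
            + (689158777997135572043533996014044231093512461727745777 / 117080103817726329083352021812345337733969418062500000) * (u - (2934369 / 2000000)) ^ 4 * ((8803107 / 4000000) - u) ^ 3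
            + (1069724707753372069756271282180220263412726602637237331 / 390267012725754430277840072707817792446564726875000000) * (u - (2934369 / 2000000)) ^ 5 * ((8803107 / 4000000) - u) ^ 2
            + (1552275203278437639230717846819782848871807460273711993 / 2341602076354526581667040436246906754679388361250000000) * (u - (2934369 / 2000000)) ^ 6 * ((8803107 / 4000000) - u) ^ 1
            + (311516417384188970038821471181871886975355048272447997 / 4683204152709053163334080872493813509358776722500000000) * (u - (2934369 / 2000000)) ^ 7 := by ring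
      rw [e]
      positivity
    · have hp : 0 ≤ u - (8803107 / 4000000) := sub_nonneg.2 g3
      have hq : 0 ≤ (2934369 / 1000000) - u := sub_nonneg.2 h1
      have e : (33 / 2000) + (1 - ((-989 / 50000) * u ^ 3 + (7013 / 50000) * u ^ 2 + (-4091 / 10000) * u + (99327 / 100000)) ^ 2 * (1 + u))
          = (311516417384188970038821471181871886975355048272447997 / 4683204152709053163334080872493813509358776722500000000) * ((2934369 / 1000000) - u) ^ 7
            + (314169859205442575520516225726660179977838938816711993 / 1170801038177263290833520218123453377339694180625000000) * (u - (8803107 / 4000000)) ^ 1 * ((2934369 / 1000000) - u) ^ 6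
            + (36447305721454895391646471703439443624149254999237331 / 97566753181438607569460018176954448111641181718750000) * (u - (8803107 / 4000000)) ^ 2 * ((2934369 / 1000000) - u) ^ 5
            + (5475582139623813725609576042546402669591287908745777 / 14635012977215791135419002726543167216746177257812500) * (u - (8803107 / 4000000)) ^ 3 * ((2934369 / 1000000) - u) ^ 4
            + (3049797727383878821516792401065438068128163605915259 / 3658753244303947783854750681635791804186544314453125) * (u - (8803107 / 4000000)) ^ 4 * ((2934369 / 1000000) - u) ^ 3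
            + (8290437774228772549663502166695047442561197211887012 / 6097922073839912973091251136059653006977573857421875) * (u - (8803107 / 4000000)) ^ 5 * ((2934369 / 1000000) - u) ^ 2
            + (18117926290279820543514577125560496529615346154516016 / 18293766221519738919273753408178959020932721572265625) * (u - (8803107 / 4000000)) ^ 6 * ((2934369 / 1000000) - u) ^ 1
            + (4785793301313727009315272781656614066824589719336384 / 18293766221519738919273753408178959020932721572265625) * (u - (8803107 / 4000000)) ^ 7 := by ring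
      rw [e]
      positivity

lemma Spos (u : ℝ) (h0 : 0 ≤ u) (h1 : u ≤ (2934369 / 1000000)) :
    0 ≤ (-989 / 50000) * u ^ 3 + (7013 / 50000) * u ^ 2 + (-4091 / 10000) * u + (99327 / 100000) := by
  have hp : 0 ≤ u - 0 := sub_nonneg.2 h0
  have hq : 0 ≤ (2934369 / 1000000) - u := sub_nonneg.2 h1
  have e : (-989 / 50000) * u ^ 3 + (7013 / 50000) * u ^ 2 + (-4091 / 10000) * u + (99327 / 100000)
      = (331090000000000000 / 8422149050877121803) * ((2934369 / 1000000) - u) ^ 3
        + (197706626900000000 / 2807383016959040601) * (u - 0) ^ 1 * ((2934369 / 1000000) - u) ^ 2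
        + (22057049626097060 / 311931446328782289) * (u - 0) ^ 2 * ((2934369 / 1000000) - u) ^ 1
        + (8346017548913557536833 / 421107452543856090150000) * (u - 0) ^ 3 := by ring
  rw [e]
  positivity

lemma s_approx : ∀ q, |q| ≤ (1713 / 1000) → |gg q - q * s q| ≤ (285021 / 39670000) := by
  intro q hq
  have hu0 : 0 ≤ q ^ 2 := sq_nonneg q
  have hu : q ^ 2 ≤ (2934369 / 1000000) := by
    have := pow_le_pow_left₀ (abs_nonneg q) hq 2
    rw [sq_abs] at this
    norm_num at this ⊢
    linarith
  have es : s q = (-989 / 50000) * (q ^ 2) ^ 3 + (7013 / 50000) * (q ^ 2) ^ 2 + (-4091 / 10000) * (q ^ 2) + (99327 / 100000) := by unfold s; ring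
  have h := g_approx (q := q) (s := s q) (e0 := (33 / 2000)) (b := (8637 / 10000)) (B := (1713 / 1000))
    (by rw [es]; exact Spos _ hu0 hu) (by
      have h1 := Eup _ hu0 hu
      have h2 := Elo _ hu0 hu
      rw [es, abs_le]
      constructor <;> linarith) (by norm_num) hq (by norm_num) (by norm_num)
  refine h.trans (le_of_eq ?_)
  norm_num

lemma mom0 : ∫ x in (-1 : ℝ)..1, (leg 0).eval x * (Qt.eval x * s (Qt.eval x)) = 0 := by
  apply odd_int
  intro x
  have e : Qt.eval (-x) = -Qt.eval x := by rw [Qt_eval, Qt_eval]; ring
  rw [e, leg_parity]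
  unfold s
  ring

lemma mom1 : ∫ x in (-1 : ℝ)..1, (leg 1).eval x * (Qt.eval x * s (Qt.eval x)) = (-2765893319110741817651 / 2668368816375732421875000) := by
  have e : ∀ x : ℝ, (leg 1).eval x * (Qt.eval x * s (Qt.eval x))
      = ∑ i ∈ Finset.range 12, ([0, (-14203761 / 6250000), (86651332723 / 9765625000), (-3289598791050143 / 95367431640625), (191177558236192676434 / 1490116119384765625), (-4463585413358133532 / 11920928955078125), (84556898542889344 / 95367431640625), (-247954384378272 / 152587890625), (2766593487808 / 1220703125), (-108724551936 / 48828125), (506874368 / 390625), (-1012736 / 3125)] : List ℝ).getD i 0 * x ^ (2 * i) := by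
    intro x
    rw [leg_one, eval_X, Qt_eval]
    unfold s
    simp only [Finset.sum_range_succ, Finset.sum_range_zero, List.getD_cons_zero, List.getD_cons_succ]
    ring
  simp only [e]
  rw [int_even]
  simp only [Finset.sum_range_succ, Finset.sum_range_zero, List.getD_cons_zero, List.getD_cons_succ]
  norm_num

lemma mom2 : ∫ x in (-1 : ℝ)..1, (leg 2).eval x * (Qt.eval x * s (Qt.eval x)) = 0 := by
  apply odd_int
  intro x
  have e : Qt.eval (-x) = -Qt.eval x := by rw [Qt_eval, Qt_eval]; ring
  rw [e, leg_parity]
  unfold s
  ring

lemma eta_bd : ∑ k ∈ Finset.range 3, (2 * (k : ℝ) + 1) / 2 *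
        (∫ x in (-1 : ℝ)..1, (leg k).eval x * (Qt.eval x * s (Qt.eval x))) ^ 2 ≤ (13 / 10000) ^ 2 := by
  simp only [Finset.sum_range_succ, Finset.sum_range_zero]
  rw [mom0, mom1, mom2]
  norm_num

lemma al_val : al 3 = (8 / 5) := by
  simp only [al_succ, al_zero]
  norm_num

lemma W_eval (x : ℝ) : (P0 3).eval x = 1 * x ^ 4 + (-6 / 5) * x ^ 2 + (1 / 5) := by
  rw [P0_eval, al_val, leg_two, leg_three]
  unfold lam
  norm_num
  ring

theorem core {Q P : ℝ[X]} (hQ : Sol 3 Q) (hP : derivative P = Q)
    (hc : P.eval (-1) = - P.eval 1) : (∀ x ∈ Set.Icc (-1 : ℝ) 1, |P.eval x - Pt.eval x| ≤ (8833 / 100000)) ∧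
      ∀ x ∈ Set.Icc (-1 : ℝ) 1, |Q.eval x| ≤ (1713 / 1000) + (53 / 200) :=
  cert (s := s) (B := (1713 / 1000)) (δ := (53 / 200)) (κ := (459 / 5000)) (ε := (285021 / 39670000)) (η := (13 / 10000)) (τ := (8833 / 100000))
    hQ hP hc Qt_coeff Pt_deriv Pt_cen Qt_bd (by norm_num) ⟨by norm_num, by norm_num, by norm_num⟩
    (by unfold s; fun_prop) s_approx (by norm_num) (by norm_num) eta_bd (by norm_num)
    (by norm_num) (by norm_num)

lemma Dup (u : ℝ) (h0 : (-1) ≤ u) (h1 : u ≤ 1) :
    0 ≤ (112001 / 1000000) - ((7 / 125) * u ^ 2 + (-7 / 125)) := by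
  have hp : 0 ≤ u - (-1) := sub_nonneg.2 h0
  have hq : 0 ≤ 1 - u := sub_nonneg.2 h1
  have e : (112001 / 1000000) - ((7 / 125) * u ^ 2 + (-7 / 125))
      = (112001 / 4000000) * (1 - u) ^ 2
        + (224001 / 2000000) * (u - (-1)) ^ 1 * (1 - u) ^ 1
        + (112001 / 4000000) * (u - (-1)) ^ 2 := by ring
  rw [e]
  positivity

lemma Dlo (u : ℝ) (h0 : (-1) ≤ u) (h1 : u ≤ 1) :
    0 ≤ (112001 / 1000000) + ((7 / 125) * u ^ 2 + (-7 / 125)) := by
  have hp : 0 ≤ u - (-1) := sub_nonneg.2 h0
  have hq : 0 ≤ 1 - u := sub_nonneg.2 h1
  have e : (112001 / 1000000) + ((7 / 125) * u ^ 2 + (-7 / 125))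
      = (112001 / 4000000) * (1 - u) ^ 2
        + (1 / 2000000) * (u - (-1)) ^ 1 * (1 - u) ^ 1
        + (112001 / 4000000) * (u - (-1)) ^ 2 := by ring
  rw [e]
  positivity

theorem near {Q P : ℝ[X]} (hQ : Sol 3 Q) (hP : derivative P = Q)
    (hc : P.eval (-1) = - P.eval 1) : ∀ x ∈ Set.Icc (-1 : ℝ) 1,
      (P.eval x - (P0 3).eval x) ^ 2 ≤ al 3 ^ 6 / (4 * ((3 : ℕ) + 1 : ℝ)) := by
  intro x hx
  have h1 := (core hQ hP hc).1 x hx
  have h2 := Dup x hx.1 hx.2
  have h3 := Dlo x hx.1 hx.2
  have h4 : |Pt.eval x - (P0 3).eval x| ≤ (112001 / 1000000) := by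
    rw [Pt_eval, W_eval, abs_le]
    constructor <;> linarith
  have h5 : |P.eval x - (P0 3).eval x| ≤ (8833 / 100000) + (112001 / 1000000) := by
    have e : P.eval x - (P0 3).eval x = (P.eval x - Pt.eval x) + (Pt.eval x - (P0 3).eval x) := by
      ring
    rw [e]
    exact (abs_add_le _ _).trans (add_le_add h1 h4)
  rw [← sq_abs, al_val]
  refine (pow_le_pow_left₀ (abs_nonneg _) h5 2).trans ?_
  norm_num

theorem close {Q P : ℝ[X]} (hQ : Sol 3 Q) (hP : derivative P = Q)
    (hc : P.eval (-1) = - P.eval 1) : Close 3 P := by
  have hcl := (core hQ hP hc).1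
  have hP1 : P.eval 1 = 0 := end_zero hQ hP hc (by decide)
  have hPm : P.eval (-1) = 0 := by rw [hc, hP1, neg_zero]
  obtain ⟨hm, hd⟩ := monic_of_sol hQ hP
  obtain ⟨hm0, hd0⟩ := monic_of_coeff (Q0_coeff 3) (P0_deriv (l := 3) (by norm_num))
  apply close_of_windows hm hd hm0 hd0 (a := fun i => ([(-1), (-53 / 100), (21 / 100), (93 / 100)] : List ℝ).getD i 0)
    (b := fun i => ([(-93 / 100), (-21 / 100), (53 / 100), 1] : List ℝ).getD i 0)
  · intro i hi
    interval_cases i <;> simp only [List.getD_cons_zero, List.getD_cons_succ] <;> norm_num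
  · intro i hi
    have hi' : i < 3 := by omega
    interval_cases i <;> simp only [List.getD_cons_zero, List.getD_cons_succ] <;> norm_num
  · intro i hi
    rw [al_val]
    interval_cases i <;> simp only [List.getD_cons_zero, List.getD_cons_succ] <;> norm_num
  · intro i hi
    interval_cases i
    · simp only [List.getD_cons_zero, List.getD_cons_succ]
      norm_num
      linarith
    · have h := hcl (-53 / 100) (by norm_num)
      rw [Pt_eval] at h
      have h1 := (abs_le.1 h).1
      have h2 := (abs_le.1 h).2
      simp only [List.getD_cons_zero, List.getD_cons_succ]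
      norm_num at h1 h2 ⊢
      linarith
    · have h := hcl (21 / 100) (by norm_num)
      rw [Pt_eval] at h
      have h1 := (abs_le.1 h).1
      have h2 := (abs_le.1 h).2
      simp only [List.getD_cons_zero, List.getD_cons_succ]
      norm_num at h1 h2 ⊢
      linarith
    · have h := hcl (93 / 100) (by norm_num)
      rw [Pt_eval] at h
      have h1 := (abs_le.1 h).1
      have h2 := (abs_le.1 h).2
      simp only [List.getD_cons_zero, List.getD_cons_succ]
      norm_num at h1 h2 ⊢
      linarith
  · intro i hi
    interval_cases i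
    · have h := hcl (-93 / 100) (by norm_num)
      rw [Pt_eval] at h
      have h1 := (abs_le.1 h).1
      have h2 := (abs_le.1 h).2
      simp only [List.getD_cons_zero, List.getD_cons_succ]
      norm_num at h1 h2 ⊢
      linarith
    · have h := hcl (-21 / 100) (by norm_num)
      rw [Pt_eval] at h
      have h1 := (abs_le.1 h).1
      have h2 := (abs_le.1 h).2
      simp only [List.getD_cons_zero, List.getD_cons_succ]
      norm_num at h1 h2 ⊢
      linarith
    · have h := hcl (53 / 100) (by norm_num)
      rw [Pt_eval] at h
      have h1 := (abs_le.1 h).1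
      have h2 := (abs_le.1 h).2
      simp only [List.getD_cons_zero, List.getD_cons_succ]
      norm_num at h1 h2 ⊢
      linarith
    · simp only [List.getD_cons_zero, List.getD_cons_succ]
      norm_num
      linarith
  · intro i hi
    rw [W_eval]
    interval_cases i <;> simp only [List.getD_cons_zero, List.getD_cons_succ] <;> norm_num
  · intro i hi
    rw [W_eval]
    interval_cases i <;> simp only [List.getD_cons_zero, List.getD_cons_succ] <;> norm_num

end Pool.Agent.Helper61.ML.N4
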