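import Pool.Agent.Helper61.ML.Cert

set_option autoImplicit false

open Polynomial MeasureTheory intervalIntegral

namespace Pool.Agent.Helper61.ML.N5

noncomputable def Qt : ℝ[X] := C 5 * X ^ 4 + C (-21009 / 5000) * X ^ 2 + C (4107 / 10000)

noncomputable def Pt : ℝ[X] := C 1 * X ^ 5 + C (-7003 / 5000) * X ^ 3 + C (4107 / 10000) * X

noncomputable def s (q : ℝ) : ℝ := (19973 / 20000) + (-46661 / 100000) * q ^ 2 + (4603 / 20000) * q ^ 4 + (-5501 / 100000) * q ^ 6

lemma Qt_eval (x : ℝ) : Qt.eval x = 5 * x ^ 4 + (-21009 / 5000) * x ^ 2 + (4107 / 10000) := by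
  simp only [Qt, eval_add, eval_mul, eval_C, eval_pow, eval_X]

lemma Pt_eval (x : ℝ) : Pt.eval x = 1 * x ^ 5 + (-7003 / 5000) * x ^ 3 + (4107 / 10000) * x := by
  simp only [Pt, eval_add, eval_mul, eval_C, eval_pow, eval_X]

lemma Pt_deriv : derivative Pt = Qt := by
  apply Polynomial.funext
  intro x
  rw [Qt_eval]
  simp only [Pt, derivative_add, derivative_C_mul, derivative_X_pow, derivative_X, derivative_C, eval_add, eval_mul,
    eval_C, eval_pow, eval_X, eval_one, eval_zero, Nat.cast_ofNat]
  norm_num
  try ring

lemma Pt_cen : Pt.eval (-1) = - Pt.eval 1 := by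
  rw [Pt_eval, Pt_eval]; norm_num

lemma Qt_coeff : Qt.coeff 4 = ((4 : ℕ) : ℝ) + 1 ∧ ∀ m, 4 < m → Qt.coeff m = 0 := by
  refine ⟨?_, ?_⟩
  · simp only [Qt, coeff_add, coeff_C_mul, coeff_X_pow, coeff_X, coeff_C]
    norm_num
  · intro m hm
    have h : Qt.natDegree ≤ 4 := by
      unfold Qt; compute_degree
    exact coeff_eq_zero_of_natDegree_lt (lt_of_le_of_lt h hm)

lemma Qup (u : ℝ) (h0 : (-1) ≤ u) (h1 : u ≤ 1) :
    0 ≤ (121 / 100) - (5 * u ^ 4 + (-21009 / 5000) * u ^ 2 + (4107 / 10000)) := by
  rcases le_total u 0 with g1 | g1
  · have hp : 0 ≤ u - (-1) := sub_nonneg.2 h0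
    have hq : 0 ≤ 0 - u := sub_nonneg.2 g1
    have e : (121 / 100) - (5 * u ^ 4 + (-21009 / 5000) * u ^ 2 + (4107 / 10000))
        = (11 / 10000) * (0 - u) ^ 4
          + (14501 / 1250) * (u - (-1)) ^ 1 * (0 - u) ^ 3
          + (11247 / 1250) * (u - (-1)) ^ 2 * (0 - u) ^ 2
          + (7993 / 2500) * (u - (-1)) ^ 3 * (0 - u) ^ 1
          + (7993 / 10000) * (u - (-1)) ^ 4 := by ring
    rw [e]
    positivity
  · have hp : 0 ≤ u - 0 := sub_nonneg.2 g1
    have hq : 0 ≤ 1 - u := sub_nonneg.2 h1
    have e : (121 / 100) - (5 * u ^ 4 + (-21009 / 5000) * u ^ 2 + (4107 / 10000))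
        = (7993 / 10000) * (1 - u) ^ 4
          + (7993 / 2500) * (u - 0) ^ 1 * (1 - u) ^ 3
          + (11247 / 1250) * (u - 0) ^ 2 * (1 - u) ^ 2
          + (14501 / 1250) * (u - 0) ^ 3 * (1 - u) ^ 1
          + (11 / 10000) * (u - 0) ^ 4 := by ring
    rw [e]
    positivity

lemma Qlo (u : ℝ) (h0 : (-1) ≤ u) (h1 : u ≤ 1) :
    0 ≤ (121 / 100) + (5 * u ^ 4 + (-21009 / 5000) * u ^ 2 + (4107 / 10000)) := by
  rcases le_total u 0 with g1 | g1
  · rcases le_total u (-1 / 2) with g2 | g2
    · have hp : 0 ≤ u - (-1) := sub_nonneg.2 h0
      have hq : 0 ≤ (-1 / 2) - u := sub_nonneg.2 g2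
      have e : (121 / 100) + (5 * u ^ 4 + (-21009 / 5000) * u ^ 2 + (4107 / 10000))
          = (24189 / 625) * ((-1 / 2) - u) ^ 4
            + (38774 / 625) * (u - (-1)) ^ 1 * ((-1 / 2) - u) ^ 3
            + (71367 / 1250) * (u - (-1)) ^ 2 * ((-1 / 2) - u) ^ 2
            + (26801 / 625) * (u - (-1)) ^ 3 * ((-1 / 2) - u) ^ 1
            + (3531 / 250) * (u - (-1)) ^ 4 := by ring
      rw [e]
      positivity
    · have hp : 0 ≤ u - (-1 / 2) := sub_nonneg.2 g2
      have hq : 0 ≤ 0 - u := sub_nonneg.2 g1
      have e : (121 / 100) + (5 * u ^ 4 + (-21009 / 5000) * u ^ 2 + (4107 / 10000))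
          = (3531 / 250) * (0 - u) ^ 4
            + (43819 / 625) * (u - (-1 / 2)) ^ 1 * (0 - u) ^ 3
            + (6939 / 50) * (u - (-1 / 2)) ^ 2 * (0 - u) ^ 2
            + (64828 / 625) * (u - (-1 / 2)) ^ 3 * (0 - u) ^ 1
            + (16207 / 625) * (u - (-1 / 2)) ^ 4 := by ring
      rw [e]
      positivity
  · rcases le_total u (1 / 2) with g3 | g3
    · have hp : 0 ≤ u - 0 := sub_nonneg.2 g1
      have hq : 0 ≤ (1 / 2) - u := sub_nonneg.2 g3
      have e : (121 / 100) + (5 * u ^ 4 + (-21009 / 5000) * u ^ 2 + (4107 / 10000))
          = (16207 / 625) * ((1 / 2) - u) ^ 4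
            + (64828 / 625) * (u - 0) ^ 1 * ((1 / 2) - u) ^ 3
            + (6939 / 50) * (u - 0) ^ 2 * ((1 / 2) - u) ^ 2
            + (43819 / 625) * (u - 0) ^ 3 * ((1 / 2) - u) ^ 1
            + (3531 / 250) * (u - 0) ^ 4 := by ring
      rw [e]
      positivity
    · have hp : 0 ≤ u - (1 / 2) := sub_nonneg.2 g3
      have hq : 0 ≤ 1 - u := sub_nonneg.2 h1
      have e : (121 / 100) + (5 * u ^ 4 + (-21009 / 5000) * u ^ 2 + (4107 / 10000))
          = (3531 / 250) * (1 - u) ^ 4
            + (26801 / 625) * (u - (1 / 2)) ^ 1 * (1 - u) ^ 3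
            + (71367 / 1250) * (u - (1 / 2)) ^ 2 * (1 - u) ^ 2
            + (38774 / 625) * (u - (1 / 2)) ^ 3 * (1 - u) ^ 1
            + (24189 / 625) * (u - (1 / 2)) ^ 4 := by ring
      rw [e]
      positivity

lemma Qt_bd : ∀ x ∈ Set.Icc (-1 : ℝ) 1, |Qt.eval x| ≤ (121 / 100) := by
  intro x hx
  have h1 := Qup x hx.1 hx.2
  have h2 := Qlo x hx.1 hx.2
  rw [Qt_eval, abs_le]
  constructor <;> linarith

lemma Eup (u : ℝ) (h0 : 0 ≤ u) (h1 : u ≤ (14641 / 10000)) :
    0 ≤ (3 / 1000) - (1 - ((-5501 / 100000) * u ^ 3 + (4603 / 20000) * u ^ 2 + (-46661 / 100000) * u + (19973 / 20000)) ^ 2 * (1 + u)) := by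
  rcases le_total u (14641 / 20000) with g1 | g1
  · have hp : 0 ≤ u - 0 := sub_nonneg.2 h0
    have hq : 0 ≤ (14641 / 20000) - u := sub_nonneg.2 g1
    have e : (3 / 1000) - (1 - ((-5501 / 100000) * u ^ 3 + (4603 / 20000) * u ^ 2 + (-46661 / 100000) * u + (19973 / 20000)) ^ 2 * (1 + u))
        = (386332800000000000000000000 / 144209936106499234037676064081) * ((14641 / 20000) - u) ^ 7
          + (63931042121568000000000000000 / 144209936106499234037676064081) * (u - 0) ^ 1 * ((14641 / 20000) - u) ^ 6
          + (200860521358480454720000000000 / 144209936106499234037676064081) * (u - 0) ^ 2 * ((14641 / 20000) - u) ^ 5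
          + (235992239175791501667696000000 / 144209936106499234037676064081) * (u - 0) ^ 3 * ((14641 / 20000) - u) ^ 4
          + (119464003100991552641612725600 / 144209936106499234037676064081) * (u - 0) ^ 4 * ((14641 / 20000) - u) ^ 3
          + (536145842297020253447424619917 / 3605248402662480850941901602025) * (u - 0) ^ 5 * ((14641 / 20000) - u) ^ 2
          + (327967374765793218883169699086611 / 72104968053249617018838032040500000) * (u - 0) ^ 6 * ((14641 / 20000) - u) ^ 1
          + (4340707218361529365574151427763425081 / 1442099361064992340376760640810000000000) * (u - 0) ^ 7 := by ring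
    rw [e]
    positivity
  · have hp : 0 ≤ u - (14641 / 20000) := sub_nonneg.2 g1
    have hq : 0 ≤ (14641 / 10000) - u := sub_nonneg.2 h1
    have e : (3 / 1000) - (1 - ((-5501 / 100000) * u ^ 3 + (4603 / 20000) * u ^ 2 + (-46661 / 100000) * u + (19973 / 20000)) ^ 2 * (1 + u))
        = (4340707218361529365574151427763425081 / 1442099361064992340376760640810000000000) * ((14641 / 10000) - u) ^ 7
          + (27105276780872773370187363003477865567 / 721049680532496170188380320405000000000) * (u - (14641 / 20000)) ^ 1 * ((14641 / 10000) - u) ^ 6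
          + (125091393329346548888809460029535266701 / 360524840266248085094190160202500000000) * (u - (14641 / 20000)) ^ 2 * ((14641 / 10000) - u) ^ 5
          + (44294512740011046176863249613445645567 / 36052484026624808509419016020250000000) * (u - (14641 / 20000)) ^ 3 * ((14641 / 10000) - u) ^ 4
          + (34530450793285412560026470414279535567 / 18026242013312404254709508010125000000) * (u - (14641 / 20000)) ^ 4 * ((14641 / 10000) - u) ^ 3
          + (61842099940390666006840903037040276701 / 45065605033281010636773770025312500000) * (u - (14641 / 20000)) ^ 5 * ((14641 / 10000) - u) ^ 2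
          + (8396661623189257368607560007647315567 / 22532802516640505318386885012656250000) * (u - (14641 / 20000)) ^ 6 * ((14641 / 10000) - u) ^ 1
          + (30893466005728161779009428597315081 / 11266401258320252659193442506328125000) * (u - (14641 / 20000)) ^ 7 := by ring
    rw [e]
    positivity

lemma Elo (u : ℝ) (h0 : 0 ≤ u) (h1 : u ≤ (14641 / 10000)) :
    0 ≤ (3 / 1000) + (1 - ((-5501 / 100000) * u ^ 3 + (4603 / 20000) * u ^ 2 + (-46661 / 100000) * u + (19973 / 20000)) ^ 2 * (1 + u)) := by
  rcases le_total u (14641 / 20000) with g1 | g1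
  · rcases le_total u (14641 / 80000) with g2 | g2
    · have hp : 0 ≤ u - 0 := sub_nonneg.2 h0
      have hq : 0 ≤ (14641 / 80000) - u := sub_nonneg.2 g2
      have e : (3 / 1000) + (1 - ((-5501 / 100000) * u ^ 3 + (4603 / 20000) * u ^ 2 + (-46661 / 100000) * u + (19973 / 20000)) ^ 2 * (1 + u))
          = (119499443404800000000000000000000 / 144209936106499234037676064081) * ((14641 / 80000) - u) ^ 7
            + (585711489345257472000000000000000 / 144209936106499234037676064081) * (u - 0) ^ 1 * ((14641 / 80000) - u) ^ 6
            + (1183584072963374638366720000000000 / 144209936106499234037676064081) * (u - 0) ^ 2 * ((14641 / 80000) - u) ^ 5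
            + (1269382338057042349448269824000000 / 144209936106499234037676064081) * (u - 0) ^ 3 * ((14641 / 80000) - u) ^ 4
            + (778621822136291168162946257561600 / 144209936106499234037676064081) * (u - 0) ^ 4 * ((14641 / 80000) - u) ^ 3
            + (6972201600004644540652801793921328 / 3605248402662480850941901602025) * (u - 0) ^ 5 * ((14641 / 80000) - u) ^ 2
            + (7413756153278100644850070080310873389 / 18026242013312404254709508010125000) * (u - 0) ^ 6 * ((14641 / 80000) - u) ^ 1
            + (70330599345029357431421511122925839914919 / 1442099361064992340376760640810000000000) * (u - 0) ^ 7 := by ring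
      rw [e]
      positivity
    · rcases le_total u (14641 / 40000) with g5 | g5
      · have hp : 0 ≤ u - (14641 / 80000) := sub_nonneg.2 g2
        have hq : 0 ≤ (14641 / 40000) - u := sub_nonneg.2 g5
        have e : (3 / 1000) + (1 - ((-5501 / 100000) * u ^ 3 + (4603 / 20000) * u ^ 2 + (-46661 / 100000) * u + (19973 / 20000)) ^ 2 * (1 + u))
            = (70330599345029357431421511122925839914919 / 1442099361064992340376760640810000000000) * ((14641 / 40000) - u) ^ 7
              + (195763949284081476225947774648045943844433 / 721049680532496170188380320405000000000) * (u - (14641 / 80000)) ^ 1 * ((14641 / 40000) - u) ^ 6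
              + (394861269459336805361115093698965824853299 / 360524840266248085094190160202500000000) * (u - (14641 / 80000)) ^ 2 * ((14641 / 40000) - u) ^ 5
              + (105228161488225086662485783224908872724433 / 36052484026624808509419016020250000000) * (u - (14641 / 80000)) ^ 3 * ((14641 / 40000) - u) ^ 4
              + (80604501012477432492587194233406737164433 / 18026242013312404254709508010125000000) * (u - (14641 / 80000)) ^ 4 * ((14641 / 40000) - u) ^ 3
              + (171448689317116729306420467604246604813299 / 45065605033281010636773770025312500000) * (u - (14641 / 80000)) ^ 5 * ((14641 / 40000) - u) ^ 2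
              + (37873666414369513003909287738535266044433 / 22532802516640505318386885012656250000) * (u - (14641 / 80000)) ^ 6 * ((14641 / 40000) - u) ^ 1
              + (3398700222799199414584705350623704354919 / 11266401258320252659193442506328125000) * (u - (14641 / 80000)) ^ 7 := by ring
        rw [e]
        positivity
      · have hp : 0 ≤ u - (14641 / 40000) := sub_nonneg.2 g5
        have hq : 0 ≤ (14641 / 20000) - u := sub_nonneg.2 g1
        have e : (3 / 1000) + (1 - ((-5501 / 100000) * u ^ 3 + (4603 / 20000) * u ^ 2 + (-46661 / 100000) * u + (19973 / 20000)) ^ 2 * (1 + u))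
            = (3398700222799199414584705350623704354919 / 1442099361064992340376760640810000000000) * ((14641 / 20000) - u) ^ 7
              + (16749519132206837351184762312281262704433 / 721049680532496170188380320405000000000) * (u - (14641 / 40000)) ^ 1 * ((14641 / 20000) - u) ^ 6
              + (33019258991878546148140649894622984773299 / 360524840266248085094190160202500000000) * (u - (14641 / 40000)) ^ 2 * ((14641 / 20000) - u) ^ 5
              + (6688364482493074209704093863345127144433 / 36052484026624808509419016020250000000) * (u - (14641 / 40000)) ^ 3 * ((14641 / 20000) - u) ^ 4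
              + (3797350663864730494645795458893659364433 / 18026242013312404254709508010125000000) * (u - (14641 / 40000)) ^ 4 * ((14641 / 20000) - u) ^ 3
              + (6106230726523704595677992608159774753299 / 45065605033281010636773770025312500000) * (u - (14641 / 40000)) ^ 5 * ((14641 / 20000) - u) ^ 2
              + (1038255701976153430063317546023923804433 / 22532802516640505318386885012656250000) * (u - (14641 / 40000)) ^ 6 * ((14641 / 20000) - u) ^ 1
              + (72459292781638470634425848572236574919 / 11266401258320252659193442506328125000) * (u - (14641 / 40000)) ^ 7 := by ring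
        rw [e]
        positivity
  · rcases le_total u (43923 / 40000) with g3 | g3
    · have hp : 0 ≤ u - (14641 / 20000) := sub_nonneg.2 g1
      have hq : 0 ≤ (43923 / 40000) - u := sub_nonneg.2 g3
      have e : (3 / 1000) + (1 - ((-5501 / 100000) * u ^ 3 + (4603 / 20000) * u ^ 2 + (-46661 / 100000) * u + (19973 / 20000)) ^ 2 * (1 + u))
          = (72459292781638470634425848572236574919 / 11266401258320252659193442506328125000) * ((43923 / 40000) - u) ^ 7
            + (990604495909723747700606213998700293299 / 22532802516640505318386885012656250000) * (u - (14641 / 20000)) ^ 1 * ((43923 / 40000) - u) ^ 6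
            + (5534416253726548407325456623857092619691 / 45065605033281010636773770025312500000) * (u - (14641 / 20000)) ^ 2 * ((43923 / 40000) - u) ^ 5
            + (3253061713548758089249712924959082599691 / 18026242013312404254709508010125000000) * (u - (14641 / 20000)) ^ 3 * ((43923 / 40000) - u) ^ 4
            + (5383730068216794637748958841482817739073 / 36052484026624808509419016020250000000) * (u - (14641 / 20000)) ^ 4 * ((43923 / 40000) - u) ^ 3
            + (24804692665730711317592501824891889111657 / 360524840266248085094190160202500000000) * (u - (14641 / 20000)) ^ 5 * ((43923 / 40000) - u) ^ 2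
            + (11679212892654683537489368910934818571657 / 721049680532496170188380320405000000000) * (u - (14641 / 20000)) ^ 6 * ((43923 / 40000) - u) ^ 1
            + (2216978687213884887944659720231777727853 / 1442099361064992340376760640810000000000) * (u - (14641 / 20000)) ^ 7 := by ring
      rw [e]
      positivity
    · rcases le_total u (102487 / 80000) with g7 | g7
      · have hp : 0 ≤ u - (43923 / 40000) := sub_nonneg.2 g3
        have hq : 0 ≤ (102487 / 80000) - u := sub_nonneg.2 g7
        have e : (3 / 1000) + (1 - ((-5501 / 100000) * u ^ 3 + (4603 / 20000) * u ^ 2 + (-46661 / 100000) * u + (19973 / 20000)) ^ 2 * (1 + u))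
            = (2216978687213884887944659720231777727853 / 11266401258320252659193442506328125000) * ((102487 / 80000) - u) ^ 7
              + (23198126646182215571859116302997695141599 / 22532802516640505318386885012656250000) * (u - (43923 / 40000)) ^ 1 * ((102487 / 80000) - u) ^ 6
              + (97776078410778481742293413629720078431193 / 45065605033281010636773770025312500000) * (u - (43923 / 40000)) ^ 2 * ((102487 / 80000) - u) ^ 5
              + (42917947123105511506233117100165915122039 / 18026242013312404254709508010125000000) * (u - (43923 / 40000)) ^ 3 * ((102487 / 80000) - u) ^ 4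
              + (55465703637440146437673866018707994898091 / 36052484026624808509419016020250000000) * (u - (43923 / 40000)) ^ 4 * ((102487 / 80000) - u) ^ 3
              + (258069156978321667769961666058619048246637 / 360524840266248085094190160202500000000) * (u - (43923 / 40000)) ^ 5 * ((102487 / 80000) - u) ^ 2
              + (209949737946639385712680613002891969494051 / 721049680532496170188380320405000000000) * (u - (43923 / 40000)) ^ 6 * ((102487 / 80000) - u) ^ 1
              + (100738535444763193455714358105799070858017 / 1442099361064992340376760640810000000000) * (u - (43923 / 40000)) ^ 7 := by ring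
        rw [e]
        positivity
      · have hp : 0 ≤ u - (102487 / 80000) := sub_nonneg.2 g7
        have hq : 0 ≤ (14641 / 10000) - u := sub_nonneg.2 h1
        have e : (3 / 1000) + (1 - ((-5501 / 100000) * u ^ 3 + (4603 / 20000) * u ^ 2 + (-46661 / 100000) * u + (19973 / 20000)) ^ 2 * (1 + u))
            = (100738535444763193455714358105799070858017 / 1442099361064992340376760640810000000000) * ((14641 / 10000) - u) ^ 7
              + (123805002541675742119329973434425381628017 / 180262420133124042547095080101250000000) * (u - (102487 / 80000)) ^ 1 * ((14641 / 10000) - u) ^ 6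
              + (69617498352407026003992469266440482456293 / 22532802516640505318386885012656250000) * (u - (102487 / 80000)) ^ 2 * ((14641 / 10000) - u) ^ 5
              + (4342562306473526849753851058934822513633 / 563320062916012632959672125316406250) * (u - (102487 / 80000)) ^ 3 * ((14641 / 10000) - u) ^ 4
              + (3165066294637079259917797497993713282076 / 281660031458006316479836062658203125) * (u - (102487 / 80000)) ^ 4 * ((14641 / 10000) - u) ^ 3
              + (13405523882382898509387385877378757172832 / 1408300157290031582399180313291015625) * (u - (102487 / 80000)) ^ 5 * ((14641 / 10000) - u) ^ 2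
              + (6119888077969960918188555261763955463936 / 1408300157290031582399180313291015625) * (u - (102487 / 80000)) ^ 6 * ((14641 / 10000) - u) ^ 1
              + (1165530181620268724676588690232698714112 / 1408300157290031582399180313291015625) * (u - (102487 / 80000)) ^ 7 := by ring
        rw [e]
        positivity

lemma Spos (u : ℝ) (h0 : 0 ≤ u) (h1 : u ≤ (14641 / 10000)) :
    0 ≤ (-5501 / 100000) * u ^ 3 + (4603 / 20000) * u ^ 2 + (-46661 / 100000) * u + (19973 / 20000) := by
  have hp : 0 ≤ u - 0 := sub_nonneg.2 h0
  have hq : 0 ≤ (14641 / 10000) - u := sub_nonneg.2 h1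
  have e : (-5501 / 100000) * u ^ 3 + (4603 / 20000) * u ^ 2 + (-46661 / 100000) * u + (19973 / 20000)
      = (998650000000 / 3138428376721) * ((14641 / 10000) - u) ^ 3
        + (2312786299000 / 3138428376721) * (u - 0) ^ 1 * ((14641 / 10000) - u) ^ 2
        + (4245939125243 / 6276856753442) * (u - 0) ^ 2 * ((14641 / 10000) - u) ^ 1
        + (63618831861807779 / 313842837672100000) * (u - 0) ^ 3 := by ring
  rw [e]
  positivity

lemma s_approx : ∀ q, |q| ≤ (121 / 100) → |gg q - q * s q| ≤ (23127 / 19970000) := by
  intro q hq
  have hu0 : 0 ≤ q ^ 2 := sq_nonneg q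
  have hu : q ^ 2 ≤ (14641 / 10000) := by
    have := pow_le_pow_left₀ (abs_nonneg q) hq 2
    rw [sq_abs] at this
    norm_num at this ⊢
    linarith
  have es : s q = (-5501 / 100000) * (q ^ 2) ^ 3 + (4603 / 20000) * (q ^ 2) ^ 2 + (-46661 / 100000) * (q ^ 2) + (19973 / 20000) := by unfold s; ring
  have h := g_approx (q := q) (s := s q) (e0 := (3 / 1000)) (b := (7709 / 10000)) (B := (121 / 100))
    (by rw [es]; exact Spos _ hu0 hu) (by
      have h1 := Eup _ hu0 hu
      have h2 := Elo _ hu0 hu
      rw [es, abs_le]
      constructor <;> linarith) (by norm_num) hq (by norm_num) (by norm_num)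
  refine h.trans (le_of_eq ?_)
  norm_num

lemma mom0 : ∫ x in (-1 : ℝ)..1, (leg 0).eval x * (Qt.eval x * s (Qt.eval x)) = (-47704681050496471049969764280140692413 / 285427642500000000000000000000000000000000) := by
  have e : ∀ x : ℝ, (leg 0).eval x * (Qt.eval x * s (Qt.eval x))
      = ∑ i ∈ Finset.range 15, ([(380402177054076921813644539443657 / 1000000000000000000000000000000000), (-1666909803046285987527501537668013 / 500000000000000000000000000000000), (-901610186393418458345327487601207 / 250000000000000000000000000000000), (697615442172478412391024607970403 / 25000000000000000000000000000000), (746821576146495810112763043740139 / 12500000000000000000000000000000), (-15861494348195678260179155644723479 / 31250000000000000000000000000000), (4476029585426550127669411748014691 / 15625000000000000000000000000000), (47801542994495960032874575848014469 / 7812500000000000000000000000000), (-8778221828010916607298353604087 / 312500000000000000000000000), (833641843784818094667404529 / 12500000000000000000000), (-10108315244821711883927 / 100000000000000000), (406910074826907603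 / 4000000000000), (-52965290407701 / 800000000), (808993563 / 32000), (-137525 / 32)] : List ℝ).getD i 0 * x ^ (2 * i) := by
    intro x
    rw [leg_zero, eval_one, Qt_eval]
    unfold s
    simp only [Finset.sum_range_succ, Finset.sum_range_zero, List.getD_cons_zero, List.getD_cons_succ]
    ring
  simp only [e]
  rw [int_even]
  simp only [Finset.sum_range_succ, Finset.sum_range_zero, List.getD_cons_zero, List.getD_cons_succ]
  norm_num

lemma mom1 : ∫ x in (-1 : ℝ)..1, (leg 1).eval x * (Qt.eval x * s (Qt.eval x)) = 0 := by
  apply odd_int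
  intro x
  have e : Qt.eval (-x) = Qt.eval x := by rw [Qt_eval, Qt_eval]; ring
  rw [e, leg_parity]
  unfold s
  ring

lemma mom2 : ∫ x in (-1 : ℝ)..1, (leg 2).eval x * (Qt.eval x * s (Qt.eval x)) = (-621708821779787444610382076754426628037 / 7521018379875000000000000000000000000000000) := by
  have e : ∀ x : ℝ, (leg 2).eval x * (Qt.eval x * s (Qt.eval x))
      = ∑ i ∈ Finset.range 16, ([(-380402177054076921813644539443657 / 2000000000000000000000000000000000), (4475026137254802740495936693666997 / 2000000000000000000000000000000000), (-25580072290816168367134797102413 / 8000000000000000000000000000000), (-9680984980905039498946228542507651 / 500000000000000000000000000000000), (599203174224443616947547736430931 / 50000000000000000000000000000000), (42925312338588793672049756945549043 / 125000000000000000000000000000000), (-56536542215440135035876290430199819 / 62500000000000000000000000000000), (-16434999446542453936548183290396973 / 6250000000000000000000000000000), (362860174683760795281082567646218407 / 15625000000000000000000000000000), (-47175711578653202188580174037261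 / 625000000000000000000000000), (3764464936957168269493088587 / 25000000000000000000000), (-40497697605137825726781 / 200000000000000000), (1485556676519227809 / 8000000000000), (-179120710298103 / 1600000000), (2564505689 / 64000), (-412575 / 64)] : List ℝ).getD i 0 * x ^ (2 * i) := by
    intro x
    rw [leg_two, Qt_eval]
    unfold s
    simp only [Finset.sum_range_succ, Finset.sum_range_zero, List.getD_cons_zero, List.getD_cons_succ]
    ring
  simp only [e]
  rw [int_even]
  simp only [Finset.sum_range_succ, Finset.sum_range_zero, List.getD_cons_zero, List.getD_cons_succ]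
  norm_num

lemma mom3 : ∫ x in (-1 : ℝ)..1, (leg 3).eval x * (Qt.eval x * s (Qt.eval x)) = 0 := by
  apply odd_int
  intro x
  have e : Qt.eval (-x) = Qt.eval x := by rw [Qt_eval, Qt_eval]; ring
  rw [e, leg_parity]
  unfold s
  ring

lemma eta_bd : ∑ k ∈ Finset.range 4, (2 * (k : ℝ) + 1) / 2 *
        (∫ x in (-1 : ℝ)..1, (leg k).eval x * (Qt.eval x * s (Qt.eval x))) ^ 2 ≤ (1 / 5000) ^ 2 := by
  simp only [Finset.sum_range_succ, Finset.sum_range_zero]
  rw [mom0, mom1, mom2, mom3]
  norm_num

lemma al_val : al 4 = (8 / 7) := by
  simp only [al_succ, al_zero]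
  norm_num

lemma W_eval (x : ℝ) : (P0 4).eval x = 1 * x ^ 5 + (-10 / 7) * x ^ 3 + (3 / 7) * x := by
  rw [P0_eval, al_val, leg_three, leg_four]
  unfold lam
  norm_num
  ring

theorem core {Q P : ℝ[X]} (hQ : Sol 4 Q) (hP : derivative P = Q)
    (hc : P.eval (-1) = - P.eval 1) : (∀ x ∈ Set.Icc (-1 : ℝ) 1, |P.eval x - Pt.eval x| ≤ (519 / 100000)) ∧
      ∀ x ∈ Set.Icc (-1 : ℝ) 1, |Q.eval x| ≤ (121 / 100) + (21 / 1000) :=
  cert (s := s) (B := (121 / 100)) (δ := (21 / 1000)) (κ := (1253 / 5000)) (ε := (23127 / 19970000)) (η := (1 / 5000)) (τ := (519 / 100000))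
    hQ hP hc Qt_coeff Pt_deriv Pt_cen Qt_bd (by norm_num) ⟨by norm_num, by norm_num, by norm_num⟩
    (by unfold s; fun_prop) s_approx (by norm_num) (by norm_num) eta_bd (by norm_num)
    (by norm_num) (by norm_num)

theorem sup {Q P : ℝ[X]} (hQ : Sol 4 Q) (hP : derivative P = Q)
    (hc : P.eval (-1) = - P.eval 1) : ∀ x ∈ Set.Icc (-1 : ℝ) 1, |Q.eval x| ≤ 5 / 4 * al 4 := by
  intro x hx
  refine ((core hQ hP hc).2 x hx).trans ?_
  rw [al_val]; norm_num

lemma Dup (u : ℝ) (h0 : (-1) ≤ u) (h1 : u ≤ 1) :
    0 ≤ (11461 / 250000) - ((979 / 35000) * u ^ 3 + (-1251 / 70000) * u) := by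
  have hp : 0 ≤ u - (-1) := sub_nonneg.2 h0
  have hq : 0 ≤ 1 - u := sub_nonneg.2 h1
  have e : (11461 / 250000) - ((979 / 35000) * u ^ 3 + (-1251 / 70000) * u)
      = (6993 / 1000000) * (1 - u) ^ 3
        + (15639 / 3500000) * (u - (-1)) ^ 1 * (1 - u) ^ 2
        + (209403 / 7000000) * (u - (-1)) ^ 2 * (1 - u) ^ 1
        + (1117 / 250000) * (u - (-1)) ^ 3 := by ring
  rw [e]
  positivity

lemma Dlo (u : ℝ) (h0 : (-1) ≤ u) (h1 : u ≤ 1) :
    0 ≤ (11461 / 250000) + ((979 / 35000) * u ^ 3 + (-1251 / 70000) * u) := by
  have hp : 0 ≤ u - (-1) := sub_nonneg.2 h0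
  have hq : 0 ≤ 1 - u := sub_nonneg.2 h1
  have e : (11461 / 250000) + ((979 / 35000) * u ^ 3 + (-1251 / 70000) * u)
      = (1117 / 250000) * (1 - u) ^ 3
        + (209403 / 7000000) * (u - (-1)) ^ 1 * (1 - u) ^ 2
        + (15639 / 3500000) * (u - (-1)) ^ 2 * (1 - u) ^ 1
        + (6993 / 1000000) * (u - (-1)) ^ 3 := by ring
  rw [e]
  positivity

theorem near {Q P : ℝ[X]} (hQ : Sol 4 Q) (hP : derivative P = Q)
    (hc : P.eval (-1) = - P.eval 1) : ∀ x ∈ Set.Icc (-1 : ℝ) 1,
      (P.eval x - (P0 4).eval x) ^ 2 ≤ al 4 ^ 6 / (4 * ((4 : ℕ) + 1 : ℝ)) := by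
  intro x hx
  have h1 := (core hQ hP hc).1 x hx
  have h2 := Dup x hx.1 hx.2
  have h3 := Dlo x hx.1 hx.2
  have h4 : |Pt.eval x - (P0 4).eval x| ≤ (11461 / 250000) := by
    rw [Pt_eval, W_eval, abs_le]
    constructor <;> linarith
  have h5 : |P.eval x - (P0 4).eval x| ≤ (519 / 100000) + (11461 / 250000) := by
    have e : P.eval x - (P0 4).eval x = (P.eval x - Pt.eval x) + (Pt.eval x - (P0 4).eval x) := by
      ring
    rw [e]
    exact (abs_add_le _ _).trans (add_le_add h1 h4)
  rw [← sq_abs, al_val]
  refine (pow_le_pow_left₀ (abs_nonneg _) h5 2).trans ?_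
  norm_num

theorem close {Q P : ℝ[X]} (hQ : Sol 4 Q) (hP : derivative P = Q)
    (hc : P.eval (-1) = - P.eval 1) : Close 4 P := by
  have hcl := (core hQ hP hc).1
  have hP1 : 0 ≤ P.eval 1 := by
    have h := hcl 1 (by norm_num)
    rw [Pt_eval] at h
    have := (abs_le.1 h).1
    norm_num at this
    linarith
  have hPm : P.eval (-1) ≤ 0 := by rw [hc]; linarith
  obtain ⟨hm, hd⟩ := monic_of_sol hQ hP
  obtain ⟨hm0, hd0⟩ := monic_of_coeff (Q0_coeff 4) (P0_deriv (l := 4) (by norm_num))
  apply close_of_windows hm hd hm0 hd0 (a := fun i => ([(-1), (-33 / 50), (-1 / 50), (63 / 100), (49 / 50)] : List ℝ).getD i 0)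
    (b := fun i => ([(-49 / 50), (-63 / 100), (1 / 50), (33 / 50), 1] : List ℝ).getD i 0)
  · intro i hi
    interval_cases i <;> simp only [List.getD_cons_zero, List.getD_cons_succ] <;> norm_num
  · intro i hi
    have hi' : i < 4 := by omega
    interval_cases i <;> simp only [List.getD_cons_zero, List.getD_cons_succ] <;> norm_num
  · intro i hi
    rw [al_val]
    interval_cases i <;> simp only [List.getD_cons_zero, List.getD_cons_succ] <;> norm_num
  · intro i hi
    interval_cases i
    · simp only [List.getD_cons_zero, List.getD_cons_succ]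
      norm_num
      linarith
    · have h := hcl (-33 / 50) (by norm_num)
      rw [Pt_eval] at h
      have h1 := (abs_le.1 h).1
      have h2 := (abs_le.1 h).2
      simp only [List.getD_cons_zero, List.getD_cons_succ]
      norm_num at h1 h2 ⊢
      linarith
    · have h := hcl (-1 / 50) (by norm_num)
      rw [Pt_eval] at h
      have h1 := (abs_le.1 h).1
      have h2 := (abs_le.1 h).2
      simp only [List.getD_cons_zero, List.getD_cons_succ]
      norm_num at h1 h2 ⊢
      linarith
    · have h := hcl (63 / 100) (by norm_num)
      rw [Pt_eval] at h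
      have h1 := (abs_le.1 h).1
      have h2 := (abs_le.1 h).2
      simp only [List.getD_cons_zero, List.getD_cons_succ]
      norm_num at h1 h2 ⊢
      linarith
    · have h := hcl (49 / 50) (by norm_num)
      rw [Pt_eval] at h
      have h1 := (abs_le.1 h).1
      have h2 := (abs_le.1 h).2
      simp only [List.getD_cons_zero, List.getD_cons_succ]
      norm_num at h1 h2 ⊢
      linarith
  · intro i hi
    interval_cases i
    · have h := hcl (-49 / 50) (by norm_num)
      rw [Pt_eval] at h
      have h1 := (abs_le.1 h).1
      have h2 := (abs_le.1 h).2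
      simp only [List.getD_cons_zero, List.getD_cons_succ]
      norm_num at h1 h2 ⊢
      linarith
    · have h := hcl (-63 / 100) (by norm_num)
      rw [Pt_eval] at h
      have h1 := (abs_le.1 h).1
      have h2 := (abs_le.1 h).2
      simp only [List.getD_cons_zero, List.getD_cons_succ]
      norm_num at h1 h2 ⊢
      linarith
    · have h := hcl (1 / 50) (by norm_num)
      rw [Pt_eval] at h
      have h1 := (abs_le.1 h).1
      have h2 := (abs_le.1 h).2
      simp only [List.getD_cons_zero, List.getD_cons_succ]
      norm_num at h1 h2 ⊢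
      linarith
    · have h := hcl (33 / 50) (by norm_num)
      rw [Pt_eval] at h
      have h1 := (abs_le.1 h).1
      have h2 := (abs_le.1 h).2
      simp only [List.getD_cons_zero, List.getD_cons_succ]
      norm_num at h1 h2 ⊢
      linarith
    · simp only [List.getD_cons_zero, List.getD_cons_succ]
      norm_num
      linarith
  · intro i hi
    rw [W_eval]
    interval_cases i <;> simp only [List.getD_cons_zero, List.getD_cons_succ] <;> norm_num
  · intro i hi
    rw [W_eval]
    interval_cases i <;> simp only [List.getD_cons_zero, List.getD_cons_succ] <;> norm_num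

end Pool.Agent.Helper61.ML.N5
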