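import Pool.Agent.Helper61.ML.Cert

set_option autoImplicit false

open Polynomial MeasureTheory intervalIntegral

namespace Pool.Agent.Helper61.ML.N6

noncomputable def Qt : ℝ[X] := C 6 * X ^ 5 + C (-66189 / 10000) * X ^ 3 + C (14071 / 10000) * X

noncomputable def Pt : ℝ[X] := C 1 * X ^ 6 + C (-66189 / 40000) * X ^ 4 + C (14071 / 20000) * X ^ 2 + C (-1953 / 40000)

noncomputable def s (q : ℝ) : ℝ := (12363 / 12500) + (-17061 / 50000) * q ^ 2

lemma Qt_eval (x : ℝ) : Qt.eval x = 6 * x ^ 5 + (-66189 / 10000) * x ^ 3 + (14071 / 10000) * x := by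
  simp only [Qt, eval_add, eval_mul, eval_C, eval_pow, eval_X]

lemma Pt_eval (x : ℝ) : Pt.eval x = 1 * x ^ 6 + (-66189 / 40000) * x ^ 4 + (14071 / 20000) * x ^ 2 + (-1953 / 40000) := by
  simp only [Pt, eval_add, eval_mul, eval_C, eval_pow, eval_X]

lemma Pt_deriv : derivative Pt = Qt := by
  apply Polynomial.funext
  intro x
  rw [Qt_eval]
  simp only [Pt, derivative_add, derivative_C_mul, derivative_X_pow, derivative_X, derivative_C, eval_add, eval_mul,
    eval_C, eval_pow, eval_X, eval_one, eval_zero, Nat.cast_ofNat]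
  norm_num
  try ring

lemma Pt_cen : Pt.eval (-1) = - Pt.eval 1 := by
  rw [Pt_eval, Pt_eval]; norm_num

lemma Qt_coeff : Qt.coeff 5 = ((5 : ℕ) : ℝ) + 1 ∧ ∀ m, 5 < m → Qt.coeff m = 0 := by
  refine ⟨?_, ?_⟩
  · simp only [Qt, coeff_add, coeff_C_mul, coeff_X_pow, coeff_X, coeff_C]
    norm_num
  · intro m hm
    have h : Qt.natDegree ≤ 5 := by
      unfold Qt; compute_degree
    exact coeff_eq_zero_of_natDegree_lt (lt_of_le_of_lt h hm)

lemma Qup (u : ℝ) (h0 : (-1) ≤ u) (h1 : u ≤ 1) :
    0 ≤ (79 / 100) - (6 * u ^ 5 + (-66189 / 10000) * u ^ 3 + (14071 / 10000) * u) := by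
  rcases le_total u (-1 / 2) with g1 | g1
  · have hp : 0 ≤ u - (-1) := sub_nonneg.2 h0
    have hq : 0 ≤ (-1 / 2) - u := sub_nonneg.2 g1
    have e : (79 / 100) - (6 * u ^ 5 + (-66189 / 10000) * u ^ 3 + (14071 / 10000) * u)
        = (31564 / 625) * ((-1 / 2) - u) ^ 5
          + (42316 / 625) * (u - (-1)) ^ 1 * ((-1 / 2) - u) ^ 4
          + (108681 / 1250) * (u - (-1)) ^ 2 * ((-1 / 2) - u) ^ 3
          + (365251 / 2500) * (u - (-1)) ^ 3 * ((-1 / 2) - u) ^ 2
          + (68548 / 625) * (u - (-1)) ^ 4 * ((-1 / 2) - u) ^ 1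
          + (13659 / 500) * (u - (-1)) ^ 5 := by ring
    rw [e]
    positivity
  · rcases le_total u 0 with g3 | g3
    · have hp : 0 ≤ u - (-1 / 2) := sub_nonneg.2 g1
      have hq : 0 ≤ 0 - u := sub_nonneg.2 g3
      have e : (79 / 100) - (6 * u ^ 5 + (-66189 / 10000) * u ^ 3 + (14071 / 10000) * u)
          = (13659 / 500) * (0 - u) ^ 5
            + (204379 / 1250) * (u - (-1 / 2)) ^ 1 * (0 - u) ^ 4
            + (180703 / 500) * (u - (-1 / 2)) ^ 2 * (0 - u) ^ 3
            + (214284 / 625) * (u - (-1 / 2)) ^ 3 * (0 - u) ^ 2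
            + (93071 / 625) * (u - (-1 / 2)) ^ 4 * (0 - u) ^ 1
            + (632 / 25) * (u - (-1 / 2)) ^ 5 := by ring
      rw [e]
      positivity
    · have hp : 0 ≤ u - 0 := sub_nonneg.2 g3
      have hq : 0 ≤ 1 - u := sub_nonneg.2 h1
      have e : (79 / 100) - (6 * u ^ 5 + (-66189 / 10000) * u ^ 3 + (14071 / 10000) * u)
          = (79 / 100) * (1 - u) ^ 5
            + (25429 / 10000) * (u - 0) ^ 1 * (1 - u) ^ 4
            + (5679 / 2500) * (u - 0) ^ 2 * (1 - u) ^ 3
            + (60763 / 10000) * (u - 0) ^ 3 * (1 - u) ^ 2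
            + (57797 / 5000) * (u - 0) ^ 4 * (1 - u) ^ 1
            + (9 / 5000) * (u - 0) ^ 5 := by ring
      rw [e]
      positivity

lemma Qlo (u : ℝ) (h0 : (-1) ≤ u) (h1 : u ≤ 1) :
    0 ≤ (79 / 100) + (6 * u ^ 5 + (-66189 / 10000) * u ^ 3 + (14071 / 10000) * u) := by
  rcases le_total u 0 with g1 | g1
  · have hp : 0 ≤ u - (-1) := sub_nonneg.2 h0
    have hq : 0 ≤ 0 - u := sub_nonneg.2 g1
    have e : (79 / 100) + (6 * u ^ 5 + (-66189 / 10000) * u ^ 3 + (14071 / 10000) * u)
        = (9 / 5000) * (0 - u) ^ 5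
          + (57797 / 5000) * (u - (-1)) ^ 1 * (0 - u) ^ 4
          + (60763 / 10000) * (u - (-1)) ^ 2 * (0 - u) ^ 3
          + (5679 / 2500) * (u - (-1)) ^ 3 * (0 - u) ^ 2
          + (25429 / 10000) * (u - (-1)) ^ 4 * (0 - u) ^ 1
          + (79 / 100) * (u - (-1)) ^ 5 := by ring
    rw [e]
    positivity
  · rcases le_total u (1 / 2) with g3 | g3
    · have hp : 0 ≤ u - 0 := sub_nonneg.2 g1
      have hq : 0 ≤ (1 / 2) - u := sub_nonneg.2 g3
      have e : (79 / 100) + (6 * u ^ 5 + (-66189 / 10000) * u ^ 3 + (14071 / 10000) * u)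
          = (632 / 25) * ((1 / 2) - u) ^ 5
            + (93071 / 625) * (u - 0) ^ 1 * ((1 / 2) - u) ^ 4
            + (214284 / 625) * (u - 0) ^ 2 * ((1 / 2) - u) ^ 3
            + (180703 / 500) * (u - 0) ^ 3 * ((1 / 2) - u) ^ 2
            + (204379 / 1250) * (u - 0) ^ 4 * ((1 / 2) - u) ^ 1
            + (13659 / 500) * (u - 0) ^ 5 := by ring
      rw [e]
      positivity
    · have hp : 0 ≤ u - (1 / 2) := sub_nonneg.2 g3
      have hq : 0 ≤ 1 - u := sub_nonneg.2 h1
      have e : (79 / 100) + (6 * u ^ 5 + (-66189 / 10000) * u ^ 3 + (14071 / 10000) * u)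
          = (13659 / 500) * (1 - u) ^ 5
            + (68548 / 625) * (u - (1 / 2)) ^ 1 * (1 - u) ^ 4
            + (365251 / 2500) * (u - (1 / 2)) ^ 2 * (1 - u) ^ 3
            + (108681 / 1250) * (u - (1 / 2)) ^ 3 * (1 - u) ^ 2
            + (42316 / 625) * (u - (1 / 2)) ^ 4 * (1 - u) ^ 1
            + (31564 / 625) * (u - (1 / 2)) ^ 5 := by ring
      rw [e]
      positivity

lemma Qt_bd : ∀ x ∈ Set.Icc (-1 : ℝ) 1, |Qt.eval x| ≤ (79 / 100) := by
  intro x hx
  have h1 := Qup x hx.1 hx.2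
  have h2 := Qlo x hx.1 hx.2
  rw [Qt_eval, abs_le]
  constructor <;> linarith

lemma Eup (u : ℝ) (h0 : 0 ≤ u) (h1 : u ≤ (6241 / 10000)) :
    0 ≤ (47 / 2000) - (1 - ((-17061 / 50000) * u + (12363 / 12500)) ^ 2 * (1 + u)) := by
  have hp : 0 ≤ u - 0 := sub_nonneg.2 h0
  have hq : 0 ≤ (6241 / 10000) - u := sub_nonneg.2 h1
  have e : (47 / 2000) - (1 - ((-17061 / 50000) * u + (12363 / 12500)) ^ 2 * (1 + u))
      = (1700121600 / 243087455521) * ((6241 / 10000) - u) ^ 3
        + (971761195512 / 1215437277605) * (u - 0) ^ 1 * ((6241 / 10000) - u) ^ 2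
        + (41514117923152737 / 60771863880250000) * (u - 0) ^ 2 * ((6241 / 10000) - u) ^ 1
        + (4268228032268917641 / 607718638802500000000) * (u - 0) ^ 3 := by ring
  rw [e]
  positivity

lemma Elo (u : ℝ) (h0 : 0 ≤ u) (h1 : u ≤ (6241 / 10000)) :
    0 ≤ (47 / 2000) + (1 - ((-17061 / 50000) * u + (12363 / 12500)) ^ 2 * (1 + u)) := by
  rcases le_total u (6241 / 20000) with g1 | g1
  · have hp : 0 ≤ u - 0 := sub_nonneg.2 h0
    have hq : 0 ≤ (6241 / 20000) - u := sub_nonneg.2 g1
    have e : (47 / 2000) + (1 - ((-17061 / 50000) * u + (12363 / 12500)) ^ 2 * (1 + u))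
        = (362399027200 / 243087455521) * ((6241 / 20000) - u) ^ 3
          + (1650947921952 / 1215437277605) * (u - 0) ^ 1 * ((6241 / 20000) - u) ^ 2
          + (1034671325647263 / 30385931940125000) * (u - 0) ^ 2 * ((6241 / 20000) - u) ^ 1
          + (30459690980203712359 / 607718638802500000000) * (u - 0) ^ 3 := by ring
    rw [e]
    positivity
  · have hp : 0 ≤ u - (6241 / 20000) := sub_nonneg.2 g1
    have hq : 0 ≤ (6241 / 10000) - u := sub_nonneg.2 h1
    have e : (47 / 2000) + (1 - ((-17061 / 50000) * u + (12363 / 12500)) ^ 2 * (1 + u))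
        = (30459690980203712359 / 607718638802500000000) * ((6241 / 10000) - u) ^ 3
          + (81032359684138507077 / 303859319401250000000) * (u - (6241 / 20000)) ^ 1 * ((6241 / 10000) - u) ^ 2
          + (277054136671665877077 / 151929659700625000000) * (u - (6241 / 20000)) ^ 2 * ((6241 / 10000) - u) ^ 1
          + (113231771967731082359 / 75964829850312500000) * (u - (6241 / 20000)) ^ 3 := by ring
    rw [e]
    positivity

lemma Spos (u : ℝ) (h0 : 0 ≤ u) (h1 : u ≤ (6241 / 10000)) :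
    0 ≤ (-17061 / 50000) * u + (12363 / 12500) := by
  have hp : 0 ≤ u - 0 := sub_nonneg.2 h0
  have hq : 0 ≤ (6241 / 10000) - u := sub_nonneg.2 h1
  have e : (-17061 / 50000) * u + (12363 / 12500)
      = (49452 / 31205) * ((6241 / 10000) - u) ^ 1
        + (388042299 / 312050000) * (u - 0) ^ 1 := by ring
  rw [e]
  positivity

lemma s_approx : ∀ q, |q| ≤ (79 / 100) → |gg q - q * s q| ≤ (1457 / 197650) := by
  intro q hq
  have hu0 : 0 ≤ q ^ 2 := sq_nonneg q
  have hu : q ^ 2 ≤ (6241 / 10000) := by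
    have := pow_le_pow_left₀ (abs_nonneg q) hq 2
    rw [sq_abs] at this
    norm_num at this ⊢
    linarith
  have es : s q = (-17061 / 50000) * (q ^ 2) + (12363 / 12500) := by unfold s; ring
  have h := g_approx (q := q) (s := s q) (e0 := (47 / 2000)) (b := (31 / 50)) (B := (79 / 100))
    (by rw [es]; exact Spos _ hu0 hu) (by
      have h1 := Eup _ hu0 hu
      have h2 := Elo _ hu0 hu
      rw [es, abs_le]
      constructor <;> linarith) (by norm_num) hq (by norm_num) (by norm_num)
  refine h.trans (le_of_eq ?_)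
  norm_num

lemma mom0 : ∫ x in (-1 : ℝ)..1, (leg 0).eval x * (Qt.eval x * s (Qt.eval x)) = 0 := by
  apply odd_int
  intro x
  have e : Qt.eval (-x) = -Qt.eval x := by rw [Qt_eval, Qt_eval]; ring
  rw [e, leg_parity]
  unfold s
  ring

lemma mom1 : ∫ x in (-1 : ℝ)..1, (leg 1).eval x * (Qt.eval x * s (Qt.eval x)) = (2235102052981823 / 12085937500000000000) := by
  have e : ∀ x : ℝ, (leg 1).eval x * (Qt.eval x * s (Qt.eval x))
      = ∑ i ∈ Finset.range 9, ([0, (173959773 / 125000000), (-374849107723361571 / 50000000000000000), (967463238862706067 / 50000000000000000), (-3763199590312609953 / 50000000000000000), (10667514494160878409 / 50000000000000000), (-802330948115829 / 2500000000000), (30489764283 / 125000000), (-460647 / 6250)] : List ℝ).getD i 0 * x ^ (2 * i) := by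
    intro x
    rw [leg_one, eval_X, Qt_eval]
    unfold s
    simp only [Finset.sum_range_succ, Finset.sum_range_zero, List.getD_cons_zero, List.getD_cons_succ]
    ring
  simp only [e]
  rw [int_even]
  simp only [Finset.sum_range_succ, Finset.sum_range_zero, List.getD_cons_zero, List.getD_cons_succ]
  norm_num

lemma mom2 : ∫ x in (-1 : ℝ)..1, (leg 2).eval x * (Qt.eval x * s (Qt.eval x)) = 0 := by
  apply odd_int
  intro x
  have e : Qt.eval (-x) = -Qt.eval x := by rw [Qt_eval, Qt_eval]; ring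
  rw [e, leg_parity]
  unfold s
  ring

lemma mom3 : ∫ x in (-1 : ℝ)..1, (leg 3).eval x * (Qt.eval x * s (Qt.eval x)) = (184828239853002089 / 459265625000000000000) := by
  have e : ∀ x : ℝ, (leg 3).eval x * (Qt.eval x * s (Qt.eval x))
      = ∑ i ∈ Finset.range 10, ([0, (-521879319 / 250000000), (1472466869170084713 / 100000000000000000), (-597079406900615757 / 12500000000000000), (8063457482625680097 / 50000000000000000), (-198509927476740957 / 390625000000000), (20295485871550826409 / 20000000000000000), (-1168208119511829 / 1000000000000), (36017528283 / 50000000), (-460647 / 2500)] : List ℝ).getD i 0 * x ^ (2 * i) := by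
    intro x
    rw [leg_three, Qt_eval]
    unfold s
    simp only [Finset.sum_range_succ, Finset.sum_range_zero, List.getD_cons_zero, List.getD_cons_succ]
    ring
  simp only [e]
  rw [int_even]
  simp only [Finset.sum_range_succ, Finset.sum_range_zero, List.getD_cons_zero, List.getD_cons_succ]
  norm_num

lemma mom4 : ∫ x in (-1 : ℝ)..1, (leg 4).eval x * (Qt.eval x * s (Qt.eval x)) = 0 := by
  apply odd_int
  intro x
  have e : Qt.eval (-x) = -Qt.eval x := by rw [Qt_eval, Qt_eval]; ring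
  rw [e, leg_parity]
  unfold s
  ring

lemma eta_bd : ∑ k ∈ Finset.range 5, (2 * (k : ℝ) + 1) / 2 *
        (∫ x in (-1 : ℝ)..1, (leg k).eval x * (Qt.eval x * s (Qt.eval x))) ^ 2 ≤ (9 / 10000) ^ 2 := by
  simp only [Finset.sum_range_succ, Finset.sum_range_zero]
  rw [mom0, mom1, mom2, mom3, mom4]
  norm_num

lemma al_val : al 5 = (16 / 21) := by
  simp only [al_succ, al_zero]
  norm_num

lemma W_eval (x : ℝ) : (P0 5).eval x = 1 * x ^ 6 + (-5 / 3) * x ^ 4 + (5 / 7) * x ^ 2 + (-1 / 21) := by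
  rw [P0_eval, al_val, leg_four, leg_five]
  unfold lam
  norm_num
  ring

theorem core {Q P : ℝ[X]} (hQ : Sol 5 Q) (hP : derivative P = Q)
    (hc : P.eval (-1) = - P.eval 1) : (∀ x ∈ Set.Icc (-1 : ℝ) 1, |P.eval x - Pt.eval x| ≤ (191 / 10000)) ∧
      ∀ x ∈ Set.Icc (-1 : ℝ) 1, |Q.eval x| ≤ (79 / 100) + (191 / 2000) :=
  cert (s := s) (B := (79 / 100)) (δ := (191 / 2000)) (κ := (1049 / 2500)) (ε := (1457 / 197650)) (η := (9 / 10000)) (τ := (191 / 10000))
    hQ hP hc Qt_coeff Pt_deriv Pt_cen Qt_bd (by norm_num) ⟨by norm_num, by norm_num, by norm_num⟩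
    (by unfold s; fun_prop) s_approx (by norm_num) (by norm_num) eta_bd (by norm_num)
    (by norm_num) (by norm_num)

theorem sup {Q P : ℝ[X]} (hQ : Sol 5 Q) (hP : derivative P = Q)
    (hc : P.eval (-1) = - P.eval 1) : ∀ x ∈ Set.Icc (-1 : ℝ) 1, |Q.eval x| ≤ 5 / 4 * al 5 := by
  intro x hx
  refine ((core hQ hP hc).2 x hx).trans ?_
  rw [al_val]; norm_num

lemma Dup (u : ℝ) (h0 : (-1) ≤ u) (h1 : u ≤ 1) :
    0 ≤ (4777 / 200000) - ((1433 / 120000) * u ^ 4 + (-1503 / 140000) * u ^ 2 + (-1013 / 840000)) := by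
  have hp : 0 ≤ u - (-1) := sub_nonneg.2 h0
  have hq : 0 ≤ 1 - u := sub_nonneg.2 h1
  have e : (4777 / 200000) - ((1433 / 120000) * u ^ 4 + (-1503 / 140000) * u ^ 2 + (-1013 / 840000))
      = (4777 / 3200000) * (1 - u) ^ 4
        + (155537 / 16800000) * (u - (-1)) ^ 1 * (1 - u) ^ 3
        + (40197 / 11200000) * (u - (-1)) ^ 2 * (1 - u) ^ 2
        + (155537 / 16800000) * (u - (-1)) ^ 3 * (1 - u) ^ 1
        + (4777 / 3200000) * (u - (-1)) ^ 4 := by ring
  rw [e]
  positivity

lemma Dlo (u : ℝ) (h0 : (-1) ≤ u) (h1 : u ≤ 1) :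
    0 ≤ (4777 / 200000) + ((1433 / 120000) * u ^ 4 + (-1503 / 140000) * u ^ 2 + (-1013 / 840000)) := by
  have hp : 0 ≤ u - (-1) := sub_nonneg.2 h0
  have hq : 0 ≤ 1 - u := sub_nonneg.2 h1
  have e : (4777 / 200000) + ((1433 / 120000) * u ^ 4 + (-1503 / 140000) * u ^ 2 + (-1013 / 840000))
      = (4777 / 3200000) * (1 - u) ^ 4
        + (45097 / 16800000) * (u - (-1)) ^ 1 * (1 - u) ^ 3
        + (160437 / 11200000) * (u - (-1)) ^ 2 * (1 - u) ^ 2
        + (45097 / 16800000) * (u - (-1)) ^ 3 * (1 - u) ^ 1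
        + (4777 / 3200000) * (u - (-1)) ^ 4 := by ring
  rw [e]
  positivity

theorem near {Q P : ℝ[X]} (hQ : Sol 5 Q) (hP : derivative P = Q)
    (hc : P.eval (-1) = - P.eval 1) : ∀ x ∈ Set.Icc (-1 : ℝ) 1,
      (P.eval x - (P0 5).eval x) ^ 2 ≤ al 5 ^ 6 / (4 * ((5 : ℕ) + 1 : ℝ)) := by
  intro x hx
  have h1 := (core hQ hP hc).1 x hx
  have h2 := Dup x hx.1 hx.2
  have h3 := Dlo x hx.1 hx.2
  have h4 : |Pt.eval x - (P0 5).eval x| ≤ (4777 / 200000) := by
    rw [Pt_eval, W_eval, abs_le]
    constructor <;> linarith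
  have h5 : |P.eval x - (P0 5).eval x| ≤ (191 / 10000) + (4777 / 200000) := by
    have e : P.eval x - (P0 5).eval x = (P.eval x - Pt.eval x) + (Pt.eval x - (P0 5).eval x) := by
      ring
    rw [e]
    exact (abs_add_le _ _).trans (add_le_add h1 h4)
  rw [← sq_abs, al_val]
  refine (pow_le_pow_left₀ (abs_nonneg _) h5 2).trans ?_
  norm_num

theorem close {Q P : ℝ[X]} (hQ : Sol 5 Q) (hP : derivative P = Q)
    (hc : P.eval (-1) = - P.eval 1) : Close 5 P := by
  have hcl := (core hQ hP hc).1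
  have hP1 : P.eval 1 = 0 := end_zero hQ hP hc (by decide)
  have hPm : P.eval (-1) = 0 := by rw [hc, hP1, neg_zero]
  obtain ⟨hm, hd⟩ := monic_of_sol hQ hP
  obtain ⟨hm0, hd0⟩ := monic_of_coeff (Q0_coeff 5) (P0_deriv (l := 5) (by norm_num))
  apply close_of_windows hm hd hm0 hd0 (a := fun i => ([(-1), (-821 / 1000), (-3 / 8), (213 / 1000), (137 / 200), (967 / 1000)] : List ℝ).getD i 0)
    (b := fun i => ([(-967 / 1000), (-137 / 200), (-213 / 1000), (3 / 8), (821 / 1000), 1] : List ℝ).getD i 0)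
  · intro i hi
    interval_cases i <;> simp only [List.getD_cons_zero, List.getD_cons_succ] <;> norm_num
  · intro i hi
    have hi' : i < 5 := by omega
    interval_cases i <;> simp only [List.getD_cons_zero, List.getD_cons_succ] <;> norm_num
  · intro i hi
    rw [al_val]
    interval_cases i <;> simp only [List.getD_cons_zero, List.getD_cons_succ] <;> norm_num
  · intro i hi
    interval_cases i
    · simp only [List.getD_cons_zero, List.getD_cons_succ]
      norm_num
      linarith
    · have h := hcl (-821 / 1000) (by norm_num)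
      rw [Pt_eval] at h
      have h1 := (abs_le.1 h).1
      have h2 := (abs_le.1 h).2
      simp only [List.getD_cons_zero, List.getD_cons_succ]
      norm_num at h1 h2 ⊢
      linarith
    · have h := hcl (-3 / 8) (by norm_num)
      rw [Pt_eval] at h
      have h1 := (abs_le.1 h).1
      have h2 := (abs_le.1 h).2
      simp only [List.getD_cons_zero, List.getD_cons_succ]
      norm_num at h1 h2 ⊢
      linarith
    · have h := hcl (213 / 1000) (by norm_num)
      rw [Pt_eval] at h
      have h1 := (abs_le.1 h).1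
      have h2 := (abs_le.1 h).2
      simp only [List.getD_cons_zero, List.getD_cons_succ]
      norm_num at h1 h2 ⊢
      linarith
    · have h := hcl (137 / 200) (by norm_num)
      rw [Pt_eval] at h
      have h1 := (abs_le.1 h).1
      have h2 := (abs_le.1 h).2
      simp only [List.getD_cons_zero, List.getD_cons_succ]
      norm_num at h1 h2 ⊢
      linarith
    · have h := hcl (967 / 1000) (by norm_num)
      rw [Pt_eval] at h
      have h1 := (abs_le.1 h).1
      have h2 := (abs_le.1 h).2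
      simp only [List.getD_cons_zero, List.getD_cons_succ]
      norm_num at h1 h2 ⊢
      linarith
  · intro i hi
    interval_cases i
    · have h := hcl (-967 / 1000) (by norm_num)
      rw [Pt_eval] at h
      have h1 := (abs_le.1 h).1
      have h2 := (abs_le.1 h).2
      simp only [List.getD_cons_zero, List.getD_cons_succ]
      norm_num at h1 h2 ⊢
      linarith
    · have h := hcl (-137 / 200) (by norm_num)
      rw [Pt_eval] at h
      have h1 := (abs_le.1 h).1
      have h2 := (abs_le.1 h).2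
      simp only [List.getD_cons_zero, List.getD_cons_succ]
      norm_num at h1 h2 ⊢
      linarith
    · have h := hcl (-213 / 1000) (by norm_num)
      rw [Pt_eval] at h
      have h1 := (abs_le.1 h).1
      have h2 := (abs_le.1 h).2
      simp only [List.getD_cons_zero, List.getD_cons_succ]
      norm_num at h1 h2 ⊢
      linarith
    · have h := hcl (3 / 8) (by norm_num)
      rw [Pt_eval] at h
      have h1 := (abs_le.1 h).1
      have h2 := (abs_le.1 h).2
      simp only [List.getD_cons_zero, List.getD_cons_succ]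
      norm_num at h1 h2 ⊢
      linarith
    · have h := hcl (821 / 1000) (by norm_num)
      rw [Pt_eval] at h
      have h1 := (abs_le.1 h).1
      have h2 := (abs_le.1 h).2
      simp only [List.getD_cons_zero, List.getD_cons_succ]
      norm_num at h1 h2 ⊢
      linarith
    · simp only [List.getD_cons_zero, List.getD_cons_succ]
      norm_num
      linarith
  · intro i hi
    rw [W_eval]
    interval_cases i <;> simp only [List.getD_cons_zero, List.getD_cons_succ] <;> norm_num
  · intro i hi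
    rw [W_eval]
    interval_cases i <;> simp only [List.getD_cons_zero, List.getD_cons_succ] <;> norm_num

end Pool.Agent.Helper61.ML.N6
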