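import Pool.Agent.Helper61.ML.Cert

set_option autoImplicit false

open Polynomial MeasureTheory intervalIntegral

namespace Pool.Agent.Helper61.ML.N7

noncomputable def Qt : ℝ[X] := C 7 * X ^ 6 + C (-95231 / 10000) * X ^ 4 + C (1979 / 625) * X ^ 2 + C (-94 / 625)

noncomputable def Pt : ℝ[X] := C 1 * X ^ 7 + C (-95231 / 50000) * X ^ 5 + C (1979 / 1875) * X ^ 3 + C (-94 / 625) * X

noncomputable def s (q : ℝ) : ℝ := (9999 / 10000) + (-12307 / 25000) * q ^ 2 + (7093 / 25000) * q ^ 4

lemma Qt_eval (x : ℝ) : Qt.eval x = 7 * x ^ 6 + (-95231 / 10000) * x ^ 4 + (1979 / 625) * x ^ 2 + (-94 / 625) := by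
  simp only [Qt, eval_add, eval_mul, eval_C, eval_pow, eval_X]

lemma Pt_eval (x : ℝ) : Pt.eval x = 1 * x ^ 7 + (-95231 / 50000) * x ^ 5 + (1979 / 1875) * x ^ 3 + (-94 / 625) * x := by
  simp only [Pt, eval_add, eval_mul, eval_C, eval_pow, eval_X]

lemma Pt_deriv : derivative Pt = Qt := by
  apply Polynomial.funext
  intro x
  rw [Qt_eval]
  simp only [Pt, derivative_add, derivative_C_mul, derivative_X_pow, derivative_X, derivative_C, eval_add, eval_mul,
    eval_C, eval_pow, eval_X, eval_one, eval_zero, Nat.cast_ofNat]
  norm_num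
  try ring

lemma Pt_cen : Pt.eval (-1) = - Pt.eval 1 := by
  rw [Pt_eval, Pt_eval]; norm_num

lemma Qt_coeff : Qt.coeff 6 = ((6 : ℕ) : ℝ) + 1 ∧ ∀ m, 6 < m → Qt.coeff m = 0 := by
  refine ⟨?_, ?_⟩
  · simp only [Qt, coeff_add, coeff_C_mul, coeff_X_pow, coeff_X, coeff_C]
    norm_num
  · intro m hm
    have h : Qt.natDegree ≤ 6 := by
      unfold Qt; compute_degree
    exact coeff_eq_zero_of_natDegree_lt (lt_of_le_of_lt h hm)

lemma Qup (u : ℝ) (h0 : (-1) ≤ u) (h1 : u ≤ 1) :
    0 ≤ (987 / 2000) - (7 * u ^ 6 + (-95231 / 10000) * u ^ 4 + (1979 / 625) * u ^ 2 + (-94 / 625)) := by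
  rcases le_total u 0 with g1 | g1
  · have hp : 0 ≤ u - (-1) := sub_nonneg.2 h0
    have hq : 0 ≤ 0 - u := sub_nonneg.2 g1
    have e : (987 / 2000) - (7 * u ^ 6 + (-95231 / 10000) * u ^ 4 + (1979 / 625) * u ^ 2 + (-94 / 625))
        = (3 / 5000) * (0 - u) ^ 6
          + (2561 / 250) * (u - (-1)) ^ 1 * (0 - u) ^ 5
          + (229 / 1250) * (u - (-1)) ^ 2 * (0 - u) ^ 4
          + (531 / 2500) * (u - (-1)) ^ 3 * (0 - u) ^ 3
          + (64921 / 10000) * (u - (-1)) ^ 4 * (0 - u) ^ 2
          + (19317 / 5000) * (u - (-1)) ^ 5 * (0 - u) ^ 1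
          + (6439 / 10000) * (u - (-1)) ^ 6 := by ring
    rw [e]
    positivity
  · have hp : 0 ≤ u - 0 := sub_nonneg.2 g1
    have hq : 0 ≤ 1 - u := sub_nonneg.2 h1
    have e : (987 / 2000) - (7 * u ^ 6 + (-95231 / 10000) * u ^ 4 + (1979 / 625) * u ^ 2 + (-94 / 625))
        = (6439 / 10000) * (1 - u) ^ 6
          + (19317 / 5000) * (u - 0) ^ 1 * (1 - u) ^ 5
          + (64921 / 10000) * (u - 0) ^ 2 * (1 - u) ^ 4
          + (531 / 2500) * (u - 0) ^ 3 * (1 - u) ^ 3
          + (229 / 1250) * (u - 0) ^ 4 * (1 - u) ^ 2
          + (2561 / 250) * (u - 0) ^ 5 * (1 - u) ^ 1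
          + (3 / 5000) * (u - 0) ^ 6 := by ring
    rw [e]
    positivity

lemma Qlo (u : ℝ) (h0 : (-1) ≤ u) (h1 : u ≤ 1) :
    0 ≤ (987 / 2000) + (7 * u ^ 6 + (-95231 / 10000) * u ^ 4 + (1979 / 625) * u ^ 2 + (-94 / 625)) := by
  rcases le_total u 0 with g1 | g1
  · rcases le_total u (-1 / 2) with g2 | g2
    · have hp : 0 ≤ u - (-1) := sub_nonneg.2 h0
      have hq : 0 ≤ (-1 / 2) - u := sub_nonneg.2 g2
      have e : (987 / 2000) + (7 * u ^ 6 + (-95231 / 10000) * u ^ 4 + (1979 / 625) * u ^ 2 + (-94 / 625))
          = (39456 / 625) * ((-1 / 2) - u) ^ 6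
            + (31928 / 625) * (u - (-1)) ^ 1 * ((-1 / 2) - u) ^ 5
            + (78078 / 625) * (u - (-1)) ^ 2 * ((-1 / 2) - u) ^ 4
            + (272614 / 625) * (u - (-1)) ^ 3 * ((-1 / 2) - u) ^ 3
            + (50481 / 100) * (u - (-1)) ^ 4 * ((-1 / 2) - u) ^ 2
            + (300157 / 1250) * (u - (-1)) ^ 5 * ((-1 / 2) - u) ^ 1
            + (103821 / 2500) * (u - (-1)) ^ 6 := by ring
      rw [e]
      positivity
    · have hp : 0 ≤ u - (-1 / 2) := sub_nonneg.2 g2
      have hq : 0 ≤ 0 - u := sub_nonneg.2 g1
      have e : (987 / 2000) + (7 * u ^ 6 + (-95231 / 10000) * u ^ 4 + (1979 / 625) * u ^ 2 + (-94 / 625))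
          = (103821 / 2500) * (0 - u) ^ 6
            + (322769 / 1250) * (u - (-1 / 2)) ^ 1 * (0 - u) ^ 5
            + (297629 / 500) * (u - (-1 / 2)) ^ 2 * (0 - u) ^ 4
            + (401136 / 625) * (u - (-1 / 2)) ^ 3 * (0 - u) ^ 3
            + (237524 / 625) * (u - (-1 / 2)) ^ 4 * (0 - u) ^ 2
            + (82344 / 625) * (u - (-1 / 2)) ^ 5 * (0 - u) ^ 1
            + (13724 / 625) * (u - (-1 / 2)) ^ 6 := by ring
      rw [e]
      positivity
  · rcases le_total u (1 / 2) with g3 | g3
    · have hp : 0 ≤ u - 0 := sub_nonneg.2 g1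
      have hq : 0 ≤ (1 / 2) - u := sub_nonneg.2 g3
      have e : (987 / 2000) + (7 * u ^ 6 + (-95231 / 10000) * u ^ 4 + (1979 / 625) * u ^ 2 + (-94 / 625))
          = (13724 / 625) * ((1 / 2) - u) ^ 6
            + (82344 / 625) * (u - 0) ^ 1 * ((1 / 2) - u) ^ 5
            + (237524 / 625) * (u - 0) ^ 2 * ((1 / 2) - u) ^ 4
            + (401136 / 625) * (u - 0) ^ 3 * ((1 / 2) - u) ^ 3
            + (297629 / 500) * (u - 0) ^ 4 * ((1 / 2) - u) ^ 2
            + (322769 / 1250) * (u - 0) ^ 5 * ((1 / 2) - u) ^ 1
            + (103821 / 2500) * (u - 0) ^ 6 := by ring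
      rw [e]
      positivity
    · have hp : 0 ≤ u - (1 / 2) := sub_nonneg.2 g3
      have hq : 0 ≤ 1 - u := sub_nonneg.2 h1
      have e : (987 / 2000) + (7 * u ^ 6 + (-95231 / 10000) * u ^ 4 + (1979 / 625) * u ^ 2 + (-94 / 625))
          = (103821 / 2500) * (1 - u) ^ 6
            + (300157 / 1250) * (u - (1 / 2)) ^ 1 * (1 - u) ^ 5
            + (50481 / 100) * (u - (1 / 2)) ^ 2 * (1 - u) ^ 4
            + (272614 / 625) * (u - (1 / 2)) ^ 3 * (1 - u) ^ 3
            + (78078 / 625) * (u - (1 / 2)) ^ 4 * (1 - u) ^ 2
            + (31928 / 625) * (u - (1 / 2)) ^ 5 * (1 - u) ^ 1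
            + (39456 / 625) * (u - (1 / 2)) ^ 6 := by ring
      rw [e]
      positivity

lemma Qt_bd : ∀ x ∈ Set.Icc (-1 : ℝ) 1, |Qt.eval x| ≤ (987 / 2000) := by
  intro x hx
  have h1 := Qup x hx.1 hx.2
  have h2 := Qlo x hx.1 hx.2
  rw [Qt_eval, abs_le]
  constructor <;> linarith

lemma Eup (u : ℝ) (h0 : 0 ≤ u) (h1 : u ≤ (974169 / 4000000)) :
    0 ≤ (13 / 50000) - (1 - ((7093 / 25000) * u ^ 2 + (-12307 / 25000) * u + (9999 / 10000)) ^ 2 * (1 + u)) := by
  rcases le_total u (974169 / 8000000) with g1 | g1
  · have hp : 0 ≤ u - 0 := sub_nonneg.2 h0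
    have hq : 0 ≤ (974169 / 8000000) - u := sub_nonneg.2 g1
    have e : (13 / 50000) - (1 - ((7093 / 25000) * u ^ 2 + (-12307 / 25000) * u + (9999 / 10000)) ^ 2 * (1 + u))
        = (1966407680000000000000000000000 / 877347265250300669935309761849) * ((974169 / 8000000) - u) ^ 5
          + (71035527515152384000000000000000 / 877347265250300669935309761849) * (u - 0) ^ 1 * ((974169 / 8000000) - u) ^ 4
          + (179574131995118638660812800000000 / 877347265250300669935309761849) * (u - 0) ^ 2 * ((974169 / 8000000) - u) ^ 3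
          + (163554749104440079097193342771200 / 877347265250300669935309761849) * (u - 0) ^ 3 * ((974169 / 8000000) - u) ^ 2
          + (38290335805760077482759648036763096 / 548342040781437918709568601155625) * (u - 0) ^ 4 * ((974169 / 8000000) - u) ^ 1
          + (5178390125777054984171389026897754630001 / 548342040781437918709568601155625000000) * (u - 0) ^ 5 := by ring
    rw [e]
    positivity
  · rcases le_total u (2922507 / 16000000) with g3 | g3
    · have hp : 0 ≤ u - (974169 / 8000000) := sub_nonneg.2 g1
      have hq : 0 ≤ (2922507 / 16000000) - u := sub_nonneg.2 g3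
      have e : (13 / 50000) - (1 - ((7093 / 25000) * u ^ 2 + (-12307 / 25000) * u + (9999 / 10000)) ^ 2 * (1 + u))
          = (5178390125777054984171389026897754630001 / 17135688774419934959674018786113281250) * ((2922507 / 16000000) - u) ^ 5
            + (7877103216179149455962237473340644690003 / 6854275509767973983869607514445312500) * (u - (974169 / 8000000)) ^ 1 * ((2922507 / 16000000) - u) ^ 4
            + (10879279984108906821805507521164076470009 / 6854275509767973983869607514445312500) * (u - (974169 / 8000000)) ^ 2 * ((2922507 / 16000000) - u) ^ 3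
            + (13824883166428695741595859636518656610027 / 13708551019535947967739215028890625000) * (u - (974169 / 8000000)) ^ 3 * ((2922507 / 16000000) - u) ^ 2
            + (18574466954064116047692045437435251430081 / 54834204078143791870956860115562500000) * (u - (974169 / 8000000)) ^ 4 * ((2922507 / 16000000) - u) ^ 1
            + (38676108253052797348181701822343599090243 / 548342040781437918709568601155625000000) * (u - (974169 / 8000000)) ^ 5 := by ring
      rw [e]
      positivity
    · have hp : 0 ≤ u - (2922507 / 16000000) := sub_nonneg.2 g3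
      have hq : 0 ≤ (974169 / 4000000) - u := sub_nonneg.2 h1
      have e : (13 / 50000) - (1 - ((7093 / 25000) * u ^ 2 + (-12307 / 25000) * u + (9999 / 10000)) ^ 2 * (1 + u))
          = (38676108253052797348181701822343599090243 / 548342040781437918709568601155625000000) * ((974169 / 4000000) - u) ^ 5
            + (10050820649494340650244828192454173830081 / 27417102039071895935478430057781250000) * (u - (2922507 / 16000000)) ^ 1 * ((974169 / 4000000) - u) ^ 4
            + (3838014377838315248598367645997938210027 / 3427137754883986991934803757222656250) * (u - (2922507 / 16000000)) ^ 2 * ((974169 / 4000000) - u) ^ 3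
            + (3387019226509407402021909224607434540018 / 1713568877441993495967401878611328125) * (u - (2922507 / 16000000)) ^ 3 * ((974169 / 4000000) - u) ^ 2
            + (2921880678778007443932221320099717960012 / 1713568877441993495967401878611328125) * (u - (2922507 / 16000000)) ^ 4 * ((974169 / 4000000) - u) ^ 1
            + (4733465630524399301632397064259306080016 / 8567844387209967479837009393056640625) * (u - (2922507 / 16000000)) ^ 5 := by ring
      rw [e]
      positivity

lemma Elo (u : ℝ) (h0 : 0 ≤ u) (h1 : u ≤ (974169 / 4000000)) :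
    0 ≤ (13 / 50000) + (1 - ((7093 / 25000) * u ^ 2 + (-12307 / 25000) * u + (9999 / 10000)) ^ 2 * (1 + u)) := by
  rcases le_total u (974169 / 16000000) with g1 | g1
  · have hp : 0 ≤ u - 0 := sub_nonneg.2 h0
    have hq : 0 ≤ (974169 / 16000000) - u := sub_nonneg.2 g1
    have e : (13 / 50000) + (1 - ((7093 / 25000) * u ^ 2 + (-12307 / 25000) * u + (9999 / 10000)) ^ 2 * (1 + u))
        = (53592719360000000000000000000000 / 97483029472255629992812195761) * ((974169 / 16000000) - u) ^ 5
          + (159157393928617984000000000000000 / 97483029472255629992812195761) * (u - 0) ^ 1 * ((974169 / 16000000) - u) ^ 4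
          + (176172516572686066968166400000000 / 97483029472255629992812195761) * (u - 0) ^ 2 * ((974169 / 16000000) - u) ^ 3
          + (95553072453017644853497003212800 / 97483029472255629992812195761) * (u - 0) ^ 3 * ((974169 / 16000000) - u) ^ 2
          + (19733086118880314701494371888719312 / 60926893420159768745507622350625) * (u - 0) ^ 4 * ((974169 / 16000000) - u) ^ 1
          + (4137412653807603214923902633815461041111 / 60926893420159768745507622350625000000) * (u - 0) ^ 5 := by ring
    rw [e]
    positivity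
  · rcases le_total u (974169 / 8000000) with g3 | g3
    · have hp : 0 ≤ u - (974169 / 16000000) := sub_nonneg.2 g1
      have hq : 0 ≤ (974169 / 8000000) - u := sub_nonneg.2 g3
      have e : (13 / 50000) + (1 - ((7093 / 25000) * u ^ 2 + (-12307 / 25000) * u + (9999 / 10000)) ^ 2 * (1 + u))
          = (4137412653807603214923902633815461041111 / 60926893420159768745507622350625000000) * ((974169 / 8000000) - u) ^ 5
            + (2164104041919571744774465444943529841111 / 6092689342015976874550762235062500000) * (u - (974169 / 16000000)) ^ 1 * ((974169 / 8000000) - u) ^ 4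
            + (1683812187109940975460918931271598641111 / 1523172335503994218637690558765625000) * (u - (974169 / 16000000)) ^ 2 * ((974169 / 8000000) - u) ^ 3
            + (1320189303654601008794463092799667441111 / 761586167751997109318845279382812500) * (u - (974169 / 16000000)) ^ 3 * ((974169 / 8000000) - u) ^ 2
            + (940304745896769946586297929527736241111 / 761586167751997109318845279382812500) * (u - (974169 / 16000000)) ^ 4 * ((974169 / 8000000) - u) ^ 1
            + (607912208246993890647623441455805041111 / 1903965419379992773297113198457031250) * (u - (974169 / 16000000)) ^ 5 := by ring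
      rw [e]
      positivity
    · have hp : 0 ≤ u - (974169 / 8000000) := sub_nonneg.2 g3
      have hq : 0 ≤ (974169 / 4000000) - u := sub_nonneg.2 h1
      have e : (13 / 50000) + (1 - ((7093 / 25000) * u ^ 2 + (-12307 / 25000) * u + (9999 / 10000)) ^ 2 * (1 + u))
          = (607912208246993890647623441455805041111 / 60926893420159768745507622350625000000) * ((974169 / 4000000) - u) ^ 5
            + (441715939422105862678286197419839441111 / 6092689342015976874550762235062500000) * (u - (974169 / 8000000)) ^ 1 * ((974169 / 4000000) - u) ^ 4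
            + (287392675624231586276321622183873841111 / 1523172335503994218637690558765625000) * (u - (974169 / 8000000)) ^ 2 * ((974169 / 4000000) - u) ^ 3
            + (152911628654689324168129715747908241111 / 761586167751997109318845279382812500) * (u - (974169 / 8000000)) ^ 3 * ((974169 / 4000000) - u) ^ 2
            + (58534781569005339080110478111942641111 / 761586167751997109318845279382812500) * (u - (974169 / 8000000)) ^ 4 * ((974169 / 4000000) - u) ^ 1
            + (4106488676913893738663909275977041111 / 1903965419379992773297113198457031250) * (u - (974169 / 8000000)) ^ 5 := by ring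
      rw [e]
      positivity

lemma Spos (u : ℝ) (h0 : 0 ≤ u) (h1 : u ≤ (974169 / 4000000)) :
    0 ≤ (7093 / 25000) * u ^ 2 + (-12307 / 25000) * u + (9999 / 10000) := by
  have hp : 0 ≤ u - 0 := sub_nonneg.2 h0
  have hq : 0 ≤ (974169 / 4000000) - u := sub_nonneg.2 h1
  have e : (7093 / 25000) * u ^ 2 + (-12307 / 25000) * u + (9999 / 10000)
      = (1777600000000 / 105445026729) * ((974169 / 4000000) - u) ^ 2
        + (3342060482080 / 105445026729) * (u - 0) ^ 1 * ((974169 / 4000000) - u) ^ 1
        + (13286477875529599 / 878708556075000) * (u - 0) ^ 2 := by ring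
  rw [e]
  positivity

lemma s_approx : ∀ q, |q| ≤ (987 / 2000) → |gg q - q * s q| ≤ (5993 / 104153125) := by
  intro q hq
  have hu0 : 0 ≤ q ^ 2 := sq_nonneg q
  have hu : q ^ 2 ≤ (974169 / 4000000) := by
    have := pow_le_pow_left₀ (abs_nonneg q) hq 2
    rw [sq_abs] at this
    norm_num at this ⊢
    linarith
  have es : s q = (7093 / 25000) * (q ^ 2) ^ 2 + (-12307 / 25000) * (q ^ 2) + (9999 / 10000) := by unfold s; ring
  have h := g_approx (q := q) (s := s q) (e0 := (13 / 50000)) (b := (1383 / 3125)) (B := (987 / 2000))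
    (by rw [es]; exact Spos _ hu0 hu) (by
      have h1 := Eup _ hu0 hu
      have h2 := Elo _ hu0 hu
      rw [es, abs_le]
      constructor <;> linarith) (by norm_num) hq (by norm_num) (by norm_num)
  refine h.trans (le_of_eq ?_)
  norm_num

lemma mom0 : ∫ x in (-1 : ℝ)..1, (leg 0).eval x * (Qt.eval x * s (Qt.eval x)) = (-825577917493116946632047273167 / 17356196261250000000000000000000000) := by
  have e : ∀ x : ℝ, (leg 0).eval x * (Qt.eval x * s (Qt.eval x))
      = ∑ i ∈ Finset.range 16, ([(-354604772936136957 / 2384185791015625000), (2920726609920672349 / 953674316406250000), (-108043537554820093049 / 15258789062500000000), (-37447987191750594961 / 1907348632812500000), (7926292196113761319403 / 61035156250000000000), (-84803470261640952543163 / 610351562500000000000), (-3494783200105616607611631 / 1953125000000000000000), (2977825983528239629727757 / 244140625000000000000), (-679792801959133738149613419 / 15625000000000000000000), (3260232313354625124849884087 / 31250000000000000000000), (-443203023012340894504266196043 / 2500000000000000000000000),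 (10699063006644607197993971 / 50000000000000000000), (-448169384862419741787 / 2500000000000000), (24760059221793539 / 250000000000), (-1621811832683 / 50000000), (119212051 / 25000)] : List ℝ).getD i 0 * x ^ (2 * i) := by
    intro x
    rw [leg_zero, eval_one, Qt_eval]
    unfold s
    simp only [Finset.sum_range_succ, Finset.sum_range_zero, List.getD_cons_zero, List.getD_cons_succ]
    ring
  simp only [e]
  rw [int_even]
  simp only [Finset.sum_range_succ, Finset.sum_range_zero, List.getD_cons_zero, List.getD_cons_succ]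
  norm_num

lemma mom1 : ∫ x in (-1 : ℝ)..1, (leg 1).eval x * (Qt.eval x * s (Qt.eval x)) = 0 := by
  apply odd_int
  intro x
  have e : Qt.eval (-x) = Qt.eval x := by rw [Qt_eval, Qt_eval]; ring
  rw [e, leg_parity]
  unfold s
  ring

lemma mom2 : ∫ x in (-1 : ℝ)..1, (leg 2).eval x * (Qt.eval x * s (Qt.eval x)) = (1772913733129545051146350859 / 173561962612500000000000000000000) := by
  have e : ∀ x : ℝ, (leg 2).eval x * (Qt.eval x * s (Qt.eval x))
      = ∑ i ∈ Finset.range 17, ([(354604772936136957 / 4768371582031250000), (-16731261687220183487 / 9536743164062500000), (248238414831012365801 / 30517578125000000000), (-24546715130455519459 / 30517578125000000000), (-11521298966521818435659 / 122070312500000000000), (322592236145053792125253 / 1220703125000000000000), (13403349427969317315986331 / 19531250000000000000000), (-34306957468542766860656949 / 3906250000000000000000), (1251535390796555747057342763 / 31250000000000000000000), (-7338989125109427553747564601 / 62500000000000000000000), (1225658778217450924468238376923 / 5000000000000000000000000),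 (-1864562219369253043412497138129 / 5000000000000000000000000), (41060576717182216429721913 / 100000000000000000000), (-1592108746805194615361 / 5000000000000000), (82389236828795617 / 500000000000), (-5103859600049 / 100000000), (357636153 / 50000)] : List ℝ).getD i 0 * x ^ (2 * i) := by
    intro x
    rw [leg_two, Qt_eval]
    unfold s
    simp only [Finset.sum_range_succ, Finset.sum_range_zero, List.getD_cons_zero, List.getD_cons_succ]
    ring
  simp only [e]
  rw [int_even]
  simp only [Finset.sum_range_succ, Finset.sum_range_zero, List.getD_cons_zero, List.getD_cons_succ]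
  norm_num

lemma mom3 : ∫ x in (-1 : ℝ)..1, (leg 3).eval x * (Qt.eval x * s (Qt.eval x)) = 0 := by
  apply odd_int
  intro x
  have e : Qt.eval (-x) = Qt.eval x := by rw [Qt_eval, Qt_eval]; ring
  rw [e, leg_parity]
  unfold s
  ring

lemma mom4 : ∫ x in (-1 : ℝ)..1, (leg 4).eval x * (Qt.eval x * s (Qt.eval x)) = (114829030682454085356326807347 / 141019094622656250000000000000000000) := by
  have e : ∀ x : ℝ, (leg 4).eval x * (Qt.eval x * s (Qt.eval x))
      = ∑ i ∈ Finset.range 18, ([(-1063814318808410871 / 19073486328125000000), (13017437104995660531 / 7629394531250000000), (-361102170912815537007 / 24414062500000000000), (1989080667799082513923 / 61035156250000000000), (44602849034747042093909 / 488281250000000000000), (-3051715526166657917013589 / 4882812500000000000000), (1306846160889618859808023 / 3125000000000000000000), (83406665469271231328490421 / 7812500000000000000000), (-8735343590281193953657390377 / 125000000000000000000000), (63908925463818413204706808761 / 250000000000000000000000), (-12961006312059271916790355543329 / 20000000000000000000000000),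 (2402960061875986826440675697489 / 2000000000000000000000000), (-6581041693997220266000254672301 / 4000000000000000000000000), (131644974336617844080397797 / 80000000000000000000), (-4671443602325040532509 / 4000000000000000), (222690041839044773 / 400000000000), (-12783227440781 / 80000000), (834484357 / 40000)] : List ℝ).getD i 0 * x ^ (2 * i) := by
    intro x
    rw [leg_four, Qt_eval]
    unfold s
    simp only [Finset.sum_range_succ, Finset.sum_range_zero, List.getD_cons_zero, List.getD_cons_succ]
    ring
  simp only [e]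
  rw [int_even]
  simp only [Finset.sum_range_succ, Finset.sum_range_zero, List.getD_cons_zero, List.getD_cons_succ]
  norm_num

lemma mom5 : ∫ x in (-1 : ℝ)..1, (leg 5).eval x * (Qt.eval x * s (Qt.eval x)) = 0 := by
  apply odd_int
  intro x
  have e : Qt.eval (-x) = Qt.eval x := by rw [Qt_eval, Qt_eval]; ring
  rw [e, leg_parity]
  unfold s
  ring

lemma eta_bd : ∑ k ∈ Finset.range 6, (2 * (k : ℝ) + 1) / 2 *
        (∫ x in (-1 : ℝ)..1, (leg k).eval x * (Qt.eval x * s (Qt.eval x))) ^ 2 ≤ (1 / 20000) ^ 2 := by
  simp only [Finset.sum_range_succ, Finset.sum_range_zero]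
  rw [mom0, mom1, mom2, mom3, mom4, mom5]
  norm_num

lemma al_val : al 6 = (16 / 33) := by
  simp only [al_succ, al_zero]
  norm_num

lemma W_eval (x : ℝ) : (P0 6).eval x = 1 * x ^ 7 + (-21 / 11) * x ^ 5 + (35 / 33) * x ^ 3 + (-5 / 33) * x := by
  rw [P0_eval, al_val, leg_five, leg_six]
  unfold lam
  norm_num
  ring

theorem core {Q P : ℝ[X]} (hQ : Sol 6 Q) (hP : derivative P = Q)
    (hc : P.eval (-1) = - P.eval 1) : (∀ x ∈ Set.Icc (-1 : ℝ) 1, |P.eval x - Pt.eval x| ≤ (13 / 100000)) ∧
      ∀ x ∈ Set.Icc (-1 : ℝ) 1, |Q.eval x| ≤ (987 / 2000) + (1 / 1000) :=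
  cert (s := s) (B := (987 / 2000)) (δ := (1 / 1000)) (κ := (3601 / 5000)) (ε := (5993 / 104153125)) (η := (1 / 20000)) (τ := (13 / 100000))
    hQ hP hc Qt_coeff Pt_deriv Pt_cen Qt_bd (by norm_num) ⟨by norm_num, by norm_num, by norm_num⟩
    (by unfold s; fun_prop) s_approx (by norm_num) (by norm_num) eta_bd (by norm_num)
    (by norm_num) (by norm_num)

theorem sup {Q P : ℝ[X]} (hQ : Sol 6 Q) (hP : derivative P = Q)
    (hc : P.eval (-1) = - P.eval 1) : ∀ x ∈ Set.Icc (-1 : ℝ) 1, |Q.eval x| ≤ 5 / 4 * al 6 := by
  intro x hx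
  refine ((core hQ hP hc).2 x hx).trans ?_
  rw [al_val]; norm_num

lemma Dup (u : ℝ) (h0 : (-1) ≤ u) (h1 : u ≤ 1) :
    0 ≤ (10727 / 1000000) - ((2459 / 550000) * u ^ 5 + (-106 / 20625) * u ^ 3 + (23 / 20625) * u) := by
  have hp : 0 ≤ u - (-1) := sub_nonneg.2 h0
  have hq : 0 ≤ 1 - u := sub_nonneg.2 h1
  have e : (10727 / 1000000) - ((2459 / 550000) * u ^ 5 + (-106 / 20625) * u ^ 3 + (23 / 20625) * u)
      = (33521 / 96000000) * (1 - u) ^ 5
        + (262451 / 211200000) * (u - (-1)) ^ 1 * (1 - u) ^ 4
        + (180937 / 35200000) * (u - (-1)) ^ 2 * (1 - u) ^ 3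
        + (55057 / 35200000) * (u - (-1)) ^ 3 * (1 - u) ^ 2
        + (445531 / 211200000) * (u - (-1)) ^ 4 * (1 - u) ^ 1
        + (30841 / 96000000) * (u - (-1)) ^ 5 := by ring
  rw [e]
  positivity

lemma Dlo (u : ℝ) (h0 : (-1) ≤ u) (h1 : u ≤ 1) :
    0 ≤ (10727 / 1000000) + ((2459 / 550000) * u ^ 5 + (-106 / 20625) * u ^ 3 + (23 / 20625) * u) := by
  have hp : 0 ≤ u - (-1) := sub_nonneg.2 h0
  have hq : 0 ≤ 1 - u := sub_nonneg.2 h1
  have e : (10727 / 1000000) + ((2459 / 550000) * u ^ 5 + (-106 / 20625) * u ^ 3 + (23 / 20625) * u)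
      = (30841 / 96000000) * (1 - u) ^ 5
        + (445531 / 211200000) * (u - (-1)) ^ 1 * (1 - u) ^ 4
        + (55057 / 35200000) * (u - (-1)) ^ 2 * (1 - u) ^ 3
        + (180937 / 35200000) * (u - (-1)) ^ 3 * (1 - u) ^ 2
        + (262451 / 211200000) * (u - (-1)) ^ 4 * (1 - u) ^ 1
        + (33521 / 96000000) * (u - (-1)) ^ 5 := by ring
  rw [e]
  positivity

theorem near {Q P : ℝ[X]} (hQ : Sol 6 Q) (hP : derivative P = Q)
    (hc : P.eval (-1) = - P.eval 1) : ∀ x ∈ Set.Icc (-1 : ℝ) 1,
      (P.eval x - (P0 6).eval x) ^ 2 ≤ al 6 ^ 6 / (4 * ((6 : ℕ) + 1 : ℝ)) := by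
  intro x hx
  have h1 := (core hQ hP hc).1 x hx
  have h2 := Dup x hx.1 hx.2
  have h3 := Dlo x hx.1 hx.2
  have h4 : |Pt.eval x - (P0 6).eval x| ≤ (10727 / 1000000) := by
    rw [Pt_eval, W_eval, abs_le]
    constructor <;> linarith
  have h5 : |P.eval x - (P0 6).eval x| ≤ (13 / 100000) + (10727 / 1000000) := by
    have e : P.eval x - (P0 6).eval x = (P.eval x - Pt.eval x) + (Pt.eval x - (P0 6).eval x) := by
      ring
    rw [e]
    exact (abs_add_le _ _).trans (add_le_add h1 h4)
  rw [← sq_abs, al_val]
  refine (pow_le_pow_left₀ (abs_nonneg _) h5 2).trans ?_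
  norm_num

theorem close {Q P : ℝ[X]} (hQ : Sol 6 Q) (hP : derivative P = Q)
    (hc : P.eval (-1) = - P.eval 1) : Close 6 P := by
  have hcl := (core hQ hP hc).1
  have hP1 : 0 ≤ P.eval 1 := by
    have h := hcl 1 (by norm_num)
    rw [Pt_eval] at h
    have := (abs_le.1 h).1
    norm_num at this
    linarith
  have hPm : P.eval (-1) ≤ 0 := by rw [hc]; linarith
  obtain ⟨hm, hd⟩ := monic_of_sol hQ hP
  obtain ⟨hm0, hd0⟩ := monic_of_coeff (Q0_coeff 6) (P0_deriv (l := 6) (by norm_num))
  apply close_of_windows hm hd hm0 hd0 (a := fun i => ([(-1), (-831 / 1000), (-47 / 100), (-1 / 1000), (467 / 1000), (207 / 250), (499 / 500)] : List ℝ).getD i 0)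
    (b := fun i => ([(-499 / 500), (-207 / 250), (-467 / 1000), (1 / 1000), (47 / 100), (831 / 1000), 1] : List ℝ).getD i 0)
  · intro i hi
    interval_cases i <;> simp only [List.getD_cons_zero, List.getD_cons_succ] <;> norm_num
  · intro i hi
    have hi' : i < 6 := by omega
    interval_cases i <;> simp only [List.getD_cons_zero, List.getD_cons_succ] <;> norm_num
  · intro i hi
    rw [al_val]
    interval_cases i <;> simp only [List.getD_cons_zero, List.getD_cons_succ] <;> norm_num
  · intro i hi
    interval_cases i
    · simp only [List.getD_cons_zero, List.getD_cons_succ]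
      norm_num
      linarith
    · have h := hcl (-831 / 1000) (by norm_num)
      rw [Pt_eval] at h
      have h1 := (abs_le.1 h).1
      have h2 := (abs_le.1 h).2
      simp only [List.getD_cons_zero, List.getD_cons_succ]
      norm_num at h1 h2 ⊢
      linarith
    · have h := hcl (-47 / 100) (by norm_num)
      rw [Pt_eval] at h
      have h1 := (abs_le.1 h).1
      have h2 := (abs_le.1 h).2
      simp only [List.getD_cons_zero, List.getD_cons_succ]
      norm_num at h1 h2 ⊢
      linarith
    · have h := hcl (-1 / 1000) (by norm_num)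
      rw [Pt_eval] at h
      have h1 := (abs_le.1 h).1
      have h2 := (abs_le.1 h).2
      simp only [List.getD_cons_zero, List.getD_cons_succ]
      norm_num at h1 h2 ⊢
      linarith
    · have h := hcl (467 / 1000) (by norm_num)
      rw [Pt_eval] at h
      have h1 := (abs_le.1 h).1
      have h2 := (abs_le.1 h).2
      simp only [List.getD_cons_zero, List.getD_cons_succ]
      norm_num at h1 h2 ⊢
      linarith
    · have h := hcl (207 / 250) (by norm_num)
      rw [Pt_eval] at h
      have h1 := (abs_le.1 h).1
      have h2 := (abs_le.1 h).2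
      simp only [List.getD_cons_zero, List.getD_cons_succ]
      norm_num at h1 h2 ⊢
      linarith
    · have h := hcl (499 / 500) (by norm_num)
      rw [Pt_eval] at h
      have h1 := (abs_le.1 h).1
      have h2 := (abs_le.1 h).2
      simp only [List.getD_cons_zero, List.getD_cons_succ]
      norm_num at h1 h2 ⊢
      linarith
  · intro i hi
    interval_cases i
    · have h := hcl (-499 / 500) (by norm_num)
      rw [Pt_eval] at h
      have h1 := (abs_le.1 h).1
      have h2 := (abs_le.1 h).2
      simp only [List.getD_cons_zero, List.getD_cons_succ]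
      norm_num at h1 h2 ⊢
      linarith
    · have h := hcl (-207 / 250) (by norm_num)
      rw [Pt_eval] at h
      have h1 := (abs_le.1 h).1
      have h2 := (abs_le.1 h).2
      simp only [List.getD_cons_zero, List.getD_cons_succ]
      norm_num at h1 h2 ⊢
      linarith
    · have h := hcl (-467 / 1000) (by norm_num)
      rw [Pt_eval] at h
      have h1 := (abs_le.1 h).1
      have h2 := (abs_le.1 h).2
      simp only [List.getD_cons_zero, List.getD_cons_succ]
      norm_num at h1 h2 ⊢
      linarith
    · have h := hcl (1 / 1000) (by norm_num)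
      rw [Pt_eval] at h
      have h1 := (abs_le.1 h).1
      have h2 := (abs_le.1 h).2
      simp only [List.getD_cons_zero, List.getD_cons_succ]
      norm_num at h1 h2 ⊢
      linarith
    · have h := hcl (47 / 100) (by norm_num)
      rw [Pt_eval] at h
      have h1 := (abs_le.1 h).1
      have h2 := (abs_le.1 h).2
      simp only [List.getD_cons_zero, List.getD_cons_succ]
      norm_num at h1 h2 ⊢
      linarith
    · have h := hcl (831 / 1000) (by norm_num)
      rw [Pt_eval] at h
      have h1 := (abs_le.1 h).1
      have h2 := (abs_le.1 h).2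
      simp only [List.getD_cons_zero, List.getD_cons_succ]
      norm_num at h1 h2 ⊢
      linarith
    · simp only [List.getD_cons_zero, List.getD_cons_succ]
      norm_num
      linarith
  · intro i hi
    rw [W_eval]
    interval_cases i <;> simp only [List.getD_cons_zero, List.getD_cons_succ] <;> norm_num
  · intro i hi
    rw [W_eval]
    interval_cases i <;> simp only [List.getD_cons_zero, List.getD_cons_succ] <;> norm_num

end Pool.Agent.Helper61.ML.N7
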