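import Pool.Agent.Helper61.ML.Cert

set_option autoImplicit false

open Polynomial MeasureTheory intervalIntegral

namespace Pool.Agent.Helper61.ML.N8

noncomputable def Qt : ℝ[X] := C 8 * X ^ 7 + C (-1291387 / 100000) * X ^ 5 + C (11731 / 2000) * X ^ 3 + C (-65119 / 100000) * X

noncomputable def Pt : ℝ[X] := C 1 * X ^ 8 + C (-1291387 / 600000) * X ^ 6 + C (11731 / 8000) * X ^ 4 + C (-65119 / 200000) * X ^ 2 + C (6919 / 600000)

noncomputable def s (q : ℝ) : ℝ := (999647 / 1000000) + (-468237 / 1000000) * q ^ 2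

lemma Qt_eval (x : ℝ) : Qt.eval x = 8 * x ^ 7 + (-1291387 / 100000) * x ^ 5 + (11731 / 2000) * x ^ 3 + (-65119 / 100000) * x := by
  simp only [Qt, eval_add, eval_mul, eval_C, eval_pow, eval_X]

lemma Pt_eval (x : ℝ) : Pt.eval x = 1 * x ^ 8 + (-1291387 / 600000) * x ^ 6 + (11731 / 8000) * x ^ 4 + (-65119 / 200000) * x ^ 2 + (6919 / 600000) := by
  simp only [Pt, eval_add, eval_mul, eval_C, eval_pow, eval_X]

lemma Pt_deriv : derivative Pt = Qt := by
  apply Polynomial.funext
  intro x
  rw [Qt_eval]
  simp only [Pt, derivative_add, derivative_C_mul, derivative_X_pow, derivative_X, derivative_C, eval_add, eval_mul,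
    eval_C, eval_pow, eval_X, eval_one, eval_zero, Nat.cast_ofNat]
  norm_num
  try ring

lemma Pt_cen : Pt.eval (-1) = - Pt.eval 1 := by
  rw [Pt_eval, Pt_eval]; norm_num

lemma Qt_coeff : Qt.coeff 7 = ((7 : ℕ) : ℝ) + 1 ∧ ∀ m, 7 < m → Qt.coeff m = 0 := by
  refine ⟨?_, ?_⟩
  · simp only [Qt, coeff_add, coeff_C_mul, coeff_X_pow, coeff_X, coeff_C]
    norm_num
  · intro m hm
    have h : Qt.natDegree ≤ 7 := by
      unfold Qt; compute_degree
    exact coeff_eq_zero_of_natDegree_lt (lt_of_le_of_lt h hm)

lemma Qup (u : ℝ) (h0 : (-1) ≤ u) (h1 : u ≤ 1) :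
    0 ≤ (301 / 1000) - (8 * u ^ 7 + (-1291387 / 100000) * u ^ 5 + (11731 / 2000) * u ^ 3 + (-65119 / 100000) * u) := by
  rcases le_total u 0 with g1 | g1
  · rcases le_total u (-1 / 2) with g2 | g2
    · have hp : 0 ≤ u - (-1) := sub_nonneg.2 h0
      have hq : 0 ≤ (-1 / 2) - u := sub_nonneg.2 g2
      have e : (301 / 1000) - (8 * u ^ 7 + (-1291387 / 100000) * u ^ 5 + (11731 / 2000) * u ^ 3 + (-65119 / 100000) * u)
          = (240576 / 3125) * ((-1 / 2) - u) ^ 7
            + (1768 / 625) * (u - (-1)) ^ 1 * ((-1 / 2) - u) ^ 6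
            + (646724 / 3125) * (u - (-1)) ^ 2 * ((-1 / 2) - u) ^ 5
            + (736968 / 625) * (u - (-1)) ^ 3 * ((-1 / 2) - u) ^ 4
            + (4331621 / 2500) * (u - (-1)) ^ 4 * ((-1 / 2) - u) ^ 3
            + (5732317 / 5000) * (u - (-1)) ^ 5 * ((-1 / 2) - u) ^ 2
            + (2293131 / 6250) * (u - (-1)) ^ 6 * ((-1 / 2) - u) ^ 1
            + (1176109 / 25000) * (u - (-1)) ^ 7 := by ring
      rw [e]
      positivity
    · have hp : 0 ≤ u - (-1 / 2) := sub_nonneg.2 g2
      have hq : 0 ≤ 0 - u := sub_nonneg.2 g1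
      have e : (301 / 1000) - (8 * u ^ 7 + (-1291387 / 100000) * u ^ 5 + (11731 / 2000) * u ^ 3 + (-65119 / 100000) * u)
          = (1176109 / 25000) * (0 - u) ^ 7
            + (3646501 / 12500) * (u - (-1 / 2)) ^ 1 * (0 - u) ^ 6
            + (17384453 / 25000) * (u - (-1 / 2)) ^ 2 * (0 - u) ^ 5
            + (556468 / 625) * (u - (-1 / 2)) ^ 3 * (0 - u) ^ 4
            + (510741 / 625) * (u - (-1 / 2)) ^ 4 * (0 - u) ^ 3
            + (1746972 / 3125) * (u - (-1 / 2)) ^ 5 * (0 - u) ^ 2
            + (712562 / 3125) * (u - (-1 / 2)) ^ 6 * (0 - u) ^ 1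
            + (4816 / 125) * (u - (-1 / 2)) ^ 7 := by ring
      rw [e]
      positivity
  · rcases le_total u (1 / 2) with g3 | g3
    · have hp : 0 ≤ u - 0 := sub_nonneg.2 g1
      have hq : 0 ≤ (1 / 2) - u := sub_nonneg.2 g3
      have e : (301 / 1000) - (8 * u ^ 7 + (-1291387 / 100000) * u ^ 5 + (11731 / 2000) * u ^ 3 + (-65119 / 100000) * u)
          = (4816 / 125) * ((1 / 2) - u) ^ 7
            + (973038 / 3125) * (u - 0) ^ 1 * ((1 / 2) - u) ^ 6
            + (3309828 / 3125) * (u - 0) ^ 2 * ((1 / 2) - u) ^ 5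
            + (1174859 / 625) * (u - 0) ^ 3 * ((1 / 2) - u) ^ 4
            + (1129132 / 625) * (u - 0) ^ 4 * ((1 / 2) - u) ^ 3
            + (23069947 / 25000) * (u - 0) ^ 5 * ((1 / 2) - u) ^ 2
            + (3095899 / 12500) * (u - 0) ^ 6 * ((1 / 2) - u) ^ 1
            + (750291 / 25000) * (u - 0) ^ 7 := by ring
      rw [e]
      positivity
    · have hp : 0 ≤ u - (1 / 2) := sub_nonneg.2 g3
      have hq : 0 ≤ 1 - u := sub_nonneg.2 h1
      have e : (301 / 1000) - (8 * u ^ 7 + (-1291387 / 100000) * u ^ 5 + (11731 / 2000) * u ^ 3 + (-65119 / 100000) * u)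
          = (750291 / 25000) * (1 - u) ^ 7
            + (1078069 / 6250) * (u - (1 / 2)) ^ 1 * (1 - u) ^ 6
            + (2358563 / 5000) * (u - (1 / 2)) ^ 2 * (1 - u) ^ 5
            + (2410779 / 2500) * (u - (1 / 2)) ^ 3 * (1 - u) ^ 4
            + (948632 / 625) * (u - (1 / 2)) ^ 4 * (1 - u) ^ 3
            + (4410076 / 3125) * (u - (1 / 2)) ^ 5 * (1 - u) ^ 2
            + (335352 / 625) * (u - (1 / 2)) ^ 6 * (1 - u) ^ 1
            + (224 / 3125) * (u - (1 / 2)) ^ 7 := by ring
      rw [e]
      positivity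

lemma Qlo (u : ℝ) (h0 : (-1) ≤ u) (h1 : u ≤ 1) :
    0 ≤ (301 / 1000) + (8 * u ^ 7 + (-1291387 / 100000) * u ^ 5 + (11731 / 2000) * u ^ 3 + (-65119 / 100000) * u) := by
  rcases le_total u 0 with g1 | g1
  · rcases le_total u (-1 / 2) with g2 | g2
    · have hp : 0 ≤ u - (-1) := sub_nonneg.2 h0
      have hq : 0 ≤ (-1 / 2) - u := sub_nonneg.2 g2
      have e : (301 / 1000) + (8 * u ^ 7 + (-1291387 / 100000) * u ^ 5 + (11731 / 2000) * u ^ 3 + (-65119 / 100000) * u)
          = (224 / 3125) * ((-1 / 2) - u) ^ 7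
            + (335352 / 625) * (u - (-1)) ^ 1 * ((-1 / 2) - u) ^ 6
            + (4410076 / 3125) * (u - (-1)) ^ 2 * ((-1 / 2) - u) ^ 5
            + (948632 / 625) * (u - (-1)) ^ 3 * ((-1 / 2) - u) ^ 4
            + (2410779 / 2500) * (u - (-1)) ^ 4 * ((-1 / 2) - u) ^ 3
            + (2358563 / 5000) * (u - (-1)) ^ 5 * ((-1 / 2) - u) ^ 2
            + (1078069 / 6250) * (u - (-1)) ^ 6 * ((-1 / 2) - u) ^ 1
            + (750291 / 25000) * (u - (-1)) ^ 7 := by ring
      rw [e]
      positivity
    · have hp : 0 ≤ u - (-1 / 2) := sub_nonneg.2 g2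
      have hq : 0 ≤ 0 - u := sub_nonneg.2 g1
      have e : (301 / 1000) + (8 * u ^ 7 + (-1291387 / 100000) * u ^ 5 + (11731 / 2000) * u ^ 3 + (-65119 / 100000) * u)
          = (750291 / 25000) * (0 - u) ^ 7
            + (3095899 / 12500) * (u - (-1 / 2)) ^ 1 * (0 - u) ^ 6
            + (23069947 / 25000) * (u - (-1 / 2)) ^ 2 * (0 - u) ^ 5
            + (1129132 / 625) * (u - (-1 / 2)) ^ 3 * (0 - u) ^ 4
            + (1174859 / 625) * (u - (-1 / 2)) ^ 4 * (0 - u) ^ 3
            + (3309828 / 3125) * (u - (-1 / 2)) ^ 5 * (0 - u) ^ 2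
            + (973038 / 3125) * (u - (-1 / 2)) ^ 6 * (0 - u) ^ 1
            + (4816 / 125) * (u - (-1 / 2)) ^ 7 := by ring
      rw [e]
      positivity
  · rcases le_total u (1 / 2) with g3 | g3
    · have hp : 0 ≤ u - 0 := sub_nonneg.2 g1
      have hq : 0 ≤ (1 / 2) - u := sub_nonneg.2 g3
      have e : (301 / 1000) + (8 * u ^ 7 + (-1291387 / 100000) * u ^ 5 + (11731 / 2000) * u ^ 3 + (-65119 / 100000) * u)
          = (4816 / 125) * ((1 / 2) - u) ^ 7
            + (712562 / 3125) * (u - 0) ^ 1 * ((1 / 2) - u) ^ 6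
            + (1746972 / 3125) * (u - 0) ^ 2 * ((1 / 2) - u) ^ 5
            + (510741 / 625) * (u - 0) ^ 3 * ((1 / 2) - u) ^ 4
            + (556468 / 625) * (u - 0) ^ 4 * ((1 / 2) - u) ^ 3
            + (17384453 / 25000) * (u - 0) ^ 5 * ((1 / 2) - u) ^ 2
            + (3646501 / 12500) * (u - 0) ^ 6 * ((1 / 2) - u) ^ 1
            + (1176109 / 25000) * (u - 0) ^ 7 := by ring
      rw [e]
      positivity
    · have hp : 0 ≤ u - (1 / 2) := sub_nonneg.2 g3
      have hq : 0 ≤ 1 - u := sub_nonneg.2 h1
      have e : (301 / 1000) + (8 * u ^ 7 + (-1291387 / 100000) * u ^ 5 + (11731 / 2000) * u ^ 3 + (-65119 / 100000) * u)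
          = (1176109 / 25000) * (1 - u) ^ 7
            + (2293131 / 6250) * (u - (1 / 2)) ^ 1 * (1 - u) ^ 6
            + (5732317 / 5000) * (u - (1 / 2)) ^ 2 * (1 - u) ^ 5
            + (4331621 / 2500) * (u - (1 / 2)) ^ 3 * (1 - u) ^ 4
            + (736968 / 625) * (u - (1 / 2)) ^ 4 * (1 - u) ^ 3
            + (646724 / 3125) * (u - (1 / 2)) ^ 5 * (1 - u) ^ 2
            + (1768 / 625) * (u - (1 / 2)) ^ 6 * (1 - u) ^ 1
            + (240576 / 3125) * (u - (1 / 2)) ^ 7 := by ring
      rw [e]
      positivity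

lemma Qt_bd : ∀ x ∈ Set.Icc (-1 : ℝ) 1, |Qt.eval x| ≤ (301 / 1000) := by
  intro x hx
  have h1 := Qup x hx.1 hx.2
  have h2 := Qlo x hx.1 hx.2
  rw [Qt_eval, abs_le]
  constructor <;> linarith

lemma Eup (u : ℝ) (h0 : 0 ≤ u) (h1 : u ≤ (90601 / 1000000)) :
    0 ≤ (9 / 10000) - (1 - ((-468237 / 1000000) * u + (999647 / 1000000)) ^ 2 * (1 + u)) := by
  have hp : 0 ≤ u - 0 := sub_nonneg.2 h0
  have hq : 0 ≤ (90601 / 1000000) - u := sub_nonneg.2 h1
  have e : (9 / 10000) - (1 - ((-468237 / 1000000) * u + (999647 / 1000000)) ^ 2 * (1 + u))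
      = (27732087000000 / 106243148764543) * ((90601 / 1000000) - u) ^ 3
        + (900555770206933 / 106243148764543) * (u - 0) ^ 1 * ((90601 / 1000000) - u) ^ 2
        + (877246284366790541813 / 106243148764543000000) * (u - 0) ^ 2 * ((90601 / 1000000) - u) ^ 1
        + (27715974672610966903391767 / 106243148764543000000000000) * (u - 0) ^ 3 := by ring
  rw [e]
  positivity

lemma Elo (u : ℝ) (h0 : 0 ≤ u) (h1 : u ≤ (90601 / 1000000)) :
    0 ≤ (9 / 10000) + (1 - ((-468237 / 1000000) * u + (999647 / 1000000)) ^ 2 * (1 + u)) := by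
  rcases le_total u (90601 / 2000000) with g1 | g1
  · have hp : 0 ≤ u - 0 := sub_nonneg.2 h0
    have hq : 0 ≤ (90601 / 2000000) - u := sub_nonneg.2 g1
    have e : (9 / 10000) + (1 - ((-468237 / 1000000) * u + (999647 / 1000000)) ^ 2 * (1 + u))
        = (12847003128000000 / 743702041351801) * ((90601 / 2000000) - u) ^ 3
          + (15654943126205876 / 743702041351801) * (u - 0) ^ 1 * ((90601 / 2000000) - u) ^ 2
          + (2269121399535404207309 / 371851020675900500000) * (u - 0) ^ 2 * ((90601 / 2000000) - u) ^ 1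
          + (1567249186275658438985257631 / 743702041351801000000000000) * (u - 0) ^ 3 := by ring
    rw [e]
    positivity
  · have hp : 0 ≤ u - (90601 / 2000000) := sub_nonneg.2 g1
    have hq : 0 ≤ (90601 / 1000000) - u := sub_nonneg.2 h1
    have e : (9 / 10000) + (1 - ((-468237 / 1000000) * u + (999647 / 1000000)) ^ 2 * (1 + u))
        = (1567249186275658438985257631 / 743702041351801000000000000) * ((90601 / 1000000) - u) ^ 3
          + (2432626159291571109646772893 / 371851020675900500000000000) * (u - (90601 / 2000000)) ^ 1 * ((90601 / 1000000) - u) ^ 2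
          + (4077240541307635902337772893 / 185925510337950250000000000) * (u - (90601 / 2000000)) ^ 2 * ((90601 / 1000000) - u) ^ 1
          + (1605988177291723231676257631 / 92962755168975125000000000) * (u - (90601 / 2000000)) ^ 3 := by ring
    rw [e]
    positivity

lemma Spos (u : ℝ) (h0 : 0 ≤ u) (h1 : u ≤ (90601 / 1000000)) :
    0 ≤ (-468237 / 1000000) * u + (999647 / 1000000) := by
  have hp : 0 ≤ u - 0 := sub_nonneg.2 h0
  have hq : 0 ≤ (90601 / 1000000) - u := sub_nonneg.2 h1
  have e : (-468237 / 1000000) * u + (999647 / 1000000)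
      = (999647 / 90601) * ((90601 / 1000000) - u) ^ 1
        + (957224259563 / 90601000000) * (u - 0) ^ 1 := by ring
  rw [e]
  positivity

lemma s_approx : ∀ q, |q| ≤ (301 / 1000) → |gg q - q * s q| ≤ (259407 / 1999100000) := by
  intro q hq
  have hu0 : 0 ≤ q ^ 2 := sq_nonneg q
  have hu : q ^ 2 ≤ (90601 / 1000000) := by
    have := pow_le_pow_left₀ (abs_nonneg q) hq 2
    rw [sq_abs] at this
    norm_num at this ⊢
    linarith
  have es : s q = (-468237 / 1000000) * (q ^ 2) + (999647 / 1000000) := by unfold s; ring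
  have h := g_approx (q := q) (s := s q) (e0 := (9 / 10000)) (b := (28823 / 100000)) (B := (301 / 1000))
    (by rw [es]; exact Spos _ hu0 hu) (by
      have h1 := Eup _ hu0 hu
      have h2 := Elo _ hu0 hu
      rw [es, abs_le]
      constructor <;> linarith) (by norm_num) hq (by norm_num) (by norm_num)
  refine h.trans (le_of_eq ?_)
  norm_num

lemma mom0 : ∫ x in (-1 : ℝ)..1, (leg 0).eval x * (Qt.eval x * s (Qt.eval x)) = 0 := by
  apply odd_int
  intro x
  have e : Qt.eval (-x) = -Qt.eval x := by rw [Qt_eval, Qt_eval]; ring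
  rw [e, leg_parity]
  unfold s
  ring

lemma mom1 : ∫ x in (-1 : ℝ)..1, (leg 1).eval x * (Qt.eval x * s (Qt.eval x)) = (771829044073907051357 / 237669960937500000000000000) := by
  have e : ∀ x : ℝ, (leg 1).eval x * (Qt.eval x * s (Qt.eval x))
      = ∑ i ∈ Finset.range 12, ([0, (-65096012993 / 100000000000), (5992726611974389409683 / 1000000000000000000000), (-328063744906439667301 / 20000000000000000000), (47160105202079328499777 / 1000000000000000000000), (-2378296385115038488023 / 10000000000000000000), (862493266170807155782821 / 1000000000000000000000), (-38993675481780958844829 / 20000000000000000000), (2769374561731590406735911 / 1000000000000000000000), (-3001755569204535759 / 1250000000000000), (1814025524157 / 1562500000), (-3745896 / 15625)] : List ℝ).getD i 0 * x ^ (2 * i) := by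
    intro x
    rw [leg_one, eval_X, Qt_eval]
    unfold s
    simp only [Finset.sum_range_succ, Finset.sum_range_zero, List.getD_cons_zero, List.getD_cons_succ]
    ring
  simp only [e]
  rw [int_even]
  simp only [Finset.sum_range_succ, Finset.sum_range_zero, List.getD_cons_zero, List.getD_cons_succ]
  norm_num

lemma mom2 : ∫ x in (-1 : ℝ)..1, (leg 2).eval x * (Qt.eval x * s (Qt.eval x)) = 0 := by
  apply odd_int
  intro x
  have e : Qt.eval (-x) = -Qt.eval x := by rw [Qt_eval, Qt_eval]; ring
  rw [e, leg_parity]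
  unfold s
  ring

lemma mom3 : ∫ x in (-1 : ℝ)..1, (leg 3).eval x * (Qt.eval x * s (Qt.eval x)) = (230577795866550061561 / 118834980468750000000000000) := by
  have e : ∀ x : ℝ, (leg 3).eval x * (Qt.eval x * s (Qt.eval x))
      = ∑ i ∈ Finset.range 13, ([0, (195288038979 / 200000000000), (-21232980485573168229049 / 2000000000000000000000), (15834638959167579428713 / 400000000000000000000), (-223496251832847902324581 / 2000000000000000000000), (189857888308981637781157 / 400000000000000000000), (-3776627991069940711359963 / 2000000000000000000000), (2032303530624235921127691 / 400000000000000000000), (-18056542555640010931414983 / 2000000000000000000000), (4210217234949767571055911 / 400000000000000000000), (-3872487820799895759 / 500000000000000), (2038779284157 / 625000000), (-1872948 / 3125)] : List ℝ).getD i 0 * x ^ (2 * i) := by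
    intro x
    rw [leg_three, Qt_eval]
    unfold s
    simp only [Finset.sum_range_succ, Finset.sum_range_zero, List.getD_cons_zero, List.getD_cons_succ]
    ring
  simp only [e]
  rw [int_even]
  simp only [Finset.sum_range_succ, Finset.sum_range_zero, List.getD_cons_zero, List.getD_cons_succ]
  norm_num

lemma mom4 : ∫ x in (-1 : ℝ)..1, (leg 4).eval x * (Qt.eval x * s (Qt.eval x)) = 0 := by
  apply odd_int
  intro x
  have e : Qt.eval (-x) = -Qt.eval x := by rw [Qt_eval, Qt_eval]; ring
  rw [e, leg_parity]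
  unfold s
  ring

lemma mom5 : ∫ x in (-1 : ℝ)..1, (leg 5).eval x * (Qt.eval x * s (Qt.eval x)) = (87711984469266872129 / 23766996093750000000000000) := by
  have e : ∀ x : ℝ, (leg 5).eval x * (Qt.eval x * s (Qt.eval x))
      = ∑ i ∈ Finset.range 14, ([0, (-195288038979 / 160000000000), (27091621654943168229049 / 1600000000000000000000), (-17663728992590675228839 / 200000000000000000000), (279145807719764411982523 / 1000000000000000000000), (-98775659228417445987713 / 100000000000000000000), (16278280158049187224194633 / 4000000000000000000000), (-2615076311737924062824103 / 200000000000000000000), (7261111199405251964758059 / 250000000000000000000), (-551105256123868403032383 / 12500000000000000000), (359983554296451398128362393 / 8000000000000000000000), (-295191105412677752817 / 10000000000000000), (140504880021891 / 12500000000), (-29498931 / 15625)] : List ℝ).getD i 0 * x ^ (2 * i) := by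
    intro x
    rw [leg_five, Qt_eval]
    unfold s
    simp only [Finset.sum_range_succ, Finset.sum_range_zero, List.getD_cons_zero, List.getD_cons_succ]
    ring
  simp only [e]
  rw [int_even]
  simp only [Finset.sum_range_succ, Finset.sum_range_zero, List.getD_cons_zero, List.getD_cons_succ]
  norm_num

lemma mom6 : ∫ x in (-1 : ℝ)..1, (leg 6).eval x * (Qt.eval x * s (Qt.eval x)) = 0 := by
  apply odd_int
  intro x
  have e : Qt.eval (-x) = -Qt.eval x := by rw [Qt_eval, Qt_eval]; ring
  rw [e, leg_parity]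
  unfold s
  ring

lemma eta_bd : ∑ k ∈ Finset.range 7, (2 * (k : ℝ) + 1) / 2 *
        (∫ x in (-1 : ℝ)..1, (leg k).eval x * (Qt.eval x * s (Qt.eval x))) ^ 2 ≤ (1 / 50000) ^ 2 := by
  simp only [Finset.sum_range_succ, Finset.sum_range_zero]
  rw [mom0, mom1, mom2, mom3, mom4, mom5, mom6]
  norm_num

lemma al_val : al 7 = (128 / 429) := by
  simp only [al_succ, al_zero]
  norm_num

lemma W_eval (x : ℝ) : (P0 7).eval x = 1 * x ^ 8 + (-28 / 13) * x ^ 6 + (210 / 143) * x ^ 4 + (-140 / 429) * x ^ 2 + (5 / 429) := by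
  rw [P0_eval, al_val, leg_six, leg_seven]
  unfold lam
  norm_num
  ring

theorem core {Q P : ℝ[X]} (hQ : Sol 7 Q) (hP : derivative P = Q)
    (hc : P.eval (-1) = - P.eval 1) : (∀ x ∈ Set.Icc (-1 : ℝ) 1, |P.eval x - Pt.eval x| ≤ (17 / 100000)) ∧
      ∀ x ∈ Set.Icc (-1 : ℝ) 1, |Q.eval x| ≤ (301 / 1000) + (3 / 2000) :=
  cert (s := s) (B := (301 / 1000)) (δ := (3 / 2000)) (κ := (8769 / 10000)) (ε := (259407 / 1999100000)) (η := (1 / 50000)) (τ := (17 / 100000))
    hQ hP hc Qt_coeff Pt_deriv Pt_cen Qt_bd (by norm_num) ⟨by norm_num, by norm_num, by norm_num⟩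
    (by unfold s; fun_prop) s_approx (by norm_num) (by norm_num) eta_bd (by norm_num)
    (by norm_num) (by norm_num)

theorem close {Q P : ℝ[X]} (hQ : Sol 7 Q) (hP : derivative P = Q)
    (hc : P.eval (-1) = - P.eval 1) : Close 7 P := by
  have hcl := (core hQ hP hc).1
  have hP1 : P.eval 1 = 0 := end_zero hQ hP hc (by decide)
  have hPm : P.eval (-1) = 0 := by rw [hc, hP1, neg_zero]
  obtain ⟨hm, hd⟩ := monic_of_sol hQ hP
  obtain ⟨hm0, hd0⟩ := monic_of_coeff (Q0_coeff 7) (P0_deriv (l := 7) (by norm_num))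
  apply close_of_windows hm hd hm0 hd0 (a := fun i => ([(-1), (-873 / 1000), (-119 / 200), (-211 / 1000), (103 / 500), (59 / 100), (869 / 1000), (999 / 1000)] : List ℝ).getD i 0)
    (b := fun i => ([(-999 / 1000), (-869 / 1000), (-59 / 100), (-103 / 500), (211 / 1000), (119 / 200), (873 / 1000), 1] : List ℝ).getD i 0)
  · intro i hi
    interval_cases i <;> simp only [List.getD_cons_zero, List.getD_cons_succ] <;> norm_num
  · intro i hi
    have hi' : i < 7 := by omega
    interval_cases i <;> simp only [List.getD_cons_zero, List.getD_cons_succ] <;> norm_num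
  · intro i hi
    rw [al_val]
    interval_cases i <;> simp only [List.getD_cons_zero, List.getD_cons_succ] <;> norm_num
  · intro i hi
    interval_cases i
    · simp only [List.getD_cons_zero, List.getD_cons_succ]
      norm_num
      linarith
    · have h := hcl (-873 / 1000) (by norm_num)
      rw [Pt_eval] at h
      have h1 := (abs_le.1 h).1
      have h2 := (abs_le.1 h).2
      simp only [List.getD_cons_zero, List.getD_cons_succ]
      norm_num at h1 h2 ⊢
      linarith
    · have h := hcl (-119 / 200) (by norm_num)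
      rw [Pt_eval] at h
      have h1 := (abs_le.1 h).1
      have h2 := (abs_le.1 h).2
      simp only [List.getD_cons_zero, List.getD_cons_succ]
      norm_num at h1 h2 ⊢
      linarith
    · have h := hcl (-211 / 1000) (by norm_num)
      rw [Pt_eval] at h
      have h1 := (abs_le.1 h).1
      have h2 := (abs_le.1 h).2
      simp only [List.getD_cons_zero, List.getD_cons_succ]
      norm_num at h1 h2 ⊢
      linarith
    · have h := hcl (103 / 500) (by norm_num)
      rw [Pt_eval] at h
      have h1 := (abs_le.1 h).1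
      have h2 := (abs_le.1 h).2
      simp only [List.getD_cons_zero, List.getD_cons_succ]
      norm_num at h1 h2 ⊢
      linarith
    · have h := hcl (59 / 100) (by norm_num)
      rw [Pt_eval] at h
      have h1 := (abs_le.1 h).1
      have h2 := (abs_le.1 h).2
      simp only [List.getD_cons_zero, List.getD_cons_succ]
      norm_num at h1 h2 ⊢
      linarith
    · have h := hcl (869 / 1000) (by norm_num)
      rw [Pt_eval] at h
      have h1 := (abs_le.1 h).1
      have h2 := (abs_le.1 h).2
      simp only [List.getD_cons_zero, List.getD_cons_succ]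
      norm_num at h1 h2 ⊢
      linarith
    · have h := hcl (999 / 1000) (by norm_num)
      rw [Pt_eval] at h
      have h1 := (abs_le.1 h).1
      have h2 := (abs_le.1 h).2
      simp only [List.getD_cons_zero, List.getD_cons_succ]
      norm_num at h1 h2 ⊢
      linarith
  · intro i hi
    interval_cases i
    · have h := hcl (-999 / 1000) (by norm_num)
      rw [Pt_eval] at h
      have h1 := (abs_le.1 h).1
      have h2 := (abs_le.1 h).2
      simp only [List.getD_cons_zero, List.getD_cons_succ]
      norm_num at h1 h2 ⊢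
      linarith
    · have h := hcl (-869 / 1000) (by norm_num)
      rw [Pt_eval] at h
      have h1 := (abs_le.1 h).1
      have h2 := (abs_le.1 h).2
      simp only [List.getD_cons_zero, List.getD_cons_succ]
      norm_num at h1 h2 ⊢
      linarith
    · have h := hcl (-59 / 100) (by norm_num)
      rw [Pt_eval] at h
      have h1 := (abs_le.1 h).1
      have h2 := (abs_le.1 h).2
      simp only [List.getD_cons_zero, List.getD_cons_succ]
      norm_num at h1 h2 ⊢
      linarith
    · have h := hcl (-103 / 500) (by norm_num)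
      rw [Pt_eval] at h
      have h1 := (abs_le.1 h).1
      have h2 := (abs_le.1 h).2
      simp only [List.getD_cons_zero, List.getD_cons_succ]
      norm_num at h1 h2 ⊢
      linarith
    · have h := hcl (211 / 1000) (by norm_num)
      rw [Pt_eval] at h
      have h1 := (abs_le.1 h).1
      have h2 := (abs_le.1 h).2
      simp only [List.getD_cons_zero, List.getD_cons_succ]
      norm_num at h1 h2 ⊢
      linarith
    · have h := hcl (119 / 200) (by norm_num)
      rw [Pt_eval] at h
      have h1 := (abs_le.1 h).1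
      have h2 := (abs_le.1 h).2
      simp only [List.getD_cons_zero, List.getD_cons_succ]
      norm_num at h1 h2 ⊢
      linarith
    · have h := hcl (873 / 1000) (by norm_num)
      rw [Pt_eval] at h
      have h1 := (abs_le.1 h).1
      have h2 := (abs_le.1 h).2
      simp only [List.getD_cons_zero, List.getD_cons_succ]
      norm_num at h1 h2 ⊢
      linarith
    · simp only [List.getD_cons_zero, List.getD_cons_succ]
      norm_num
      linarith
  · intro i hi
    rw [W_eval]
    interval_cases i <;> simp only [List.getD_cons_zero, List.getD_cons_succ] <;> norm_num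
  · intro i hi
    rw [W_eval]
    interval_cases i <;> simp only [List.getD_cons_zero, List.getD_cons_succ] <;> norm_num

end Pool.Agent.Helper61.ML.N8
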