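import Pool.Agent.Helper61.ML.Cert

set_option autoImplicit false

open Polynomial MeasureTheory intervalIntegral

namespace Pool.Agent.Helper61.ML.N9

noncomputable def Qt : ℝ[X] := C 9 * X ^ 8 + C (-1049781 / 62500) * X ^ 6 + C (9688161 / 1000000) * X ^ 4 + C (-880537 / 500000) * X ^ 2 + C (48907 / 1000000)

noncomputable def Pt : ℝ[X] := C 1 * X ^ 9 + C (-1049781 / 437500) * X ^ 7 + C (9688161 / 5000000) * X ^ 5 + C (-880537 / 1500000) * X ^ 3 + C (48907 / 1000000) * X

noncomputable def s (q : ℝ) : ℝ := (9999529 / 10000000) + (-4882099 / 10000000) * q ^ 2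

lemma Qt_eval (x : ℝ) : Qt.eval x = 9 * x ^ 8 + (-1049781 / 62500) * x ^ 6 + (9688161 / 1000000) * x ^ 4 + (-880537 / 500000) * x ^ 2 + (48907 / 1000000) := by
  simp only [Qt, eval_add, eval_mul, eval_C, eval_pow, eval_X]

lemma Pt_eval (x : ℝ) : Pt.eval x = 1 * x ^ 9 + (-1049781 / 437500) * x ^ 7 + (9688161 / 5000000) * x ^ 5 + (-880537 / 1500000) * x ^ 3 + (48907 / 1000000) * x := by
  simp only [Pt, eval_add, eval_mul, eval_C, eval_pow, eval_X]

lemma Pt_deriv : derivative Pt = Qt := by
  apply Polynomial.funext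
  intro x
  rw [Qt_eval]
  simp only [Pt, derivative_add, derivative_C_mul, derivative_X_pow, derivative_X, derivative_C, eval_add, eval_mul,
    eval_C, eval_pow, eval_X, eval_one, eval_zero, Nat.cast_ofNat]
  norm_num
  try ring

lemma Pt_cen : Pt.eval (-1) = - Pt.eval 1 := by
  rw [Pt_eval, Pt_eval]; norm_num

lemma Qt_coeff : Qt.coeff 8 = ((8 : ℕ) : ℝ) + 1 ∧ ∀ m, 8 < m → Qt.coeff m = 0 := by
  refine ⟨?_, ?_⟩
  · simp only [Qt, coeff_add, coeff_C_mul, coeff_X_pow, coeff_X, coeff_C]
    norm_num
  · intro m hm
    have h : Qt.natDegree ≤ 8 := by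
      unfold Qt; compute_degree
    exact coeff_eq_zero_of_natDegree_lt (lt_of_le_of_lt h hm)

lemma Qup (u : ℝ) (h0 : (-1) ≤ u) (h1 : u ≤ 1) :
    0 ≤ (359 / 2000) - (9 * u ^ 8 + (-1049781 / 62500) * u ^ 6 + (9688161 / 1000000) * u ^ 4 + (-880537 / 500000) * u ^ 2 + (48907 / 1000000)) := by
  rcases le_total u 0 with g1 | g1
  · rcases le_total u (-1 / 2) with g2 | g2
    · have hp : 0 ≤ u - (-1) := sub_nonneg.2 h0
      have hq : 0 ≤ (-1 / 2) - u := sub_nonneg.2 g2
      have e : (359 / 2000) - (9 * u ^ 8 + (-1049781 / 62500) * u ^ 6 + (9688161 / 1000000) * u ^ 4 + (-880537 / 500000) * u ^ 2 + (48907 / 1000000))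
          = (8 / 15625) * ((-1 / 2) - u) ^ 8
            + (12903104 / 15625) * (u - (-1)) ^ 1 * ((-1 / 2) - u) ^ 7
            + (33901052 / 15625) * (u - (-1)) ^ 2 * ((-1 / 2) - u) ^ 6
            + (35852938 / 15625) * (u - (-1)) ^ 3 * ((-1 / 2) - u) ^ 5
            + (101687239 / 62500) * (u - (-1)) ^ 4 * ((-1 / 2) - u) ^ 4
            + (3994667 / 3125) * (u - (-1)) ^ 5 * ((-1 / 2) - u) ^ 3
            + (1093399 / 1250) * (u - (-1)) ^ 6 * ((-1 / 2) - u) ^ 2
            + (5172167 / 15625) * (u - (-1)) ^ 7 * ((-1 / 2) - u) ^ 1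
            + (3082247 / 62500) * (u - (-1)) ^ 8 := by ring
      rw [e]
      positivity
    · have hp : 0 ≤ u - (-1 / 2) := sub_nonneg.2 g2
      have hq : 0 ≤ 0 - u := sub_nonneg.2 g1
      have e : (359 / 2000) - (9 * u ^ 8 + (-1049781 / 62500) * u ^ 6 + (9688161 / 1000000) * u ^ 4 + (-880537 / 500000) * u ^ 2 + (48907 / 1000000))
          = (3082247 / 62500) * (0 - u) ^ 8
            + (7156821 / 15625) * (u - (-1 / 2)) ^ 1 * (0 - u) ^ 7
            + (55120131 / 31250) * (u - (-1 / 2)) ^ 2 * (0 - u) ^ 6
            + (54786151 / 15625) * (u - (-1 / 2)) ^ 3 * (0 - u) ^ 5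
            + (242240439 / 62500) * (u - (-1 / 2)) ^ 4 * (0 - u) ^ 4
            + (39819276 / 15625) * (u - (-1 / 2)) ^ 5 * (0 - u) ^ 3
            + (3277498 / 3125) * (u - (-1 / 2)) ^ 6 * (0 - u) ^ 2
            + (4178976 / 15625) * (u - (-1 / 2)) ^ 7 * (0 - u) ^ 1
            + (522372 / 15625) * (u - (-1 / 2)) ^ 8 := by ring
      rw [e]
      positivity
  · rcases le_total u (1 / 2) with g3 | g3
    · have hp : 0 ≤ u - 0 := sub_nonneg.2 g1
      have hq : 0 ≤ (1 / 2) - u := sub_nonneg.2 g3
      have e : (359 / 2000) - (9 * u ^ 8 + (-1049781 / 62500) * u ^ 6 + (9688161 / 1000000) * u ^ 4 + (-880537 / 500000) * u ^ 2 + (48907 / 1000000))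
          = (522372 / 15625) * ((1 / 2) - u) ^ 8
            + (4178976 / 15625) * (u - 0) ^ 1 * ((1 / 2) - u) ^ 7
            + (3277498 / 3125) * (u - 0) ^ 2 * ((1 / 2) - u) ^ 6
            + (39819276 / 15625) * (u - 0) ^ 3 * ((1 / 2) - u) ^ 5
            + (242240439 / 62500) * (u - 0) ^ 4 * ((1 / 2) - u) ^ 4
            + (54786151 / 15625) * (u - 0) ^ 5 * ((1 / 2) - u) ^ 3
            + (55120131 / 31250) * (u - 0) ^ 6 * ((1 / 2) - u) ^ 2
            + (7156821 / 15625) * (u - 0) ^ 7 * ((1 / 2) - u) ^ 1
            + (3082247 / 62500) * (u - 0) ^ 8 := by ring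
      rw [e]
      positivity
    · have hp : 0 ≤ u - (1 / 2) := sub_nonneg.2 g3
      have hq : 0 ≤ 1 - u := sub_nonneg.2 h1
      have e : (359 / 2000) - (9 * u ^ 8 + (-1049781 / 62500) * u ^ 6 + (9688161 / 1000000) * u ^ 4 + (-880537 / 500000) * u ^ 2 + (48907 / 1000000))
          = (3082247 / 62500) * (1 - u) ^ 8
            + (5172167 / 15625) * (u - (1 / 2)) ^ 1 * (1 - u) ^ 7
            + (1093399 / 1250) * (u - (1 / 2)) ^ 2 * (1 - u) ^ 6
            + (3994667 / 3125) * (u - (1 / 2)) ^ 3 * (1 - u) ^ 5
            + (101687239 / 62500) * (u - (1 / 2)) ^ 4 * (1 - u) ^ 4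
            + (35852938 / 15625) * (u - (1 / 2)) ^ 5 * (1 - u) ^ 3
            + (33901052 / 15625) * (u - (1 / 2)) ^ 6 * (1 - u) ^ 2
            + (12903104 / 15625) * (u - (1 / 2)) ^ 7 * (1 - u) ^ 1
            + (8 / 15625) * (u - (1 / 2)) ^ 8 := by ring
      rw [e]
      positivity

lemma Qlo (u : ℝ) (h0 : (-1) ≤ u) (h1 : u ≤ 1) :
    0 ≤ (359 / 2000) + (9 * u ^ 8 + (-1049781 / 62500) * u ^ 6 + (9688161 / 1000000) * u ^ 4 + (-880537 / 500000) * u ^ 2 + (48907 / 1000000)) := by
  rcases le_total u 0 with g1 | g1
  · rcases le_total u (-3 / 4) with g2 | g2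
    · have hp : 0 ≤ u - (-1) := sub_nonneg.2 h0
      have hq : 0 ≤ (-3 / 4) - u := sub_nonneg.2 g2
      have e : (359 / 2000) + (9 * u ^ 8 + (-1049781 / 62500) * u ^ 6 + (9688161 / 1000000) * u ^ 4 + (-880537 / 500000) * u ^ 2 + (48907 / 1000000))
          = (367613952 / 15625) * ((-3 / 4) - u) ^ 8
            + (1289322496 / 15625) * (u - (-1)) ^ 1 * ((-3 / 4) - u) ^ 7
            + (2342975744 / 15625) * (u - (-1)) ^ 2 * ((-3 / 4) - u) ^ 6
            + (4259299776 / 15625) * (u - (-1)) ^ 3 * ((-3 / 4) - u) ^ 5
            + (7096136324 / 15625) * (u - (-1)) ^ 4 * ((-3 / 4) - u) ^ 4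
            + (7707935344 / 15625) * (u - (-1)) ^ 5 * ((-3 / 4) - u) ^ 3
            + (4836732324 / 15625) * (u - (-1)) ^ 6 * ((-3 / 4) - u) ^ 2
            + (321342728 / 3125) * (u - (-1)) ^ 7 * ((-3 / 4) - u) ^ 1
            + (219953537 / 15625) * (u - (-1)) ^ 8 := by ring
      rw [e]
      positivity
    · rcases le_total u (-1 / 2) with g5 | g5
      · have hp : 0 ≤ u - (-3 / 4) := sub_nonneg.2 g2
        have hq : 0 ≤ (-1 / 2) - u := sub_nonneg.2 g5
        have e : (359 / 2000) + (9 * u ^ 8 + (-1049781 / 62500) * u ^ 6 + (9688161 / 1000000) * u ^ 4 + (-880537 / 500000) * u ^ 2 + (48907 / 1000000))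
            = (219953537 / 15625) * ((-1 / 2) - u) ^ 8
              + (1912542952 / 15625) * (u - (-3 / 4)) ^ 1 * ((-1 / 2) - u) ^ 7
              + (6977537508 / 15625) * (u - (-3 / 4)) ^ 2 * ((-1 / 2) - u) ^ 6
              + (2781618272 / 3125) * (u - (-3 / 4)) ^ 3 * ((-1 / 2) - u) ^ 5
              + (16688864564 / 15625) * (u - (-3 / 4)) ^ 4 * ((-1 / 2) - u) ^ 4
              + (498665952 / 625) * (u - (-3 / 4)) ^ 5 * ((-1 / 2) - u) ^ 3
              + (5720551328 / 15625) * (u - (-3 / 4)) ^ 6 * ((-1 / 2) - u) ^ 2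
              + (1489835392 / 15625) * (u - (-3 / 4)) ^ 7 * ((-1 / 2) - u) ^ 1
              + (170352192 / 15625) * (u - (-3 / 4)) ^ 8 := by ring
        rw [e]
        positivity
      · have hp : 0 ≤ u - (-1 / 2) := sub_nonneg.2 g5
        have hq : 0 ≤ 0 - u := sub_nonneg.2 g1
        have e : (359 / 2000) + (9 * u ^ 8 + (-1049781 / 62500) * u ^ 6 + (9688161 / 1000000) * u ^ 4 + (-880537 / 500000) * u ^ 2 + (48907 / 1000000))
            = (2661753 / 62500) * (0 - u) ^ 8
              + (4331179 / 15625) * (u - (-1 / 2)) ^ 1 * (0 - u) ^ 7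
              + (25295869 / 31250) * (u - (-1 / 2)) ^ 2 * (0 - u) ^ 6
              + (25629849 / 15625) * (u - (-1 / 2)) ^ 3 * (0 - u) ^ 5
              + (159839561 / 62500) * (u - (-1 / 2)) ^ 4 * (0 - u) ^ 4
              + (40596724 / 15625) * (u - (-1 / 2)) ^ 5 * (0 - u) ^ 3
              + (4764102 / 3125) * (u - (-1 / 2)) ^ 6 * (0 - u) ^ 2
              + (7309024 / 15625) * (u - (-1 / 2)) ^ 7 * (0 - u) ^ 1
              + (913628 / 15625) * (u - (-1 / 2)) ^ 8 := by ring
        rw [e]
        positivity
  · rcases le_total u (1 / 2) with g3 | g3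
    · have hp : 0 ≤ u - 0 := sub_nonneg.2 g1
      have hq : 0 ≤ (1 / 2) - u := sub_nonneg.2 g3
      have e : (359 / 2000) + (9 * u ^ 8 + (-1049781 / 62500) * u ^ 6 + (9688161 / 1000000) * u ^ 4 + (-880537 / 500000) * u ^ 2 + (48907 / 1000000))
          = (913628 / 15625) * ((1 / 2) - u) ^ 8
            + (7309024 / 15625) * (u - 0) ^ 1 * ((1 / 2) - u) ^ 7
            + (4764102 / 3125) * (u - 0) ^ 2 * ((1 / 2) - u) ^ 6
            + (40596724 / 15625) * (u - 0) ^ 3 * ((1 / 2) - u) ^ 5
            + (159839561 / 62500) * (u - 0) ^ 4 * ((1 / 2) - u) ^ 4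
            + (25629849 / 15625) * (u - 0) ^ 5 * ((1 / 2) - u) ^ 3
            + (25295869 / 31250) * (u - 0) ^ 6 * ((1 / 2) - u) ^ 2
            + (4331179 / 15625) * (u - 0) ^ 7 * ((1 / 2) - u) ^ 1
            + (2661753 / 62500) * (u - 0) ^ 8 := by ring
      rw [e]
      positivity
    · rcases le_total u (3 / 4) with g7 | g7
      · have hp : 0 ≤ u - (1 / 2) := sub_nonneg.2 g3
        have hq : 0 ≤ (3 / 4) - u := sub_nonneg.2 g7
        have e : (359 / 2000) + (9 * u ^ 8 + (-1049781 / 62500) * u ^ 6 + (9688161 / 1000000) * u ^ 4 + (-880537 / 500000) * u ^ 2 + (48907 / 1000000))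
            = (170352192 / 15625) * ((3 / 4) - u) ^ 8
              + (1489835392 / 15625) * (u - (1 / 2)) ^ 1 * ((3 / 4) - u) ^ 7
              + (5720551328 / 15625) * (u - (1 / 2)) ^ 2 * ((3 / 4) - u) ^ 6
              + (498665952 / 625) * (u - (1 / 2)) ^ 3 * ((3 / 4) - u) ^ 5
              + (16688864564 / 15625) * (u - (1 / 2)) ^ 4 * ((3 / 4) - u) ^ 4
              + (2781618272 / 3125) * (u - (1 / 2)) ^ 5 * ((3 / 4) - u) ^ 3
              + (6977537508 / 15625) * (u - (1 / 2)) ^ 6 * ((3 / 4) - u) ^ 2
              + (1912542952 / 15625) * (u - (1 / 2)) ^ 7 * ((3 / 4) - u) ^ 1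
              + (219953537 / 15625) * (u - (1 / 2)) ^ 8 := by ring
        rw [e]
        positivity
      · have hp : 0 ≤ u - (3 / 4) := sub_nonneg.2 g7
        have hq : 0 ≤ 1 - u := sub_nonneg.2 h1
        have e : (359 / 2000) + (9 * u ^ 8 + (-1049781 / 62500) * u ^ 6 + (9688161 / 1000000) * u ^ 4 + (-880537 / 500000) * u ^ 2 + (48907 / 1000000))
            = (219953537 / 15625) * (1 - u) ^ 8
              + (321342728 / 3125) * (u - (3 / 4)) ^ 1 * (1 - u) ^ 7
              + (4836732324 / 15625) * (u - (3 / 4)) ^ 2 * (1 - u) ^ 6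
              + (7707935344 / 15625) * (u - (3 / 4)) ^ 3 * (1 - u) ^ 5
              + (7096136324 / 15625) * (u - (3 / 4)) ^ 4 * (1 - u) ^ 4
              + (4259299776 / 15625) * (u - (3 / 4)) ^ 5 * (1 - u) ^ 3
              + (2342975744 / 15625) * (u - (3 / 4)) ^ 6 * (1 - u) ^ 2
              + (1289322496 / 15625) * (u - (3 / 4)) ^ 7 * (1 - u) ^ 1
              + (367613952 / 15625) * (u - (3 / 4)) ^ 8 := by ring
        rw [e]
        positivity

lemma Qt_bd : ∀ x ∈ Set.Icc (-1 : ℝ) 1, |Qt.eval x| ≤ (359 / 2000) := by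
  intro x hx
  have h1 := Qup x hx.1 hx.2
  have h2 := Qlo x hx.1 hx.2
  rw [Qt_eval, abs_le]
  constructor <;> linarith

lemma Eup (u : ℝ) (h0 : 0 ≤ u) (h1 : u ≤ (128881 / 4000000)) :
    0 ≤ (13 / 100000) - (1 - ((-4882099 / 10000000) * u + (9999529 / 10000000)) ^ 2 * (1 + u)) := by
  have hp : 0 ≤ u - 0 := sub_nonneg.2 h0
  have hq : 0 ≤ (128881 / 4000000) - u := sub_nonneg.2 h1
  have e : (13 / 100000) - (1 - ((-4882099 / 10000000) * u + (9999529 / 10000000)) ^ 2 * (1 + u))
      = (2291341978240000 / 2140753641621841) * ((128881 / 4000000) - u) ^ 3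
        + (1384981291663352876 / 53518841040546025) * (u - 0) ^ 1 * ((128881 / 4000000) - u) ^ 2
        + (1372229530874104699280499 / 53518841040546025000000) * (u - 0) ^ 2 * ((128881 / 4000000) - u) ^ 1
        + (229151783614664137467512539641 / 214075364162184100000000000000) * (u - 0) ^ 3 := by ring
  rw [e]
  positivity

lemma Elo (u : ℝ) (h0 : 0 ≤ u) (h1 : u ≤ (128881 / 4000000)) :
    0 ≤ (13 / 100000) + (1 - ((-4882099 / 10000000) * u + (9999529 / 10000000)) ^ 2 * (1 + u)) := by
  rcases le_total u (128881 / 8000000) with g1 | g1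
  · have hp : 0 ≤ u - 0 := sub_nonneg.2 h0
    have hq : 0 ≤ (128881 / 8000000) - u := sub_nonneg.2 g1
    have e : (13 / 100000) + (1 - ((-4882099 / 10000000) * u + (9999529 / 10000000)) ^ 2 * (1 + u))
        = (114789264174080000 / 2140753641621841) * ((128881 / 8000000) - u) ^ 3
          + (3756672239874588496 / 53518841040546025) * (u - 0) ^ 1 * ((128881 / 8000000) - u) ^ 2
          + (677957237431189548719501 / 26759420520273012500000) * (u - 0) ^ 2 * ((128881 / 8000000) - u) ^ 1
          + (1824870728411505561410491460359 / 214075364162184100000000000000) * (u - 0) ^ 3 := by ring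
    rw [e]
    positivity
  · have hp : 0 ≤ u - (128881 / 8000000) := sub_nonneg.2 g1
    have hq : 0 ≤ (128881 / 4000000) - u := sub_nonneg.2 h1
    have e : (13 / 100000) + (1 - ((-4882099 / 10000000) * u + (9999529 / 10000000)) ^ 2 * (1 + u))
        = (1824870728411505561410491460359 / 214075364162184100000000000000) * ((128881 / 4000000) - u) ^ 3
          + (2762783235509758489353470381077 / 107037682081092050000000000000) * (u - (128881 / 8000000)) ^ 1 * ((128881 / 4000000) - u) ^ 2
          + (3807626525659588790475466381077 / 53518841040546025000000000000) * (u - (128881 / 8000000)) ^ 2 * ((128881 / 4000000) - u) ^ 1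
          + (1434848216385335862532487460359 / 26759420520273012500000000000) * (u - (128881 / 8000000)) ^ 3 := by ring
    rw [e]
    positivity

lemma Spos (u : ℝ) (h0 : 0 ≤ u) (h1 : u ≤ (128881 / 4000000)) :
    0 ≤ (-4882099 / 10000000) * u + (9999529 / 10000000) := by
  have hp : 0 ≤ u - 0 := sub_nonneg.2 h0
  have hq : 0 ≤ (128881 / 4000000) - u := sub_nonneg.2 h1
  have e : (-4882099 / 10000000) * u + (9999529 / 10000000)
      = (19999058 / 644405) * ((128881 / 4000000) - u) ^ 1
        + (39368906198781 / 1288810000000) * (u - 0) ^ 1 := by ring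
  rw [e]
  positivity

lemma s_approx : ∀ q, |q| ≤ (359 / 2000) → |gg q - q * s q| ≤ (57421 / 4999675000) := by
  intro q hq
  have hu0 : 0 ≤ q ^ 2 := sq_nonneg q
  have hu : q ^ 2 ≤ (128881 / 4000000) := by
    have := pow_le_pow_left₀ (abs_nonneg q) hq 2
    rw [sq_abs] at this
    norm_num at this ⊢
    linarith
  have es : s q = (-4882099 / 10000000) * (q ^ 2) + (9999529 / 10000000) := by unfold s; ring
  have h := g_approx (q := q) (s := s q) (e0 := (13 / 100000)) (b := (4417 / 25000)) (B := (359 / 2000))
    (by rw [es]; exact Spos _ hu0 hu) (by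
      have h1 := Eup _ hu0 hu
      have h2 := Elo _ hu0 hu
      rw [es, abs_le]
      constructor <;> linarith) (by norm_num) hq (by norm_num) (by norm_num)
  refine h.trans (le_of_eq ?_)
  norm_num

lemma mom0 : ∫ x in (-1 : ℝ)..1, (leg 0).eval x * (Qt.eval x * s (Qt.eval x)) = (93286781900181595470633767 / 69716521875000000000000000000000) := by
  have e : ∀ x : ℝ, (leg 0).eval x * (Qt.eval x * s (Qt.eval x))
      = ∑ i ∈ Finset.range 13, ([(488475854950156656608343 / 10000000000000000000000000), (-8774107943183181422287639 / 5000000000000000000000000), (94316107690511025077751363 / 10000000000000000000000000), (-29065284702031538883239131 / 2500000000000000000000000), (-460001558753701739574446583 / 10000000000000000000000000), (1719877159408710358934906049 / 5000000000000000000000000), (-13569791564692937233624299219 / 10000000000000000000000000), (17540842723127713172467233 / 5000000000000000000000), (-941571390756201571889368173 / 156250000000000000000000), (33263764836995417134729743 / 4882812500000000000000), (-760655787556824155637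 / 156250000000000000), (1245407749187517 / 625000000000), (-3559050171 / 10000000)] : List ℝ).getD i 0 * x ^ (2 * i) := by
    intro x
    rw [leg_zero, eval_one, Qt_eval]
    unfold s
    simp only [Finset.sum_range_succ, Finset.sum_range_zero, List.getD_cons_zero, List.getD_cons_succ]
    ring
  simp only [e]
  rw [int_even]
  simp only [Finset.sum_range_succ, Finset.sum_range_zero, List.getD_cons_zero, List.getD_cons_succ]
  norm_num

lemma mom1 : ∫ x in (-1 : ℝ)..1, (leg 1).eval x * (Qt.eval x * s (Qt.eval x)) = 0 := by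
  apply odd_int
  intro x
  have e : Qt.eval (-x) = Qt.eval x := by rw [Qt_eval, Qt_eval]; ring
  rw [e, leg_parity]
  unfold s
  ring

lemma mom2 : ∫ x in (-1 : ℝ)..1, (leg 2).eval x * (Qt.eval x * s (Qt.eval x)) = (2387919198148730141830631 / 8714565234375000000000000000000) := by
  have e : ∀ x : ℝ, (leg 2).eval x * (Qt.eval x * s (Qt.eval x))
      = ∑ i ∈ Finset.range 14, ([(-488475854950156656608343 / 20000000000000000000000000), (19013643451216832814400307 / 20000000000000000000000000), (-146960755349610113611477197 / 20000000000000000000000000), (399209461879659230766210613 / 20000000000000000000000000), (111218142329323272975577011 / 20000000000000000000000000), (-4819758995078525936593151847 / 20000000000000000000000000), (23889054521145199387233735513 / 20000000000000000000000000), (-75791060140334238045807363657 / 20000000000000000000000000), (10344101584197698727232685067 / 1250000000000000000000000), (-777830929410491612795891259 / 62500000000000000000000), (123561787872137006267845479 / 9765625000000000000000), (-2593319299967351716911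 / 312500000000000000), (3958663883250051 / 1250000000000), (-10677150513 / 20000000)] : List ℝ).getD i 0 * x ^ (2 * i) := by
    intro x
    rw [leg_two, Qt_eval]
    unfold s
    simp only [Finset.sum_range_succ, Finset.sum_range_zero, List.getD_cons_zero, List.getD_cons_succ]
    ring
  simp only [e]
  rw [int_even]
  simp only [Finset.sum_range_succ, Finset.sum_range_zero, List.getD_cons_zero, List.getD_cons_succ]
  norm_num

lemma mom3 : ∫ x in (-1 : ℝ)..1, (leg 3).eval x * (Qt.eval x * s (Qt.eval x)) = 0 := by
  apply odd_int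
  intro x
  have e : Qt.eval (-x) = Qt.eval x := by rw [Qt_eval, Qt_eval]; ring
  rw [e, leg_parity]
  unfold s
  ring

lemma mom4 : ∫ x in (-1 : ℝ)..1, (leg 4).eval x * (Qt.eval x * s (Qt.eval x)) = (85959164687986308553357307 / 505444783593750000000000000000000) := by
  have e : ∀ x : ℝ, (leg 4).eval x * (Qt.eval x * s (Qt.eval x))
      = ∑ i ∈ Finset.range 15, ([(1465427564850469969825029 / 80000000000000000000000000), (-16824730826900947057994031 / 20000000000000000000000000), (413245727292889721775902217 / 40000000000000000000000000), (-474056775395316489811443149 / 10000000000000000000000000), (1352223314287641331246663419 / 20000000000000000000000000), (5012542465194724724297338861 / 20000000000000000000000000), (-80001029407490497061036445501 / 40000000000000000000000000), (316365102219082060584487899 / 40000000000000000000000), (-1708174975177106295327643141881 / 80000000000000000000000000), (202503039501834173936004546447 / 5000000000000000000000000), (-13434036056530625586475887867 / 250000000000000000000000), (381307162850188935062545701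 / 7812500000000000000000), (-7226068232032169589459 / 250000000000000000), (10052498058437619 / 1000000000000), (-24913351197 / 16000000)] : List ℝ).getD i 0 * x ^ (2 * i) := by
    intro x
    rw [leg_four, Qt_eval]
    unfold s
    simp only [Finset.sum_range_succ, Finset.sum_range_zero, List.getD_cons_zero, List.getD_cons_succ]
    ring
  simp only [e]
  rw [int_even]
  simp only [Finset.sum_range_succ, Finset.sum_range_zero, List.getD_cons_zero, List.getD_cons_succ]
  norm_num

lemma mom5 : ∫ x in (-1 : ℝ)..1, (leg 5).eval x * (Qt.eval x * s (Qt.eval x)) = 0 := by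
  apply odd_int
  intro x
  have e : Qt.eval (-x) = Qt.eval x := by rw [Qt_eval, Qt_eval]; ring
  rw [e, leg_parity]
  unfold s
  ring

lemma mom6 : ∫ x in (-1 : ℝ)..1, (leg 6).eval x * (Qt.eval x * s (Qt.eval x)) = (323565575738550379110120539 / 1224124085266113281250000000000000) := by
  have e : ∀ x : ℝ, (leg 6).eval x * (Qt.eval x * s (Qt.eval x))
      = ∑ i ∈ Finset.range 16, ([(-488475854950156656608343 / 32000000000000000000000000), (27806208840319652633350481 / 32000000000000000000000000), (-49360262016606451418015781 / 3200000000000000000000000), (8062511464121589447273207769 / 80000000000000000000000000), (-10917655893336585087419192667 / 40000000000000000000000000), (-55387934860609378584563139 / 1250000000000000000000000), (273533664621016383791144741493 / 80000000000000000000000000), (-1395009756011814084612955859769 / 80000000000000000000000000), (9053947407423903683642297593983 / 160000000000000000000000000), (-20853333464827035434177756600469 / 160000000000000000000000000), (86205996045739263513564119871 / 400000000000000000000000),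 (-634227358201547300416404857403 / 2500000000000000000000000), (16201947717695357147986789383 / 78125000000000000000000), (-279626413860940218702147 / 2500000000000000000), (357757990303878927 / 10000000000000), (-822140589501 / 160000000)] : List ℝ).getD i 0 * x ^ (2 * i) := by
    intro x
    rw [leg_six, Qt_eval]
    unfold s
    simp only [Finset.sum_range_succ, Finset.sum_range_zero, List.getD_cons_zero, List.getD_cons_succ]
    ring
  simp only [e]
  rw [int_even]
  simp only [Finset.sum_range_succ, Finset.sum_range_zero, List.getD_cons_zero, List.getD_cons_succ]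
  norm_num

lemma mom7 : ∫ x in (-1 : ℝ)..1, (leg 7).eval x * (Qt.eval x * s (Qt.eval x)) = 0 := by
  apply odd_int
  intro x
  have e : Qt.eval (-x) = Qt.eval x := by rw [Qt_eval, Qt_eval]; ring
  rw [e, leg_parity]
  unfold s
  ring

lemma eta_bd : ∑ k ∈ Finset.range 8, (2 * (k : ℝ) + 1) / 2 *
        (∫ x in (-1 : ℝ)..1, (leg k).eval x * (Qt.eval x * s (Qt.eval x))) ^ 2 ≤ (1 / 200000) ^ 2 := by
  simp only [Finset.sum_range_succ, Finset.sum_range_zero]
  rw [mom0, mom1, mom2, mom3, mom4, mom5, mom6, mom7]
  norm_num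

lemma al_val : al 8 = (128 / 715) := by
  simp only [al_succ, al_zero]
  norm_num

lemma W_eval (x : ℝ) : (P0 8).eval x = 1 * x ^ 9 + (-12 / 5) * x ^ 7 + (126 / 65) * x ^ 5 + (-84 / 143) * x ^ 3 + (7 / 143) * x := by
  rw [P0_eval, al_val, leg_seven, leg_eight]
  unfold lam
  norm_num
  ring

theorem core {Q P : ℝ[X]} (hQ : Sol 8 Q) (hP : derivative P = Q)
    (hc : P.eval (-1) = - P.eval 1) : (∀ x ∈ Set.Icc (-1 : ℝ) 1, |P.eval x - Pt.eval x| ≤ (1 / 50000)) ∧
      ∀ x ∈ Set.Icc (-1 : ℝ) 1, |Q.eval x| ≤ (359 / 2000) + (1 / 2000) :=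
  cert (s := s) (B := (359 / 2000)) (δ := (1 / 2000)) (κ := (2383 / 2500)) (ε := (57421 / 4999675000)) (η := (1 / 200000)) (τ := (1 / 50000))
    hQ hP hc Qt_coeff Pt_deriv Pt_cen Qt_bd (by norm_num) ⟨by norm_num, by norm_num, by norm_num⟩
    (by unfold s; fun_prop) s_approx (by norm_num) (by norm_num) eta_bd (by norm_num)
    (by norm_num) (by norm_num)

theorem close {Q P : ℝ[X]} (hQ : Sol 8 Q) (hP : derivative P = Q)
    (hc : P.eval (-1) = - P.eval 1) : Close 8 P := by
  have hcl := (core hQ hP hc).1
  have hP1 : 0 ≤ P.eval 1 := by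
    have h := J_nonneg (by norm_num) (by decide) hQ
    have h2 := ftc P (-1) 1
    rw [hP] at h2
    rw [h2, hc] at h
    linarith
  have hPm : P.eval (-1) ≤ 0 := by rw [hc]; linarith
  obtain ⟨hm, hd⟩ := monic_of_sol hQ hP
  obtain ⟨hm0, hd0⟩ := monic_of_coeff (Q0_coeff 8) (P0_deriv (l := 8) (by norm_num))
  apply close_of_windows hm hd hm0 hd0 (a := fun i => ([(-1), (-9 / 10), (-271 / 400), (-727 / 2000), (-1 / 2000), (1813 / 5000), (6767 / 10000), (8993 / 10000), (9997 / 10000)] : List ℝ).getD i 0)
    (b := fun i => ([(-9997 / 10000), (-8993 / 10000), (-6767 / 10000), (-1813 / 5000), (1 / 2000), (727 / 2000), (271 / 400), (9 / 10), 1] : List ℝ).getD i 0)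
  · intro i hi
    interval_cases i <;> simp only [List.getD_cons_zero, List.getD_cons_succ] <;> norm_num
  · intro i hi
    have hi' : i < 8 := by omega
    interval_cases i <;> simp only [List.getD_cons_zero, List.getD_cons_succ] <;> norm_num
  · intro i hi
    rw [al_val]
    interval_cases i <;> simp only [List.getD_cons_zero, List.getD_cons_succ] <;> norm_num
  · intro i hi
    interval_cases i
    · simp only [List.getD_cons_zero, List.getD_cons_succ]
      norm_num
      linarith
    · have h := hcl (-9 / 10) (by norm_num)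
      rw [Pt_eval] at h
      have h1 := (abs_le.1 h).1
      have h2 := (abs_le.1 h).2
      simp only [List.getD_cons_zero, List.getD_cons_succ]
      norm_num at h1 h2 ⊢
      linarith
    · have h := hcl (-271 / 400) (by norm_num)
      rw [Pt_eval] at h
      have h1 := (abs_le.1 h).1
      have h2 := (abs_le.1 h).2
      simp only [List.getD_cons_zero, List.getD_cons_succ]
      norm_num at h1 h2 ⊢
      linarith
    · have h := hcl (-727 / 2000) (by norm_num)
      rw [Pt_eval] at h
      have h1 := (abs_le.1 h).1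
      have h2 := (abs_le.1 h).2
      simp only [List.getD_cons_zero, List.getD_cons_succ]
      norm_num at h1 h2 ⊢
      linarith
    · have h := hcl (-1 / 2000) (by norm_num)
      rw [Pt_eval] at h
      have h1 := (abs_le.1 h).1
      have h2 := (abs_le.1 h).2
      simp only [List.getD_cons_zero, List.getD_cons_succ]
      norm_num at h1 h2 ⊢
      linarith
    · have h := hcl (1813 / 5000) (by norm_num)
      rw [Pt_eval] at h
      have h1 := (abs_le.1 h).1
      have h2 := (abs_le.1 h).2
      simp only [List.getD_cons_zero, List.getD_cons_succ]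
      norm_num at h1 h2 ⊢
      linarith
    · have h := hcl (6767 / 10000) (by norm_num)
      rw [Pt_eval] at h
      have h1 := (abs_le.1 h).1
      have h2 := (abs_le.1 h).2
      simp only [List.getD_cons_zero, List.getD_cons_succ]
      norm_num at h1 h2 ⊢
      linarith
    · have h := hcl (8993 / 10000) (by norm_num)
      rw [Pt_eval] at h
      have h1 := (abs_le.1 h).1
      have h2 := (abs_le.1 h).2
      simp only [List.getD_cons_zero, List.getD_cons_succ]
      norm_num at h1 h2 ⊢
      linarith
    · have h := hcl (9997 / 10000) (by norm_num)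
      rw [Pt_eval] at h
      have h1 := (abs_le.1 h).1
      have h2 := (abs_le.1 h).2
      simp only [List.getD_cons_zero, List.getD_cons_succ]
      norm_num at h1 h2 ⊢
      linarith
  · intro i hi
    interval_cases i
    · have h := hcl (-9997 / 10000) (by norm_num)
      rw [Pt_eval] at h
      have h1 := (abs_le.1 h).1
      have h2 := (abs_le.1 h).2
      simp only [List.getD_cons_zero, List.getD_cons_succ]
      norm_num at h1 h2 ⊢
      linarith
    · have h := hcl (-8993 / 10000) (by norm_num)
      rw [Pt_eval] at h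
      have h1 := (abs_le.1 h).1
      have h2 := (abs_le.1 h).2
      simp only [List.getD_cons_zero, List.getD_cons_succ]
      norm_num at h1 h2 ⊢
      linarith
    · have h := hcl (-6767 / 10000) (by norm_num)
      rw [Pt_eval] at h
      have h1 := (abs_le.1 h).1
      have h2 := (abs_le.1 h).2
      simp only [List.getD_cons_zero, List.getD_cons_succ]
      norm_num at h1 h2 ⊢
      linarith
    · have h := hcl (-1813 / 5000) (by norm_num)
      rw [Pt_eval] at h
      have h1 := (abs_le.1 h).1
      have h2 := (abs_le.1 h).2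
      simp only [List.getD_cons_zero, List.getD_cons_succ]
      norm_num at h1 h2 ⊢
      linarith
    · have h := hcl (1 / 2000) (by norm_num)
      rw [Pt_eval] at h
      have h1 := (abs_le.1 h).1
      have h2 := (abs_le.1 h).2
      simp only [List.getD_cons_zero, List.getD_cons_succ]
      norm_num at h1 h2 ⊢
      linarith
    · have h := hcl (727 / 2000) (by norm_num)
      rw [Pt_eval] at h
      have h1 := (abs_le.1 h).1
      have h2 := (abs_le.1 h).2
      simp only [List.getD_cons_zero, List.getD_cons_succ]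
      norm_num at h1 h2 ⊢
      linarith
    · have h := hcl (271 / 400) (by norm_num)
      rw [Pt_eval] at h
      have h1 := (abs_le.1 h).1
      have h2 := (abs_le.1 h).2
      simp only [List.getD_cons_zero, List.getD_cons_succ]
      norm_num at h1 h2 ⊢
      linarith
    · have h := hcl (9 / 10) (by norm_num)
      rw [Pt_eval] at h
      have h1 := (abs_le.1 h).1
      have h2 := (abs_le.1 h).2
      simp only [List.getD_cons_zero, List.getD_cons_succ]
      norm_num at h1 h2 ⊢
      linarith
    · simp only [List.getD_cons_zero, List.getD_cons_succ]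
      norm_num
      linarith
  · intro i hi
    rw [W_eval]
    interval_cases i <;> simp only [List.getD_cons_zero, List.getD_cons_succ] <;> norm_num
  · intro i hi
    rw [W_eval]
    interval_cases i <;> simp only [List.getD_cons_zero, List.getD_cons_succ] <;> norm_num

end Pool.Agent.Helper61.ML.N9
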