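import Pool.Agent.Helper61.ML.Zc
import Pool.Agent.Helper61.ML.N3
import Pool.Agent.Helper61.ML.N4
import Pool.Agent.Helper61.ML.N5
import Pool.Agent.Helper61.ML.N6
import Pool.Agent.Helper61.ML.N7
import Pool.Agent.Helper61.ML.N8
import Pool.Agent.Helper61.ML.N9
import Pool.Agent.Helper61.ML.N10

set_option autoImplicit false

open Polynomial MeasureTheory intervalIntegral

namespace Pool.Agent.Helper61.ML

lemma sol_one {Q : ℝ[X]} (hQ : Sol 1 Q) (x : ℝ) : Q.eval x = 2 * x := by
  have h1 : Q.natDegree ≤ 1 := natDegree_le_iff_coeff_eq_zero.2 fun m hm => hQ.2.1 m hm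
  have h2 : ∀ y : ℝ, Q.eval y = Q.coeff 0 + 2 * y := by
    intro y
    rw [eval_eq_sum_range' (lt_of_le_of_lt h1 (by norm_num : 1 < 2)), Finset.sum_range_succ,
      Finset.sum_range_one, hQ.1]
    norm_num
  have h3 := sol_parity hQ 1
  rw [h2, h2] at h3
  rw [h2]
  norm_num at h3
  linarith

lemma centered_unique {P P' : ℝ[X]} (hd : derivative P' = derivative P)
    (hc : P.eval (-1) = - P.eval 1) (hc' : P'.eval (-1) = - P'.eval 1) : P' = P := by
  have h1 : derivative (P' - P) = 0 := by rw [derivative_sub, hd, sub_self]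
  have h2 := natDegree_eq_zero_of_derivative_eq_zero h1
  obtain ⟨c, hcc⟩ := natDegree_eq_zero.1 h2
  have h3 : (P' - P).eval (-1) = - (P' - P).eval 1 := by
    rw [eval_sub, eval_sub, hc, hc']; ring
  rw [← hcc, eval_C, eval_C] at h3
  have h4 : c = 0 := by linarith
  rw [h4, C_0] at hcc
  exact (sub_eq_zero.1 hcc.symm)

lemma P0_one : (P0 1) = X ^ 2 - 1 := by
  apply Polynomial.funext
  intro x
  rw [P0_eval]
  have : al 1 = 2 := by simp [al_succ, al_zero]
  rw [this]
  unfold lam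
  simp [leg]
  ring

lemma P_one {Q P : ℝ[X]} (hQ : Sol 1 Q) (hP : derivative P = Q)
    (hc : P.eval (-1) = - P.eval 1) : P = P0 1 := by
  apply centered_unique _ (by rw [(P0_end 1).1, (P0_end 1).2]; ring) hc
  rw [hP]
  apply Polynomial.funext
  intro x
  rw [sol_one hQ, P0_one]
  simp only [derivative_sub, derivative_X_pow, derivative_one, eval_sub, eval_mul, eval_pow, eval_X,
    eval_C, eval_zero, Nat.cast_ofNat]
  norm_num

lemma close_one {Q P : ℝ[X]} (hQ : Sol 1 Q) (hP : derivative P = Q)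
    (hc : P.eval (-1) = - P.eval 1) : Close 1 P := by
  rw [P_one hQ hP hc]
  have e : P0 1 = ∏ i ∈ Finset.range (1 + 1), (X - C ((fun i : ℕ => 2 * (i : ℝ) - 1) i)) := by
    rw [P0_one, Finset.prod_range_succ, Finset.prod_range_one]
    simp only [Nat.cast_zero, mul_zero, zero_sub, C_neg, C_1, Nat.cast_one, mul_one]
    have : (2 - 1 : ℝ) = 1 := by norm_num
    rw [this, C_1]
    ring
  refine ⟨fun i => 2 * (i : ℝ) - 1, fun i => 2 * (i : ℝ) - 1, ?_, ?_, ?_, e, e, ?_⟩
  · intro i _; push_cast; linarith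
  · intro i _; push_cast; linarith
  · intro i hi
    interval_cases i <;> norm_num
  · intro i _
    rw [sub_self, abs_zero]
    positivity

/-- simple zeros in `[-1,1]`, close to the Legendre ones, for all degrees -/
theorem close_all {l : ℕ} (hl : 1 ≤ l) {Q P : ℝ[X]} (hQ : Sol l Q) (hP : derivative P = Q)
    (hc : P.eval (-1) = - P.eval 1) : Close l P := by
  rcases Nat.lt_or_ge l 10 with h | h
  · interval_cases l
    · exact close_one hQ hP hc
    · exact N3.close hQ hP hc
    · exact N4.close hQ hP hc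
    · exact N5.close hQ hP hc
    · exact N6.close hQ hP hc
    · exact N7.close hQ hP hc
    · exact N8.close hQ hP hc
    · exact N9.close hQ hP hc
    · exact N10.close hQ hP hc
  · have hP1 : 0 ≤ P.eval 1 := by
      by_cases he : Even l
      · have h1 := J_nonneg (by omega) he hQ
        have h2 := ftc P (-1) 1
        rw [hP] at h2
        rw [h2, hc] at h1
        linarith
      · exact (end_zero hQ hP hc (Nat.not_even_iff_odd.1 he)).ge
    have hP2 : 0 ≤ (-1) ^ (l + 1) * P.eval (-1) := by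
      rw [hc]
      by_cases he : Even l
      · rw [he.add_one.neg_one_pow]; linarith
      · rw [end_zero hQ hP hc (Nat.not_even_iff_odd.1 he)]; simp
    exact zeros_close h hQ hP hc hP1 hP2

/-- closeness of the extremal polynomial to the Legendre one, for all degrees -/
theorem near_all {l : ℕ} (hl : 1 ≤ l) {Q P : ℝ[X]} (hQ : Sol l Q) (hP : derivative P = Q)
    (hc : P.eval (-1) = - P.eval 1) {x : ℝ} (hx : x ∈ Set.Icc (-1 : ℝ) 1) :
    (P.eval x - (P0 l).eval x) ^ 2 ≤ al l ^ 6 / (4 * ((l : ℝ) + 1)) := by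
  rcases Nat.lt_or_ge l 7 with h | h
  · interval_cases l
    · rw [P_one hQ hP hc, sub_self]
      have := al_pos 1
      rw [zero_pow (by norm_num)]
      positivity
    · exact N3.near hQ hP hc x hx
    · exact N4.near hQ hP hc x hx
    · exact N5.near hQ hP hc x hx
    · exact N6.near hQ hP hc x hx
    · exact N7.near hQ hP hc x hx
  · refine (gen_close h hQ hP hc hx).trans ?_
    have hK := K2_one l
    have hK' := K2_le h
    have ha := al_pos l
    have h7 : (7 : ℝ) ≤ l := by exact_mod_cast h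
    have e : K2 l ^ 2 * (al l ^ 6 / (4 * (2 * (l : ℝ) + 1)))
        = al l ^ 6 * (K2 l ^ 2 / (4 * (2 * (l : ℝ) + 1))) := by ring
    rw [e, div_eq_mul_one_div (al l ^ 6)]
    apply mul_le_mul_of_nonneg_left _ (by positivity)
    rw [div_le_div_iff₀ (by positivity) (by positivity)]
    have h3 : K2 l ^ 2 ≤ 17 / 10 := by nlinarith
    nlinarith

lemma root_low {q : ℝ} (hq : q ^ 2 ≤ 8) : 1 + q ^ 2 / 2 - q ^ 4 / 8 ≤ Real.sqrt (1 + q ^ 2) := by
  apply Real.le_sqrt_of_sq_le
  have e : (1 + q ^ 2 / 2 - q ^ 4 / 8) ^ 2 = 1 + q ^ 2 - q ^ 6 * (8 - q ^ 2) / 64 := by ring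
  rw [e]
  have : 0 ≤ q ^ 6 * (8 - q ^ 2) := mul_nonneg (by positivity) (by linarith)
  linarith

lemma root_high (q : ℝ) : Real.sqrt (1 + q ^ 2) ≤ 1 + q ^ 2 / 2 := by
  apply Real.sqrt_le_iff.2
  constructor
  · positivity
  · nlinarith [sq_nonneg (q ^ 2)]

lemma Q0_ev (l : ℕ) (x : ℝ) : (Q0 l).eval x = al l * (leg l).eval x := by
  unfold Q0; simp

lemma Q0_int (l : ℕ) : ∫ x in (-1 : ℝ)..1, (Q0 l).eval x ^ 2
    = al l ^ 2 * (2 / (2 * (l : ℝ) + 1)) := by
  simp only [Q0_ev, mul_pow]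
  rw [intervalIntegral.integral_const_mul, leg_norm]

/-- upper bound of the minimal length -/
theorem len_upper {l : ℕ} {Q : ℝ[X]} (hQ : Sol l Q) :
    Phi Q ≤ 2 + al l ^ 2 / (2 * (l : ℝ) + 1) := by
  have hd := sub_low hQ (Q0_coeff l)
  have hd' : ∀ m, l ≤ m → (Q0 l - Q).coeff m = 0 := by
    intro m hm
    have := hd m hm
    rw [coeff_sub] at this ⊢
    linarith
  refine (sol_min hQ hd').1.trans ?_
  have h1 : Phi (Q0 l) ≤ ∫ x in (-1 : ℝ)..1, (1 + 1 / 2 * (Q0 l).eval x ^ 2) := by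
    unfold Phi
    apply intervalIntegral.integral_mono_on (by norm_num)
    · apply Continuous.intervalIntegrable; fun_prop
    · apply Continuous.intervalIntegrable; fun_prop
    · intro x _
      refine (root_high _).trans (le_of_eq (by ring))
  refine h1.trans (le_of_eq ?_)
  have c4 : Continuous fun x : ℝ => 1 / 2 * (Q0 l).eval x ^ 2 := by fun_prop
  rw [intervalIntegral.integral_add (continuous_const.intervalIntegrable _ _)
    (c4.intervalIntegrable _ _), intervalIntegral.integral_const_mul,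
    intervalIntegral.integral_const, Q0_int]
  norm_num
  field_simp

theorem len_lower {l : ℕ} {Q : ℝ[X]} (hQ : Sol l Q)
    (hsup : ∀ x ∈ Set.Icc (-1 : ℝ) 1, |Q.eval x| ≤ 5 / 4 * al l) (ha2 : al l ^ 2 ≤ 64 / 25) :
    2 + (al l ^ 2 - 2 / 5 * al l ^ 4) / (2 * (l : ℝ) + 1) ≤ Phi Q := by
  have ha := al_pos l
  have hd := sub_low hQ (Q0_coeff l)
  have hl0 : 0 < 2 * (l : ℝ) + 1 := by positivity
  set R := Q - Q0 l with hR
  have hQe : ∀ x, Q.eval x = al l * (leg l).eval x + R.eval x := by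
    intro x; rw [hR, eval_sub, Q0_ev]; ring
  have hI : al l ^ 2 * (2 / (2 * (l : ℝ) + 1)) ≤ ∫ x in (-1 : ℝ)..1, Q.eval x ^ 2 := by
    have e : ∀ x : ℝ, Q.eval x ^ 2 = (al l ^ 2 * (leg l).eval x ^ 2
        + (2 * al l) * (R.eval x * (leg l).eval x)) + R.eval x ^ 2 := by
      intro x; rw [hQe]; ring
    simp only [e]
    have c1 : Continuous fun x : ℝ => al l ^ 2 * (leg l).eval x ^ 2 := by fun_prop
    have c2 : Continuous fun x : ℝ => (2 * al l) * (R.eval x * (leg l).eval x) := by fun_prop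
    have c12 : Continuous fun x : ℝ => al l ^ 2 * (leg l).eval x ^ 2
        + (2 * al l) * (R.eval x * (leg l).eval x) := by fun_prop
    have c3 : Continuous fun x : ℝ => R.eval x ^ 2 := by fun_prop
    rw [intervalIntegral.integral_add (c12.intervalIntegrable _ _) (c3.intervalIntegrable _ _),
      intervalIntegral.integral_add (c1.intervalIntegrable _ _) (c2.intervalIntegrable _ _),
      intervalIntegral.integral_const_mul, intervalIntegral.integral_const_mul, leg_norm,
      orth_lower hd]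
    have : 0 ≤ ∫ x in (-1 : ℝ)..1, R.eval x ^ 2 := by
      apply intervalIntegral.integral_nonneg (by norm_num)
      intro x _; positivity
    linarith
  have hpt : ∀ x ∈ Set.Icc (-1 : ℝ) 1,
      1 + (1 / 2 - 25 / 128 * al l ^ 2) * Q.eval x ^ 2 ≤ Real.sqrt (1 + Q.eval x ^ 2) := by
    intro x hx
    have h1 := hsup x hx
    have h2 : Q.eval x ^ 2 ≤ 25 / 16 * al l ^ 2 := by
      rw [← sq_abs]
      refine (pow_le_pow_left₀ (abs_nonneg _) h1 2).trans (le_of_eq (by ring))
    have h3 := root_low (q := Q.eval x) (by linarith)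
    refine le_trans ?_ h3
    have h4 : Q.eval x ^ 4 ≤ (25 / 16 * al l ^ 2) * Q.eval x ^ 2 := by
      have e : Q.eval x ^ 4 = Q.eval x ^ 2 * Q.eval x ^ 2 := by ring
      rw [e]
      exact mul_le_mul_of_nonneg_right h2 (sq_nonneg _)
    nlinarith
  have h1 : ∫ x in (-1 : ℝ)..1, (1 + (1 / 2 - 25 / 128 * al l ^ 2) * Q.eval x ^ 2) ≤ Phi Q := by
    unfold Phi
    apply intervalIntegral.integral_mono_on (by norm_num)
    · apply Continuous.intervalIntegrable; fun_prop
    · apply Continuous.intervalIntegrable; fun_prop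
    · exact hpt
  have c4 : Continuous fun x : ℝ => (1 / 2 - 25 / 128 * al l ^ 2) * Q.eval x ^ 2 := by fun_prop
  rw [intervalIntegral.integral_add (continuous_const.intervalIntegrable _ _)
    (c4.intervalIntegrable _ _), intervalIntegral.integral_const_mul,
    intervalIntegral.integral_const] at h1
  refine le_trans ?_ h1
  have h5 : (1 / 2 - 25 / 128 * al l ^ 2) * (al l ^ 2 * (2 / (2 * (l : ℝ) + 1)))
      ≤ (1 / 2 - 25 / 128 * al l ^ 2) * ∫ x in (-1 : ℝ)..1, Q.eval x ^ 2 :=
    mul_le_mul_of_nonneg_left hI (by linarith)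
  have h6 : (al l ^ 2 - 2 / 5 * al l ^ 4) / (2 * (l : ℝ) + 1)
      ≤ (1 / 2 - 25 / 128 * al l ^ 2) * (al l ^ 2 * (2 / (2 * (l : ℝ) + 1))) := by
    have e : (1 / 2 - 25 / 128 * al l ^ 2) * (al l ^ 2 * (2 / (2 * (l : ℝ) + 1)))
        = (al l ^ 2 - 25 / 64 * al l ^ 4) / (2 * (l : ℝ) + 1) := by
      field_simp; ring
    rw [e]
    apply div_le_div_of_nonneg_right _ hl0.le
    have : 0 ≤ al l ^ 4 := by positivity
    linarith
  norm_num at h5 h6 ⊢
  linarith

lemma Phi_ge_two (Q : ℝ[X]) : 2 ≤ Phi Q := by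
  have h : ∫ x in (-1 : ℝ)..1, (1 : ℝ) ≤ Phi Q := by
    unfold Phi
    apply intervalIntegral.integral_mono_on (by norm_num)
    · apply Continuous.intervalIntegrable; fun_prop
    · apply Continuous.intervalIntegrable; fun_prop
    · intro x _; exact one_le_root _
  rw [intervalIntegral.integral_const] at h
  norm_num at h
  exact h

theorem len_lower_all {l : ℕ} (hl : 1 ≤ l) {Q P : ℝ[X]} (hQ : Sol l Q) (hP : derivative P = Q)
    (hc : P.eval (-1) = - P.eval 1) :
    2 + (al l ^ 2 - 2 / 5 * al l ^ 4) / (2 * (l : ℝ) + 1) ≤ Phi Q := by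
  have ha := al_pos l
  have triv : 64 / 25 ≤ al l ^ 2 →
      2 + (al l ^ 2 - 2 / 5 * al l ^ 4) / (2 * (l : ℝ) + 1) ≤ Phi Q := by
    intro h
    have h1 := Phi_ge_two Q
    have h2 : (al l ^ 2 - 2 / 5 * al l ^ 4) / (2 * (l : ℝ) + 1) ≤ 0 := by
      apply div_nonpos_of_nonpos_of_nonneg _ (by positivity)
      have e : al l ^ 2 - 2 / 5 * al l ^ 4 = al l ^ 2 * (1 - 2 / 5 * al l ^ 2) := by ring
      rw [e]
      apply mul_nonpos_of_nonneg_of_nonpos (by positivity)
      linarith
    linarith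
  rcases Nat.lt_or_ge l 7 with h | h
  · interval_cases l
    · apply triv
      have : al 1 = 2 := by simp [al_succ, al_zero]
      rw [this]; norm_num
    · apply triv
      rw [N3.al_val]; norm_num
    · apply triv
      rw [N4.al_val]; norm_num
    · exact len_lower hQ (N5.sup hQ hP hc) (by rw [N5.al_val]; norm_num)
    · exact len_lower hQ (N6.sup hQ hP hc) (by rw [N6.al_val]; norm_num)
    · exact len_lower hQ (N7.sup hQ hP hc) (by rw [N7.al_val]; norm_num)
  · apply len_lower hQ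
    · intro x hx
      have e : Q.eval x = al l * (leg l).eval x + (Q - Q0 l).eval x := by
        rw [eval_sub, Q0_ev]; ring
      rw [e]
      refine (abs_add_le _ _).trans ?_
      have h2 := (gen_core h hQ).2 x hx
      have h3 : |al l * (leg l).eval x| ≤ al l := by
        rw [abs_mul, abs_of_pos ha]
        exact mul_le_of_le_one_right ha.le (leg_le_one l hx)
      linarith
    · have := al_sq_le' h
      linarith

lemma kk_eq (l : ℕ) : kk l = (Nat.centralBinom l : ℝ) / 2 ^ l := by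
  induction l with
  | zero => simp [kk]
  | succ l ih =>
    rw [kk_succ, ih]
    have h := Nat.succ_mul_centralBinom_succ l
    have h' : ((l : ℝ) + 1) * (Nat.centralBinom (l + 1) : ℝ)
        = 2 * (2 * (l : ℝ) + 1) * (Nat.centralBinom l : ℝ) := by exact_mod_cast h
    have e : (Nat.centralBinom (l + 1) : ℝ)
        = 2 * (2 * (l : ℝ) + 1) * (Nat.centralBinom l : ℝ) / ((l : ℝ) + 1) := by
      field_simp; linarith
    rw [e, pow_succ]
    field_simp

lemma al_eq (l : ℕ) : al l = ((l : ℝ) + 1) * 2 ^ l / (Nat.centralBinom l : ℝ) := by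
  unfold al
  rw [kk_eq]
  have : (Nat.centralBinom l : ℝ) ≠ 0 := by exact_mod_cast (Nat.centralBinom_pos l).ne'
  field_simp

lemma al_sq_bound (l : ℕ) (hl : 1 ≤ l) :
    al l ^ 2 ≤ 4 * ((l : ℝ) + 1) ^ 2 * l / 4 ^ l := by
  induction l, hl using Nat.le_induction with
  | base =>
    have : al 1 = 2 := by simp [al_succ, al_zero]
    rw [this]; norm_num
  | succ l hl ih =>
    have hl' : (1 : ℝ) ≤ l := by exact_mod_cast hl
    rw [al_succ, mul_pow]
    have h1 : al l ^ 2 * (((l : ℝ) + 2) / (2 * (l : ℝ) + 1)) ^ 2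
        ≤ 4 * ((l : ℝ) + 1) ^ 2 * l / 4 ^ l * (((l : ℝ) + 2) / (2 * (l : ℝ) + 1)) ^ 2 :=
      mul_le_mul_of_nonneg_right ih (sq_nonneg _)
    refine h1.trans ?_
    have e : 4 * ((l : ℝ) + 1) ^ 2 * l / 4 ^ l * (((l : ℝ) + 2) / (2 * (l : ℝ) + 1)) ^ 2
        = (((l : ℝ) + 2) ^ 2 * ((l : ℝ) + 1) / 4 ^ l) * (4 * l * ((l : ℝ) + 1) / (2 * (l : ℝ) + 1) ^ 2) := by
      field_simp
    have e2 : 4 * (((l + 1 : ℕ) : ℝ) + 1) ^ 2 * ((l + 1 : ℕ) : ℝ) / 4 ^ (l + 1)
        = (((l : ℝ) + 2) ^ 2 * ((l : ℝ) + 1) / 4 ^ l) * 1 := by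
      push_cast
      rw [pow_succ]
      field_simp
      ring
    rw [e, e2]
    apply mul_le_mul_of_nonneg_left _ (by positivity)
    rw [div_le_one (by positivity)]
    nlinarith

end Pool.Agent.Helper61.ML
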