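import Pool.Agent.Helper61.ML.Stab

set_option autoImplicit false

open Polynomial MeasureTheory intervalIntegral

namespace Pool.Agent.Helper61.ML

/-- `α = (l+1) / k_l` -/
noncomputable def al (l : ℕ) : ℝ := ((l : ℝ) + 1) / kk l

lemma al_pos (l : ℕ) : 0 < al l := by
  unfold al; have := kk_pos l; positivity

lemma al_succ (l : ℕ) : al (l + 1) = al l * (((l : ℝ) + 2) / (2 * (l : ℝ) + 1)) := by
  unfold al
  rw [kk_succ]
  have := kk_pos l
  push_cast
  field_simp
  ring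

lemma al_zero : al 0 = 1 := by simp [al, kk]

lemma al_seven : al 7 = 128 / 429 := by
  simp only [al_succ, al_zero]
  norm_num

lemma al_eight : al 8 = 128 / 715 := by
  rw [al_succ, al_seven]; norm_num

lemma al_ten : al 10 = 256 / 4199 := by
  rw [al_succ, al_succ, al_eight]; norm_num

lemma be_anti (l : ℕ) (hl : 3 ≤ l) : al (l + 1) ^ 2 * lam (l + 1) ≤ al l ^ 2 * lam l := by
  have hl' : (3 : ℝ) ≤ l := by exact_mod_cast hl
  rw [al_succ, mul_pow, mul_assoc]
  apply mul_le_mul_of_nonneg_left _ (sq_nonneg _)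
  rw [div_pow, div_mul_eq_mul_div, div_le_iff₀ (by positivity)]
  unfold lam
  push_cast
  have : 0 ≤ ((l : ℝ) + 1) * ((l : ℝ) * (2 * (l : ℝ) + 1) ^ 2 - ((l : ℝ) + 2) ^ 3) := by
    apply mul_nonneg (by positivity)
    nlinarith [mul_nonneg (sub_nonneg.2 hl') (sub_nonneg.2 hl'), pow_nonneg (sub_nonneg.2 hl') 3]
  nlinarith

lemma be_le {m l : ℕ} (hm : 3 ≤ m) (hl : m ≤ l) : al l ^ 2 * lam l ≤ al m ^ 2 * lam m := by
  induction l, hl using Nat.le_induction with
  | base => exact le_rfl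
  | succ l hl ih => exact (be_anti l (by omega)).trans ih

/-- the Legendre comparison polynomial -/
noncomputable def Q0 (l : ℕ) : ℝ[X] := C (al l) * leg l

/-- its centered primitive -/
noncomputable def P0 (l : ℕ) : ℝ[X] := C (-(al l / lam l)) * ((1 - X ^ 2) * (leg l).derivative)

lemma lam_pos {l : ℕ} (hl : 1 ≤ l) : 0 < lam l := by
  have : (1 : ℝ) ≤ l := by exact_mod_cast hl
  unfold lam; nlinarith

lemma P0_deriv {l : ℕ} (hl : 1 ≤ l) : (P0 l).derivative = Q0 l := by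
  apply Polynomial.funext
  intro x
  have h := leg_prim l x
  have hlam := lam_pos hl
  unfold P0 Q0
  rw [derivative_C_mul, eval_mul, h, eval_C, eval_mul, eval_C]
  field_simp

lemma P0_end (l : ℕ) : (P0 l).eval 1 = 0 ∧ (P0 l).eval (-1) = 0 := by
  unfold P0; simp

lemma Q0_coeff (l : ℕ) : (Q0 l).coeff l = (l : ℝ) + 1 ∧ ∀ m, l < m → (Q0 l).coeff m = 0 := by
  refine ⟨?_, ?_⟩
  · unfold Q0 al
    rw [coeff_C_mul, leg_coeff, div_mul_cancel₀ _ (kk_pos l).ne']
  · intro m hm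
    unfold Q0
    rw [coeff_C_mul, leg_coeff_gt l m hm, mul_zero]

lemma sub_low {l : ℕ} {Q Qt : ℝ[X]} (hQ : Sol l Q)
    (h : Qt.coeff l = (l : ℝ) + 1 ∧ ∀ m, l < m → Qt.coeff m = 0) :
    ∀ m, l ≤ m → (Q - Qt).coeff m = 0 := by
  intro m hm
  rw [coeff_sub]
  rcases Nat.eq_or_lt_of_le hm with rfl | h2
  · rw [hQ.1, h.1, sub_self]
  · rw [hQ.2.1 m h2, h.2 m h2, sub_self]

/-- `κ` -/
noncomputable def K2 (l : ℕ) : ℝ := (1 + 25 / 16 * al l ^ 2) ^ 2

lemma K2_one (l : ℕ) : 1 ≤ K2 l := by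
  unfold K2
  apply one_le_pow₀
  nlinarith [sq_nonneg (al l)]

lemma kap_gen (l : ℕ) : Kap (1 / K2 l) (al l + al l / 4) := by
  have h1 := K2_one l
  have ha := al_pos l
  refine ⟨by positivity, by positivity, ?_⟩
  have e : (al l + al l / 4) ^ 2 = 25 / 16 * al l ^ 2 := by ring
  rw [e]
  unfold K2
  have hp : 0 < 1 + 25 / 16 * al l ^ 2 := by positivity
  have e2 : (1 / (1 + 25 / 16 * al l ^ 2) ^ 2) ^ 2 * (1 + 25 / 16 * al l ^ 2) ^ 3
      = 1 / (1 + 25 / 16 * al l ^ 2) := by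
    field_simp
  rw [e2, div_le_one hp]
  nlinarith [sq_nonneg (al l)]

lemma al_sq_le {l : ℕ} (hl : 7 ≤ l) : al l ^ 2 * lam l ≤ 5 := by
  refine (be_le (by norm_num) hl).trans ?_
  rw [al_seven]; unfold lam; norm_num

lemma lam_ge {l : ℕ} (hl : 7 ≤ l) : 56 ≤ lam l := by
  have : (7 : ℝ) ≤ l := by exact_mod_cast hl
  unfold lam; nlinarith

lemma al_sq_le' {l : ℕ} (hl : 7 ≤ l) : al l ^ 2 ≤ 5 / 56 := by
  have h1 := al_sq_le hl
  have h2 := lam_ge hl
  have h3 : al l ^ 2 * 56 ≤ al l ^ 2 * lam l := mul_le_mul_of_nonneg_left h2 (sq_nonneg _)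
  linarith

lemma K2_le {l : ℕ} (hl : 7 ≤ l) : K2 l ≤ 1299 / 1000 := by
  unfold K2
  have h := al_sq_le' hl
  calc (1 + 25 / 16 * al l ^ 2) ^ 2 ≤ (1 + 25 / 16 * (5 / 56)) ^ 2 := by
        apply pow_le_pow_left₀ (by positivity); linarith
    _ ≤ _ := by norm_num

theorem gen_core {l : ℕ} (hl : 7 ≤ l) {Q : ℝ[X]} (hQ : Sol l Q) :
    (∫ x in (-1 : ℝ)..1, (Q - Q0 l).eval x ^ 2) ≤ K2 l ^ 2 * (al l ^ 6 / (2 * (2 * (l : ℝ) + 1))) ∧
      ∀ x ∈ Set.Icc (-1 : ℝ) 1, |(Q - Q0 l).eval x| ≤ al l / 4 := by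
  have ha := al_pos l
  have hK := K2_one l
  have hd := sub_low hQ (Q0_coeff l)
  have hQ0 : ∀ x, (Q0 l).eval x = al l * (leg l).eval x := by
    intro x; unfold Q0; simp
  have hB : ∀ x ∈ Set.Icc (-1 : ℝ) 1, |(Q0 l).eval x| ≤ al l := by
    intro x hx
    rw [hQ0, abs_mul, abs_of_pos ha]
    exact mul_le_of_le_one_right ha.le (leg_le_one l hx)
  have hl7 : (7 : ℝ) ≤ l := by exact_mod_cast hl
  have hρ : 0 ≤ al l ^ 6 / (2 * (2 * (l : ℝ) + 1)) := by positivity
  have hst := stab (B := al l) (δ := al l / 4) (κ := 1 / K2 l)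
    (ρ2 := al l ^ 6 / (2 * (2 * (l : ℝ) + 1))) hQ hd hB (by positivity) (kap_gen l) hρ ?_ ?_
  · refine ⟨?_, hst.2⟩
    have h1 := hst.1
    rw [div_pow, one_pow, one_div, inv_mul_le_iff₀ (by positivity)] at h1
    exact h1
  · -- residual
    set R := Q - Q0 l with hR
    have cE : Continuous fun x : ℝ => (Q0 l).eval x - gg ((Q0 l).eval x) :=
      (Q0 l).continuous.sub (ggQ_cont _)
    have e1 : ∫ x in (-1 : ℝ)..1, R.eval x * gg ((Q0 l).eval x)
        = - ∫ x in (-1 : ℝ)..1, R.eval x * ((Q0 l).eval x - gg ((Q0 l).eval x)) := by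
      have c1 : Continuous fun x : ℝ => al l * (R.eval x * (leg l).eval x) := by fun_prop
      have c2 : Continuous fun x : ℝ => R.eval x * ((Q0 l).eval x - gg ((Q0 l).eval x)) :=
        R.continuous.mul cE
      have e2 : ∀ x : ℝ, R.eval x * gg ((Q0 l).eval x)
          = al l * (R.eval x * (leg l).eval x)
            - R.eval x * ((Q0 l).eval x - gg ((Q0 l).eval x)) := by
        intro x; rw [hQ0]; ring
      simp only [e2]
      rw [intervalIntegral.integral_sub (c1.intervalIntegrable _ _) (c2.intervalIntegrable _ _),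
        intervalIntegral.integral_const_mul, orth_lower hd]
      ring
    rw [e1, neg_sq]
    refine (cs R.continuous cE).trans ?_
    rw [mul_comm]
    apply mul_le_mul_of_nonneg_right
    · have h2 : ∫ x in (-1 : ℝ)..1, ((Q0 l).eval x - gg ((Q0 l).eval x)) ^ 2
          ≤ ∫ x in (-1 : ℝ)..1, (al l ^ 6 / 4) * (leg l).eval x ^ 2 := by
        apply intervalIntegral.integral_mono_on (by norm_num)
        · exact (cE.pow 2).intervalIntegrable _ _
        · apply Continuous.intervalIntegrable; fun_prop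
        · intro x hx
          have h3 := E_abs ((Q0 l).eval x)
          have h4 := leg_le_one l hx
          rw [← sq_abs]
          have h5 : |(Q0 l).eval x - gg ((Q0 l).eval x)| ^ 2 ≤ (|(Q0 l).eval x| ^ 3 / 2) ^ 2 :=
            pow_le_pow_left₀ (abs_nonneg _) h3 2
          refine h5.trans ?_
          have e3 : (|(Q0 l).eval x| ^ 3 / 2) ^ 2
              = (al l ^ 6 / 4) * (leg l).eval x ^ 2 * (|(leg l).eval x| ^ 4) := by
            rw [hQ0, abs_mul, abs_of_pos ha, ← sq_abs ((leg l).eval x)]; ring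
          rw [e3]
          exact mul_le_of_le_one_right (by positivity) (pow_le_one₀ (abs_nonneg _) h4)
      rw [intervalIntegral.integral_const_mul, leg_norm] at h2
      refine h2.trans (le_of_eq ?_)
      field_simp
      ring
    · apply intervalIntegral.integral_nonneg (by norm_num)
      intro x _; positivity
  · -- smallness
    have h1 := al_sq_le hl
    have h2 := K2_le hl
    have hK0 : 0 < K2 l := by linarith
    have hlam := lam_ge hl
    have e1 : (1 / K2 l * (al l / 4)) ^ 2 = al l ^ 2 / (16 * K2 l ^ 2) := by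
      field_simp; ring
    rw [e1, lt_div_iff₀ (by positivity)]
    have h3 : K2 l ^ 2 ≤ 17 / 10 := by nlinarith
    have e2 : (l : ℝ) ^ 2 / 2 * (al l ^ 6 / (2 * (2 * (l : ℝ) + 1))) * (16 * K2 l ^ 2)
        = al l ^ 2 * ((al l ^ 2 * lam l) ^ 2 * K2 l ^ 2 * (4 / (((l : ℝ) + 1) ^ 2 * (2 * (l : ℝ) + 1)))) := by
      unfold lam; field_simp; ring
    rw [e2]
    have h4 : (al l ^ 2 * lam l) ^ 2 * K2 l ^ 2 ≤ 5 ^ 2 * (17 / 10) := by
      apply mul_le_mul _ h3 (by positivity) (by positivity)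
      exact pow_le_pow_left₀ (by positivity) h1 2
    have h5 : 4 / (((l : ℝ) + 1) ^ 2 * (2 * (l : ℝ) + 1)) ≤ 4 / (8 ^ 2 * 15) := by
      apply div_le_div_of_nonneg_left (by norm_num) (by norm_num)
      apply mul_le_mul _ (by linarith) (by norm_num) (by positivity)
      apply pow_le_pow_left₀ (by norm_num); linarith
    have h6 : (al l ^ 2 * lam l) ^ 2 * K2 l ^ 2 * (4 / (((l : ℝ) + 1) ^ 2 * (2 * (l : ℝ) + 1)))
        ≤ (5 ^ 2 * (17 / 10)) * (4 / (8 ^ 2 * 15)) := by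
      apply mul_le_mul h4 h5 (by positivity) (by norm_num)
    have h7 : 0 < al l ^ 2 := by positivity
    have h8 : al l ^ 2 * ((al l ^ 2 * lam l) ^ 2 * K2 l ^ 2 * (4 / (((l : ℝ) + 1) ^ 2 * (2 * (l : ℝ) + 1))))
        ≤ al l ^ 2 * ((5 ^ 2 * (17 / 10)) * (4 / (8 ^ 2 * 15))) :=
      mul_le_mul_of_nonneg_left h6 h7.le
    nlinarith

end Pool.Agent.Helper61.ML
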