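import Pool.Agent.Helper61.ML.Gen

set_option autoImplicit false

open Polynomial MeasureTheory intervalIntegral

namespace Pool.Agent.Helper61.ML

/-- closeness of centered primitives -/
lemma gen_close {l : ℕ} (hl : 7 ≤ l) {Q P : ℝ[X]} (hQ : Sol l Q) (hP : derivative P = Q)
    (hc : P.eval (-1) = - P.eval 1) {x : ℝ} (hx : x ∈ Set.Icc (-1 : ℝ) 1) :
    (P.eval x - (P0 l).eval x) ^ 2 ≤ K2 l ^ 2 * (al l ^ 6 / (4 * (2 * (l : ℝ) + 1))) := by
  have h1 : derivative (P - P0 l) = Q - Q0 l := by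
    rw [derivative_sub, hP, P0_deriv (by omega)]
  have h2 : (P - P0 l).eval (-1) = - (P - P0 l).eval 1 := by
    rw [eval_sub, eval_sub, (P0_end l).1, (P0_end l).2, hc]; ring
  have h3 := centered_diff h1 h2 hx
  have h4 := (gen_core hl hQ).1
  rw [eval_sub] at h3
  refine h3.trans ?_
  have e : K2 l ^ 2 * (al l ^ 6 / (4 * (2 * (l : ℝ) + 1)))
      = K2 l ^ 2 * (al l ^ 6 / (2 * (2 * (l : ℝ) + 1))) / 2 := by
    field_simp; ring
  rw [e]
  linarith

/-- the integral of `Q` is bounded below by an explicit quantity -/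
lemma J_lower {l : ℕ} (hl : 7 ≤ l) {Q : ℝ[X]} (hQ : Sol l Q) :
    al l ^ 3 * (II l l / 2 - (2 / (2 * (l : ℝ) + 1)) * al l ^ 2 *
      (3 / 8 + 3 / 4 * K2 l + 27 / 32 * al l ^ 2 * K2 l ^ 2)) ≤ ∫ x in (-1 : ℝ)..1, Q.eval x := by
  have ha := al_pos l
  have hK := K2_one l
  obtain ⟨hD, hδ⟩ := gen_core hl hQ
  set R := Q - Q0 l with hR
  set D := ∫ x in (-1 : ℝ)..1, R.eval x ^ 2 with hDdef
  have hQ0 : ∀ x, (Q0 l).eval x = al l * (leg l).eval x := by
    intro x; unfold Q0; simp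
  have hQe : ∀ x, Q.eval x = (Q0 l).eval x + R.eval x := by
    intro x; rw [hR, eval_sub]; ring
  set N2 : ℝ := 2 / (2 * (l : ℝ) + 1) with hN2
  have hN2p : 0 < N2 := by rw [hN2]; positivity
  -- orthogonality to constants
  have h0 : ∫ x in (-1 : ℝ)..1, gg (Q.eval x) = 0 := by
    have := hQ.2.2 0 (by omega)
    simpa using this
  have hJ : ∫ x in (-1 : ℝ)..1, Q.eval x = ∫ x in (-1 : ℝ)..1, (Q.eval x - gg (Q.eval x)) := by
    rw [intervalIntegral.integral_sub (Q.continuous.intervalIntegrable _ _)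
      ((ggQ_cont Q).intervalIntegrable _ _), h0, sub_zero]
  -- pointwise bound
  have hpt : ∀ x ∈ Set.Icc (-1 : ℝ) 1,
      al l ^ 3 / 2 * ((leg l).eval x * (leg l).eval x ^ 2)
        - (3 / 8 * al l ^ 5) * (leg l).eval x ^ 2
        - (3 / 2 * al l ^ 2) * (|(leg l).eval x| * |R.eval x|)
        - (27 / 8 * al l) * R.eval x ^ 2 ≤ Q.eval x - gg (Q.eval x) := by
    intro x hx
    have hp := leg_le_one l hx
    have hr := hδ x hx
    have hp0 := abs_nonneg ((leg l).eval x)
    have hr0 := abs_nonneg (R.eval x)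
    have hlip := E_lip (m := |(Q0 l).eval x| + |R.eval x|) (a := Q.eval x) (b := (Q0 l).eval x)
      (by rw [hQe]; exact abs_add_le _ _) (by linarith)
    have hlow := E_lower ((Q0 l).eval x)
    have h1 := (abs_le.1 hlip).1
    have hsub : Q.eval x - (Q0 l).eval x = R.eval x := by rw [hQe]; ring
    rw [hsub] at h1
    have hq0 : |(Q0 l).eval x| = al l * |(leg l).eval x| := by
      rw [hQ0, abs_mul, abs_of_pos ha]
    rw [hq0] at hlow h1
    rw [hQ0] at hlow h1
    -- bound the error terms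
    set p := |(leg l).eval x| with hpdef
    set r := |R.eval x| with hrdef
    have hp2 : (leg l).eval x ^ 2 = p ^ 2 := by rw [hpdef, sq_abs]
    have hr2 : R.eval x ^ 2 = r ^ 2 := by rw [hrdef, sq_abs]
    have h5 : (al l * p) ^ 5 ≤ al l ^ 5 * p ^ 2 := by
      have : (al l * p) ^ 5 = al l ^ 5 * p ^ 2 * p ^ 3 := by ring
      rw [this]
      exact mul_le_of_le_one_right (by positivity) (pow_le_one₀ hp0 hp)
    have h6 : (al l * p + r) ^ 2 * r ≤ al l ^ 2 * (p * r) + 9 / 4 * al l * r ^ 2 := by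
      have e : (al l * p + r) ^ 2 * r = al l ^ 2 * (p * r) * p + 2 * al l * r ^ 2 * p + r * r ^ 2 := by
        ring
      rw [e]
      have h7 : al l ^ 2 * (p * r) * p ≤ al l ^ 2 * (p * r) :=
        mul_le_of_le_one_right (by positivity) hp
      have h8 : 2 * al l * r ^ 2 * p ≤ 2 * al l * r ^ 2 :=
        mul_le_of_le_one_right (by positivity) hp
      have h9 : r * r ^ 2 ≤ al l / 4 * r ^ 2 := mul_le_mul_of_nonneg_right hr (sq_nonneg _)
      linarith
    have e3 : (al l * (leg l).eval x) ^ 3 / 2 = al l ^ 3 / 2 * ((leg l).eval x * (leg l).eval x ^ 2) := by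
      ring
    rw [e3] at hlow
    rw [← hp2] at h5
    rw [← hr2] at h6
    linarith
  -- integrate
  have cP : Continuous fun x : ℝ => (leg l).eval x := (leg l).continuous
  have cR : Continuous fun x : ℝ => R.eval x := R.continuous
  have c1 : Continuous fun x : ℝ => al l ^ 3 / 2 * ((leg l).eval x * (leg l).eval x ^ 2) := by fun_prop
  have c2 : Continuous fun x : ℝ => (3 / 8 * al l ^ 5) * (leg l).eval x ^ 2 := by fun_prop
  have c3 : Continuous fun x : ℝ => (3 / 2 * al l ^ 2) * (|(leg l).eval x| * |R.eval x|) := by fun_prop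
  have c4 : Continuous fun x : ℝ => (27 / 8 * al l) * R.eval x ^ 2 := by fun_prop
  have c12 : Continuous fun x : ℝ => al l ^ 3 / 2 * ((leg l).eval x * (leg l).eval x ^ 2)
        - (3 / 8 * al l ^ 5) * (leg l).eval x ^ 2 := by fun_prop
  have c123 : Continuous fun x : ℝ => al l ^ 3 / 2 * ((leg l).eval x * (leg l).eval x ^ 2)
        - (3 / 8 * al l ^ 5) * (leg l).eval x ^ 2
        - (3 / 2 * al l ^ 2) * (|(leg l).eval x| * |R.eval x|) := by fun_prop
  have c1234 : Continuous fun x : ℝ => al l ^ 3 / 2 * ((leg l).eval x * (leg l).eval x ^ 2)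
        - (3 / 8 * al l ^ 5) * (leg l).eval x ^ 2
        - (3 / 2 * al l ^ 2) * (|(leg l).eval x| * |R.eval x|)
        - (27 / 8 * al l) * R.eval x ^ 2 := by fun_prop
  have cQ : Continuous fun x : ℝ => Q.eval x - gg (Q.eval x) := Q.continuous.sub (ggQ_cont Q)
  have h1 := intervalIntegral.integral_mono_on (by norm_num : (-1 : ℝ) ≤ 1)
    (c1234.intervalIntegrable (μ := volume) (-1) 1) (cQ.intervalIntegrable _ _) hpt
  rw [intervalIntegral.integral_sub (c123.intervalIntegrable _ _) (c4.intervalIntegrable _ _),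
    intervalIntegral.integral_sub (c12.intervalIntegrable _ _) (c3.intervalIntegrable _ _),
    intervalIntegral.integral_sub (c1.intervalIntegrable _ _) (c2.intervalIntegrable _ _),
    intervalIntegral.integral_const_mul, intervalIntegral.integral_const_mul,
    intervalIntegral.integral_const_mul, intervalIntegral.integral_const_mul, leg_norm] at h1
  have hX : (∫ x in (-1 : ℝ)..1, |(leg l).eval x| * |R.eval x|) ≤ N2 * (al l ^ 3 / 2) * K2 l := by
    have h2 := cs (cP.abs) (cR.abs)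
    simp only [sq_abs] at h2
    rw [leg_norm] at h2
    refine (abs_le_of_sq_le_sq' (h2.trans ?_) (by positivity)).2
    have h3 : N2 * D ≤ N2 * (K2 l ^ 2 * (al l ^ 6 / (2 * (2 * (l : ℝ) + 1)))) :=
      mul_le_mul_of_nonneg_left hD hN2p.le
    refine h3.trans (le_of_eq ?_)
    rw [hN2]
    field_simp
  have hD' : D ≤ N2 * (al l ^ 6 / 4) * K2 l ^ 2 := by
    refine hD.trans (le_of_eq ?_)
    rw [hN2]
    field_simp
    ring
  have hII : (∫ x in (-1 : ℝ)..1, (leg l).eval x * (leg l).eval x ^ 2) = II l l := rfl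
  rw [hII] at h1
  rw [hJ]
  refine le_trans ?_ h1
  have h4 : (3 / 2 * al l ^ 2) * (∫ x in (-1 : ℝ)..1, |(leg l).eval x| * |R.eval x|)
      ≤ (3 / 2 * al l ^ 2) * (N2 * (al l ^ 3 / 2) * K2 l) :=
    mul_le_mul_of_nonneg_left hX (by positivity)
  have h5 : (27 / 8 * al l) * D ≤ (27 / 8 * al l) * (N2 * (al l ^ 6 / 4) * K2 l ^ 2) :=
    mul_le_mul_of_nonneg_left hD' (by positivity)
  nlinarith

lemma J_nonneg {l : ℕ} (hl : 7 ≤ l) (he : Even l) {Q : ℝ[X]} (hQ : Sol l Q) :
    0 ≤ ∫ x in (-1 : ℝ)..1, Q.eval x := by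
  refine le_trans ?_ (J_lower hl hQ)
  have ha := al_pos l
  apply mul_nonneg (by positivity)
  rw [sub_nonneg]
  have hl8 : l = 8 ∨ 10 ≤ l := by
    obtain ⟨k, rfl⟩ := he
    omega
  rcases hl8 with rfl | h10
  · rw [II_eight]
    unfold K2
    rw [al_eight]
    norm_num
  · obtain ⟨m, hm⟩ := he
    have hII := II_lower l m (by omega) (by omega)
    have e0 : II l (2 * m) = II l l := by rw [hm]; congr 1; ring
    have hlm : 2 * (m : ℝ) = l := by rw [hm]; push_cast; ring
    rw [e0, hlm] at hII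
    have h10' : (10 : ℝ) ≤ l := by exact_mod_cast h10
    have hβ : al l ^ 2 * lam l ≤ 1 / 2 := by
      refine (be_le (by norm_num) h10).trans ?_
      rw [al_ten]; unfold lam; norm_num
    have hlam : 110 ≤ lam l := by unfold lam; nlinarith
    have ha2 : al l ^ 2 ≤ 1 / 220 := by
      have h3 : al l ^ 2 * 110 ≤ al l ^ 2 * lam l := mul_le_mul_of_nonneg_left hlam (sq_nonneg _)
      linarith
    have hK := K2_one l
    have hKu : K2 l ≤ 103 / 100 := by
      unfold K2
      calc (1 + 25 / 16 * al l ^ 2) ^ 2 ≤ (1 + 25 / 16 * (1 / 220)) ^ 2 := by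
            apply pow_le_pow_left₀ (by positivity); linarith
        _ ≤ _ := by norm_num
    have hT : 3 / 8 + 3 / 4 * K2 l + 27 / 32 * al l ^ 2 * K2 l ^ 2 ≤ 6 / 5 := by
      have h1 : K2 l ^ 2 ≤ 11 / 10 := by nlinarith
      have h2 : al l ^ 2 * K2 l ^ 2 ≤ 1 / 220 * (11 / 10) :=
        mul_le_mul ha2 h1 (by positivity) (by norm_num)
      nlinarith
    have h1 : 2 / (2 * (l : ℝ) + 1) * al l ^ 2 * (3 / 8 + 3 / 4 * K2 l + 27 / 32 * al l ^ 2 * K2 l ^ 2)
        ≤ 2 / (2 * (l : ℝ) + 1) * al l ^ 2 * (6 / 5) :=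
      mul_le_mul_of_nonneg_left hT (by positivity)
    refine h1.trans ?_
    have h2 : 2 / (2 * (l : ℝ) + 1) * al l ^ 2 * (6 / 5) ≤ 1 / ((l : ℝ) * (2 * (l : ℝ) + 1)) / 2 := by
      have hβ' : al l ^ 2 * ((l : ℝ) * ((l : ℝ) + 1)) ≤ 1 / 2 := hβ
      have h3 : al l ^ 2 * (l : ℝ) ≤ 1 / 22 := by
        have h4 : al l ^ 2 * (l : ℝ) * 11 ≤ al l ^ 2 * (l : ℝ) * ((l : ℝ) + 1) :=
          mul_le_mul_of_nonneg_left (by linarith) (by positivity)
        nlinarith
      have e : 1 / ((l : ℝ) * (2 * (l : ℝ) + 1)) / 2 = 2 / (2 * (l : ℝ) + 1) * (1 / (4 * (l : ℝ))) := by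
        field_simp; ring
      rw [e, mul_assoc]
      apply mul_le_mul_of_nonneg_left _ (by positivity)
      rw [le_div_iff₀ (by positivity)]
      nlinarith
    linarith

theorem gen_mem {l : ℕ} (hl : 7 ≤ l) {Q P : ℝ[X]} (hQ : Sol l Q) (hP : derivative P = Q)
    (hc : P.eval (-1) = - P.eval 1) : P ∈ MclassS (l + 1) := by
  have ha := al_pos l
  have hlam := lam_ge hl
  have hlp : 0 < lam l := by linarith
  obtain ⟨n, rfl⟩ : ∃ n, l = n + 1 := ⟨l - 1, by omega⟩
  obtain ⟨z, hz1, hz2, hz3, hz4⟩ := leg_zeros n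
  set t : ℕ → ℝ := fun i => if i = 0 then -1 else if i ≤ n + 1 then z (i - 1) else 1 with ht
  have t0 : t 0 = -1 := by simp [ht]
  have ts : ∀ j ≤ n, t (j + 1) = z j := by
    intro j hj
    simp only [ht]
    rw [if_neg (by omega), if_pos (by omega)]
    simp
  have tl : t (n + 1 + 1) = 1 := by
    simp only [ht]
    rw [if_neg (by omega), if_neg (by omega)]
  apply finish hQ hP hc _ (t := t) _ t0 tl
  · intro i hi0 hi
    obtain ⟨j, rfl⟩ : ∃ j, i = j + 1 := ⟨i - 1, by omega⟩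
    have hj : j ≤ n := by omega
    rw [ts j hj]
    have hzI : z j ∈ Set.Icc (-1 : ℝ) 1 := ⟨(hz2 j hj).1.le, (hz2 j hj).2.le⟩
    have hclose := gen_close hl hQ hP hc hzI
    have hext := leg_ext (n + 1) (by omega) hzI (hz3 j hj)
    have hA := legA n (z j)
    rw [hz3 j hj, mul_zero, sub_zero] at hA
    -- y = (1-z²) P'(z)
    set y : ℝ := (1 - z j ^ 2) * (leg (n + 1)).derivative.eval (z j) with hy
    have hysgn : 0 < (-1) ^ (n - j) * y := by
      rw [hA]
      have := hz4 j hj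
      have e : (-1 : ℝ) ^ (n - j) * (((n : ℝ) + 1) * (leg n).eval (z j))
          = ((n : ℝ) + 1) * ((-1) ^ (n - j) * (leg n).eval (z j)) := by ring
      rw [e]; positivity
    have hP0 : (P0 (n + 1)).eval (z j) = -(al (n + 1) / lam (n + 1)) * y := by
      unfold P0
      rw [eval_mul, eval_C, eval_mul]
      simp only [eval_sub, eval_one, eval_pow, eval_X]
      rw [hy]
    have e1 : n + 1 + 1 - (j + 1) = (n - j) + 1 := by omega
    rw [e1, pow_succ]
    set s : ℝ := (-1) ^ (n - j) with hs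
    have hs2 : s * s = 1 := by rw [hs, ← mul_pow]; norm_num
    set W : ℝ := P.eval (z j) - (P0 (n + 1)).eval (z j) with hW
    have e2 : s * -1 * P.eval (z j) = (al (n + 1) / lam (n + 1)) * (s * y) - s * W := by
      rw [hW, hP0]; ring
    rw [e2]
    -- compare squares
    have hW2 : (s * W) ^ 2 < ((al (n + 1) / lam (n + 1)) * (s * y)) ^ 2 := by
      have e3 : (s * W) ^ 2 = W ^ 2 := by
        have : (s * W) ^ 2 = (s * s) * W ^ 2 := by ring
        rw [this, hs2, one_mul]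
      have e4 : ((al (n + 1) / lam (n + 1)) * (s * y)) ^ 2
          = (al (n + 1) / lam (n + 1)) ^ 2 * y ^ 2 := by
        have : ((al (n + 1) / lam (n + 1)) * (s * y)) ^ 2
          = (s * s) * ((al (n + 1) / lam (n + 1)) ^ 2 * y ^ 2) := by ring
        rw [this, hs2, one_mul]
      rw [e3, e4]
      refine lt_of_le_of_lt hclose ?_
      have h1 := al_sq_le hl
      have h2 := K2_le hl
      have hK := K2_one (n + 1)
      have hl7 : (7 : ℝ) ≤ ((n + 1 : ℕ) : ℝ) := by exact_mod_cast hl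
      have h3 : K2 (n + 1) ^ 2 ≤ 17 / 10 := by nlinarith
      have h4 : (al (n + 1) ^ 2 * lam (n + 1)) ^ 2 * K2 (n + 1) ^ 2 ≤ 5 ^ 2 * (17 / 10) := by
        apply mul_le_mul _ h3 (by positivity) (by positivity)
        exact pow_le_pow_left₀ (by positivity) h1 2
      have e5 : K2 (n + 1) ^ 2 * (al (n + 1) ^ 6 / (4 * (2 * ((n + 1 : ℕ) : ℝ) + 1)))
          = (al (n + 1) / lam (n + 1)) ^ 2 * ((al (n + 1) ^ 2 * lam (n + 1)) ^ 2 * K2 (n + 1) ^ 2
            * (1 / (4 * (2 * ((n + 1 : ℕ) : ℝ) + 1)))) := by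
        field_simp
      rw [e5]
      apply mul_lt_mul_of_pos_left _ (by positivity)
      have h5 : 1 / (4 * (2 * ((n + 1 : ℕ) : ℝ) + 1)) ≤ 1 / 60 := by
        apply div_le_div_of_nonneg_left (by norm_num) (by norm_num)
        linarith
      have h6 : (al (n + 1) ^ 2 * lam (n + 1)) ^ 2 * K2 (n + 1) ^ 2
            * (1 / (4 * (2 * ((n + 1 : ℕ) : ℝ) + 1))) ≤ (5 ^ 2 * (17 / 10)) * (1 / 60) :=
        mul_le_mul h4 h5 (by positivity) (by norm_num)
      have h7 : 2 / (3 * lam (n + 1)) ≤ 2 / (3 * 56) := by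
        apply div_le_div_of_nonneg_left (by norm_num) (by norm_num)
        linarith
      refine lt_of_le_of_lt h6 (lt_of_lt_of_le ?_ hext)
      norm_num at h7 ⊢
      linarith
    have h8 : 0 < (al (n + 1) / lam (n + 1)) * (s * y) := by positivity
    have h9 := abs_lt_of_sq_lt_sq hW2 h8.le
    linarith [(abs_lt.1 h9).2]
  · intro he
    have h := J_nonneg hl he hQ
    have h2 := ftc P (-1) 1
    rw [hP] at h2
    rw [h2, hc] at h
    linarith
  · intro i hi
    rcases Nat.eq_zero_or_pos i with rfl | hi0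
    · rw [t0, ts 0 (by omega)]; exact (hz2 0 (by omega)).1
    · obtain ⟨j, rfl⟩ : ∃ j, i = j + 1 := ⟨i - 1, by omega⟩
      rw [ts j (by omega)]
      rcases Nat.lt_or_ge j n with h | h
      · rw [ts (j + 1) (by omega)]; exact hz1 j h
      · have : j = n := by omega
        subst this
        rw [tl]; exact (hz2 j le_rfl).2

end Pool.Agent.Helper61.ML
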