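import Mathlib

set_option autoImplicit false

open Polynomial MeasureTheory intervalIntegral

namespace Pool.Agent.Helper61.ML

lemma root_pos (u : ℝ) : 0 < Real.sqrt (1 + u ^ 2) := Real.sqrt_pos.mpr (by positivity)

lemma root_sq (u : ℝ) : Real.sqrt (1 + u ^ 2) ^ 2 = 1 + u ^ 2 := Real.sq_sqrt (by positivity)

lemma one_le_root (u : ℝ) : 1 ≤ Real.sqrt (1 + u ^ 2) := by
  rw [Real.one_le_sqrt]; nlinarith [sq_nonneg u]

/-- `g(q) = q / √(1+q²)` -/
noncomputable def gg (q : ℝ) : ℝ := q / Real.sqrt (1 + q ^ 2)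

lemma gg_cont : Continuous gg := by
  have h1 : Continuous fun x : ℝ => Real.sqrt (1 + x ^ 2) := by fun_prop
  exact continuous_id.div h1 fun x => (root_pos _).ne'

lemma gg_neg (q : ℝ) : gg (-q) = - gg q := by
  unfold gg; rw [neg_sq, neg_div]

lemma gg_deriv (q : ℝ) : HasDerivAt gg (1 / ((1 + q ^ 2) * Real.sqrt (1 + q ^ 2))) q := by
  have hr := root_pos q
  have h1 : HasDerivAt (fun x : ℝ => Real.sqrt (1 + x ^ 2)) (q / Real.sqrt (1 + q ^ 2)) q := by
    have h2 : HasDerivAt (fun x : ℝ => 1 + x ^ 2) (2 * q) q := by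
      have := (hasDerivAt_pow 2 q).const_add 1
      simpa using this
    have h3 := h2.sqrt (by positivity)
    convert h3 using 1
    field_simp
  have h4 := (hasDerivAt_id q).div h1 hr.ne'
  have h5 := root_sq q
  have e : 1 / ((1 + q ^ 2) * Real.sqrt (1 + q ^ 2)) = (1 * Real.sqrt (1 + q ^ 2)
      - id q * (q / Real.sqrt (1 + q ^ 2))) / Real.sqrt (1 + q ^ 2) ^ 2 := by
    simp only [id]
    generalize Real.sqrt (1 + q ^ 2) = r at hr h5
    rw [← h5]
    have e2 : q ^ 2 = r ^ 2 - 1 := by linarith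
    field_simp
    rw [e2]
    ring
  rw [e]
  exact h4

/-- admissible `κ` -/
def Kap (κ M : ℝ) : Prop := 0 < κ ∧ 0 ≤ M ∧ κ ^ 2 * (1 + M ^ 2) ^ 3 ≤ 1

lemma kap_le {κ M q : ℝ} (h : Kap κ M) (hq : |q| ≤ M) :
    κ ≤ 1 / ((1 + q ^ 2) * Real.sqrt (1 + q ^ 2)) := by
  obtain ⟨h0, hM, h1⟩ := h
  have hr := root_pos q
  have hr2 := root_sq q
  rw [le_div_iff₀ (by positivity)]
  have h2 : q ^ 2 ≤ M ^ 2 := by
    rw [← sq_abs]; exact pow_le_pow_left₀ (abs_nonneg _) hq 2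
  have h3 : (κ * ((1 + q ^ 2) * Real.sqrt (1 + q ^ 2))) ^ 2 ≤ 1 := by
    have : (κ * ((1 + q ^ 2) * Real.sqrt (1 + q ^ 2))) ^ 2 = κ ^ 2 * (1 + q ^ 2) ^ 3 := by
      rw [mul_pow, mul_pow, hr2]; ring
    rw [this]
    refine le_trans ?_ h1
    apply mul_le_mul_of_nonneg_left _ (sq_nonneg _)
    apply pow_le_pow_left₀ (by positivity)
    linarith
  have h4 : 0 ≤ κ * ((1 + q ^ 2) * Real.sqrt (1 + q ^ 2)) := by positivity
  nlinarith

lemma gg_lower {κ M a b : ℝ} (h : Kap κ M) (ha : |a| ≤ M) (hb : |b| ≤ M) (hab : a ≤ b) :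
    κ * (b - a) ≤ gg b - gg a := by
  have h1 := (convex_Icc (-M) M).mul_sub_le_image_sub_of_le_deriv (f := gg) (C := κ)
    gg_cont.continuousOn (fun x _ => (gg_deriv x).differentiableAt.differentiableWithinAt)
    (fun x hx => by
      rw [(gg_deriv x).deriv]
      have hx' := interior_subset hx
      exact kap_le h (abs_le.2 hx'))
  exact h1 a (abs_le.1 ha) b (abs_le.1 hb) hab

lemma gg_mono : Monotone gg := by
  apply monotone_of_deriv_nonneg (fun x => (gg_deriv x).differentiableAt)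
  intro x
  rw [(gg_deriv x).deriv]
  have := root_pos x
  positivity

lemma gg_lower2 {κ M a b : ℝ} (h : Kap κ M) (ha : |a| ≤ M) (hb : |b| ≤ M) :
    κ * (b - a) ^ 2 ≤ (gg b - gg a) * (b - a) := by
  rcases le_total a b with hab | hab
  · have := gg_lower h ha hb hab
    nlinarith
  · have := gg_lower h hb ha hab
    nlinarith

/-- truncated lower bound -/
lemma gg_trunc {κ B δ S a r : ℝ} (h : Kap κ (B + δ)) (hδ : 0 < δ) (hS : δ ≤ S)
    (ha : |a| ≤ B) (hr : |r| ≤ S) : κ * (δ / S) * r ^ 2 ≤ (gg (a + r) - gg a) * r := by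
  have hS0 : 0 < S := hδ.trans_le hS
  have hk := h.1
  have ha' : |a| ≤ B + δ := by linarith
  have hds : δ / S ≤ 1 := by rw [div_le_one hS0]; exact hS
  rcases le_total |r| δ with h1 | h1
  · have har : |a + r| ≤ B + δ := (abs_add_le _ _).trans (add_le_add ha h1)
    have h2 := gg_lower2 h ha' har
    rw [add_sub_cancel_left] at h2
    refine le_trans ?_ h2
    have : κ * (δ / S) * r ^ 2 = κ * r ^ 2 * (δ / S) := by ring
    rw [this]
    exact mul_le_of_le_one_right (by positivity) hds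
  · have key : κ * δ * |r| ≤ (gg (a + r) - gg a) * r := by
      rcases le_total 0 r with hr0 | hr0
      · rw [abs_of_nonneg hr0] at h1 ⊢
        have h2 : |a + δ| ≤ B + δ := (abs_add_le _ _).trans (add_le_add ha (abs_of_pos hδ).le)
        have h3 := gg_lower h ha' h2 (by linarith)
        have h4 : gg (a + δ) ≤ gg (a + r) := gg_mono (by linarith)
        apply mul_le_mul_of_nonneg_right _ hr0
        linarith
      · rw [abs_of_nonpos hr0] at h1 ⊢
        have h2 : |a - δ| ≤ B + δ := (abs_sub _ _).trans (add_le_add ha (abs_of_pos hδ).le)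
        have h3 := gg_lower h h2 ha' (by linarith)
        have h4 : gg (a + r) ≤ gg (a - δ) := gg_mono (by linarith)
        have h5 : κ * δ ≤ gg a - gg (a + r) := by linarith
        nlinarith
    refine le_trans ?_ key
    have h6 : r ^ 2 ≤ S * |r| := by
      rw [← sq_abs, sq]; exact mul_le_mul_of_nonneg_right hr (abs_nonneg _)
    calc κ * (δ / S) * r ^ 2 ≤ κ * (δ / S) * (S * |r|) :=
          mul_le_mul_of_nonneg_left h6 (by positivity)
      _ = κ * δ * |r| := by field_simp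

/-! ### `E(q) = q - g(q)` -/

lemma inv_root_lower (q : ℝ) : 1 - q ^ 2 / 2 ≤ 1 / Real.sqrt (1 + q ^ 2) := by
  have hr := root_pos q
  have hr1 := one_le_root q
  have hr2 := root_sq q
  rw [le_div_iff₀ hr]
  set r := Real.sqrt (1 + q ^ 2)
  have e : q ^ 2 = r ^ 2 - 1 := by linarith
  rw [e]
  nlinarith [mul_nonneg (sub_nonneg.2 hr1) (sub_nonneg.2 hr1), mul_nonneg (mul_nonneg (sub_nonneg.2 hr1) (sub_nonneg.2 hr1)) hr.le]

lemma inv_root_upper (q : ℝ) : 1 / Real.sqrt (1 + q ^ 2) ≤ 1 - q ^ 2 / 2 + 3 / 8 * q ^ 4 := by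
  have hr := root_pos q
  have hr1 := one_le_root q
  have hr2 := root_sq q
  rw [div_le_iff₀ hr]
  have hs : 0 ≤ q ^ 2 := sq_nonneg q
  have hp : 0 ≤ 1 - q ^ 2 / 2 + 3 / 8 * q ^ 4 := by nlinarith [sq_nonneg (q ^ 2 - 2 / 3)]
  have h1 : 1 ≤ ((1 - q ^ 2 / 2 + 3 / 8 * q ^ 4) * Real.sqrt (1 + q ^ 2)) ^ 2 := by
    rw [mul_pow, hr2]
    have : (1 - q ^ 2 / 2 + 3 / 8 * q ^ 4) ^ 2 * (1 + q ^ 2)
        = 1 + q ^ 6 * (5 / 8 - 15 / 64 * q ^ 2 + 9 / 64 * q ^ 4) := by ring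
    rw [this]
    have h2 : 0 ≤ 5 / 8 - 15 / 64 * q ^ 2 + 9 / 64 * q ^ 4 := by
      nlinarith [sq_nonneg (q ^ 2 - 5 / 6)]
    have h3 : 0 ≤ q ^ 6 := by positivity
    nlinarith [mul_nonneg h3 h2]
  have h4 : 0 ≤ (1 - q ^ 2 / 2 + 3 / 8 * q ^ 4) * Real.sqrt (1 + q ^ 2) := by positivity
  nlinarith

lemma E_abs (q : ℝ) : |q - gg q| ≤ |q| ^ 3 / 2 := by
  have h1 := inv_root_lower q
  have hr := root_pos q
  have hr1 := one_le_root q
  have h2 : 1 / Real.sqrt (1 + q ^ 2) ≤ 1 := by rw [div_le_one hr]; exact hr1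
  have e : q - gg q = q * (1 - 1 / Real.sqrt (1 + q ^ 2)) := by unfold gg; ring
  rw [e, abs_mul, abs_of_nonneg (by linarith : 0 ≤ 1 - 1 / Real.sqrt (1 + q ^ 2))]
  have h3 : |q| ^ 3 / 2 = |q| * (q ^ 2 / 2) := by rw [← sq_abs]; ring
  rw [h3]
  apply mul_le_mul_of_nonneg_left _ (abs_nonneg _)
  linarith

lemma E_lower (q : ℝ) : q ^ 3 / 2 - 3 / 8 * |q| ^ 5 ≤ q - gg q := by
  have h1 := inv_root_lower q
  have h2 := inv_root_upper q
  have e : q - gg q = q * (1 - 1 / Real.sqrt (1 + q ^ 2)) := by unfold gg; ring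
  rw [e]
  rcases le_total 0 q with h | h
  · rw [abs_of_nonneg h]
    nlinarith [mul_nonneg h (sub_nonneg.2 h2)]
  · have h3 : 0 ≤ |q| ^ 5 := by positivity
    nlinarith [mul_nonneg (neg_nonneg.2 h) (sub_nonneg.2 h1)]

lemma E_lip {m a b : ℝ} (ha : |a| ≤ m) (hb : |b| ≤ m) :
    |(a - gg a) - (b - gg b)| ≤ 3 / 2 * m ^ 2 * |a - b| := by
  have hd : ∀ x : ℝ, HasDerivAt (fun x => x - gg x)
      (1 - 1 / ((1 + x ^ 2) * Real.sqrt (1 + x ^ 2))) x := fun x =>
    (hasDerivAt_id x).sub (gg_deriv x)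
  have h := (convex_Icc (-m) m).norm_image_sub_le_of_norm_hasDerivWithin_le
    (f := fun x => x - gg x) (f' := fun x => 1 - 1 / ((1 + x ^ 2) * Real.sqrt (1 + x ^ 2)))
    (C := 3 / 2 * m ^ 2) (fun x _ => (hd x).hasDerivWithinAt) (fun x hx => by
      rw [Real.norm_eq_abs]
      have hr := root_pos x
      have hr1 := one_le_root x
      have hr2 := root_sq x
      have hx2 : x ^ 2 ≤ m ^ 2 := by
        rw [← sq_abs]; exact pow_le_pow_left₀ (abs_nonneg _) (abs_le.2 hx) 2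
      have h1 : 1 / ((1 + x ^ 2) * Real.sqrt (1 + x ^ 2)) ≤ 1 := by
        rw [div_le_one (by positivity)]; nlinarith [sq_nonneg x]
      have h2 : 1 - 3 / 2 * x ^ 2 ≤ 1 / ((1 + x ^ 2) * Real.sqrt (1 + x ^ 2)) := by
        rw [le_div_iff₀ (by positivity)]
        generalize Real.sqrt (1 + x ^ 2) = r at hr hr1 hr2
        rw [← hr2]
        have e : x ^ 2 = r ^ 2 - 1 := by linarith
        rw [e]
        have : (1 - 3 / 2 * (r ^ 2 - 1)) * (r ^ 2 * r) ≤ 1 := by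
          have h5 : 1 - (1 - 3 / 2 * (r ^ 2 - 1)) * (r ^ 2 * r)
            = (r - 1) ^ 2 * (3 / 2 * r ^ 3 + 3 * r ^ 2 + 2 * r + 1) := by ring
          have h6 : 0 ≤ (r - 1) ^ 2 * (3 / 2 * r ^ 3 + 3 * r ^ 2 + 2 * r + 1) := by positivity
          linarith
        exact this
      rw [abs_of_nonneg (by linarith)]
      linarith) (abs_le.1 hb) (abs_le.1 ha)
  simpa [Real.norm_eq_abs] using h

end Pool.Agent.Helper61.ML
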