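import Mathlib

set_option autoImplicit false

open Polynomial MeasureTheory intervalIntegral

namespace Pool.Agent.Helper61.ML

/-- Legendre polynomials, by the three term recurrence. -/
noncomputable def leg : ℕ → ℝ[X]
  | 0 => 1
  | 1 => X
  | (n + 2) => C (1 / ((n : ℝ) + 2)) *
      (C (2 * (n : ℝ) + 3) * X * leg (n + 1) - C ((n : ℝ) + 1) * leg n)

lemma leg_zero : leg 0 = 1 := rfl
lemma leg_one : leg 1 = X := rfl

lemma leg_rec (n : ℕ) : leg (n + 2) = C (1 / ((n : ℝ) + 2)) *
      (C (2 * (n : ℝ) + 3) * X * leg (n + 1) - C ((n : ℝ) + 1) * leg n) := by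
  rw [leg]

lemma rec_eval (n : ℕ) (x : ℝ) : ((n : ℝ) + 2) * (leg (n + 2)).eval x
    = (2 * (n : ℝ) + 3) * x * (leg (n + 1)).eval x - ((n : ℝ) + 1) * (leg n).eval x := by
  rw [leg_rec]
  simp only [eval_mul, eval_sub, eval_C, eval_X]
  field_simp

lemma rec_deriv (n : ℕ) (x : ℝ) : ((n : ℝ) + 2) * (leg (n + 2)).derivative.eval x
    = (2 * (n : ℝ) + 3) * ((leg (n + 1)).eval x + x * (leg (n + 1)).derivative.eval x)
      - ((n : ℝ) + 1) * (leg n).derivative.eval x := by
  rw [leg_rec]
  simp only [derivative_mul, derivative_sub, derivative_C, derivative_X, eval_mul, eval_sub,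
    eval_add, eval_C, eval_X, zero_mul, zero_add, mul_one]
  field_simp

lemma BC (n : ℕ) (x : ℝ) :
    x * (leg (n + 1)).derivative.eval x - (leg n).derivative.eval x
      = ((n : ℝ) + 1) * (leg (n + 1)).eval x ∧
    (leg (n + 1)).derivative.eval x - x * (leg n).derivative.eval x
      = ((n : ℝ) + 1) * (leg n).eval x := by
  induction n with
  | zero => simp [leg]
  | succ n ih =>
    obtain ⟨hB, hC⟩ := ih
    have h1 := rec_eval n x
    have h2 := rec_deriv n x
    have hn : ((n : ℝ) + 2) ≠ 0 := by positivity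
    have hC' : (leg (n + 2)).derivative.eval x - x * (leg (n + 1)).derivative.eval x
      = ((n : ℝ) + 2) * (leg (n + 1)).eval x := by
      apply mul_left_cancel₀ hn
      linear_combination h2 + ((n : ℝ) + 1) * hB
    refine ⟨?_, ?_⟩
    · push_cast
      have e : ((n : ℝ) + 1 + 1) = (n : ℝ) + 2 := by ring
      rw [e]
      show x * (leg (n + 2)).derivative.eval x - (leg (n + 1)).derivative.eval x
        = ((n : ℝ) + 2) * (leg (n + 2)).eval x
      linear_combination x * hC' + x * hB - hC - h1
    · push_cast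
      have e : ((n : ℝ) + 1 + 1) = (n : ℝ) + 2 := by ring
      rw [e]
      exact hC'

/-- `x P_n' - P_{n-1}' = n P_n` -/
lemma legB (n : ℕ) (x : ℝ) : x * (leg (n + 1)).derivative.eval x - (leg n).derivative.eval x
      = ((n : ℝ) + 1) * (leg (n + 1)).eval x := (BC n x).1

lemma legC (n : ℕ) (x : ℝ) : (leg (n + 1)).derivative.eval x - x * (leg n).derivative.eval x
      = ((n : ℝ) + 1) * (leg n).eval x := (BC n x).2

lemma legA (n : ℕ) (x : ℝ) : (1 - x ^ 2) * (leg (n + 1)).derivative.eval x
      = ((n : ℝ) + 1) * ((leg n).eval x - x * (leg (n + 1)).eval x) := by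
  linear_combination legC n x - x * legB n x

/-- `P_{n+1}' - P_{n-1}' = (2n+1) P_n` -/
lemma legD (n : ℕ) (x : ℝ) : (leg (n + 2)).derivative.eval x - (leg n).derivative.eval x
      = (2 * (n : ℝ) + 3) * (leg (n + 1)).eval x := by
  have h1 := legB n x
  have h2 := legC (n + 1) x
  push_cast at h2
  linear_combination h1 + h2

/-- second derivative -/
noncomputable def dd (n : ℕ) : ℝ[X] := (leg n).derivative.derivative

lemma leg_ode (n : ℕ) (x : ℝ) : (1 - x ^ 2) * (dd n).eval x
    = 2 * x * (leg n).derivative.eval x - (n : ℝ) * (n + 1) * (leg n).eval x := by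
  cases n with
  | zero => simp [leg, dd]
  | succ n =>
    have h : (1 - X ^ 2) * (leg (n + 1)).derivative
        = C ((n : ℝ) + 1) * (leg n - X * leg (n + 1)) := by
      apply Polynomial.funext
      intro y
      simp only [eval_mul, eval_sub, eval_one, eval_pow, eval_X, eval_C]
      exact legA n y
    have h2 := congrArg (fun p => (derivative p).eval x) h
    simp only [derivative_mul, derivative_sub, derivative_C, derivative_X, eval_mul, eval_sub,
      eval_add, eval_C, eval_X, zero_mul, zero_add, mul_one, one_mul, derivative_one,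
      derivative_X_pow, eval_pow, eval_one, Nat.cast_ofNat] at h2
    norm_num at h2
    have h3 := legB n x
    unfold dd
    push_cast
    linear_combination h2 - ((n : ℝ) + 1) * h3

lemma leg_at_one (n : ℕ) : (leg n).eval 1 = 1 ∧ (leg (n + 1)).eval 1 = 1 := by
  induction n with
  | zero => simp [leg]
  | succ n ih =>
    refine ⟨ih.2, ?_⟩
    have h := rec_eval n 1
    rw [ih.1, ih.2] at h
    have hn : ((n : ℝ) + 2) ≠ 0 := by positivity
    apply mul_left_cancel₀ hn
    linear_combination h

lemma leg_one_val (n : ℕ) : (leg n).eval 1 = 1 := (leg_at_one n).1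

lemma leg_par (n : ℕ) (x : ℝ) : (leg n).eval (-x) = (-1) ^ n * (leg n).eval x ∧
    (leg (n + 1)).eval (-x) = (-1) ^ (n + 1) * (leg (n + 1)).eval x := by
  induction n with
  | zero => simp [leg]
  | succ n ih =>
    refine ⟨ih.2, ?_⟩
    have h := rec_eval n (-x)
    have h' := rec_eval n x
    rw [ih.1, ih.2] at h
    have hn : ((n : ℝ) + 2) ≠ 0 := by positivity
    apply mul_left_cancel₀ hn
    have e : (-1 : ℝ) ^ (n + 1 + 1) = (-1) ^ n := by rw [pow_succ, pow_succ]; ring
    have e1 : (-1 : ℝ) ^ (n + 1) = - (-1) ^ n := by rw [pow_succ]; ring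
    rw [e1] at h
    rw [e]
    linear_combination h - (-1 : ℝ) ^ n * h'

lemma leg_parity (n : ℕ) (x : ℝ) : (leg n).eval (-x) = (-1) ^ n * (leg n).eval x :=
  (leg_par n x).1

lemma leg_neg_one (n : ℕ) : (leg n).eval (-1) = (-1) ^ n := by
  rw [leg_parity, leg_one_val, mul_one]

/-- leading coefficient -/
noncomputable def kk : ℕ → ℝ
  | 0 => 1
  | (n + 1) => (2 * (n : ℝ) + 1) / ((n : ℝ) + 1) * kk n

lemma kk_succ (n : ℕ) : kk (n + 1) = (2 * (n : ℝ) + 1) / ((n : ℝ) + 1) * kk n := rfl

lemma kk_pos (n : ℕ) : 0 < kk n := by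
  induction n with
  | zero => simp [kk]
  | succ n ih => rw [kk]; positivity

lemma leg_coeffs (n : ℕ) : ((leg n).coeff n = kk n ∧ ∀ m, n < m → (leg n).coeff m = 0) ∧
    ((leg (n + 1)).coeff (n + 1) = kk (n + 1) ∧ ∀ m, n + 1 < m → (leg (n + 1)).coeff m = 0) := by
  induction n with
  | zero =>
    refine ⟨⟨by simp [leg, kk], ?_⟩, ⟨by simp [leg, kk], ?_⟩⟩
    · intro m hm
      rw [leg, coeff_one, if_neg (by omega)]
    · intro m hm
      rw [leg, coeff_X, if_neg (by omega)]
  | succ n ih =>
    refine ⟨ih.2, ?_, ?_⟩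
    · rw [leg_rec]
      rw [mul_assoc, coeff_C_mul, coeff_sub, coeff_C_mul, coeff_C_mul, coeff_X_mul, ih.2.1,
        ih.1.2 (n + 1 + 1) (by omega), kk_succ (n + 1)]
      push_cast
      field_simp
      ring
    · intro m hm
      obtain ⟨m', rfl⟩ : ∃ m', m = m' + 1 := ⟨m - 1, by omega⟩
      rw [leg_rec, mul_assoc, coeff_C_mul, coeff_sub, coeff_C_mul, coeff_C_mul, coeff_X_mul,
        ih.2.2 m' (by omega), ih.1.2 (m' + 1) (by omega)]
      simp

lemma leg_coeff (n : ℕ) : (leg n).coeff n = kk n := (leg_coeffs n).1.1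

lemma leg_coeff_gt (n m : ℕ) (h : n < m) : (leg n).coeff m = 0 := (leg_coeffs n).1.2 m h

lemma leg_natDegree_le (n : ℕ) : (leg n).natDegree ≤ n :=
  natDegree_le_iff_coeff_eq_zero.2 fun m hm => leg_coeff_gt n m hm

lemma leg_natDegree (n : ℕ) : (leg n).natDegree = n := by
  apply le_antisymm (leg_natDegree_le n)
  apply le_natDegree_of_ne_zero
  rw [leg_coeff]
  exact (kk_pos n).ne'

/-- FTC for polynomials -/
lemma ftc (F : ℝ[X]) (a b : ℝ) : ∫ x in a..b, F.derivative.eval x = F.eval b - F.eval a := by
  apply intervalIntegral.integral_eq_sub_of_hasDerivAt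
  · intro x _
    exact F.hasDerivAt x
  · exact (F.derivative.continuous).intervalIntegrable _ _

lemma pint (F : ℝ[X]) (a b : ℝ) : IntervalIntegrable (fun x => F.eval x) volume a b :=
  F.continuous.intervalIntegrable _ _

lemma leg_orth {m n : ℕ} (h : m ≠ n) :
    ∫ x in (-1 : ℝ)..1, (leg m).eval x * (leg n).eval x = 0 := by
  set W : ℝ[X] := (1 - X ^ 2) * ((leg m).derivative * leg n - leg m * (leg n).derivative) with hW
  have h1 := ftc W (-1) 1
  have h2 : W.eval 1 - W.eval (-1) = 0 := by
    rw [hW]; simp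
  rw [h2] at h1
  have h3 : ∀ x : ℝ, W.derivative.eval x
      = ((n : ℝ) * (n + 1) - m * (m + 1)) * ((leg m).eval x * (leg n).eval x) := by
    intro x
    have hm := leg_ode m x
    have hn := leg_ode n x
    unfold dd at hm hn
    rw [hW]
    simp only [derivative_mul, derivative_sub, derivative_one, derivative_X_pow, eval_mul, eval_sub,
      eval_add, eval_one, eval_pow, eval_X, eval_C, Nat.cast_ofNat, zero_sub, eval_neg]
    norm_num
    linear_combination (leg n).eval x * hm - (leg m).eval x * hn
  simp only [h3] at h1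
  rw [intervalIntegral.integral_const_mul] at h1
  rcases mul_eq_zero.1 h1 with h4 | h4
  · exfalso
    have h5 : ((n : ℝ) - m) * ((n : ℝ) + m + 1) = 0 := by linear_combination h4
    rcases mul_eq_zero.1 h5 with h6 | h6
    · apply h
      have : (n : ℝ) = m := by linarith
      exact_mod_cast this.symm
    · have : (0 : ℝ) < (n : ℝ) + m + 1 := by positivity
      linarith
  · exact h4

/-- expansion in Legendre polynomials -/
lemma expand (l : ℕ) : ∀ p : ℝ[X], (∀ m, l ≤ m → p.coeff m = 0) →
    ∃ c : ℕ → ℝ, p = ∑ k ∈ Finset.range l, C (c k) * leg k := by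
  induction l with
  | zero =>
    intro p hp
    refine ⟨fun _ => 0, ?_⟩
    ext m
    simp [hp m (Nat.zero_le m)]
  | succ l ih =>
    intro p hp
    obtain ⟨c, hc⟩ := ih (p - C (p.coeff l / kk l) * leg l) (by
      intro m hm
      rw [coeff_sub, coeff_C_mul]
      rcases Nat.eq_or_lt_of_le hm with rfl | hlt
      · rw [leg_coeff, div_mul_cancel₀ _ (kk_pos l).ne', sub_self]
      · rw [leg_coeff_gt l m hlt, hp m hlt]; simp)
    refine ⟨fun k => if k = l then p.coeff l / kk l else c k, ?_⟩
    rw [Finset.sum_range_succ]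
    simp only [if_true]
    have e : ∑ x ∈ Finset.range l, C (if x = l then p.coeff l / kk l else c x) * leg x
        = ∑ k ∈ Finset.range l, C (c k) * leg k := by
      apply Finset.sum_congr rfl
      intro k hk
      rw [if_neg (by rw [Finset.mem_range] at hk; omega)]
    rw [e, ← hc]
    ring

lemma orth_lower {l : ℕ} {p : ℝ[X]} (hp : ∀ m, l ≤ m → p.coeff m = 0) :
    ∫ x in (-1 : ℝ)..1, p.eval x * (leg l).eval x = 0 := by
  obtain ⟨c, rfl⟩ := expand l p hp
  simp only [eval_finsetSum, eval_mul, eval_C, Finset.sum_mul]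
  rw [intervalIntegral.integral_finsetSum]
  · apply Finset.sum_eq_zero
    intro k hk
    rw [Finset.mem_range] at hk
    have : ∀ x : ℝ, c k * (leg k).eval x * (leg l).eval x
        = c k * ((leg k).eval x * (leg l).eval x) := fun x => by ring
    simp only [this]
    rw [intervalIntegral.integral_const_mul, leg_orth (by omega), mul_zero]
  · intro k _
    apply Continuous.intervalIntegrable
    fun_prop

lemma leg_norm (l : ℕ) : ∫ x in (-1 : ℝ)..1, (leg l).eval x ^ 2 = 2 / (2 * (l : ℝ) + 1) := by
  cases l with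
  | zero => simp [leg]; norm_num
  | succ n =>
    have h0 : ∫ x in (-1 : ℝ)..1, (leg n).derivative.eval x * (leg (n + 1)).eval x = 0 := by
      apply orth_lower
      intro m hm
      rw [coeff_derivative, leg_coeff_gt n (m + 1) (by omega), zero_mul]
    have h1 := ftc (X * leg (n + 1) ^ 2) (-1) 1
    have h2 : ∀ x : ℝ, (X * leg (n + 1) ^ 2).derivative.eval x
        = (2 * (n : ℝ) + 3) * (leg (n + 1)).eval x ^ 2
          + 2 * ((leg n).derivative.eval x * (leg (n + 1)).eval x) := by
      intro x
      have hB := legB n x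
      simp only [derivative_mul, derivative_X, derivative_pow, eval_mul, eval_add, eval_X, eval_pow,
        one_mul, eval_C, Nat.cast_ofNat]
      norm_num
      linear_combination (2 * (leg (n + 1)).eval x) * hB
    simp only [h2] at h1
    rw [intervalIntegral.integral_add, intervalIntegral.integral_const_mul,
      intervalIntegral.integral_const_mul, h0] at h1
    · simp only [eval_mul, eval_X, eval_pow, leg_one_val, leg_neg_one] at h1
      have e : ((-1 : ℝ) ^ (n + 1)) ^ 2 = 1 := by rw [← pow_mul, mul_comm, pow_mul]; norm_num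
      rw [e] at h1
      rw [eq_div_iff (by positivity)]
      push_cast
      linear_combination h1
    · apply Continuous.intervalIntegrable; fun_prop
    · apply Continuous.intervalIntegrable; fun_prop

end Pool.Agent.Helper61.ML
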