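import Pool.Agent.Helper61.ML.Leg

set_option autoImplicit false

open Polynomial MeasureTheory intervalIntegral

namespace Pool.Agent.Helper61.ML

/-- `n (n+1)` -/
noncomputable def lam (n : ℕ) : ℝ := (n : ℝ) * ((n : ℝ) + 1)

lemma mono_of_deriv (F : ℝ[X]) {a b : ℝ}
    (h : ∀ x ∈ Set.Icc a b, 0 ≤ F.derivative.eval x) : MonotoneOn (fun x => F.eval x) (Set.Icc a b) := by
  apply monotoneOn_of_deriv_nonneg (convex_Icc a b) F.continuous.continuousOn
  · exact F.differentiable.differentiableOn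
  · intro x hx
    rw [Polynomial.deriv]
    exact h x (interior_subset hx)

lemma anti_of_deriv (F : ℝ[X]) {a b : ℝ}
    (h : ∀ x ∈ Set.Icc a b, F.derivative.eval x ≤ 0) : AntitoneOn (fun x => F.eval x) (Set.Icc a b) := by
  apply antitoneOn_of_deriv_nonpos (convex_Icc a b) F.continuous.continuousOn
  · exact F.differentiable.differentiableOn
  · intro x hx
    rw [Polynomial.deriv]
    exact h x (interior_subset hx)

lemma leg_le_one_pos (n : ℕ) {x : ℝ} (h0 : 0 ≤ x) (h1 : x ≤ 1) : |(leg n).eval x| ≤ 1 := by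
  rcases Nat.eq_zero_or_pos n with rfl | hn
  · simp [leg]
  set F : ℝ[X] := C (lam n) * leg n ^ 2 + (1 - X ^ 2) * (leg n).derivative ^ 2 with hF
  have hm : MonotoneOn (fun x => F.eval x) (Set.Icc 0 1) := by
    apply mono_of_deriv
    intro y hy
    have ho := leg_ode n y
    unfold dd at ho
    have e : F.derivative.eval y = 2 * y * (leg n).derivative.eval y ^ 2 := by
      rw [hF]
      simp only [derivative_mul, derivative_add, derivative_sub, derivative_one, derivative_X_pow,
        derivative_C, derivative_pow, eval_mul, eval_sub, eval_add, eval_one, eval_pow, eval_X,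
        eval_C, Nat.cast_ofNat, zero_mul, zero_add]
      norm_num
      unfold lam
      linear_combination (2 * (leg n).derivative.eval y) * ho
    rw [e]
    have := hy.1
    positivity
  have h := hm ⟨h0, h1⟩ ⟨zero_le_one, le_refl 1⟩ h1
  simp only [hF, eval_add, eval_mul, eval_C, eval_pow, eval_sub, eval_one, eval_X,
    leg_one_val] at h
  have hl : 0 < lam n := by unfold lam; positivity
  have h2 : 0 ≤ (1 - x ^ 2) * (leg n).derivative.eval x ^ 2 := by
    apply mul_nonneg _ (sq_nonneg _); nlinarith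
  have h3 : (leg n).eval x ^ 2 ≤ 1 := by
    have : lam n * (leg n).eval x ^ 2 ≤ lam n * 1 := by linarith
    exact le_of_mul_le_mul_left this hl
  exact (sq_le_one_iff_abs_le_one _).1 h3

lemma leg_le_one (n : ℕ) {x : ℝ} (hx : x ∈ Set.Icc (-1 : ℝ) 1) : |(leg n).eval x| ≤ 1 := by
  rcases le_total 0 x with h | h
  · exact leg_le_one_pos n h hx.2
  · have h1 := leg_le_one_pos n (x := -x) (by linarith) (by linarith [hx.1])
    rw [leg_parity, abs_mul, abs_pow, abs_neg, abs_one, one_pow, one_mul] at h1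
    exact h1

lemma legd_le (n : ℕ) {x : ℝ} (hx : x ∈ Set.Icc (-1 : ℝ) 1) :
    |(leg n).derivative.eval x| ≤ lam n / 2 ∧ |(leg (n + 1)).derivative.eval x| ≤ lam (n + 1) / 2 := by
  induction n with
  | zero => simp [leg, lam]
  | succ n ih =>
    refine ⟨ih.2, ?_⟩
    have h := legD n x
    have h1 := leg_le_one (n + 1) hx
    have e : (leg (n + 1 + 1)).derivative.eval x = (leg n).derivative.eval x
      + (2 * (n : ℝ) + 3) * (leg (n + 1)).eval x := by linarith
    rw [e]
    refine (abs_add_le _ _).trans ?_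
    rw [abs_mul, abs_of_pos (by positivity : (0 : ℝ) < 2 * (n : ℝ) + 3)]
    have h2 := ih.1
    have h3 : (2 * (n : ℝ) + 3) * |(leg (n + 1)).eval x| ≤ (2 * (n : ℝ) + 3) * 1 :=
      mul_le_mul_of_nonneg_left h1 (by positivity)
    unfold lam at *
    push_cast
    nlinarith

lemma leg_lower (n : ℕ) {x : ℝ} (hx : x ∈ Set.Icc (-1 : ℝ) 1) :
    1 - lam n * (1 - x) / 2 ≤ (leg n).eval x := by
  have ha : AntitoneOn (fun x => (leg n - C (lam n / 2) * X).eval x) (Set.Icc (-1) 1) := by
    apply anti_of_deriv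
    intro y hy
    simp only [derivative_sub, derivative_mul, derivative_C, derivative_X, eval_sub, eval_add,
      eval_mul, eval_C, eval_one, zero_mul, mul_one, zero_add]
    have := (abs_le.1 (legd_le n hy).1).2
    linarith
  have h := ha hx (⟨by norm_num, le_refl 1⟩ : (1 : ℝ) ∈ Set.Icc (-1 : ℝ) 1) hx.2
  simp only [eval_sub, eval_mul, eval_C, eval_X, leg_one_val] at h
  linarith

/-- derivative of the primitive -/
lemma leg_prim (n : ℕ) (x : ℝ) : ((1 - X ^ 2) * (leg n).derivative).derivative.eval x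
    = - lam n * (leg n).eval x := by
  have ho := leg_ode n x
  unfold dd at ho
  simp only [derivative_mul, derivative_sub, derivative_one, derivative_X_pow, eval_mul, eval_sub,
    eval_add, eval_one, eval_pow, eval_X, eval_C, Nat.cast_ofNat, zero_sub, eval_neg]
  norm_num
  unfold lam
  linear_combination ho

lemma leg_int (n : ℕ) (hn : 0 < n) (a b : ℝ) : ∫ x in a..b, (leg n).eval x
    = ((1 - a ^ 2) * (leg n).derivative.eval a - (1 - b ^ 2) * (leg n).derivative.eval b) / lam n := by
  have h := ftc ((1 - X ^ 2) * (leg n).derivative) a b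
  simp only [leg_prim] at h
  rw [intervalIntegral.integral_const_mul] at h
  have hl : 0 < lam n := by
    have : (0 : ℝ) < n := by exact_mod_cast hn
    unfold lam; positivity
  rw [eq_div_iff hl.ne']
  simp only [eval_mul, eval_sub, eval_one, eval_pow, eval_X] at h
  linarith

/-- lower bound for the primitive at the zeros -/
lemma leg_ext (n : ℕ) (hn : 0 < n) {x : ℝ} (hx : x ∈ Set.Icc (-1 : ℝ) 1)
    (h0 : (leg n).eval x = 0) :
    4 / 3 - 2 / (3 * lam n) ≤ ((1 - x ^ 2) * (leg n).derivative.eval x) ^ 2 := by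
  have hl : 2 ≤ lam n := by
    have : (1 : ℝ) ≤ n := by exact_mod_cast hn
    unfold lam; nlinarith
  have hl0 : 0 < lam n := by linarith
  set F : ℝ[X] := ((1 - X ^ 2) * (leg n).derivative) ^ 2 + C (lam n) * (1 - X ^ 2) * leg n ^ 2 with hF
  have hFd : ∀ y, F.derivative.eval y = - 2 * lam n * y * (leg n).eval y ^ 2 := by
    intro y
    have ho := leg_prim n y
    rw [hF]
    rw [derivative_add, derivative_pow, eval_add, eval_mul, ho]
    simp only [derivative_mul, derivative_sub, derivative_one, derivative_X_pow, derivative_pow,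
      derivative_C, eval_mul, eval_sub, eval_add, eval_one, eval_pow, eval_X, eval_C,
      Nat.cast_ofNat, zero_sub, eval_neg, zero_mul, zero_add, derivative_add]
    norm_num
    ring
  have hFv : ∀ y, F.eval y = ((1 - y ^ 2) * (leg n).derivative.eval y) ^ 2
      + lam n * (1 - y ^ 2) * (leg n).eval y ^ 2 := by
    intro y
    rw [hF]; simp
  have hanti : AntitoneOn (fun x => F.eval x) (Set.Icc 0 1) := by
    apply anti_of_deriv
    intro y hy
    rw [hFd]
    have : 0 ≤ 2 * lam n * y * (leg n).eval y ^ 2 := by have := hy.1; positivity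
    linarith
  -- comparison polynomial
  set u : ℝ[X] := 1 - X with hu
  set G : ℝ[X] := C (2 * lam n) * (u - C ((lam n + 1) / 2) * u ^ 2
    + C ((lam n + lam n ^ 2 / 4) / 3) * u ^ 3 - C (lam n ^ 2 / 16) * u ^ 4) with hG
  have hGd : ∀ y, G.derivative.eval y = - 2 * lam n * y * (1 - lam n * (1 - y) / 2) ^ 2 := by
    intro y
    rw [hG, hu]
    simp only [derivative_mul, derivative_sub, derivative_one, derivative_X_pow, derivative_pow,
      derivative_C, derivative_X, eval_mul, eval_sub, eval_add, eval_one, eval_pow, eval_X, eval_C,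
      Nat.cast_ofNat, zero_sub, eval_neg, zero_mul, zero_add, derivative_add]
    norm_num
    ring
  have hl2 : 2 / lam n ≤ 1 := by rw [div_le_one hl0]; exact hl
  have hx0 : 0 ≤ 1 - 2 / lam n := by linarith
  have hx0' : 1 - 2 / lam n ≤ 1 := by
    have : 0 ≤ 2 / lam n := by positivity
    linarith
  have hmono : AntitoneOn (fun x => (F - G).eval x) (Set.Icc (1 - 2 / lam n) 1) := by
    apply anti_of_deriv
    intro y hy
    rw [derivative_sub, eval_sub, hFd, hGd]
    have hy0 : 0 ≤ y := hx0.trans hy.1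
    have h1 := leg_lower n (x := y) ⟨by linarith, hy.2⟩
    have h2 : 0 ≤ 1 - lam n * (1 - y) / 2 := by
      have h3 : 1 - y ≤ 2 / lam n := by linarith [hy.1]
      have h4 : lam n * (1 - y) ≤ lam n * (2 / lam n) := mul_le_mul_of_nonneg_left h3 hl0.le
      rw [mul_div_cancel₀ _ hl0.ne'] at h4
      linarith
    have h3 : (1 - lam n * (1 - y) / 2) ^ 2 ≤ (leg n).eval y ^ 2 := pow_le_pow_left₀ h2 h1 2
    have h4 : 0 ≤ 2 * lam n * y := by positivity
    nlinarith [mul_le_mul_of_nonneg_left h3 h4]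
  have hend : (F - G).eval (1 : ℝ) = 0 := by
    rw [eval_sub, hFv, hG, hu]; simp
  have h5 := hmono (⟨le_refl _, hx0'⟩ : (1 - 2 / lam n) ∈ Set.Icc (1 - 2 / lam n) 1)
    (⟨hx0', le_refl _⟩ : (1 : ℝ) ∈ Set.Icc (1 - 2 / lam n) 1) hx0'
  simp only [hend, eval_sub] at h5
  have h6 : G.eval (1 - 2 / lam n) = 4 / 3 - 2 / (3 * lam n) := by
    rw [hG, hu]
    simp only [eval_mul, eval_sub, eval_add, eval_one, eval_pow, eval_X, eval_C]
    field_simp
    ring
  -- reduce to nonnegative x
  have key : ∀ z : ℝ, 0 ≤ z → z ≤ 1 → (leg n).eval z = 0 →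
      4 / 3 - 2 / (3 * lam n) ≤ ((1 - z ^ 2) * (leg n).derivative.eval z) ^ 2 := by
    intro z hz0 hz1 hz
    have h7 := leg_lower n (x := z) ⟨by linarith, hz1⟩
    rw [hz] at h7
    have h8 : z ≤ 1 - 2 / lam n := by
      have : 2 / lam n ≤ 1 - z := by
        rw [div_le_iff₀ hl0]; nlinarith
      linarith
    have h9 := hanti (⟨hz0, hz1⟩ : z ∈ Set.Icc (0 : ℝ) 1)
      (⟨hx0, hx0'⟩ : (1 - 2 / lam n) ∈ Set.Icc (0 : ℝ) 1) h8
    simp only at h9
    rw [hFv z, hz] at h9
    norm_num at h9 h5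
    rw [h6] at h5
    linarith
  rcases le_total 0 x with hx0 | hx0
  · exact key x hx0 hx.2 h0
  · have h7 := key (-x) (by linarith) (by linarith [hx.1]) (by rw [leg_parity, h0, mul_zero])
    have h8 : (leg n).derivative.eval (-x) ^ 2 = (leg n).derivative.eval x ^ 2 := by
      have h9 : (leg n).comp (-X) = C ((-1 : ℝ) ^ n) * leg n := by
        apply Polynomial.funext
        intro y
        simp only [eval_comp, eval_neg, eval_X, eval_mul, eval_C]
        exact leg_parity n y
      have h10 := congrArg (fun p => (derivative p).eval x) h9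
      simp only [derivative_comp, derivative_neg, derivative_X, derivative_mul, derivative_C,
        zero_mul, zero_add, eval_mul, eval_neg, eval_one, eval_comp, eval_X, eval_C] at h10
      have h11 : (leg n).derivative.eval (-x) = -((-1) ^ n * (leg n).derivative.eval x) := by
        linarith
      rw [h11, neg_sq, mul_pow, ← pow_mul, mul_comm n 2, pow_mul]
      norm_num
    rw [mul_pow, h8, neg_sq, ← mul_pow] at h7
    exact h7

/-! ### sup norm against L² norm -/

lemma sup_l2 (l : ℕ) {p : ℝ[X]} (hp : ∀ m, l ≤ m → p.coeff m = 0) {x : ℝ}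
    (hx : x ∈ Set.Icc (-1 : ℝ) 1) :
    p.eval x ^ 2 ≤ (l : ℝ) ^ 2 / 2 * ∫ y in (-1 : ℝ)..1, p.eval y ^ 2 := by
  obtain ⟨c, rfl⟩ := expand l p hp
  have h1 : ∫ y in (-1 : ℝ)..1, (∑ k ∈ Finset.range l, C (c k) * leg k).eval y ^ 2
      = ∑ k ∈ Finset.range l, c k ^ 2 * (2 / (2 * (k : ℝ) + 1)) := by
    have e : ∀ y : ℝ, (∑ k ∈ Finset.range l, C (c k) * leg k).eval y ^ 2
        = ∑ k ∈ Finset.range l, ∑ j ∈ Finset.range l,
          (c k * c j) * ((leg k).eval y * (leg j).eval y) := by
      intro y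
      rw [sq, eval_finsetSum, Finset.sum_mul_sum]
      refine Finset.sum_congr rfl fun k _ => Finset.sum_congr rfl fun j _ => ?_
      simp only [eval_mul, eval_C]; ring
    simp only [e]
    rw [intervalIntegral.integral_finsetSum]
    · refine Finset.sum_congr rfl fun k hk => ?_
      rw [intervalIntegral.integral_finsetSum]
      · rw [Finset.sum_eq_single_of_mem k hk]
        · rw [intervalIntegral.integral_const_mul]
          have e2 : ∀ y : ℝ, (leg k).eval y * (leg k).eval y = (leg k).eval y ^ 2 :=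
            fun y => by ring
          simp only [e2]
          rw [leg_norm]; ring
        · intro j _ hj
          rw [intervalIntegral.integral_const_mul, leg_orth (Ne.symm hj), mul_zero]
      · intro j _
        apply Continuous.intervalIntegrable; fun_prop
    · intro k _
      apply Continuous.intervalIntegrable; fun_prop
  rw [h1]
  have h2 : |(∑ k ∈ Finset.range l, C (c k) * leg k).eval x| ≤ ∑ k ∈ Finset.range l, |c k| := by
    rw [eval_finsetSum]
    refine (Finset.abs_sum_le_sum_abs _ _).trans (Finset.sum_le_sum fun k _ => ?_)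
    rw [eval_mul, eval_C, abs_mul]
    exact mul_le_of_le_one_right (abs_nonneg _) (leg_le_one k hx)
  have h3 : (∑ k ∈ Finset.range l, |c k|) ^ 2 ≤ (∑ k ∈ Finset.range l, c k ^ 2 * (2 / (2 * (k : ℝ) + 1)))
      * ∑ k ∈ Finset.range l, ((2 * (k : ℝ) + 1) / 2) := by
    apply Finset.sum_sq_le_sum_mul_sum_of_sq_eq_mul
    · intro k _; positivity
    · intro k _; positivity
    · intro k _
      rw [sq_abs]; field_simp
  have h4 : ∑ k ∈ Finset.range l, ((2 * (k : ℝ) + 1) / 2) = (l : ℝ) ^ 2 / 2 := by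
    clear h1 h2 h3 hp
    induction l with
    | zero => simp
    | succ l ih => rw [Finset.sum_range_succ, ih]; push_cast; ring
  rw [h4] at h3
  calc (∑ k ∈ Finset.range l, C (c k) * leg k).eval x ^ 2
      = |(∑ k ∈ Finset.range l, C (c k) * leg k).eval x| ^ 2 := by rw [sq_abs]
    _ ≤ (∑ k ∈ Finset.range l, |c k|) ^ 2 := pow_le_pow_left₀ (abs_nonneg _) h2 2
    _ ≤ _ := by rw [mul_comm]; exact h3

/-! ### the integrals of `P_k P_l²` -/

/-- `∫ P_k P_l²` -/
noncomputable def II (l k : ℕ) : ℝ := ∫ x in (-1 : ℝ)..1, (leg k).eval x * (leg l).eval x ^ 2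

lemma II_rec (l j : ℕ) :
    ((j : ℝ) + 1) ^ 2 * ((2 * (l : ℝ) + 1) ^ 2 - ((j : ℝ) + 1) ^ 2) * II l j
      = ((j : ℝ) + 2) ^ 2 * ((2 * (l : ℝ) + 1) ^ 2 - ((j : ℝ) + 2) ^ 2) * II l (j + 2) := by
  -- `v = c (P_j - P_{j+2})`
  set c : ℝ := ((j : ℝ) + 1) * ((j : ℝ) + 2) with hc
  set v : ℝ[X] := C c * (leg j - leg (j + 2)) with hv
  set w : ℝ[X] := 1 - X ^ 2 with hw
  set T : ℝ[X] := C (2 * (j : ℝ) + 3) * (C 2 * w ^ 2 * (leg l).derivative ^ 2 * leg (j + 1)
    + C (2 * lam l) * w * leg l ^ 2 * leg (j + 1))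
    - w * (C 2 * leg l * (leg l).derivative * v - leg l ^ 2 * v.derivative) with hT
  have h1 := ftc T (-1) 1
  have h2 : T.eval 1 - T.eval (-1) = 0 := by
    rw [hT, hw]; simp
  rw [h2] at h1
  have h3 : ∀ x : ℝ, T.derivative.eval x = (((j : ℝ) + 1) ^ 2 * ((2 * (l : ℝ) + 1) ^ 2 - ((j : ℝ) + 1) ^ 2))
      * ((leg j).eval x * (leg l).eval x ^ 2)
      - (((j : ℝ) + 2) ^ 2 * ((2 * (l : ℝ) + 1) ^ 2 - ((j : ℝ) + 2) ^ 2))
      * ((leg (j + 2)).eval x * (leg l).eval x ^ 2) := by
    intro x
    have ol := leg_ode l x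
    have oj := leg_ode j x
    have oj2 := leg_ode (j + 2) x
    have hA := legA j x
    have hR := rec_eval j x
    unfold dd at ol oj oj2
    rw [hT, hw, hv]
    simp only [derivative_mul, derivative_sub, derivative_one, derivative_X_pow, derivative_pow,
      derivative_C, eval_mul, eval_sub, eval_add, eval_one, eval_pow, eval_X, eval_C,
      Nat.cast_ofNat, zero_sub, eval_neg, zero_mul, zero_add, derivative_add]
    norm_num
    push_cast at oj2
    unfold lam
    rw [hc]
    generalize (leg l).eval x = P at *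
    generalize (leg l).derivative.eval x = P1 at *
    generalize (leg l).derivative.derivative.eval x = P2 at *
    generalize (leg j).eval x = a at *
    generalize (leg j).derivative.eval x = a1 at *
    generalize (leg j).derivative.derivative.eval x = a2 at *
    generalize (leg (j + 1)).eval x = b at *
    generalize (leg (j + 1)).derivative.eval x = b1 at *
    generalize (leg (j + 2)).eval x = cc at *
    generalize (leg (j + 2)).derivative.eval x = c1 at *
    generalize (leg (j + 2)).derivative.derivative.eval x = c2 at *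
    generalize (j : ℝ) = J at *
    generalize (l : ℝ) = L at *
    linear_combination (4 * (2 * J + 3) * (1 - x ^ 2) * P1 * b
      - 2 * P * ((J + 1) * (J + 2) * (a - cc))) * ol
      + P ^ 2 * ((J + 1) * (J + 2)) * oj - P ^ 2 * ((J + 1) * (J + 2)) * oj2
      + (2 * (1 - x ^ 2) * P1 ^ 2 * (2 * J + 3) + 2 * (L * (L + 1)) * (2 * J + 3) * P ^ 2) * hA
      + (2 * (1 - x ^ 2) * P1 ^ 2 * (J + 1) + 2 * (L * (L + 1)) * (J + 3) * P ^ 2) * hR
  simp only [h3] at h1
  rw [intervalIntegral.integral_sub, intervalIntegral.integral_const_mul,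
    intervalIntegral.integral_const_mul] at h1
  · unfold II
    linarith
  · apply Continuous.intervalIntegrable; fun_prop
  · apply Continuous.intervalIntegrable; fun_prop

lemma II_zero (l : ℕ) : II l 0 = 2 / (2 * (l : ℝ) + 1) := by
  unfold II
  rw [← leg_norm l]
  simp [leg]

/-- positivity of `∫ P_{2m} P_l²` with a quantitative bound -/
lemma II_lower (l m : ℕ) (hm : 1 ≤ m) (hl : 2 * m ≤ l) :
    1 / (2 * (m : ℝ) * (2 * (l : ℝ) + 1)) ≤ II l (2 * m) := by
  induction m, hm using Nat.le_induction with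
  | base =>
    have h := II_rec l 0
    rw [II_zero] at h
    have hl2 : (2 : ℝ) ≤ l := by exact_mod_cast hl
    norm_num at h
    have h4 : 0 < 4 * ((2 * (l : ℝ) + 1) ^ 2 - 4) := by nlinarith
    have e : II l (2 * 1) = ((2 * (l : ℝ) + 1) ^ 2 - 1) * (2 / (2 * (l : ℝ) + 1))
        / (4 * ((2 * (l : ℝ) + 1) ^ 2 - 4)) := by
      rw [eq_div_iff h4.ne']
      norm_num
      linarith
    rw [e, le_div_iff₀ h4]
    have e2 : 1 / (2 * ((1 : ℕ) : ℝ) * (2 * (l : ℝ) + 1)) * (4 * ((2 * (l : ℝ) + 1) ^ 2 - 4))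
        = ((2 * (l : ℝ) + 1) ^ 2 - 4) * (2 / (2 * (l : ℝ) + 1)) := by
      push_cast; field_simp; ring
    rw [e2]
    apply mul_le_mul_of_nonneg_right _ (by positivity)
    linarith
  | succ m hm ih =>
    have ih := ih (by omega)
    have h := II_rec l (2 * m)
    push_cast at h
    have hml : 2 * ((m : ℝ) + 1) ≤ l := by exact_mod_cast hl
    have hm1 : (1 : ℝ) ≤ m := by exact_mod_cast hm
    set A : ℝ := (2 * (l : ℝ) + 1) ^ 2 - (2 * (m : ℝ) + 1) ^ 2 with hA
    set B : ℝ := (2 * (l : ℝ) + 1) ^ 2 - (2 * (m : ℝ) + 2) ^ 2 with hB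
    have hB0 : 0 < B := by rw [hB]; nlinarith
    have hAB : B ≤ A := by rw [hA, hB]; nlinarith
    have hD : 0 < (2 * (m : ℝ) + 2) ^ 2 * B := by positivity
    have e : II l (2 * (m + 1)) = (2 * (m : ℝ) + 1) ^ 2 * A * II l (2 * m)
        / ((2 * (m : ℝ) + 2) ^ 2 * B) := by
      rw [eq_div_iff hD.ne']
      have : 2 * (m + 1) = 2 * m + 2 := by ring
      rw [this]
      linarith
    rw [e, le_div_iff₀ hD]
    have hN : 0 < 2 * (l : ℝ) + 1 := by positivity
    have h1 : (2 * (m : ℝ) + 1) ^ 2 * B * (1 / (2 * (m : ℝ) * (2 * (l : ℝ) + 1)))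
        ≤ (2 * (m : ℝ) + 1) ^ 2 * A * II l (2 * m) := by
      apply mul_le_mul _ ih (by positivity) (mul_nonneg (by positivity) (by linarith))
      apply mul_le_mul_of_nonneg_left hAB (by positivity)
    refine le_trans ?_ h1
    have e3 : 1 / (2 * ((m + 1 : ℕ) : ℝ) * (2 * (l : ℝ) + 1)) * ((2 * (m : ℝ) + 2) ^ 2 * B)
        = (2 * (m : ℝ) + 2) * (2 * m) * (B / (2 * (m : ℝ) * (2 * (l : ℝ) + 1))) := by
      push_cast; field_simp
    have e4 : (2 * (m : ℝ) + 1) ^ 2 * B * (1 / (2 * (m : ℝ) * (2 * (l : ℝ) + 1)))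
        = (2 * (m : ℝ) + 1) ^ 2 * (B / (2 * (m : ℝ) * (2 * (l : ℝ) + 1))) := by
      field_simp
    rw [e3, e4]
    apply mul_le_mul_of_nonneg_right _ (by positivity)
    nlinarith

/-- the exact value for `l = 8` -/
lemma II_eight : II 8 8 = 2 / 17 * ((288 / 1140) * (2520 / 4368) * (6600 / 9108) * (11760 / 14400)) := by
  have h0 := II_zero 8
  have h1 := II_rec 8 0
  have h2 := II_rec 8 2
  have h3 := II_rec 8 4
  have h4 := II_rec 8 6
  norm_num at h0 h1 h2 h3 h4 ⊢
  rw [h0] at h1
  linarith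

end Pool.Agent.Helper61.ML
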