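import Pool.Agent.Helper61.ML.Var

set_option autoImplicit false

open Polynomial MeasureTheory intervalIntegral

namespace Pool.Agent.Helper61.ML

/-- Cauchy-Schwarz -/
lemma cs {f g : ℝ → ℝ} (hf : Continuous f) (hg : Continuous g) :
    (∫ x in (-1 : ℝ)..1, f x * g x) ^ 2
      ≤ (∫ x in (-1 : ℝ)..1, f x ^ 2) * ∫ x in (-1 : ℝ)..1, g x ^ 2 := by
  have key : ∀ t : ℝ, 0 ≤ (∫ x in (-1 : ℝ)..1, f x ^ 2) * (t * t)
      + (2 * ∫ x in (-1 : ℝ)..1, f x * g x) * t + ∫ x in (-1 : ℝ)..1, g x ^ 2 := by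
    intro t
    have e : (∫ x in (-1 : ℝ)..1, f x ^ 2) * (t * t)
      + (2 * ∫ x in (-1 : ℝ)..1, f x * g x) * t + ∫ x in (-1 : ℝ)..1, g x ^ 2
      = ∫ x in (-1 : ℝ)..1, (t * f x + g x) ^ 2 := by
      have e2 : ∀ x, (t * f x + g x) ^ 2 = (t * t) * f x ^ 2 + ((2 * t) * (f x * g x) + g x ^ 2) :=
        fun x => by ring
      simp only [e2]
      have c1 : Continuous fun x => (t * t) * f x ^ 2 := by fun_prop
      have c2 : Continuous fun x => (2 * t) * (f x * g x) := by fun_prop
      have c3 : Continuous fun x => g x ^ 2 := by fun_prop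
      have c4 : Continuous fun x => (2 * t) * (f x * g x) + g x ^ 2 := by fun_prop
      rw [intervalIntegral.integral_add (c1.intervalIntegrable _ _) (c4.intervalIntegrable _ _),
        intervalIntegral.integral_add (c2.intervalIntegrable _ _) (c3.intervalIntegrable _ _),
        intervalIntegral.integral_const_mul, intervalIntegral.integral_const_mul]
      ring
    rw [e]
    apply intervalIntegral.integral_nonneg (by norm_num)
    intro x _; positivity
  have h := discrim_le_zero key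
  unfold discrim at h
  nlinarith

/-- **Stability.** -/
theorem stab {l : ℕ} {Q Qt : ℝ[X]} {B δ κ ρ2 : ℝ} (hQ : Sol l Q)
    (hd : ∀ m, l ≤ m → (Q - Qt).coeff m = 0)
    (hB : ∀ x ∈ Set.Icc (-1 : ℝ) 1, |Qt.eval x| ≤ B) (hδ : 0 < δ) (hκ : Kap κ (B + δ))
    (hρ : 0 ≤ ρ2) (hres : (∫ x in (-1 : ℝ)..1, (Q - Qt).eval x * gg (Qt.eval x)) ^ 2
      ≤ ρ2 * ∫ x in (-1 : ℝ)..1, (Q - Qt).eval x ^ 2)
    (hsmall : (l : ℝ) ^ 2 / 2 * ρ2 < (κ * δ) ^ 2) :
    κ ^ 2 * (∫ x in (-1 : ℝ)..1, (Q - Qt).eval x ^ 2) ≤ ρ2 ∧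
      ∀ x ∈ Set.Icc (-1 : ℝ) 1, |(Q - Qt).eval x| ≤ δ := by
  set R := Q - Qt with hR
  set D := ∫ x in (-1 : ℝ)..1, R.eval x ^ 2 with hD
  have hD0 : 0 ≤ D := by
    apply intervalIntegral.integral_nonneg (by norm_num)
    intro x _; positivity
  have hk := hκ.1
  have hl0 : 0 ≤ (l : ℝ) ^ 2 / 2 * D := by positivity
  set S := Real.sqrt ((l : ℝ) ^ 2 / 2 * D) with hS
  have hS0 : 0 ≤ S := Real.sqrt_nonneg _
  have hS2 : S ^ 2 = (l : ℝ) ^ 2 / 2 * D := Real.sq_sqrt hl0
  have hsup : ∀ x ∈ Set.Icc (-1 : ℝ) 1, |R.eval x| ≤ S := by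
    intro x hx
    apply Real.abs_le_sqrt
    exact sup_l2 l hd hx
  have hQe : ∀ x, Q.eval x = Qt.eval x + R.eval x := by
    intro x; rw [hR, eval_sub]; ring
  have hzero := sol_orth hQ hd
  -- integrated monotonicity
  have hint : ∀ c : ℝ, (∀ x ∈ Set.Icc (-1 : ℝ) 1, c * R.eval x ^ 2
      ≤ (gg (Qt.eval x + R.eval x) - gg (Qt.eval x)) * R.eval x) →
      c * D ≤ - ∫ x in (-1 : ℝ)..1, R.eval x * gg (Qt.eval x) := by
    intro c hc
    have cQt : Continuous fun x : ℝ => R.eval x * gg (Qt.eval x) :=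
      R.continuous.mul (ggQ_cont Qt)
    have cQ : Continuous fun x : ℝ => R.eval x * gg (Q.eval x) :=
      R.continuous.mul (ggQ_cont Q)
    have h1 : c * D ≤ ∫ x in (-1 : ℝ)..1, (R.eval x * gg (Q.eval x) - R.eval x * gg (Qt.eval x)) := by
      rw [hD, ← intervalIntegral.integral_const_mul]
      apply intervalIntegral.integral_mono_on (by norm_num)
      · apply Continuous.intervalIntegrable; fun_prop
      · exact (cQ.sub cQt).intervalIntegrable _ _
      · intro x hx
        have := hc x hx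
        rw [← hQe] at this
        linarith
    rw [intervalIntegral.integral_sub (cQ.intervalIntegrable _ _)
      (cQt.intervalIntegrable _ _), hzero] at h1
    linarith
  rcases le_or_gt S δ with hcase | hcase
  · refine ⟨?_, fun x hx => (hsup x hx).trans hcase⟩
    have h1 := hint κ (fun x hx => by
      have h2 := hB x hx
      have h3 := (hsup x hx).trans hcase
      have h4 : |Qt.eval x + R.eval x| ≤ B + δ := (abs_add_le _ _).trans (add_le_add h2 h3)
      have h5 : |Qt.eval x| ≤ B + δ := by linarith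
      have h6 := gg_lower2 hκ h5 h4
      rw [add_sub_cancel_left] at h6
      exact h6)
    set J := ∫ x in (-1 : ℝ)..1, R.eval x * gg (Qt.eval x) with hJ
    rcases hD0.eq_or_lt with h0 | h0
    · rw [← h0, mul_zero]; exact hρ
    · have h2 : (κ * D) ^ 2 ≤ J ^ 2 := by
        rw [← neg_sq J]
        exact pow_le_pow_left₀ (by positivity) h1 2
      have h3 : κ ^ 2 * D * D ≤ ρ2 * D := by nlinarith
      exact le_of_mul_le_mul_right h3 h0
  · exfalso
    have hSpos : 0 < S := hδ.trans hcase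
    have hDpos : 0 < D := by
      rcases hD0.eq_or_lt with h0 | h0
      · rw [← h0, mul_zero] at hS2
        nlinarith
      · exact h0
    have h1 := hint (κ * (δ / S)) (fun x hx => gg_trunc hκ hδ hcase.le (hB x hx) (hsup x hx))
    set J := ∫ x in (-1 : ℝ)..1, R.eval x * gg (Qt.eval x) with hJ
    have h2 : (κ * (δ / S) * D) ^ 2 ≤ J ^ 2 := by
      rw [← neg_sq J]
      exact pow_le_pow_left₀ (by positivity) h1 2
    have h3 : (κ * δ) ^ 2 * D ^ 2 = (κ * (δ / S) * D) ^ 2 * S ^ 2 := by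
      field_simp
    have h4 : (κ * δ) ^ 2 * D ^ 2 ≤ (ρ2 * D) * ((l : ℝ) ^ 2 / 2 * D) := by
      rw [h3, hS2]
      exact mul_le_mul_of_nonneg_right (h2.trans hres) hl0
    have h5 : (κ * δ) ^ 2 * D ^ 2 ≤ ((l : ℝ) ^ 2 / 2 * ρ2) * D ^ 2 := by nlinarith
    have h6 := le_of_mul_le_mul_right h5 (by positivity)
    linarith

/-- centered primitives -/
lemma centered_diff {W R : ℝ[X]} (hW : derivative W = R) (hc : W.eval (-1) = - W.eval 1) {x : ℝ}
    (hx : x ∈ Set.Icc (-1 : ℝ) 1) :
    W.eval x ^ 2 ≤ (∫ y in (-1 : ℝ)..1, R.eval y ^ 2) / 2 := by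
  have h1 := ftc W (-1) x
  have h2 := ftc W x 1
  rw [hW] at h1 h2
  have h3 : W.eval x = ((∫ y in (-1 : ℝ)..x, R.eval y) - ∫ y in x..1, R.eval y) / 2 := by
    rw [h1, h2, hc]; ring
  have ca : Continuous fun y : ℝ => |R.eval y| := by fun_prop
  have h4 : |W.eval x| ≤ (∫ y in (-1 : ℝ)..1, |R.eval y|) / 2 := by
    rw [h3, ← intervalIntegral.integral_add_adjacent_intervals (ca.intervalIntegrable (-1) x)
      (ca.intervalIntegrable x 1), abs_div, abs_of_pos (by norm_num : (0 : ℝ) < 2)]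
    apply div_le_div_of_nonneg_right _ (by norm_num)
    refine (abs_sub _ _).trans (add_le_add ?_ ?_)
    · exact intervalIntegral.abs_integral_le_integral_abs hx.1
    · exact intervalIntegral.abs_integral_le_integral_abs hx.2
  have h5 := cs ca (continuous_const (y := (1 : ℝ)))
  simp only [mul_one, sq_abs, one_pow] at h5
  rw [intervalIntegral.integral_const] at h5
  norm_num at h5
  have h6 : 0 ≤ ∫ y in (-1 : ℝ)..1, |R.eval y| := by
    apply intervalIntegral.integral_nonneg (by norm_num)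
    intro y _; exact abs_nonneg _
  have h7 : W.eval x ^ 2 ≤ ((∫ y in (-1 : ℝ)..1, |R.eval y|) / 2) ^ 2 := by
    rw [← sq_abs (W.eval x)]
    exact pow_le_pow_left₀ (abs_nonneg _) h4 2
  nlinarith

lemma exists_centered (Q : ℝ[X]) : ∃ P : ℝ[X], derivative P = Q ∧ P.eval (-1) = - P.eval 1 := by
  have h : ∃ A : ℝ[X], derivative A = Q := by
    induction Q using Polynomial.induction_on' with
    | add p q hp hq =>
      obtain ⟨a, rfl⟩ := hp
      obtain ⟨b, rfl⟩ := hq
      exact ⟨a + b, derivative_add⟩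
    | monomial n a =>
      refine ⟨monomial (n + 1) (a / ((n : ℝ) + 1)), ?_⟩
      rw [derivative_monomial]
      have : ((n : ℝ) + 1) ≠ 0 := by positivity
      simp only [Nat.add_sub_cancel]
      congr 1
      push_cast
      field_simp
  obtain ⟨A, hA⟩ := h
  refine ⟨A - C ((A.eval 1 + A.eval (-1)) / 2), ?_, ?_⟩
  · rw [derivative_sub, derivative_C, hA, sub_zero]
  · simp only [eval_sub, eval_C]; ring

lemma monic_of_sol {l : ℕ} {Q P : ℝ[X]} (hQ : Sol l Q) (hP : derivative P = Q) :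
    P.Monic ∧ P.natDegree = l + 1 := by
  have hc : P.coeff (l + 1) = 1 := by
    have h := hQ.1
    rw [← hP, coeff_derivative] at h
    have : ((l : ℝ) + 1) ≠ 0 := by positivity
    exact mul_right_cancel₀ this (by rw [h, one_mul])
  have hd : P.natDegree = l + 1 := by
    apply le_antisymm
    · apply natDegree_le_iff_coeff_eq_zero.2
      intro m hm
      obtain ⟨k, rfl⟩ : ∃ k, m = k + 1 := ⟨m - 1, by omega⟩
      have h := hQ.2.1 k (by omega)
      rw [← hP, coeff_derivative] at h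
      rcases mul_eq_zero.1 h with h1 | h1
      · exact h1
      · exfalso
        have : (0 : ℝ) < (k : ℝ) + 1 := by positivity
        linarith
    · apply le_natDegree_of_ne_zero
      rw [hc]; exact one_ne_zero
  refine ⟨?_, hd⟩
  rw [Monic, leadingCoeff, hd, hc]

/-- parity of the solution -/
lemma sol_parity {l : ℕ} {Q : ℝ[X]} (hQ : Sol l Q) (x : ℝ) : Q.eval (-x) = (-1) ^ l * Q.eval x := by
  set s : ℝ := (-1) ^ l with hs
  have hs2 : s * s = 1 := by rw [hs, ← mul_pow]; norm_num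
  have hss : s = 1 ∨ s = -1 := neg_one_pow_eq_or ℝ l
  set Q' : ℝ[X] := C s * Q.comp (-X) with hQ'
  have hcomp : ∀ m, (Q.comp (-X)).coeff m = (-1) ^ m * Q.coeff m := by
    intro m
    have e : (-X : ℝ[X]) = C (-1) * X := by simp
    rw [e, comp_C_mul_X_coeff]; ring
  have hev : ∀ y, Q'.eval y = s * Q.eval (-y) := by
    intro y; rw [hQ']; simp
  have hg : ∀ y, gg (s * Q.eval y) = s * gg (Q.eval y) := by
    intro y
    rcases hss with h | h
    · rw [h]; simp
    · rw [h, neg_one_mul, gg_neg]; ring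
  have hSol : Sol l Q' := by
    refine ⟨?_, ?_, ?_⟩
    · rw [hQ', coeff_C_mul, hcomp, ← hs, ← mul_assoc, hs2, one_mul]; exact hQ.1
    · intro m hm
      rw [hQ', coeff_C_mul, hcomp, hQ.2.1 m hm]; ring
    · intro k hk
      have h1 := hQ.2.2 k hk
      have h2 : ∫ x in (-1 : ℝ)..1, (-x) ^ k * gg (Q.eval (-x))
          = ∫ x in (-1 : ℝ)..1, x ^ k * gg (Q.eval x) := by
        rw [intervalIntegral.integral_comp_neg (fun x => x ^ k * gg (Q.eval x))]
        norm_num
      have h3 : ∀ x : ℝ, x ^ k * gg (Q'.eval x) = (s * (-1) ^ k) * ((-x) ^ k * gg (Q.eval (-x))) := by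
        intro y
        rw [hev, hg]
        have : y ^ k = (-1) ^ k * (-y) ^ k := by rw [← mul_pow]; ring
        rw [this]; ring
      simp only [h3]
      rw [intervalIntegral.integral_const_mul, h2, h1, mul_zero]
  have h := sol_unique hQ hSol
  have h2 := hev x
  rw [h] at h2
  rw [h2, ← mul_assoc, hs2, one_mul]

/-- membership in `M_{l+1}` from interior alternation -/
lemma finish {l : ℕ} {Q P : ℝ[X]} (hQ : Sol l Q) (hP : derivative P = Q)
    (hc : P.eval (-1) = - P.eval 1) (h1 : Even l → 0 ≤ P.eval 1) {t : ℕ → ℝ}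
    (ht : ∀ i < l + 1, t i < t (i + 1)) (h0 : t 0 = -1) (hl : t (l + 1) = 1)
    (hs : ∀ i, 0 < i → i < l + 1 → 0 < (-1) ^ (l + 1 - i) * P.eval (t i)) :
    P ∈ MclassS (l + 1) := by
  obtain ⟨hm, hd⟩ := monic_of_sol hQ hP
  have hodd : ¬ Even l → P.eval 1 = 0 := by
    intro hl
    have hl' := Nat.not_even_iff_odd.1 hl
    have h2 := ftc P (-1) 1
    rw [hP] at h2
    have h3 : ∫ x in (-1 : ℝ)..1, Q.eval (-x) = ∫ x in (-1 : ℝ)..1, Q.eval x := by
      rw [intervalIntegral.integral_comp_neg (fun x => Q.eval x)]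
      norm_num
    simp only [sol_parity hQ, hl'.neg_one_pow] at h3
    rw [intervalIntegral.integral_const_mul] at h3
    linarith
  have hP1 : 0 ≤ P.eval 1 := by
    by_cases h : Even l
    · exact h1 h
    · exact (hodd h).ge
  apply mem_of_alt hm hd ht h0.ge hl.le
  · intro i hi
    rcases Nat.eq_zero_or_pos i with rfl | hi0
    · rw [h0, hc, Nat.sub_zero]
      by_cases h : Even l
      · have : (-1 : ℝ) ^ (l + 1) = -1 := h.add_one.neg_one_pow
        rw [this]; linarith
      · rw [hodd h]; simp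
    · rcases Nat.lt_or_ge i (l + 1) with h | h
      · exact (hs i hi0 h).le
      · have : i = l + 1 := by omega
        subst this
        rw [Nat.sub_self, pow_zero, one_mul, hl]; exact hP1
  · intro i hi0 hi h
    have := hs i hi0 hi
    rw [h, mul_zero] at this
    exact lt_irrefl _ this

end Pool.Agent.Helper61.ML
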