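import Pool.Agent.Helper61.ML.Leg2

set_option autoImplicit false

open Polynomial MeasureTheory intervalIntegral

namespace Pool.Agent.Helper61.ML

lemma lt_of_step {n : ℕ} {z : ℕ → ℝ} (h : ∀ i < n, z i < z (i + 1)) :
    ∀ j ≤ n, ∀ i < j, z i < z j := by
  intro j
  induction j with
  | zero => intro _ i hi; omega
  | succ j ih =>
    intro hj i hi
    rcases Nat.lt_succ_iff_lt_or_eq.1 hi with h1 | h1
    · exact (ih (by omega) i h1).trans (h j (by omega))
    · rw [h1]; exact h j (by omega)

lemma alt_zeros {f : ℝ → ℝ} (hf : Continuous f) {m : ℕ} {t : ℕ → ℝ}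
    (ht : ∀ i < m, t i < t (i + 1)) (hs : ∀ i ≤ m, 0 ≤ (-1) ^ (m - i) * f (t i)) :
    ∃ w : ℕ → ℝ, ∀ i < m, t i ≤ w i ∧ w i ≤ t (i + 1) ∧ f (w i) = 0 := by
  have key : ∀ i < m, ∃ w, t i ≤ w ∧ w ≤ t (i + 1) ∧ f w = 0 := by
    intro i hi
    have h1 := hs i hi.le
    have h2 := hs (i + 1) (by omega)
    have e : m - i = (m - (i + 1)) + 1 := by omega
    rw [e, pow_succ] at h1
    have hle := (ht i hi).le
    rcases neg_one_pow_eq_or ℝ (m - (i + 1)) with h | h
    · rw [h] at h1 h2
      obtain ⟨w, hw, hw0⟩ := intermediate_value_Icc hle hf.continuousOn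
        (⟨by linarith, by linarith⟩ : (0 : ℝ) ∈ Set.Icc (f (t i)) (f (t (i + 1))))
      exact ⟨w, hw.1, hw.2, hw0⟩
    · rw [h] at h1 h2
      obtain ⟨w, hw, hw0⟩ := intermediate_value_Icc' hle hf.continuousOn
        (⟨by linarith, by linarith⟩ : (0 : ℝ) ∈ Set.Icc (f (t (i + 1))) (f (t i)))
      exact ⟨w, hw.1, hw.2, hw0⟩
  choose! w hw using key
  exact ⟨w, hw⟩

lemma prod_form {l : ℕ} {p : ℝ[X]} {a : ℝ} (ha : p.coeff l = a)
    (hp : ∀ m, l < m → p.coeff m = 0) {z : ℕ → ℝ} (hz : ∀ i < l, p.eval (z i) = 0)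
    (hinj : ∀ j < l, ∀ i < j, z i < z j) : p = C a * ∏ i ∈ Finset.range l, (X - C (z i)) := by
  set q : ℝ[X] := ∏ i ∈ Finset.range l, (X - C (z i)) with hq
  have hqm : q.Monic := monic_prod_of_monic _ _ fun i _ => monic_X_sub_C _
  have hqd : q.natDegree = l := by
    rw [hq, natDegree_prod_of_monic _ _ fun i _ => monic_X_sub_C _]
    simp
  have hcard : (Finset.image z (Finset.range l)).card = l := by
    rw [Finset.card_image_of_injOn, Finset.card_range]
    intro i hi j hj hij
    simp only [Finset.coe_range, Set.mem_Iio] at hi hj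
    rcases lt_trichotomy i j with h | h | h
    · exact absurd hij (hinj j hj i h).ne
    · exact h
    · exact absurd hij (hinj i hi j h).ne'
  have hD : p - C a * q = 0 := by
    apply Polynomial.eq_zero_of_degree_lt_of_eval_finset_eq_zero (Finset.image z (Finset.range l))
    · rw [hcard, degree_lt_iff_coeff_zero]
      intro m hm
      rw [coeff_sub, coeff_C_mul]
      rcases Nat.eq_or_lt_of_le hm with rfl | hlt
      · have : q.coeff l = 1 := by
          have h := hqm.coeff_natDegree
          rwa [hqd] at h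
        rw [this, ha]; ring
      · rw [hp m hlt, coeff_eq_zero_of_natDegree_lt (by rw [hqd]; exact hlt)]; ring
    · intro x hx
      rw [Finset.mem_image] at hx
      obtain ⟨i, hi, rfl⟩ := hx
      rw [eval_sub, eval_mul, eval_C, hz i (Finset.mem_range.1 hi), hq, eval_prod,
        Finset.prod_eq_zero hi (by simp)]
      ring
  exact sub_eq_zero.1 hD

lemma sign_prod {z : ℕ → ℝ} {x : ℝ} {i : ℕ} (h1 : ∀ j < i, z j < x) (l : ℕ) (hi : i ≤ l)
    (h2 : ∀ j, i ≤ j → j < l → x < z j) :
    0 < (-1) ^ (l - i) * ∏ j ∈ Finset.range l, (x - z j) := by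
  induction l, hi using Nat.le_induction with
  | base =>
    rw [Nat.sub_self, pow_zero, one_mul]
    apply Finset.prod_pos
    intro j hj
    rw [Finset.mem_range] at hj
    linarith [h1 j hj]
  | succ l hl ih =>
    have ih := ih fun j hj hj2 => h2 j hj (by omega)
    have e : l + 1 - i = (l - i) + 1 := by omega
    rw [e, pow_succ, Finset.prod_range_succ]
    have h3 := h2 l hl (by omega)
    have : (-1 : ℝ) ^ (l - i) * -1 * ((∏ j ∈ Finset.range l, (x - z j)) * (x - z l))
        = ((-1) ^ (l - i) * ∏ j ∈ Finset.range l, (x - z j)) * (z l - x) := by ring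
    rw [this]
    exact mul_pos ih (by linarith)

theorem leg_zeros (n : ℕ) : ∃ z : ℕ → ℝ, (∀ i < n, z i < z (i + 1)) ∧
    (∀ i ≤ n, -1 < z i ∧ z i < 1) ∧ (∀ i ≤ n, (leg (n + 1)).eval (z i) = 0) ∧
    (∀ i ≤ n, 0 < (-1) ^ (n - i) * (leg n).eval (z i)) := by
  induction n with
  | zero =>
    refine ⟨fun _ => 0, fun i hi => by omega, fun i _ => by norm_num, fun i _ => by simp [leg], ?_⟩
    intro i hi
    simp [leg]
  | succ n ih =>
    obtain ⟨z, hz1, hz2, hz3, hz4⟩ := ih
    have hzs := lt_of_step hz1
    set t : ℕ → ℝ := fun i => if i = 0 then -1 else if i ≤ n + 1 then z (i - 1) else 1 with ht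
    have t0 : t 0 = -1 := by simp [ht]
    have ts : ∀ j ≤ n, t (j + 1) = z j := by
      intro j hj
      simp only [ht]
      rw [if_neg (by omega), if_pos (by omega)]
      simp
    have tl : t (n + 2) = 1 := by
      simp only [ht]
      rw [if_neg (by omega), if_neg (by omega)]
    have hstep : ∀ i < n + 2, t i < t (i + 1) := by
      intro i hi
      rcases Nat.eq_zero_or_pos i with rfl | hi0
      · rw [t0, ts 0 (by omega)]; exact (hz2 0 (by omega)).1
      · obtain ⟨j, rfl⟩ : ∃ j, i = j + 1 := ⟨i - 1, by omega⟩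
        rw [ts j (by omega)]
        rcases Nat.lt_or_ge j n with h | h
        · rw [ts (j + 1) (by omega)]; exact hz1 j h
        · have : j = n := by omega
          subst this
          rw [tl]; exact (hz2 j le_rfl).2
    have hsgn : ∀ i ≤ n + 2, 0 < (-1) ^ (n + 2 - i) * (leg (n + 2)).eval (t i) := by
      intro i hi
      rcases Nat.eq_zero_or_pos i with rfl | hi0
      · rw [t0, leg_neg_one, Nat.sub_zero, ← mul_pow]; norm_num
      · obtain ⟨j, rfl⟩ : ∃ j, i = j + 1 := ⟨i - 1, by omega⟩
        rcases Nat.lt_or_ge n j with h | h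
        · have : j = n + 1 := by omega
          subst this
          rw [show n + 1 + 1 = n + 2 from rfl, tl, leg_one_val]; simp
        · rw [ts j h]
          have hr := rec_eval n (z j)
          rw [hz3 j h] at hr
          have h4 := hz4 j h
          have e : n + 2 - (j + 1) = (n - j) + 1 := by omega
          rw [e, pow_succ]
          have e2 : (-1 : ℝ) ^ (n - j) * -1 * (leg (n + 2)).eval (z j)
              = ((n : ℝ) + 1) / ((n : ℝ) + 2) * ((-1) ^ (n - j) * (leg n).eval (z j)) := by
            have e5 : (leg (n + 2)).eval (z j) = -(((n : ℝ) + 1) / ((n : ℝ) + 2) * (leg n).eval (z j)) := by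
              field_simp
              linear_combination hr
            rw [e5]; ring
          rw [e2]
          positivity
    obtain ⟨w, hw⟩ := alt_zeros (leg (n + 2)).continuous hstep fun i hi => (hsgn i hi).le
    have hne : ∀ i ≤ n + 2, ∀ y, (leg (n + 2)).eval y = 0 → t i ≠ y := by
      intro i hi y hy h
      have := hsgn i hi
      rw [h, hy, mul_zero] at this
      exact lt_irrefl _ this
    have hw1 : ∀ i < n + 2, t i < w i := fun i hi =>
      lt_of_le_of_ne (hw i hi).1 (hne i hi.le _ (hw i hi).2.2)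
    have hw2 : ∀ i < n + 2, w i < t (i + 1) := fun i hi =>
      lt_of_le_of_ne (hw i hi).2.1 (hne (i + 1) (by omega) _ (hw i hi).2.2).symm
    have hts := lt_of_step hstep
    refine ⟨w, ?_, ?_, ?_, ?_⟩
    · intro i hi
      exact (hw2 i (by omega)).trans (hw1 (i + 1) (by omega))
    · intro i hi
      constructor
      · refine lt_of_le_of_lt ?_ (hw1 i (by omega))
        rcases Nat.eq_zero_or_pos i with rfl | hi0
        · rw [t0]
        · rw [← t0]; exact (hts i (by omega) 0 hi0).le
      · refine lt_of_lt_of_le (hw2 i (by omega)) ?_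
        rw [← tl]
        rcases Nat.lt_or_ge (i + 1) (n + 2) with h | h
        · exact (hts (n + 2) le_rfl (i + 1) h).le
        · have : i + 1 = n + 2 := by omega
          rw [this]
    · intro i hi
      exact (hw i (by omega)).2.2
    · intro i hi
      have hpf := prod_form (leg_coeff (n + 1)) (leg_coeff_gt (n + 1)) (z := z)
        (fun j hj => hz3 j (by omega)) (fun j hj i hi => hzs j (by omega) i hi)
      have hsp := sign_prod (z := z) (x := w i) (i := i) (fun j hj => by
          have h1 := hw1 i (by omega)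
          have h2 : z j ≤ t i := by
            rw [← ts j (by omega)]
            rcases Nat.lt_or_ge (j + 1) i with h | h
            · exact (hts i (by omega) (j + 1) h).le
            · have : j + 1 = i := by omega
              rw [this]
          linarith) (n + 1) hi (fun j hj hj2 => by
          have h1 := hw2 i (by omega)
          have h2 : t (i + 1) ≤ z j := by
            rw [← ts j (by omega)]
            rcases Nat.lt_or_ge i j with h | h
            · exact (hts (j + 1) (by omega) (i + 1) (by omega)).le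
            · have : j = i := by omega
              rw [this]
          linarith)
      have he : (leg (n + 1)).eval (w i) = kk (n + 1) * ∏ j ∈ Finset.range (n + 1), (w i - z j) := by
        conv_lhs => rw [hpf]
        rw [eval_mul, eval_C, eval_prod]
        simp
      rw [he]
      have := kk_pos (n + 1)
      have e3 : (-1 : ℝ) ^ (n + 1 - i) * (kk (n + 1) * ∏ j ∈ Finset.range (n + 1), (w i - z j))
          = kk (n + 1) * ((-1) ^ (n + 1 - i) * ∏ j ∈ Finset.range (n + 1), (w i - z j)) := by ring
      rw [e3]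
      exact mul_pos this hsp

/-- real monic polynomials of degree `n` all of whose zeros are real, simple and lie
in `[-1,1]`. -/
def MclassS (n : ℕ) : Set ℝ[X] :=
  {P | ∃ x : Fin n → ℝ, StrictMono x ∧ (∀ i, x i ∈ Set.Icc (-1 : ℝ) 1) ∧ P = ∏ i, (X - C (x i))}

lemma mem_of_alt {n : ℕ} {P : ℝ[X]} (hP : P.Monic) (hd : P.natDegree = n) {t : ℕ → ℝ}
    (ht : ∀ i < n, t i < t (i + 1)) (h0 : -1 ≤ t 0) (h1 : t n ≤ 1)
    (hs : ∀ i ≤ n, 0 ≤ (-1) ^ (n - i) * P.eval (t i))
    (hs' : ∀ i, 0 < i → i < n → P.eval (t i) ≠ 0) : P ∈ MclassS n := by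
  obtain ⟨w, hw⟩ := alt_zeros P.continuous ht hs
  have hts := lt_of_step ht
  have hstep : ∀ i < n - 1, w i < w (i + 1) := by
    intro i hi
    have h2 := (hw i (by omega)).2.1
    have h3 := (hw (i + 1) (by omega)).1
    apply lt_of_le_of_ne (h2.trans h3)
    intro h
    apply hs' (i + 1) (by omega) (by omega)
    have : t (i + 1) = w i := le_antisymm (by rw [h]; exact h3) h2
    rw [this]; exact (hw i (by omega)).2.2
  have hws := lt_of_step hstep
  have hc : P.coeff n = 1 := by rw [← hd]; exact hP
  have hpf := prod_form hc (fun m hm => coeff_eq_zero_of_natDegree_lt (by rw [hd]; exact hm))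
    (z := w) (fun i hi => (hw i hi).2.2) (fun j hj i hi => hws j (by omega) i hi)
  refine ⟨fun i => w i, ?_, ?_, ?_⟩
  · intro i j hij
    exact hws j (by have := j.2; omega) i hij
  · intro i
    have hi := i.2
    constructor
    · refine le_trans ?_ (hw i hi).1
      rcases Nat.eq_zero_or_pos (i : ℕ) with h | h
      · rw [h]; exact h0
      · exact h0.trans (hts i hi.le 0 h).le
    · refine le_trans (hw i hi).2.1 ?_
      rcases Nat.lt_or_ge (i + 1 : ℕ) n with h | h
      · exact (hts n le_rfl (i + 1) h).le.trans h1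
      · have : (i : ℕ) + 1 = n := by omega
        rw [this]; exact h1
  · conv_lhs => rw [hpf]
    rw [C_1, one_mul, Finset.prod_range]

end Pool.Agent.Helper61.ML
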