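import Pool.Agent.Helper61.ML.Gf
import Pool.Agent.Helper61.ML.Zer

set_option autoImplicit false

open Polynomial MeasureTheory intervalIntegral

namespace Pool.Agent.Helper61.ML

/-- length functional, in terms of the derivative -/
noncomputable def Phi (Q : ℝ[X]) : ℝ := ∫ x in (-1 : ℝ)..1, Real.sqrt (1 + Q.eval x ^ 2)

/-- solution of the orthogonality system -/
def Sol (l : ℕ) (Q : ℝ[X]) : Prop :=
  Q.coeff l = (l : ℝ) + 1 ∧ (∀ m, l < m → Q.coeff m = 0) ∧
    ∀ k < l, ∫ x in (-1 : ℝ)..1, x ^ k * gg (Q.eval x) = 0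

lemma ggQ_cont (Q : ℝ[X]) : Continuous fun x : ℝ => gg (Q.eval x) := gg_cont.comp Q.continuous

lemma eval_low {l : ℕ} {h : ℝ[X]} (hh : ∀ m, l ≤ m → h.coeff m = 0) (x : ℝ) :
    h.eval x = ∑ k ∈ Finset.range l, h.coeff k * x ^ k := by
  rcases Nat.eq_zero_or_pos l with rfl | hl
  · have : h = 0 := by ext m; simp [hh m (Nat.zero_le m)]
    rw [this]; simp
  · apply eval_eq_sum_range'
    have h1 : h.natDegree ≤ l - 1 :=
      natDegree_le_iff_coeff_eq_zero.2 fun m hm => hh m (by omega)
    omega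

lemma sol_orth {l : ℕ} {Q : ℝ[X]} (hQ : Sol l Q) {h : ℝ[X]} (hh : ∀ m, l ≤ m → h.coeff m = 0) :
    ∫ x in (-1 : ℝ)..1, h.eval x * gg (Q.eval x) = 0 := by
  have e1 : ∀ x : ℝ, h.eval x * gg (Q.eval x)
      = ∑ k ∈ Finset.range l, h.coeff k * (x ^ k * gg (Q.eval x)) := by
    intro x
    rw [eval_low hh x, Finset.sum_mul]
    exact Finset.sum_congr rfl fun k _ => by ring
  simp only [e1]
  rw [intervalIntegral.integral_finsetSum]
  · apply Finset.sum_eq_zero
    intro k hk
    rw [Finset.mem_range] at hk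
    rw [intervalIntegral.integral_const_mul, hQ.2.2 k hk, mul_zero]
  · intro k _
    exact (continuous_const.mul ((continuous_pow k).mul (ggQ_cont Q))).intervalIntegrable _ _

lemma tangent (u v : ℝ) : Real.sqrt (1 + v ^ 2) + gg v * (u - v) ≤ Real.sqrt (1 + u ^ 2) := by
  have hA := root_pos u
  have hB := root_pos v
  have hB2 := root_sq v
  have hAB : 1 + u * v ≤ Real.sqrt (1 + u ^ 2) * Real.sqrt (1 + v ^ 2) := by
    rw [← Real.sqrt_mul (by positivity)]
    apply Real.le_sqrt_of_sq_le
    nlinarith [sq_nonneg (u - v)]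
  have e : Real.sqrt (1 + v ^ 2) + gg v * (u - v) = (1 + u * v) / Real.sqrt (1 + v ^ 2) := by
    unfold gg
    rw [eq_div_iff hB.ne', add_mul, ← sq, hB2]
    field_simp
    ring
  rw [e, div_le_iff₀ hB]
  exact hAB

lemma tangent_lt {u v : ℝ} (huv : u ≠ v) :
    Real.sqrt (1 + v ^ 2) + gg v * (u - v) < Real.sqrt (1 + u ^ 2) := by
  have hA := root_pos u
  have hB := root_pos v
  have hB2 := root_sq v
  have hAB : 1 + u * v < Real.sqrt (1 + u ^ 2) * Real.sqrt (1 + v ^ 2) := by
    rw [← Real.sqrt_mul (by positivity)]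
    apply Real.lt_sqrt_of_sq_lt
    have : 0 < (u - v) ^ 2 := by
      have := sub_ne_zero.mpr huv
      positivity
    nlinarith
  have e : Real.sqrt (1 + v ^ 2) + gg v * (u - v) = (1 + u * v) / Real.sqrt (1 + v ^ 2) := by
    unfold gg
    rw [eq_div_iff hB.ne', add_mul, ← sq, hB2]
    field_simp
    ring
  rw [e, div_lt_iff₀ hB]
  exact hAB

/-- a nonzero polynomial has a nonzero value in `[-1,1]` -/
lemma exists_ne {R : ℝ[X]} (hR0 : R ≠ 0) : ∃ c ∈ Set.Icc (-1 : ℝ) 1, R.eval c ≠ 0 := by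
  by_contra hcon
  push Not at hcon
  apply hR0
  apply Polynomial.eq_zero_of_infinite_isRoot
  apply Set.Infinite.mono (s := Set.Icc (-1 : ℝ) 1)
  · intro x hx
    exact hcon x hx
  · exact Set.Icc_infinite (by norm_num)

lemma sol_min {l : ℕ} {Q Q' : ℝ[X]} (hQ : Sol l Q) (hd : ∀ m, l ≤ m → (Q' - Q).coeff m = 0) :
    Phi Q ≤ Phi Q' ∧ (Phi Q' = Phi Q → Q' = Q) := by
  have hzero := sol_orth hQ hd
  have c0 : Continuous fun x : ℝ => Real.sqrt (1 + (Q.eval x) ^ 2) := by fun_prop
  have c1 : Continuous fun x : ℝ => (Q' - Q).eval x * gg (Q.eval x) :=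
    (Q' - Q).continuous.mul (ggQ_cont Q)
  have c2 : Continuous fun x : ℝ => Real.sqrt (1 + (Q'.eval x) ^ 2) := by fun_prop
  have hsum : ∫ x in (-1 : ℝ)..1, (Real.sqrt (1 + (Q.eval x) ^ 2)
      + (Q' - Q).eval x * gg (Q.eval x)) = Phi Q := by
    rw [intervalIntegral.integral_add (c0.intervalIntegrable _ _) (c1.intervalIntegrable _ _),
      hzero, add_zero]
    rfl
  have hle : ∀ x : ℝ, Real.sqrt (1 + (Q.eval x) ^ 2)
      + (Q' - Q).eval x * gg (Q.eval x) ≤ Real.sqrt (1 + (Q'.eval x) ^ 2) := fun x => by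
    rw [eval_sub, mul_comm]; exact tangent _ _
  refine ⟨?_, ?_⟩
  · rw [← hsum]
    apply intervalIntegral.integral_mono_on (by norm_num) ((c0.add c1).intervalIntegrable _ _)
      (c2.intervalIntegrable _ _)
    intro x _
    exact hle x
  · intro heq
    by_contra hne
    obtain ⟨c, hc, hcR⟩ := exists_ne (sub_ne_zero.mpr hne)
    have hlt : ∫ x in (-1 : ℝ)..1, (Real.sqrt (1 + (Q.eval x) ^ 2)
        + (Q' - Q).eval x * gg (Q.eval x))
        < ∫ x in (-1 : ℝ)..1, Real.sqrt (1 + (Q'.eval x) ^ 2) := by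
      apply intervalIntegral.integral_lt_integral_of_continuousOn_of_le_of_exists_lt (by norm_num)
        (c0.add c1).continuousOn c2.continuousOn (fun x _ => hle x)
      refine ⟨c, hc, ?_⟩
      show Real.sqrt (1 + (Q.eval c) ^ 2) + (Q' - Q).eval c * gg (Q.eval c)
        < Real.sqrt (1 + (Q'.eval c) ^ 2)
      rw [eval_sub] at hcR ⊢
      rw [mul_comm]
      exact tangent_lt (sub_ne_zero.mp hcR)
    rw [hsum] at hlt
    exact absurd heq hlt.ne'

lemma sol_unique {l : ℕ} {Q Q' : ℝ[X]} (hQ : Sol l Q) (hQ' : Sol l Q') : Q' = Q := by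
  have h1 : ∀ m, l ≤ m → (Q' - Q).coeff m = 0 := by
    intro m hm
    rw [coeff_sub]
    rcases Nat.eq_or_lt_of_le hm with rfl | h
    · rw [hQ.1, hQ'.1, sub_self]
    · rw [hQ.2.1 m h, hQ'.2.1 m h, sub_self]
  have h2 : ∀ m, l ≤ m → (Q - Q').coeff m = 0 := by
    intro m hm
    have := h1 m hm
    rw [coeff_sub] at this ⊢
    linarith
  exact (sol_min hQ h1).2 (le_antisymm (sol_min hQ' h2).1 (sol_min hQ h1).1)

/-! ### existence -/

/-- the polynomial with coefficients `c` -/
noncomputable def pc {l : ℕ} (c : Fin l → ℝ) : ℝ[X] := ∑ i : Fin l, C (c i) * X ^ (i : ℕ)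

lemma pc_eval {l : ℕ} (c : Fin l → ℝ) (x : ℝ) : (pc c).eval x = ∑ i : Fin l, c i * x ^ (i : ℕ) := by
  unfold pc
  rw [eval_finsetSum]
  simp

lemma pc_coeff_ge {l : ℕ} (c : Fin l → ℝ) (m : ℕ) (hm : l ≤ m) : (pc c).coeff m = 0 := by
  unfold pc
  rw [finsetSum_coeff]
  apply Finset.sum_eq_zero
  intro i _
  rw [coeff_C_mul, coeff_X_pow, if_neg (by have := i.2; omega), mul_zero]

lemma pc_coeff {l : ℕ} (c : Fin l → ℝ) (j : Fin l) : (pc c).coeff j = c j := by
  unfold pc
  rw [finsetSum_coeff, Finset.sum_eq_single j]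
  · rw [coeff_C_mul, coeff_X_pow, if_pos rfl, mul_one]
  · intro i _ hi
    rw [coeff_C_mul, coeff_X_pow, if_neg (fun h => hi (Fin.ext h.symm)), mul_zero]
  · intro h; exact absurd (Finset.mem_univ j) h

lemma pc_ne {l : ℕ} {c : Fin l → ℝ} (hc : c ≠ 0) : pc c ≠ 0 := by
  intro h
  apply hc
  funext j
  have := pc_coeff c j
  rw [h, coeff_zero] at this
  exact this.symm

lemma pc_smul {l : ℕ} (c : Fin l → ℝ) (a x : ℝ) : (pc (a • c)).eval x = a * (pc c).eval x := by
  rw [pc_eval, pc_eval, Finset.mul_sum]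
  refine Finset.sum_congr rfl fun i _ => ?_
  simp only [Pi.smul_apply, smul_eq_mul]; ring

lemma pc_add {l : ℕ} (c d : Fin l → ℝ) (x : ℝ) :
    (pc (c + d)).eval x = (pc c).eval x + (pc d).eval x := by
  rw [pc_eval, pc_eval, pc_eval, ← Finset.sum_add_distrib]
  refine Finset.sum_congr rfl fun i _ => ?_
  simp only [Pi.add_apply]; ring

/-- `L¹` norm -/
noncomputable def NN {l : ℕ} (c : Fin l → ℝ) : ℝ := ∫ x in (-1 : ℝ)..1, |(pc c).eval x|

lemma NN_cont {l : ℕ} : Continuous (NN (l := l)) := by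
  unfold NN
  apply intervalIntegral.continuous_parametric_intervalIntegral_of_continuous'
  simp only [pc_eval]
  apply Continuous.abs
  apply continuous_finsetSum
  intro i _
  exact ((continuous_apply i).comp continuous_fst).mul (continuous_snd.pow _)

lemma NN_pos {l : ℕ} {c : Fin l → ℝ} (hc : c ≠ 0) : 0 < NN c := by
  obtain ⟨y, hy, hy0⟩ := exists_ne (pc_ne hc)
  unfold NN
  apply intervalIntegral.integral_pos (by norm_num)
  · exact ((pc c).continuous.abs).continuousOn
  · intro x _; exact abs_nonneg _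
  · exact ⟨y, hy, abs_pos.2 hy0⟩

lemma NN_lower (l : ℕ) : ∃ m > 0, ∀ c : Fin l → ℝ, m * ‖c‖ ≤ NN c := by
  rcases Nat.eq_zero_or_pos l with rfl | hl
  · refine ⟨1, one_pos, fun c => ?_⟩
    have : c = 0 := Subsingleton.elim _ _
    rw [this, norm_zero, mul_zero]
    unfold NN
    apply intervalIntegral.integral_nonneg (by norm_num)
    intro x _; exact abs_nonneg _
  · haveI : Nonempty (Fin l) := ⟨⟨0, hl⟩⟩
    have hne : (Metric.sphere (0 : Fin l → ℝ) 1).Nonempty := by
      refine ⟨fun _ => 1, ?_⟩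
      rw [mem_sphere_zero_iff_norm]
      exact (pi_norm_const (1 : ℝ)).trans (by simp)
    obtain ⟨c₀, hc₀, hmin⟩ := (isCompact_sphere (0 : Fin l → ℝ) 1).exists_isMinOn hne
      NN_cont.continuousOn
    have hc0 : c₀ ≠ 0 := by
      intro h
      rw [mem_sphere_zero_iff_norm, h, norm_zero] at hc₀
      exact zero_ne_one hc₀
    refine ⟨NN c₀, NN_pos hc0, fun c => ?_⟩
    by_cases hc : c = 0
    · rw [hc, norm_zero, mul_zero]
      unfold NN
      apply intervalIntegral.integral_nonneg (by norm_num)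
      intro x _; exact abs_nonneg _
    · have hn : 0 < ‖c‖ := norm_pos_iff.2 hc
      have h1 : NN c₀ ≤ NN (‖c‖⁻¹ • c) := by
        apply hmin
        rw [mem_sphere_zero_iff_norm, norm_smul, norm_inv, norm_norm, inv_mul_cancel₀ hn.ne']
      have h2 : NN (‖c‖⁻¹ • c) = ‖c‖⁻¹ * NN c := by
        unfold NN
        simp only [pc_smul, abs_mul, abs_inv, abs_norm]
        rw [intervalIntegral.integral_const_mul]
      rw [h2, ← div_eq_inv_mul, le_div_iff₀ hn] at h1
      exact h1

/-- the affine family -/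
noncomputable def Qc {l : ℕ} (c : Fin l → ℝ) : ℝ[X] := C ((l : ℝ) + 1) * X ^ l + pc c

lemma Qc_eval {l : ℕ} (c : Fin l → ℝ) (x : ℝ) :
    (Qc c).eval x = ((l : ℝ) + 1) * x ^ l + (pc c).eval x := by
  unfold Qc; simp

lemma root_upper (q t : ℝ) :
    Real.sqrt (1 + (q + t) ^ 2) ≤ Real.sqrt (1 + q ^ 2) + t * gg q + t ^ 2 / 2 := by
  have hr := root_pos q
  have hr1 := one_le_root q
  have hr2 := root_sq q
  unfold gg
  generalize Real.sqrt (1 + q ^ 2) = r at *
  have h1 : Real.sqrt (1 + (q + t) ^ 2) ≤ r + t * (q / r) + t ^ 2 / (2 * r) := by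
    have e : r + t * (q / r) + t ^ 2 / (2 * r) = (2 * r ^ 2 + 2 * t * q + t ^ 2) / (2 * r) := by
      field_simp
    rw [e]
    apply Real.sqrt_le_iff.2
    constructor
    · apply div_nonneg _ (by positivity)
      rw [hr2]; nlinarith [sq_nonneg (q + t), sq_nonneg q]
    · rw [div_pow, le_div_iff₀ (by positivity)]
      have : (2 * r) ^ 2 = 4 * r ^ 2 := by ring
      rw [this, hr2]
      nlinarith [sq_nonneg (2 * t * q + t ^ 2)]
  have h2 : t ^ 2 / (2 * r) ≤ t ^ 2 / 2 := by
    apply div_le_div_of_nonneg_left (sq_nonneg _) (by norm_num)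
    linarith
  linarith

theorem sol_exists (l : ℕ) : ∃ Q, Sol l Q := by
  obtain ⟨m, hm, hN⟩ := NN_lower l
  have hcont : Continuous fun c : Fin l → ℝ => Phi (Qc c) := by
    unfold Phi
    apply intervalIntegral.continuous_parametric_intervalIntegral_of_continuous'
    simp only [Qc_eval, pc_eval]
    apply Continuous.sqrt
    apply Continuous.add continuous_const
    apply Continuous.pow
    apply Continuous.add
    · exact continuous_const.mul (continuous_snd.pow _)
    · apply continuous_finsetSum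
      intro i _
      exact ((continuous_apply i).comp continuous_fst).mul (continuous_snd.pow _)
  have hlow : ∀ c : Fin l → ℝ, m * ‖c‖ + (-(2 * ((l : ℝ) + 1))) ≤ Phi (Qc c) := by
    intro c
    have h1 : NN c ≤ Phi (Qc c) + 2 * ((l : ℝ) + 1) := by
      have e : Phi (Qc c) + 2 * ((l : ℝ) + 1)
          = ∫ x in (-1 : ℝ)..1, (Real.sqrt (1 + (Qc c).eval x ^ 2) + ((l : ℝ) + 1)) := by
        rw [intervalIntegral.integral_add]
        · simp [Phi]; ring
        · apply Continuous.intervalIntegrable; fun_prop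
        · apply Continuous.intervalIntegrable; fun_prop
      rw [e]
      unfold NN
      apply intervalIntegral.integral_mono_on (by norm_num)
      · exact ((pc c).continuous.abs).intervalIntegrable _ _
      · apply Continuous.intervalIntegrable; fun_prop
      · intro x hx
        have h2 : |(Qc c).eval x| ≤ Real.sqrt (1 + (Qc c).eval x ^ 2) := by
          apply Real.abs_le_sqrt; linarith
        have h3 : |((l : ℝ) + 1) * x ^ l| ≤ (l : ℝ) + 1 := by
          rw [abs_mul, abs_pow, abs_of_nonneg (by positivity : (0 : ℝ) ≤ (l : ℝ) + 1)]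
          apply mul_le_of_le_one_right (by positivity)
          exact pow_le_one₀ (abs_nonneg _) (abs_le.2 hx)
        have h4 : (pc c).eval x = (Qc c).eval x - ((l : ℝ) + 1) * x ^ l := by
          rw [Qc_eval]; ring
        rw [h4]
        refine (abs_sub _ _).trans ?_
        linarith
    linarith [hN c]
  have hlim : Filter.Tendsto (fun c : Fin l → ℝ => Phi (Qc c)) (Filter.cocompact _) Filter.atTop := by
    apply Filter.tendsto_atTop_mono hlow
    apply Filter.tendsto_atTop_add_const_right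
    exact (tendsto_norm_cocompact_atTop).const_mul_atTop hm
  obtain ⟨c, hc⟩ := hcont.exists_forall_le hlim
  refine ⟨Qc c, ?_, ?_, ?_⟩
  · unfold Qc
    rw [coeff_add, pc_coeff_ge c l le_rfl, coeff_C_mul, coeff_X_pow, if_pos rfl]; ring
  · intro k hk
    unfold Qc
    rw [coeff_add, pc_coeff_ge c k hk.le, coeff_C_mul, coeff_X_pow, if_neg (by omega)]; ring
  · intro k hk
    set J := ∫ x in (-1 : ℝ)..1, x ^ k * gg ((Qc c).eval x) with hJ
    set e : Fin l → ℝ := Pi.single ⟨k, hk⟩ 1 with he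
    have hpe : ∀ x : ℝ, (pc e).eval x = x ^ k := by
      intro x
      rw [pc_eval, Finset.sum_eq_single ⟨k, hk⟩]
      · rw [he]; simp
      · intro i _ hi; rw [he, Pi.single_eq_of_ne hi]; ring
      · intro h; exact absurd (Finset.mem_univ _) h
    have key : ∀ ε : ℝ, 0 ≤ ε * J + ε ^ 2 := by
      intro ε
      have h1 := hc (c + ε • e)
      have h2 : Phi (Qc (c + ε • e)) ≤ Phi (Qc c) + (ε * J + ε ^ 2) := by
        have c0 : Continuous fun x : ℝ => Real.sqrt (1 + ((Qc c).eval x) ^ 2) := by fun_prop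
        have c1 : Continuous fun x : ℝ => ε * (x ^ k * gg ((Qc c).eval x)) :=
          continuous_const.mul ((continuous_pow k).mul (ggQ_cont _))
        have c3 : Continuous fun _ : ℝ => ε ^ 2 / 2 := by fun_prop
        have c13 : Continuous fun x : ℝ => ε * (x ^ k * gg ((Qc c).eval x)) + ε ^ 2 / 2 := c1.add c3
        have e1 : Phi (Qc c) + (ε * J + ε ^ 2) = ∫ x in (-1 : ℝ)..1,
            (Real.sqrt (1 + ((Qc c).eval x) ^ 2) + (ε * (x ^ k * gg ((Qc c).eval x)) + ε ^ 2 / 2)) := by
          rw [intervalIntegral.integral_add (c0.intervalIntegrable _ _)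
            (c13.intervalIntegrable _ _),
            intervalIntegral.integral_add (c1.intervalIntegrable _ _) (c3.intervalIntegrable _ _),
            intervalIntegral.integral_const_mul, intervalIntegral.integral_const]
          simp only [Phi, smul_eq_mul]
          ring
        rw [e1]
        unfold Phi
        apply intervalIntegral.integral_mono_on (by norm_num)
        · apply Continuous.intervalIntegrable; fun_prop
        · exact (c0.add c13).intervalIntegrable _ _
        · intro x hx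
          have h3 : (Qc (c + ε • e)).eval x = (Qc c).eval x + ε * x ^ k := by
            rw [Qc_eval, Qc_eval, pc_add, pc_smul, hpe]; ring
          rw [h3]
          have h4 := root_upper ((Qc c).eval x) (ε * x ^ k)
          have h5 : (ε * x ^ k) ^ 2 / 2 ≤ ε ^ 2 / 2 := by
            rw [mul_pow]
            have h6 : (x ^ k) ^ 2 ≤ 1 := by
              rw [sq_le_one_iff_abs_le_one, abs_pow]
              exact pow_le_one₀ (abs_nonneg _) (abs_le.2 hx)
            have := mul_le_mul_of_nonneg_left h6 (sq_nonneg ε)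
            linarith
          linarith
      linarith
    have h3 := key (-J / 2)
    nlinarith [sq_nonneg J]

end Pool.Agent.Helper61.ML
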