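import Pool.Agent.Helper61.ML.Cert

set_option autoImplicit false

open Polynomial MeasureTheory intervalIntegral

namespace Pool.Agent.Helper61.ML

lemma roots_of_alt {n : ℕ} {P : ℝ[X]} (hP : P.Monic) (hd : P.natDegree = n) {t : ℕ → ℝ}
    (ht : ∀ i < n, t i < t (i + 1))
    (hs : ∀ i ≤ n, 0 ≤ (-1) ^ (n - i) * P.eval (t i))
    (hs' : ∀ i, 0 < i → i < n → P.eval (t i) ≠ 0) :
    ∃ w : ℕ → ℝ, (∀ i < n - 1, w i < w (i + 1)) ∧
      (∀ i < n, t i ≤ w i ∧ w i ≤ t (i + 1) ∧ P.eval (w i) = 0) ∧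
      P = ∏ i ∈ Finset.range n, (X - C (w i)) := by
  obtain ⟨w, hw⟩ := alt_zeros P.continuous ht hs
  have hstep : ∀ i < n - 1, w i < w (i + 1) := by
    intro i hi
    have h2 := (hw i (by omega)).2.1
    have h3 := (hw (i + 1) (by omega)).1
    apply lt_of_le_of_ne (h2.trans h3)
    intro h
    apply hs' (i + 1) (by omega) (by omega)
    have : t (i + 1) = w i := le_antisymm (by rw [h]; exact h3) h2
    rw [this]; exact (hw i (by omega)).2.2
  have hws := lt_of_step hstep
  have hc : P.coeff n = 1 := by rw [← hd]; exact hP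
  have hpf := prod_form hc (fun m hm => coeff_eq_zero_of_natDegree_lt (by rw [hd]; exact hm))
    (z := w) (fun i hi => (hw i hi).2.2) (fun j hj i hi => hws j (by omega) i hi)
  refine ⟨w, hstep, hw, ?_⟩
  conv_lhs => rw [hpf]
  rw [C_1, one_mul]

/-- the subdivision by the zeros of the Legendre polynomial -/
theorem gen_points {l : ℕ} (hl : 7 ≤ l) {Q P : ℝ[X]} (hQ : Sol l Q) (hP : derivative P = Q)
    (hc : P.eval (-1) = - P.eval 1) :
    ∃ t : ℕ → ℝ, (∀ i < l + 1, t i < t (i + 1)) ∧ t 0 = -1 ∧ t (l + 1) = 1 ∧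
      (∀ i, 0 < i → i < l + 1 → 0 < (-1) ^ (l + 1 - i) * P.eval (t i)) ∧
      (∀ i, 0 < i → i < l + 1 → 0 < (-1) ^ (l + 1 - i) * (P0 l).eval (t i)) ∧
      (∀ i ≤ l, ∀ x, t i < x → x < t (i + 1) → 0 < (-1) ^ (l - i) * (leg l).eval x) := by
  have ha := al_pos l
  have hlam := lam_ge hl
  have hlp : 0 < lam l := by linarith
  obtain ⟨n, rfl⟩ : ∃ n, l = n + 1 := ⟨l - 1, by omega⟩
  obtain ⟨z, hz1, hz2, hz3, hz4⟩ := leg_zeros n
  have hzs := lt_of_step hz1
  set t : ℕ → ℝ := fun i => if i = 0 then -1 else if i ≤ n + 1 then z (i - 1) else 1 with ht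
  have t0 : t 0 = -1 := by simp [ht]
  have ts : ∀ j ≤ n, t (j + 1) = z j := by
    intro j hj
    simp only [ht]
    rw [if_neg (by omega), if_pos (by omega)]
    simp
  have tl : t (n + 1 + 1) = 1 := by
    simp only [ht]
    rw [if_neg (by omega), if_neg (by omega)]
  have hstep : ∀ i < n + 1 + 1, t i < t (i + 1) := by
    intro i hi
    rcases Nat.eq_zero_or_pos i with rfl | hi0
    · rw [t0, ts 0 (by omega)]; exact (hz2 0 (by omega)).1
    · obtain ⟨j, rfl⟩ : ∃ j, i = j + 1 := ⟨i - 1, by omega⟩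
      rw [ts j (by omega)]
      rcases Nat.lt_or_ge j n with h | h
      · rw [ts (j + 1) (by omega)]; exact hz1 j h
      · have : j = n := by omega
        subst this
        rw [tl]; exact (hz2 j le_rfl).2
  have hts := lt_of_step hstep
  have hboth : ∀ i, 0 < i → i < n + 1 + 1 → 0 < (-1) ^ (n + 1 + 1 - i) * P.eval (t i) ∧
      0 < (-1) ^ (n + 1 + 1 - i) * (P0 (n + 1)).eval (t i) := by
    intro i hi0 hi
    obtain ⟨j, rfl⟩ : ∃ j, i = j + 1 := ⟨i - 1, by omega⟩
    have hj : j ≤ n := by omega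
    rw [ts j hj]
    have hzI : z j ∈ Set.Icc (-1 : ℝ) 1 := ⟨(hz2 j hj).1.le, (hz2 j hj).2.le⟩
    have hclose := gen_close hl hQ hP hc hzI
    have hext := leg_ext (n + 1) (by omega) hzI (hz3 j hj)
    have hA := legA n (z j)
    rw [hz3 j hj, mul_zero, sub_zero] at hA
    set y : ℝ := (1 - z j ^ 2) * (leg (n + 1)).derivative.eval (z j) with hy
    have hysgn : 0 < (-1) ^ (n - j) * y := by
      rw [hA]
      have := hz4 j hj
      have e : (-1 : ℝ) ^ (n - j) * (((n : ℝ) + 1) * (leg n).eval (z j))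
          = ((n : ℝ) + 1) * ((-1) ^ (n - j) * (leg n).eval (z j)) := by ring
      rw [e]; positivity
    have hP0 : (P0 (n + 1)).eval (z j) = -(al (n + 1) / lam (n + 1)) * y := by
      unfold P0
      rw [eval_mul, eval_C, eval_mul]
      simp only [eval_sub, eval_one, eval_pow, eval_X]
      rw [hy]
    have e1 : n + 1 + 1 - (j + 1) = (n - j) + 1 := by omega
    rw [e1, pow_succ]
    set s : ℝ := (-1) ^ (n - j) with hs
    have hs2 : s * s = 1 := by rw [hs, ← mul_pow]; norm_num
    set W : ℝ := P.eval (z j) - (P0 (n + 1)).eval (z j) with hW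
    have h8 : 0 < (al (n + 1) / lam (n + 1)) * (s * y) := by positivity
    refine ⟨?_, ?_⟩
    · have e2 : s * -1 * P.eval (z j) = (al (n + 1) / lam (n + 1)) * (s * y) - s * W := by
        rw [hW, hP0]; ring
      rw [e2]
      have hW2 : (s * W) ^ 2 < ((al (n + 1) / lam (n + 1)) * (s * y)) ^ 2 := by
        have e3 : (s * W) ^ 2 = W ^ 2 := by
          have : (s * W) ^ 2 = (s * s) * W ^ 2 := by ring
          rw [this, hs2, one_mul]
        have e4 : ((al (n + 1) / lam (n + 1)) * (s * y)) ^ 2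
            = (al (n + 1) / lam (n + 1)) ^ 2 * y ^ 2 := by
          have : ((al (n + 1) / lam (n + 1)) * (s * y)) ^ 2
            = (s * s) * ((al (n + 1) / lam (n + 1)) ^ 2 * y ^ 2) := by ring
          rw [this, hs2, one_mul]
        rw [e3, e4]
        refine lt_of_le_of_lt hclose ?_
        have h1 := al_sq_le hl
        have h2 := K2_le hl
        have hK := K2_one (n + 1)
        have hl7 : (7 : ℝ) ≤ ((n + 1 : ℕ) : ℝ) := by exact_mod_cast hl
        have h3 : K2 (n + 1) ^ 2 ≤ 17 / 10 := by nlinarith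
        have h4 : (al (n + 1) ^ 2 * lam (n + 1)) ^ 2 * K2 (n + 1) ^ 2 ≤ 5 ^ 2 * (17 / 10) := by
          apply mul_le_mul _ h3 (by positivity) (by positivity)
          exact pow_le_pow_left₀ (by positivity) h1 2
        have e5 : K2 (n + 1) ^ 2 * (al (n + 1) ^ 6 / (4 * (2 * ((n + 1 : ℕ) : ℝ) + 1)))
            = (al (n + 1) / lam (n + 1)) ^ 2 * ((al (n + 1) ^ 2 * lam (n + 1)) ^ 2 * K2 (n + 1) ^ 2
              * (1 / (4 * (2 * ((n + 1 : ℕ) : ℝ) + 1)))) := by
          field_simp
        rw [e5]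
        apply mul_lt_mul_of_pos_left _ (by positivity)
        have h5 : 1 / (4 * (2 * ((n + 1 : ℕ) : ℝ) + 1)) ≤ 1 / 60 := by
          apply div_le_div_of_nonneg_left (by norm_num) (by norm_num)
          linarith
        have h6 : (al (n + 1) ^ 2 * lam (n + 1)) ^ 2 * K2 (n + 1) ^ 2
              * (1 / (4 * (2 * ((n + 1 : ℕ) : ℝ) + 1))) ≤ (5 ^ 2 * (17 / 10)) * (1 / 60) :=
          mul_le_mul h4 h5 (by positivity) (by norm_num)
        have h7 : 2 / (3 * lam (n + 1)) ≤ 2 / (3 * 56) := by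
          apply div_le_div_of_nonneg_left (by norm_num) (by norm_num)
          linarith
        refine lt_of_le_of_lt h6 (lt_of_lt_of_le ?_ hext)
        norm_num at h7 ⊢
        linarith
      have h9 := abs_lt_of_sq_lt_sq hW2 h8.le
      linarith [(abs_lt.1 h9).2]
    · rw [hP0]
      have e2 : s * -1 * (-(al (n + 1) / lam (n + 1)) * y)
          = (al (n + 1) / lam (n + 1)) * (s * y) := by ring
      rw [e2]; exact h8
  refine ⟨t, hstep, t0, tl, fun i h1 h2 => (hboth i h1 h2).1, fun i h1 h2 => (hboth i h1 h2).2, ?_⟩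
  intro i hi x hx1 hx2
  have hpf := prod_form (leg_coeff (n + 1)) (leg_coeff_gt (n + 1)) (z := z)
    (fun j hj => hz3 j (by omega)) (fun j hj i hi => hzs j (by omega) i hi)
  have hsp := sign_prod (z := z) (x := x) (i := i) (fun j hj => by
      have h2 : z j ≤ t i := by
        rw [← ts j (by omega)]
        rcases Nat.lt_or_ge (j + 1) i with h | h
        · exact (hts i (by omega) (j + 1) h).le
        · have : j + 1 = i := by omega
          rw [this]
      linarith) (n + 1) hi (fun j hj hj2 => by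
      have h2 : t (i + 1) ≤ z j := by
        rw [← ts j (by omega)]
        rcases Nat.lt_or_ge i j with h | h
        · exact (hts (j + 1) (by omega) (i + 1) (by omega)).le
        · have : j = i := by omega
          rw [this]
      linarith)
  have he : (leg (n + 1)).eval x = kk (n + 1) * ∏ j ∈ Finset.range (n + 1), (x - z j) := by
    conv_lhs => rw [hpf]
    rw [eval_mul, eval_C, eval_prod]
    simp
  rw [he]
  have := kk_pos (n + 1)
  have e3 : (-1 : ℝ) ^ (n + 1 - i) * (kk (n + 1) * ∏ j ∈ Finset.range (n + 1), (x - z j))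
      = kk (n + 1) * ((-1) ^ (n + 1 - i) * ∏ j ∈ Finset.range (n + 1), (x - z j)) := by ring
  rw [e3]
  exact mul_pos this hsp

/-! ### lower bound of `|P_l|` at its critical points -/

lemma leg_zero_sq (m : ℕ) (hm : 1 ≤ m) : 1 / (4 * (m : ℝ)) ≤ (leg (2 * m)).eval 0 ^ 2 := by
  induction m, hm using Nat.le_induction with
  | base =>
    have h := rec_eval 0 0
    simp [leg_zero] at h
    have h2 : (leg 2).eval (0 : ℝ) = -1 / 2 := by linarith
    rw [show 2 * 1 = 2 from rfl, h2]; norm_num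
  | succ m hm ih =>
    have h := rec_eval (2 * m) 0
    have hm1 : (1 : ℝ) ≤ m := by exact_mod_cast hm
    push_cast at h
    have h2 : (leg (2 * (m + 1))).eval (0 : ℝ)
        = -((2 * (m : ℝ) + 1) / (2 * (m : ℝ) + 2) * (leg (2 * m)).eval 0) := by
      have e : 2 * (m + 1) = 2 * m + 2 := by ring
      rw [e]
      field_simp
      linarith
    rw [h2, neg_sq, mul_pow]
    have h3 : ((2 * (m : ℝ) + 1) / (2 * (m : ℝ) + 2)) ^ 2 * (1 / (4 * (m : ℝ)))
        ≤ ((2 * (m : ℝ) + 1) / (2 * (m : ℝ) + 2)) ^ 2 * (leg (2 * m)).eval 0 ^ 2 :=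
      mul_le_mul_of_nonneg_left ih (sq_nonneg _)
    refine le_trans ?_ h3
    rw [div_pow, div_mul_div_comm, div_le_div_iff₀ (by positivity) (by positivity)]
    push_cast
    nlinarith [mul_nonneg (sub_nonneg.2 hm1) (sub_nonneg.2 hm1)]

lemma Phi0_lower (l : ℕ) (hl : 2 ≤ l) :
    ((l : ℝ) + 1) / 2 ≤ lam l * (leg l).eval 0 ^ 2 + (leg l).derivative.eval 0 ^ 2 := by
  rcases Nat.even_or_odd' l with ⟨m, rfl | rfl⟩
  · have h := leg_zero_sq m (by omega)
    have hm1 : (1 : ℝ) ≤ m := by
      have : 1 ≤ m := by omega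
      exact_mod_cast this
    have h1 : 0 ≤ (leg (2 * m)).derivative.eval 0 ^ 2 := sq_nonneg _
    have h2 : lam (2 * m) * (1 / (4 * (m : ℝ))) ≤ lam (2 * m) * (leg (2 * m)).eval 0 ^ 2 := by
      apply mul_le_mul_of_nonneg_left h
      unfold lam; positivity
    have e : lam (2 * m) * (1 / (4 * (m : ℝ))) = (((2 * m : ℕ) : ℝ) + 1) / 2 := by
      unfold lam; push_cast; field_simp; ring
    linarith
  · have h := leg_zero_sq m (by omega)
    have hm1 : (1 : ℝ) ≤ m := by
      have : 1 ≤ m := by omega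
      exact_mod_cast this
    have hA := legA (2 * m) 0
    push_cast at hA
    have h1 : (leg (2 * m + 1)).derivative.eval 0 = (2 * (m : ℝ) + 1) * (leg (2 * m)).eval 0 := by
      linarith
    rw [h1, mul_pow]
    have h2 : 0 ≤ lam (2 * m + 1) * (leg (2 * m + 1)).eval 0 ^ 2 := by
      unfold lam; positivity
    have h3 : (2 * (m : ℝ) + 1) ^ 2 * (1 / (4 * (m : ℝ))) ≤ (2 * (m : ℝ) + 1) ^ 2 * (leg (2 * m)).eval 0 ^ 2 :=
      mul_le_mul_of_nonneg_left h (sq_nonneg _)
    have h4 : (((2 * m + 1 : ℕ) : ℝ) + 1) / 2 ≤ (2 * (m : ℝ) + 1) ^ 2 * (1 / (4 * (m : ℝ))) := by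
      push_cast
      rw [mul_one_div, le_div_iff₀ (by positivity)]
      nlinarith
    linarith

lemma crit_lower (l : ℕ) (hl : 2 ≤ l) {w : ℝ} (hw : w ∈ Set.Icc (-1 : ℝ) 1)
    (h0 : (1 - w ^ 2) * (leg l).derivative.eval w = 0) :
    1 / (2 * (l : ℝ)) ≤ (leg l).eval w ^ 2 := by
  have hl2 : (2 : ℝ) ≤ l := by exact_mod_cast hl
  have hlp : 0 < lam l := by unfold lam; positivity
  have key : ∀ z : ℝ, 0 ≤ z → z ≤ 1 → (1 - z ^ 2) * (leg l).derivative.eval z = 0 →
      1 / (2 * (l : ℝ)) ≤ (leg l).eval z ^ 2 := by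
    intro z hz0 hz1 hz
    set F : ℝ[X] := C (lam l) * leg l ^ 2 + (1 - X ^ 2) * (leg l).derivative ^ 2 with hF
    have hm : MonotoneOn (fun x => F.eval x) (Set.Icc 0 1) := by
      apply mono_of_deriv
      intro y hy
      have ho := leg_ode l y
      unfold dd at ho
      have e : F.derivative.eval y = 2 * y * (leg l).derivative.eval y ^ 2 := by
        rw [hF]
        simp only [derivative_mul, derivative_add, derivative_sub, derivative_one, derivative_X_pow,
          derivative_C, derivative_pow, eval_mul, eval_sub, eval_add, eval_one, eval_pow, eval_X,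
          eval_C, Nat.cast_ofNat, zero_mul, zero_add]
        norm_num
        unfold lam
        linear_combination (2 * (leg l).derivative.eval y) * ho
      rw [e]
      have := hy.1
      positivity
    have h := hm ⟨le_refl 0, zero_le_one⟩ ⟨hz0, hz1⟩ hz0
    simp only [hF, eval_add, eval_mul, eval_C, eval_pow, eval_sub, eval_one, eval_X] at h
    have h1 := Phi0_lower l hl
    have h2 : (1 - z ^ 2) * (leg l).derivative.eval z ^ 2 = 0 := by
      rw [sq ((leg l).derivative.eval z), ← mul_assoc, hz, zero_mul]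
    rw [h2] at h
    have h3 : ((l : ℝ) + 1) / 2 ≤ lam l * (leg l).eval z ^ 2 := by
      norm_num at h
      linarith
    rw [div_le_iff₀ (by positivity)]
    unfold lam at h3
    have h4 : ((l : ℝ) + 1) * 1 ≤ ((l : ℝ) + 1) * ((leg l).eval z ^ 2 * (2 * (l : ℝ))) := by nlinarith
    exact le_of_mul_le_mul_left h4 (by positivity)
  rcases le_total 0 w with h | h
  · exact key w h hw.2 h0
  · have h1 := key (-w) (by linarith) (by linarith [hw.1]) (by
      have h9 : (leg l).comp (-X) = C ((-1 : ℝ) ^ l) * leg l := by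
        apply Polynomial.funext
        intro y
        simp only [eval_comp, eval_neg, eval_X, eval_mul, eval_C]
        exact leg_parity l y
      have h10 := congrArg (fun p => (derivative p).eval w) h9
      simp only [derivative_comp, derivative_neg, derivative_X, derivative_mul, derivative_C,
        zero_mul, zero_add, eval_mul, eval_neg, eval_one, eval_comp, eval_X, eval_C] at h10
      have h11 : (leg l).derivative.eval (-w) = -((-1) ^ l * (leg l).derivative.eval w) := by
        linarith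
      rw [h11, neg_sq]
      linear_combination (-(-1 : ℝ) ^ l) * h0)
    rw [leg_parity, mul_pow, ← pow_mul, mul_comm l 2, pow_mul] at h1
    norm_num at h1 ⊢
    exact h1

lemma leg_lip (l : ℕ) {x y : ℝ} (hx : x ∈ Set.Icc (-1 : ℝ) 1) (hy : y ∈ Set.Icc (-1 : ℝ) 1) :
    |(leg l).eval x - (leg l).eval y| ≤ lam l / 2 * |x - y| := by
  have h := (convex_Icc (-1 : ℝ) 1).norm_image_sub_le_of_norm_hasDerivWithin_le
    (f := fun x => (leg l).eval x) (f' := fun x => (leg l).derivative.eval x)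
    (C := lam l / 2) (fun x _ => ((leg l).hasDerivAt x).hasDerivWithinAt) (fun x hx => by
      rw [Real.norm_eq_abs]; exact (legd_le l hx).1) hy hx
  simpa [Real.norm_eq_abs] using h

lemma be_l_anti (l : ℕ) (hl : 10 ≤ l) :
    al (l + 1) ^ 2 * lam (l + 1) * ((l : ℝ) + 1) ≤ al l ^ 2 * lam l * l := by
  have hl' : (10 : ℝ) ≤ l := by exact_mod_cast hl
  rw [al_succ, mul_pow, mul_assoc, mul_assoc, mul_assoc (al l ^ 2)]
  apply mul_le_mul_of_nonneg_left _ (sq_nonneg _)
  rw [div_pow, div_mul_eq_mul_div, div_le_iff₀ (by positivity)]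
  unfold lam
  push_cast
  have h1 : ((l : ℝ) + 2) ^ 3 * ((l : ℝ) + 1) ≤ (l : ℝ) ^ 2 * (2 * (l : ℝ) + 1) ^ 2 := by
    obtain ⟨d, hd⟩ : ∃ d : ℝ, (l : ℝ) = d + 10 := ⟨(l : ℝ) - 10, by ring⟩
    have hd0 : 0 ≤ d := by linarith
    rw [hd]
    nlinarith [pow_nonneg hd0 2, pow_nonneg hd0 3, pow_nonneg hd0 4]
  nlinarith [mul_le_mul_of_nonneg_left h1 (by positivity : (0 : ℝ) ≤ (l : ℝ) + 1)]

lemma be_l_le {l : ℕ} (hl : 10 ≤ l) : al l ^ 2 * lam l * l ≤ 41 / 10 := by
  induction l, hl using Nat.le_induction with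
  | base => rw [al_ten]; unfold lam; norm_num
  | succ l hl ih =>
    have := be_l_anti l hl
    push_cast
    linarith

lemma K2_le' {l : ℕ} (hl : 10 ≤ l) : K2 l ≤ 103 / 100 := by
  have h10' : (10 : ℝ) ≤ l := by exact_mod_cast hl
  have hβ : al l ^ 2 * lam l ≤ 1 / 2 := by
    refine (be_le (by norm_num) hl).trans ?_
    rw [al_ten]; unfold lam; norm_num
  have hlam : 110 ≤ lam l := by unfold lam; nlinarith
  have ha2 : al l ^ 2 ≤ 1 / 220 := by
    have h3 : al l ^ 2 * 110 ≤ al l ^ 2 * lam l := mul_le_mul_of_nonneg_left hlam (sq_nonneg _)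
    linarith
  unfold K2
  calc (1 + 25 / 16 * al l ^ 2) ^ 2 ≤ (1 + 25 / 16 * (1 / 220)) ^ 2 := by
        apply pow_le_pow_left₀ (by positivity); linarith
    _ ≤ _ := by norm_num

/-- the zeros of the extremal polynomial are close to those of `(1-x²) P_l'` -/
theorem zeros_close {l : ℕ} (hl : 10 ≤ l) {Q P : ℝ[X]} (hQ : Sol l Q) (hP : derivative P = Q)
    (hc : P.eval (-1) = - P.eval 1) (hP1 : 0 ≤ P.eval 1) (hP2 : 0 ≤ (-1) ^ (l + 1) * P.eval (-1)) :
    Close l P := by
  have hl7 : 7 ≤ l := by omega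
  have ha := al_pos l
  obtain ⟨t, ht, t0, tl, hsP, hs0, hsL⟩ := gen_points hl7 hQ hP hc
  have hts := lt_of_step ht
  obtain ⟨hm, hd⟩ := monic_of_sol hQ hP
  obtain ⟨hm0, hd0⟩ := monic_of_coeff (Q0_coeff l) (P0_deriv (l := l) (by omega))
  have hne : ∀ F : ℝ[X], (∀ i, 0 < i → i < l + 1 → 0 < (-1) ^ (l + 1 - i) * F.eval (t i)) →
      ∀ i, 0 < i → i < l + 1 → F.eval (t i) ≠ 0 := by
    intro F hF i hi0 hi h
    have := hF i hi0 hi
    rw [h, mul_zero] at this
    exact lt_irrefl _ this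
  obtain ⟨x, hx1, hx2, hx3⟩ := roots_of_alt hm hd ht (by
    intro i hi
    rcases Nat.eq_zero_or_pos i with rfl | hi0
    · rw [t0, Nat.sub_zero]; exact hP2
    · rcases Nat.lt_or_ge i (l + 1) with h | h
      · exact (hsP i hi0 h).le
      · have : i = l + 1 := by omega
        subst this
        rw [Nat.sub_self, pow_zero, one_mul, tl]; exact hP1) (hne P hsP)
  obtain ⟨w, hw1, hw2, hw3⟩ := roots_of_alt hm0 hd0 ht (by
    intro i hi
    rcases Nat.eq_zero_or_pos i with rfl | hi0
    · rw [t0, (P0_end l).2, mul_zero]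
    · rcases Nat.lt_or_ge i (l + 1) with h | h
      · exact (hs0 i hi0 h).le
      · have : i = l + 1 := by omega
        subst this
        rw [tl, (P0_end l).1, mul_zero]) (hne (P0 l) hs0)
  have htiA : ∀ i ≤ l, -1 ≤ t i := by
    intro i hi
    rcases Nat.eq_zero_or_pos i with rfl | hi0
    · rw [t0]
    · rw [← t0]; exact (hts i (by omega) 0 hi0).le
  have htiB : ∀ i ≤ l, t (i + 1) ≤ 1 := by
    intro i hi
    rcases Nat.lt_or_ge i l with h | h
    · rw [← tl]; exact (hts (l + 1) le_rfl (i + 1) (by omega)).le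
    · have : i = l := by omega
      rw [this, tl]
  refine ⟨x, w, fun i hi => hx1 i (by omega), fun i hi => hw1 i (by omega), fun i hi =>
    ⟨(htiA i hi).trans (hx2 i (by omega)).1, (hx2 i (by omega)).2.1.trans (htiB i hi)⟩,
    hx3, hw3, ?_⟩
  intro i hi
  obtain ⟨hxa, hxb, hx0⟩ := hx2 i (by omega)
  obtain ⟨hwa, hwb, hw0⟩ := hw2 i (by omega)
  have hti := htiA i hi
  have hti1 := htiB i hi
  have hxI : x i ∈ Set.Icc (-1 : ℝ) 1 := ⟨by linarith, by linarith⟩
  have hwI : w i ∈ Set.Icc (-1 : ℝ) 1 := ⟨by linarith, by linarith⟩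
  -- constants
  have hl10 : (10 : ℝ) ≤ l := by exact_mod_cast hl
  have hlp : 0 < lam l := by unfold lam; positivity
  have hK := K2_one l
  have hK' := K2_le' hl
  set c : ℝ := Real.sqrt (1 / (2 * (l : ℝ))) with hcdef
  have hc0 : 0 < c := Real.sqrt_pos.2 (by positivity)
  have hc2 : c ^ 2 = 1 / (2 * (l : ℝ)) := Real.sq_sqrt (by positivity)
  set β : ℝ := al l ^ 2 * lam l with hβdef
  have hβ0 : 0 < β := by rw [hβdef]; positivity
  have hβl : β * l ≤ 41 / 10 := be_l_le hl
  have hβc : β ≤ 192 / 100 * c := by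
    apply abs_le_of_sq_le_sq' _ (by positivity) |>.2
    have ee : (192 / 100 * c) ^ 2 = (192 / 100) ^ 2 * c ^ 2 := by ring
    rw [ee, hc2, mul_one_div, le_div_iff₀ (by positivity)]
    have h1 : (β * l) * (β * l) ≤ (41 / 10) * (41 / 10) :=
      mul_le_mul hβl hβl (by positivity) (by norm_num)
    have h2 : β ^ 2 * (2 * (l : ℝ)) * l ≤ (192 / 100) ^ 2 * l := by nlinarith
    exact le_of_mul_le_mul_right h2 (by linarith)
  set h : ℝ := al l ^ 2 with hh
  have hh0 : 0 < h := by rw [hh]; positivity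
  -- the bound at the zero of `P`
  have hclose := gen_close hl7 hQ hP hc hxI
  rw [hx0, zero_sub, neg_sq] at hclose
  -- the key gap
  have hgap : K2 l ^ 2 * (al l ^ 6 / (4 * (2 * (l : ℝ) + 1)))
      < (al l * (c * h - lam l * h ^ 2 / 4)) ^ 2 := by
    have e1 : al l * (c * h - lam l * h ^ 2 / 4) = al l ^ 3 * (c - β / 4) := by
      rw [hβdef, hh]; ring
    rw [e1, mul_pow]
    have h1 : 52 / 100 * c ≤ c - β / 4 := by linarith
    have h2 : (52 / 100 * c) ^ 2 ≤ (c - β / 4) ^ 2 := pow_le_pow_left₀ (by positivity) h1 2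
    have e2 : K2 l ^ 2 * (al l ^ 6 / (4 * (2 * (l : ℝ) + 1)))
        = (al l ^ 3) ^ 2 * (K2 l ^ 2 / (4 * (2 * (l : ℝ) + 1))) := by field_simp
    rw [e2]
    apply mul_lt_mul_of_pos_left _ (by positivity)
    refine lt_of_lt_of_le ?_ h2
    rw [mul_pow, hc2, mul_one_div, div_lt_div_iff₀ (by positivity) (by positivity)]
    have h3 : K2 l ^ 2 ≤ (103 / 100) ^ 2 := pow_le_pow_left₀ (by linarith) hK' 2
    nlinarith
  have hpos : 0 < c * h - lam l * h ^ 2 / 4 := by
    have e1 : c * h - lam l * h ^ 2 / 4 = h * (c - β / 4) := by rw [hβdef, hh]; ring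
    rw [e1]
    apply mul_pos hh0; linarith
  have hgap' : |(P0 l).eval (x i)| < al l * (c * h - lam l * h ^ 2 / 4) :=
    abs_lt_of_sq_lt_sq (lt_of_le_of_lt hclose hgap) (by positivity)
  -- sign
  set s : ℝ := (-1) ^ (l - i) with hs
  have hss : s * s = 1 := by rw [hs, ← mul_pow]; norm_num
  have hsabs : |s| = 1 := by rw [hs, abs_pow, abs_neg, abs_one, one_pow]
  have hsgn : ∀ y ∈ Set.Icc (t i) (t (i + 1)), 0 ≤ s * (leg l).eval y := by
    have hcl : Set.Icc (t i) (t (i + 1)) = closure (Set.Ioo (t i) (t (i + 1))) :=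
      (closure_Ioo (ht i (by omega)).ne).symm
    rw [hcl]
    have hcl2 : IsClosed {y : ℝ | 0 ≤ s * (leg l).eval y} :=
      isClosed_le continuous_const (continuous_const.mul (leg l).continuous)
    have hsub : Set.Ioo (t i) (t (i + 1)) ⊆ {y : ℝ | 0 ≤ s * (leg l).eval y} := by
      intro y hy
      exact (hsL i hi y hy.1 hy.2).le
    exact fun y hy => hcl2.closure_subset_iff.2 hsub hy
  have hmono : MonotoneOn (fun y => (C s * P0 l).eval y) (Set.Icc (t i) (t (i + 1))) := by
    apply mono_of_deriv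
    intro y hy
    rw [derivative_C_mul, P0_deriv (by omega), eval_mul, eval_C]
    unfold Q0
    rw [eval_mul, eval_C]
    have := hsgn y hy
    nlinarith
  simp only [eval_mul, eval_C] at hmono
  have hP0w : (1 - w i ^ 2) * (leg l).derivative.eval (w i) = 0 := by
    unfold P0 at hw0
    rw [eval_mul, eval_C, eval_mul] at hw0
    simp only [eval_sub, eval_one, eval_pow, eval_X] at hw0
    rcases mul_eq_zero.1 hw0 with h1 | h1
    · exfalso
      have : 0 < al l / lam l := by positivity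
      linarith
    · exact h1
  have hcw : c ≤ s * (leg l).eval (w i) := by
    have h1 := crit_lower l (by omega) hwI hP0w
    have h2 := hsgn (w i) ⟨hwa, hwb⟩
    have h3 : c ^ 2 ≤ (s * (leg l).eval (w i)) ^ 2 := by
      rw [hc2]
      have : (s * (leg l).eval (w i)) ^ 2 = (s * s) * (leg l).eval (w i) ^ 2 := by ring
      rw [this, hss, one_mul]; exact h1
    exact (abs_le_of_sq_le_sq' h3 h2).2
  have hlow : ∀ y ∈ Set.Icc (-1 : ℝ) 1, c - lam l / 2 * |y - w i| ≤ s * (leg l).eval y := by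
    intro y hy
    have h1 := leg_lip l hy hwI
    have h2 : |s * (leg l).eval y - s * (leg l).eval (w i)| ≤ lam l / 2 * |y - w i| := by
      rw [← mul_sub, abs_mul, hsabs, one_mul]; exact h1
    linarith [(abs_le.1 h2).1]
  have hsx : |s * (P0 l).eval (x i)| < al l * (c * h - lam l * h ^ 2 / 4) := by
    rw [abs_mul, hsabs, one_mul]; exact hgap'
  by_contra hcon
  push Not at hcon
  rcases lt_or_ge (w i) (x i) with hlt | hge
  · -- `x > w + h`
    rw [abs_of_pos (by linarith)] at hcon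
    have h1 : MonotoneOn (fun y => (C s * P0 l - C (al l) * (C c * (X - C (w i))
        - C (lam l / 4) * (X - C (w i)) ^ 2)).eval y) (Set.Icc (w i) (w i + h)) := by
      apply mono_of_deriv
      intro y hy
      have hyI : y ∈ Set.Icc (-1 : ℝ) 1 := ⟨by linarith [hy.1, hwI.1], by linarith [hy.2, hxI.2]⟩
      have h2 := hlow y hyI
      rw [abs_of_nonneg (by linarith [hy.1])] at h2
      simp only [derivative_sub, derivative_C_mul, P0_deriv (l := l) (by omega), derivative_X, derivative_C,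
        derivative_pow, eval_sub, eval_mul, eval_C, eval_X, eval_one, eval_pow, sub_zero,
        Nat.cast_ofNat, derivative_X_sub_C]
      unfold Q0
      rw [eval_mul, eval_C]
      norm_num
      have e : s * (al l * (leg l).eval y) = al l * (s * (leg l).eval y) := by ring
      nlinarith
    have h2 := h1 (⟨le_rfl, by linarith⟩ : w i ∈ Set.Icc (w i) (w i + h))
      (⟨by linarith, le_rfl⟩ : w i + h ∈ Set.Icc (w i) (w i + h)) (by linarith)
    simp only [eval_sub, eval_mul, eval_C, eval_X, eval_pow, sub_self, hw0] at h2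
    have h3 := hmono (⟨by linarith, by linarith⟩ : w i + h ∈ Set.Icc (t i) (t (i + 1)))
      (⟨hxa, hxb⟩ : x i ∈ Set.Icc (t i) (t (i + 1))) (by linarith)
    simp only at h3
    have h4 := (abs_lt.1 hsx).2
    have e : w i + h - w i = h := by ring
    rw [e] at h2
    nlinarith
  · -- `x < w - h`
    rw [abs_of_nonpos (by linarith)] at hcon
    have h1 : MonotoneOn (fun y => (C s * P0 l - C (al l) * (C c * (X - C (w i))
        + C (lam l / 4) * (X - C (w i)) ^ 2)).eval y) (Set.Icc (w i - h) (w i)) := by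
      apply mono_of_deriv
      intro y hy
      have hyI : y ∈ Set.Icc (-1 : ℝ) 1 := ⟨by linarith [hy.1, hxI.1], by linarith [hy.2, hwI.2]⟩
      have h2 := hlow y hyI
      rw [abs_of_nonpos (by linarith [hy.2])] at h2
      simp only [derivative_sub, derivative_add, derivative_C_mul, P0_deriv (l := l) (by omega), derivative_X,
        derivative_C, derivative_pow, eval_sub, eval_add, eval_mul, eval_C, eval_X, eval_one, eval_pow,
        sub_zero, Nat.cast_ofNat, derivative_X_sub_C]
      unfold Q0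
      rw [eval_mul, eval_C]
      norm_num
      have e : s * (al l * (leg l).eval y) = al l * (s * (leg l).eval y) := by ring
      nlinarith
    have h2 := h1 (⟨le_rfl, by linarith⟩ : w i - h ∈ Set.Icc (w i - h) (w i))
      (⟨by linarith, le_rfl⟩ : w i ∈ Set.Icc (w i - h) (w i)) (by linarith)
    simp only [eval_sub, eval_add, eval_mul, eval_C, eval_X, eval_pow, sub_self, hw0] at h2
    have h3 := hmono (⟨hxa, hxb⟩ : x i ∈ Set.Icc (t i) (t (i + 1)))
      (⟨by linarith, by linarith⟩ : w i - h ∈ Set.Icc (t i) (t (i + 1))) (by linarith)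
    simp only at h3
    have h4 := (abs_lt.1 hsx).1
    have e : w i - h - w i = -h := by ring
    rw [e] at h2
    nlinarith

end Pool.Agent.Helper61.ML
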